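import Pool.Agent.Lib.MP_743d1e_nt.GA.Spec

/-!
# CEL: a critical point in a bounded cell
-/

set_option autoImplicit false

namespace MP743d1e.GA

open scoped BigOperators
open Polynomial Set

namespace CELM

variable (D : Gr)

/-! ### the function -/

theorem cont_b (j : Fin D.n) : Continuous fun x : ℝ => D.b j x := by
  unfold Gr.b
  exact Polynomial.continuous_aeval _

/-- the product -/
noncomputable def F (x y : ℝ) : ℝ := (∏ i, (x - (D.a i : ℝ))) * ∏ j, (y - D.b j x)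

theorem cont_F : Continuous fun p : ℝ × ℝ => F D p.1 p.2 := by
  unfold F
  refine Continuous.mul ?_ ?_
  · exact continuous_finsetProd _ fun i _ => continuous_fst.sub continuous_const
  · exact continuous_finsetProd _ fun j _ => continuous_snd.sub ((cont_b D j).comp continuous_fst)

variable {D}

theorem F_ne {x y : ℝ} (h : F D x y ≠ 0) :
    (∀ i, x - (D.a i : ℝ) ≠ 0) ∧ ∀ j, y - D.b j x ≠ 0 := by
  unfold F at h
  have h1 := left_ne_zero_of_mul h
  have h2 := right_ne_zero_of_mul h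
  exact ⟨fun i => Finset.prod_ne_zero_iff.1 h1 i (Finset.mem_univ i),
    fun j => Finset.prod_ne_zero_iff.1 h2 j (Finset.mem_univ j)⟩

theorem F_zero_a {x y : ℝ} (i : Fin D.m) (h : x = (D.a i : ℝ)) : F D x y = 0 := by
  unfold F
  rw [Finset.prod_eq_zero (Finset.mem_univ i) (by rw [h, sub_self]), zero_mul]

theorem F_zero_b {x y : ℝ} (j : Fin D.n) (h : y = D.b j x) : F D x y = 0 := by
  unfold F
  rw [Finset.prod_eq_zero (Finset.mem_univ j) (by rw [h, sub_self]), mul_zero]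

/-- derivative of a product of nonzero functions -/
theorem hasDerivAt_prod {ι : Type} (s : Finset ι) (f : ι → ℝ → ℝ) (f' : ι → ℝ) (x : ℝ)
    (h : ∀ i ∈ s, HasDerivAt (f i) (f' i) x) (h0 : ∀ i ∈ s, f i x ≠ 0) :
    HasDerivAt (fun t => ∏ i ∈ s, f i t) ((∏ i ∈ s, f i x) * ∑ i ∈ s, f' i / f i x) x := by
  classical
  induction s using Finset.induction_on with
  | empty =>
    simp only [Finset.prod_empty, Finset.sum_empty, mul_zero]
    exact hasDerivAt_const x 1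
  | insert a s ha ih =>
    have h1 := ih (fun i hi => h i (Finset.mem_insert_of_mem hi))
      (fun i hi => h0 i (Finset.mem_insert_of_mem hi))
    have h2 := (h a (Finset.mem_insert_self a s)).mul h1
    have h3 := h0 a (Finset.mem_insert_self a s)
    have e : (fun t => ∏ i ∈ insert a s, f i t) = fun t => f a t * ∏ i ∈ s, f i t := by
      funext t
      rw [Finset.prod_insert ha]
    rw [e]
    refine h2.congr_deriv ?_
    rw [Finset.prod_insert ha, Finset.sum_insert ha]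
    field_simp

theorem deriv_b (j : Fin D.n) (x : ℝ) :
    HasDerivAt (fun t : ℝ => D.b j t) (aeval x (derivative (D.P j))) x := by
  unfold Gr.b
  exact (D.P j).hasDerivAt_aeval x

theorem F_y {x y : ℝ} (h : F D x y ≠ 0) :
    HasDerivAt (fun t => F D x t) (F D x y * ∑ j, (y - D.b j x)⁻¹) y := by
  obtain ⟨-, h2⟩ := F_ne h
  have h3 := hasDerivAt_prod (Finset.univ : Finset (Fin D.n)) (fun j t => t - D.b j x)
    (fun _ => 1) y (fun j _ => (hasDerivAt_id y).sub_const _) (fun j _ => h2 j)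
  have h4 := h3.const_mul (∏ i, (x - (D.a i : ℝ)))
  refine h4.congr_deriv ?_
  unfold F
  rw [mul_assoc]
  congr 2
  exact Finset.sum_congr rfl fun j _ => by rw [one_div]

theorem F_x {x y : ℝ} (h : F D x y ≠ 0) :
    HasDerivAt (fun t => F D t y) (F D x y * ((∑ i, (x - (D.a i : ℝ))⁻¹) -
      ∑ j, aeval x (derivative (D.P j)) * (y - D.b j x)⁻¹)) x := by
  obtain ⟨h1, h2⟩ := F_ne h
  have h3 := hasDerivAt_prod (Finset.univ : Finset (Fin D.m)) (fun i t => t - (D.a i : ℝ))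
    (fun _ => 1) x (fun j _ => (hasDerivAt_id x).sub_const _) (fun j _ => h1 j)
  have h4 := hasDerivAt_prod (Finset.univ : Finset (Fin D.n)) (fun j t => y - D.b j t)
    (fun j => -aeval x (derivative (D.P j))) x (fun j _ => (deriv_b j x).const_sub y)
    (fun j _ => h2 j)
  refine (h3.mul h4).congr_deriv ?_
  unfold F
  have e1 : ∑ i : Fin D.m, 1 / (x - (D.a i : ℝ)) = ∑ i, (x - (D.a i : ℝ))⁻¹ :=
    Finset.sum_congr rfl fun j _ => by rw [one_div]
  have e2 : ∑ j, -aeval x (derivative (D.P j)) / (y - D.b j x) =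
      -∑ j, aeval x (derivative (D.P j)) * (y - D.b j x)⁻¹ := by
    rw [← Finset.sum_neg_distrib]
    exact Finset.sum_congr rfl fun j _ => by rw [neg_div, div_eq_mul_inv]
  rw [e1, e2]
  ring

/-- the conditions at a local maximum of `|F|` -/
theorem sum_y {x y : ℝ} (h : F D x y ≠ 0)
    (hm : ∀ᶠ t in nhds y, |F D x t| ≤ |F D x y|) : ∑ j, (y - D.b j x)⁻¹ = 0 := by
  have h1 := (F_y h).mul (F_y h)
  have h2 : IsLocalMax (fun t => F D x t * F D x t) y := by
    filter_upwards [hm] with t ht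
    have := mul_self_le_mul_self (abs_nonneg _) ht
    rwa [abs_mul_abs_self, abs_mul_abs_self] at this
  have h3 := h2.hasDerivAt_eq_zero h1
  by_contra hne
  have h4 : F D x y * F D x y * (∑ j, (y - D.b j x)⁻¹) ≠ 0 :=
    mul_ne_zero (mul_ne_zero h h) hne
  apply h4
  linarith

theorem sum_x {x y : ℝ} (h : F D x y ≠ 0)
    (hm : ∀ᶠ t in nhds x, |F D t y| ≤ |F D x y|) :
    (∑ i, (x - (D.a i : ℝ))⁻¹) - ∑ j, aeval x (derivative (D.P j)) * (y - D.b j x)⁻¹ = 0 := by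
  have h1 := (F_x h).mul (F_x h)
  have h2 : IsLocalMax (fun t => F D t y * F D t y) x := by
    filter_upwards [hm] with t ht
    have := mul_self_le_mul_self (abs_nonneg _) ht
    rwa [abs_mul_abs_self, abs_mul_abs_self] at this
  have h3 := h2.hasDerivAt_eq_zero h1
  by_contra hne
  have h4 : F D x y * F D x y * ((∑ i, (x - (D.a i : ℝ))⁻¹) -
      ∑ j, aeval x (derivative (D.P j)) * (y - D.b j x)⁻¹) ≠ 0 :=
    mul_ne_zero (mul_ne_zero h h) hne
  apply h4
  linarith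

theorem crit_of_max {x y : ℝ} (h : F D x y ≠ 0)
    (hy : ∀ᶠ t in nhds y, |F D x t| ≤ |F D x y|)
    (hx : ∀ᶠ t in nhds x, |F D t y| ≤ |F D x y|) : D.Crit (x : ℂ) (y : ℂ) := by
  obtain ⟨h1, h2⟩ := F_ne h
  have hb : ∀ j, D.b j (x : ℂ) = ((D.b j x : ℝ) : ℂ) := fun j =>
    (D.b_map Complex.ofRealHom j x).symm
  have hd : ∀ j, aeval (x : ℂ) (derivative (D.P j)) =
      ((aeval x (derivative (D.P j)) : ℝ) : ℂ) := by
    intro j
    have := hom_eval₂ (derivative (D.P j)) (algebraMap ℤ ℝ) Complex.ofRealHom x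
    rw [aeval_def, aeval_def]
    have e : (Complex.ofRealHom.comp (algebraMap ℤ ℝ)) = algebraMap ℤ ℂ := RingHom.ext_int _ _
    rw [e] at this
    exact this.symm
  have h3 := sum_y h hy
  have h4 := sum_x h hx
  refine ⟨fun i hi => h1 i ?_, fun l hl => h2 l ?_, ?_, ?_⟩
  · have : x = (D.a i : ℝ) := by exact_mod_cast hi
    rw [this, sub_self]
  · rw [hb] at hl
    have : y = D.b l x := by exact_mod_cast hl
    rw [this, sub_self]
  · have := congrArg (fun t : ℝ => (t : ℂ)) h3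
    simp only [Complex.ofReal_sum, Complex.ofReal_inv, Complex.ofReal_sub, Complex.ofReal_zero]
      at this
    rw [← this]
    exact Finset.sum_congr rfl fun j _ => by rw [hb]
  · have := congrArg (fun t : ℝ => (t : ℂ)) h4
    simp only [Complex.ofReal_sum, Complex.ofReal_inv, Complex.ofReal_sub, Complex.ofReal_zero,
      Complex.ofReal_mul, Complex.ofReal_intCast] at this
    rw [← this]
    congr 1
    exact Finset.sum_congr rfl fun j _ => by rw [hb, hd]

/-! ### the levels -/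

theorem eq_of_meet {j l : Fin D.n} (h : j ≠ l) {x : ℝ} (hx : D.b j x = D.b l x) :
    ∃ r : ℤ, r ∈ D.R j l ∧ x = (r : ℝ) := by
  by_contra hne
  push Not at hne
  exact D.b_ne h (fun r hr => hne r hr) hx

theorem mem_R_of_eq {j l : Fin D.n} (h : j ≠ l) {c : ℤ} (hc : D.b j (c : ℝ) = D.b l (c : ℝ)) :
    c ∈ D.R j l := by
  by_contra hne
  exact D.prod_ne h hne hc

variable {L : Fin D.n → ℝ → ℝ}

/-- two consecutive levels that meet -/
theorem meet {k0 k1 : Fin D.n} (hk : k0 ≠ k1) (hL : D.IsLev L) {x : ℝ}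
    (h : L k0 x = L k1 x) : ∃ r : ℤ, x = (r : ℝ) := by
  obtain ⟨-, σ, hσ⟩ := hL.2 x
  rw [hσ, hσ] at h
  obtain ⟨r, -, hr⟩ := eq_of_meet (fun h' => hk (σ.injective h')) h
  exact ⟨r, hr⟩

/-- a graph that is the level `k` at `x` is so on the interval without integers to the left -/
theorem level_left (hL : D.IsLev L) {z : ℤ} {x : ℝ} (hzx : (z : ℝ) < x) (hx : x < z + 1)
    {k j : Fin D.n} (hj : L k x = D.b j x) : L k (z : ℝ) = D.b j (z : ℝ) := by
  have hT1 : IsClosed {t : ℝ | L k t = D.b j t} := isClosed_eq (hL.1 k) (cont_b D j)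
  have hT2 : IsClosed (⋃ h ∈ (Finset.univ.erase j : Finset (Fin D.n)), {t : ℝ | L k t = D.b h t}) :=
    Set.Finite.isClosed_biUnion (Finset.finite_toSet _)
      fun h _ => isClosed_eq (hL.1 k) (cont_b D h)
  have hcov : Ioc (z : ℝ) x ⊆ {t : ℝ | L k t = D.b j t} ∪
      ⋃ h ∈ (Finset.univ.erase j : Finset (Fin D.n)), {t : ℝ | L k t = D.b h t} := by
    intro t _
    obtain ⟨-, σ, hσ⟩ := hL.2 t
    by_cases hc : σ k = j
    · left
      have := hσ k
      rw [hc] at this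
      exact this
    · right
      refine Set.mem_biUnion (x := σ k) ?_ (hσ k)
      exact Finset.mem_erase.2 ⟨hc, Finset.mem_univ _⟩
  have hsub : Ioc (z : ℝ) x ⊆ {t : ℝ | L k t = D.b j t} := by
    intro t ht
    by_contra hne
    have hne2 : (Ioc (z : ℝ) x ∩ ⋃ h ∈ (Finset.univ.erase j : Finset (Fin D.n)),
        {t : ℝ | L k t = D.b h t}).Nonempty := ⟨t, ht, (hcov ht).resolve_left hne⟩
    have hne1 : (Ioc (z : ℝ) x ∩ {t : ℝ | L k t = D.b j t}).Nonempty :=
      ⟨x, ⟨hzx, le_refl x⟩, hj⟩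
    obtain ⟨s, hs, hs1, hs2⟩ := isPreconnected_closed_iff.1 isPreconnected_Ioc _ _ hT1 hT2 hcov
      hne1 hne2
    obtain ⟨h, hh, hs3⟩ := Set.mem_iUnion₂.1 hs2
    have hjh : j ≠ h := fun e => (Finset.mem_erase.1 hh).1 e.symm
    obtain ⟨r, -, hr⟩ := eq_of_meet hjh ((show L k s = D.b j s from hs1).symm.trans
      (show L k s = D.b h s from hs3))
    have h1 : (z : ℝ) < r := by rw [← hr]; exact hs.1
    have h2 : (r : ℝ) < z + 1 := by rw [← hr]; exact lt_of_le_of_lt hs.2 hx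
    have h3 : z < r := by exact_mod_cast h1
    have h4 : r < z + 1 := by exact_mod_cast h2
    omega
  have hcl : closure (Ioc (z : ℝ) x) ⊆ {t : ℝ | L k t = D.b j t} := closure_minimal hsub hT1
  rw [closure_Ioc (ne_of_lt hzx)] at hcl
  exact hcl ⟨le_refl _, hzx.le⟩

/-! ### the lower bound -/

theorem fx_pos (z s : ℤ) : 0 < Gr.fx z s := by
  unfold Gr.fx
  split_ifs with h
  · norm_num
  · have h1 : (1 : ℤ) ≤ |z - s| := Int.one_le_abs (by omega)
    have h2 : (1 : ℝ) ≤ |(z : ℝ) - s| := by exact_mod_cast h1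
    linarith

theorem fx_le (z s : ℤ) : Gr.fx z s ≤ |((z : ℝ) + 7 / 16) - s| := by
  unfold Gr.fx
  split_ifs with h
  · subst h
    rw [show (s : ℝ) + 7 / 16 - s = 7 / 16 by ring, abs_of_pos (by norm_num)]
    norm_num
  · have h1 : |(z : ℝ) - s| ≤ |((z : ℝ) + 7 / 16) - s| + |(7 : ℝ) / 16| := by
      have := abs_sub (((z : ℝ) + 7 / 16) - s) (7 / 16 : ℝ)
      rwa [show ((z : ℝ) + 7 / 16) - s - 7 / 16 = z - s by ring] at this
    rw [abs_of_pos (show (0 : ℝ) < 7 / 16 by norm_num)] at h1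
    linarith

/-- weights -/
noncomputable def wt (z r : ℤ) : ℝ := if r = z then 3 / 8 else if r = z - 1 ∨ r = z + 1 then 1 / 2 else 1

theorem wt_pos (z r : ℤ) : 0 < wt z r := by
  unfold wt
  split_ifs <;> norm_num

theorem wt_le_one (z r : ℤ) : wt z r ≤ 1 := by
  unfold wt
  split_ifs <;> norm_num

theorem wt_le (z r : ℤ) : wt z r ≤ Gr.fx z r := by
  unfold wt Gr.fx
  by_cases h : r = z
  · rw [if_pos h, if_pos h]
  · rw [if_neg h, if_neg h]
    by_cases h' : r = z - 1 ∨ r = z + 1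
    · rw [if_pos h']
      have h1 : (1 : ℤ) ≤ |z - r| := Int.one_le_abs (by omega)
      have h2 : (1 : ℝ) ≤ |(z : ℝ) - r| := by exact_mod_cast h1
      linarith
    · rw [if_neg h']
      have h1 : (2 : ℤ) ≤ |z - r| := by
        push Not at h'
        rcases lt_or_gt_of_ne h with h2 | h2
        · rw [abs_of_pos (by omega)]
          omega
        · rw [abs_of_neg (by omega)]
          omega
      have h2 : (2 : ℝ) ≤ |(z : ℝ) - r| := by exact_mod_cast h1
      linarith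

theorem prod_fx (z : ℤ) (S : Finset ℤ) : 3 / 32 ≤ ∏ r ∈ S, Gr.fx z r := by
  have h1 : ∏ r ∈ S, wt z r ≤ ∏ r ∈ S, Gr.fx z r :=
    Finset.prod_le_prod (fun r _ => (wt_pos z r).le) fun r _ => wt_le z r
  have h2 : ∏ r ∈ S ∪ {z - 1, z, z + 1}, wt z r ≤ ∏ r ∈ S, wt z r := by
    rw [← Finset.prod_sdiff (Finset.subset_union_left (s₁ := S) (s₂ := {z - 1, z, z + 1}))]
    have h3 : ∏ r ∈ (S ∪ {z - 1, z, z + 1}) \ S, wt z r ≤ 1 :=
      Finset.prod_le_one (fun r _ => (wt_pos z r).le) fun r _ => wt_le_one z r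
    have h4 : 0 ≤ ∏ r ∈ S, wt z r := Finset.prod_nonneg fun r _ => (wt_pos z r).le
    nlinarith
  have h3 : ∏ r ∈ S ∪ {z - 1, z, z + 1}, wt z r = ∏ r ∈ ({z - 1, z, z + 1} : Finset ℤ), wt z r := by
    symm
    refine Finset.prod_subset Finset.subset_union_right fun r _ hr => ?_
    simp only [Finset.mem_insert, Finset.mem_singleton, not_or] at hr
    unfold wt
    rw [if_neg hr.2.1, if_neg (by tauto)]
  have h4 : ∏ r ∈ ({z - 1, z, z + 1} : Finset ℤ), wt z r = 1 / 2 * (3 / 8 * (1 / 2)) := by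
    rw [Finset.prod_insert, Finset.prod_insert, Finset.prod_singleton]
    · unfold wt
      rw [if_neg (by omega), if_pos (Or.inl rfl), if_pos rfl, if_neg (by omega),
        if_pos (Or.inr rfl)]
    · simp
    · simp only [Finset.mem_insert, Finset.mem_singleton, not_or]
      omega
  rw [h3, h4] at h2
  linarith

theorem abs_b_sub {j l : Fin D.n} (h : j ≠ l) (x : ℝ) :
    |D.b j x - D.b l x| = |(D.kap j l : ℝ)| * ∏ r ∈ D.R j l, |x - (r : ℝ)| := by
  rw [D.b_sub h, abs_mul, Finset.abs_prod]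

theorem dist_ge {j l : Fin D.n} (h : j ≠ l) (z : ℤ) :
    3 / 32 ≤ |D.b j ((z : ℝ) + 7 / 16) - D.b l ((z : ℝ) + 7 / 16)| := by
  rw [abs_b_sub h]
  have h1 : (1 : ℝ) ≤ |(D.kap j l : ℝ)| := by
    exact_mod_cast Int.one_le_abs (D.kap_ne j l h)
  have h2 : ∏ r ∈ D.R j l, Gr.fx z r ≤ ∏ r ∈ D.R j l, |((z : ℝ) + 7 / 16) - (r : ℝ)| :=
    Finset.prod_le_prod (fun r _ => (fx_pos z r).le) fun r _ => fx_le z r
  have h3 := prod_fx z (D.R j l)
  have h4 : 0 ≤ ∏ r ∈ D.R j l, |((z : ℝ) + 7 / 16) - (r : ℝ)| :=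
    Finset.prod_nonneg fun r _ => abs_nonneg _
  nlinarith

theorem mu_le (lam : ℤ) (j : Fin D.n) (z : ℤ) :
    D.mu lam j z ≤ |(lam : ℝ)| * |∏ i, (((z : ℝ) + 7 / 16) - (D.a i : ℝ))| *
      ∏ l ∈ Finset.univ.erase j, |D.b j ((z : ℝ) + 7 / 16) - D.b l ((z : ℝ) + 7 / 16)| := by
  unfold Gr.mu
  rw [Finset.abs_prod]
  refine mul_le_mul (mul_le_mul_of_nonneg_left (Finset.prod_le_prod (fun i _ => (fx_pos z _).le)
    fun i _ => fx_le z _) (abs_nonneg _)) (Finset.prod_le_prod (fun l _ => ?_) fun l hl => ?_) ?_ ?_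
  · exact mul_nonneg (abs_nonneg _) (Finset.prod_nonneg fun r _ => (fx_pos z r).le)
  · rw [abs_b_sub (Finset.ne_of_mem_erase hl).symm]
    exact mul_le_mul_of_nonneg_left (Finset.prod_le_prod (fun r _ => (fx_pos z r).le)
      fun r _ => fx_le z r) (abs_nonneg _)
  · exact Finset.prod_nonneg fun l _ =>
      mul_nonneg (abs_nonneg _) (Finset.prod_nonneg fun r _ => (fx_pos z r).le)
  · exact mul_nonneg (abs_nonneg _) (Finset.prod_nonneg fun i _ => abs_nonneg _)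

/-- the value at the mean of two consecutive levels -/
theorem F_mean {j l : Fin D.n} (h : j ≠ l) (x : ℝ)
    (hb : ∀ i, i ≠ j → i ≠ l → D.b i x ≤ min (D.b j x) (D.b l x) ∨
      max (D.b j x) (D.b l x) ≤ D.b i x) :
    (|D.b j x - D.b l x| / 4) ^ 2 *
      ((|∏ i, (x - (D.a i : ℝ))| * ∏ i ∈ Finset.univ.erase j, |D.b j x - D.b i x|) *
      (|∏ i, (x - (D.a i : ℝ))| * ∏ i ∈ Finset.univ.erase l, |D.b l x - D.b i x|)) ≤
      |F D x ((D.b j x + D.b l x) / 2)| ^ 2 := by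
  classical
  set y := (D.b j x + D.b l x) / 2 with hy
  set δ := |D.b j x - D.b l x| with hδ
  set pa := |∏ i, (x - (D.a i : ℝ))| with hpa
  have hlj : l ∈ (Finset.univ.erase j : Finset (Fin D.n)) :=
    Finset.mem_erase.2 ⟨h.symm, Finset.mem_univ _⟩
  have hjl : j ∈ (Finset.univ.erase l : Finset (Fin D.n)) :=
    Finset.mem_erase.2 ⟨h, Finset.mem_univ _⟩
  have hset : (Finset.univ.erase l : Finset (Fin D.n)).erase j = (Finset.univ.erase j).erase l :=
    Finset.erase_right_comm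
  set S := (Finset.univ.erase j : Finset (Fin D.n)).erase l with hS
  have e1 : ∏ i ∈ Finset.univ.erase j, |D.b j x - D.b i x| =
      δ * ∏ i ∈ S, |D.b j x - D.b i x| := (Finset.mul_prod_erase _ _ hlj).symm
  have e2 : ∏ i ∈ Finset.univ.erase l, |D.b l x - D.b i x| =
      δ * ∏ i ∈ S, |D.b l x - D.b i x| := by
    rw [← Finset.mul_prod_erase _ _ hjl, hset, hδ, abs_sub_comm (D.b l x) (D.b j x)]
  have e3 : |F D x y| = pa * (δ / 2 * (δ / 2 * ∏ i ∈ S, |y - D.b i x|)) := by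
    unfold F
    rw [abs_mul, Finset.abs_prod (s := (Finset.univ : Finset (Fin D.n)))]
    rw [← Finset.mul_prod_erase Finset.univ _ (Finset.mem_univ j),
      ← Finset.mul_prod_erase (Finset.univ.erase j) _ hlj]
    congr 2
    · rw [hy, hδ, show (D.b j x + D.b l x) / 2 - D.b j x = -((D.b j x - D.b l x) / 2) by ring,
        abs_neg, abs_div, abs_of_pos (show (0 : ℝ) < 2 by norm_num)]
    · congr 1
      rw [hy, hδ, show (D.b j x + D.b l x) / 2 - D.b l x = (D.b j x - D.b l x) / 2 by ring,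
        abs_div, abs_of_pos (show (0 : ℝ) < 2 by norm_num)]
  have h4 : (∏ i ∈ S, |D.b j x - D.b i x|) * ∏ i ∈ S, |D.b l x - D.b i x| ≤
      (∏ i ∈ S, |y - D.b i x|) ^ 2 := by
    rw [← Finset.prod_mul_distrib, ← Finset.prod_pow]
    refine Finset.prod_le_prod (fun i _ => mul_nonneg (abs_nonneg _) (abs_nonneg _))
      fun i hi => ?_
    have hil : i ≠ l := Finset.ne_of_mem_erase hi
    have hij : i ≠ j := Finset.ne_of_mem_erase (Finset.mem_of_mem_erase hi)
    have key : (D.b j x - D.b i x) * (D.b l x - D.b i x) ≤ (y - D.b i x) ^ 2 := by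
      rw [hy]
      nlinarith [sq_nonneg (D.b j x - D.b l x)]
    have hnn : 0 ≤ (D.b j x - D.b i x) * (D.b l x - D.b i x) := by
      rcases hb i hij hil with h5 | h5
      · have h6 := (le_min_iff.1 h5)
        exact mul_nonneg (sub_nonneg.2 h6.1) (sub_nonneg.2 h6.2)
      · have h6 := (max_le_iff.1 h5)
        exact mul_nonneg_of_nonpos_of_nonpos (sub_nonpos.2 h6.1) (sub_nonpos.2 h6.2)
    rw [← abs_mul, abs_of_nonneg hnn, sq_abs]
    exact key
  rw [e1, e2, e3]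
  have hδ0 : 0 ≤ δ := abs_nonneg _
  have hpa0 : 0 ≤ pa := abs_nonneg _
  have h5 := mul_le_mul_of_nonneg_left h4 (show 0 ≤ pa ^ 2 * (δ / 2) ^ 4 by positivity)
  calc (δ / 4) ^ 2 * (pa * (δ * ∏ i ∈ S, |D.b j x - D.b i x|) *
        (pa * (δ * ∏ i ∈ S, |D.b l x - D.b i x|)))
      = pa ^ 2 * (δ / 2) ^ 4 *
        ((∏ i ∈ S, |D.b j x - D.b i x|) * ∏ i ∈ S, |D.b l x - D.b i x|) := by ring
    _ ≤ pa ^ 2 * (δ / 2) ^ 4 * (∏ i ∈ S, |y - D.b i x|) ^ 2 := h5
    _ = (pa * (δ / 2 * (δ / 2 * ∏ i ∈ S, |y - D.b i x|))) ^ 2 := by ring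

end CELM

open CELM in
/-- CEL -/
theorem specCEL : SpecCEL := by
  classical
  intro D L hL k z z' hzz hZ hZ' hno
  have hk0 : k.val < D.n := by have := k.isLt; omega
  have hk1 : k.val + 1 < D.n := by have := k.isLt; omega
  set k0 : Fin D.n := ⟨k.val, hk0⟩ with hk0d
  set k1 : Fin D.n := ⟨k.val + 1, hk1⟩ with hk1d
  have hk01 : k0 ≠ k1 := by
    intro h
    have := congrArg Fin.val h
    simp [hk0d, hk1d] at this
  have hle : ∀ x, L k0 x ≤ L k1 x := fun x => (hL.2 x).1 (by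
    rw [Fin.le_def]
    simp [hk0d, hk1d])
  have hzz' : (z : ℝ) + 1 ≤ z' := by exact_mod_cast hzz
  -- strict inequality inside
  have hlt : ∀ x : ℝ, (z : ℝ) < x → x < z' → L k0 x < L k1 x := by
    intro x h1 h2
    refine lt_of_le_of_ne (hle x) fun h => ?_
    obtain ⟨r, hr⟩ := meet hk01 hL h
    rw [hr] at h1 h2 h
    have h3 : z < r := by exact_mod_cast h1
    have h4 : r < z' := by exact_mod_cast h2
    exact hno r h3 h4 (Or.inr h)
  -- the compact set
  set B : Set (ℝ × ℝ) := {p | p.1 ∈ Icc (z : ℝ) z' ∧ L k0 p.1 ≤ p.2 ∧ p.2 ≤ L k1 p.1} with hB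
  have hBclosed : IsClosed B := by
    refine (isClosed_Icc.preimage continuous_fst).inter ?_
    exact (isClosed_le ((hL.1 k0).comp continuous_fst) continuous_snd).inter
      (isClosed_le continuous_snd ((hL.1 k1).comp continuous_fst))
  obtain ⟨m, hm⟩ : ∃ m : ℝ, ∀ x ∈ Icc (z : ℝ) z', m ≤ L k0 x := by
    obtain ⟨x, -, hx⟩ := isCompact_Icc.exists_isMinOn (s := Icc (z : ℝ) z')
      ⟨(z : ℝ), le_refl _, by linarith⟩ (hL.1 k0).continuousOn
    exact ⟨L k0 x, fun t ht => hx ht⟩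
  obtain ⟨M, hM⟩ : ∃ M : ℝ, ∀ x ∈ Icc (z : ℝ) z', L k1 x ≤ M := by
    obtain ⟨x, -, hx⟩ := isCompact_Icc.exists_isMaxOn (s := Icc (z : ℝ) z')
      ⟨(z : ℝ), le_refl _, by linarith⟩ (hL.1 k1).continuousOn
    exact ⟨L k1 x, fun t ht => hx ht⟩
  have hBcomp : IsCompact B := by
    refine (isCompact_Icc.prod isCompact_Icc).of_isClosed_subset hBclosed
      (?_ : B ⊆ Icc (z : ℝ) z' ×ˢ Icc m M)
    intro p hp
    exact ⟨hp.1, (hm _ hp.1).trans hp.2.1, hp.2.2.trans (hM _ hp.1)⟩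
  -- the test point
  set x1 : ℝ := (z : ℝ) + 7 / 16 with hx1
  have hx1z : (z : ℝ) < x1 := by rw [hx1]; linarith
  have hx1z' : x1 < z' := by rw [hx1]; linarith
  have hx1s : x1 < z + 1 := by rw [hx1]; linarith
  obtain ⟨hmono, σ, hσ⟩ := hL.2 x1
  set j := σ k0 with hj
  set l := σ k1 with hl
  have hjl : j ≠ l := fun h => hk01 (σ.injective h)
  have hbj : D.b j x1 = L k0 x1 := (hσ k0).symm
  have hbl : D.b l x1 = L k1 x1 := (hσ k1).symm
  have hlt1 := hlt x1 hx1z hx1z'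
  set y1 : ℝ := (D.b j x1 + D.b l x1) / 2 with hy1
  have hp1 : (x1, y1) ∈ B := by
    refine ⟨⟨hx1z.le, hx1z'.le⟩, ?_, ?_⟩
    · show L k0 x1 ≤ y1
      rw [hy1, hbj, hbl]
      linarith
    · show y1 ≤ L k1 x1
      rw [hy1, hbj, hbl]
      linarith
  have hbet : ∀ i, i ≠ j → i ≠ l → D.b i x1 ≤ min (D.b j x1) (D.b l x1) ∨
      max (D.b j x1) (D.b l x1) ≤ D.b i x1 := by
    intro i hi1 hi2
    obtain ⟨i', rfl⟩ := σ.surjective i
    have hi1' : i' ≠ k0 := fun h => hi1 (by rw [hj, h])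
    have hi2' : i' ≠ k1 := fun h => hi2 (by rw [hl, h])
    rw [hbj, hbl, min_eq_left hlt1.le, max_eq_right hlt1.le, ← hσ i']
    rcases lt_or_gt_of_ne hi1' with h | h
    · exact Or.inl (hmono h.le)
    · right
      refine hmono ?_
      rw [Fin.lt_def] at h
      rw [Fin.le_def]
      have h3 : i'.val ≠ k1.val := fun h' => hi2' (Fin.ext h')
      simp only [hk0d, hk1d] at h h3 ⊢
      omega
  have hnz1 : F D x1 y1 ≠ 0 := by
    unfold F
    refine mul_ne_zero (Finset.prod_ne_zero_iff.2 fun i _ h => ?_)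
      (Finset.prod_ne_zero_iff.2 fun i _ h => ?_)
    · have h1 : x1 = (D.a i : ℝ) := sub_eq_zero.1 h
      have h2 : (z : ℝ) < (D.a i : ℝ) := by rw [← h1]; exact hx1z
      have h3 : (D.a i : ℝ) < z + 1 := by rw [← h1]; exact hx1s
      have h4 : z < D.a i := by exact_mod_cast h2
      have h5 : D.a i < z + 1 := by exact_mod_cast h3
      omega
    · have h1 : y1 = D.b i x1 := sub_eq_zero.1 h
      have h2 : L k0 x1 < y1 := by rw [hy1, hbj, hbl]; linarith
      have h3 : y1 < L k1 x1 := by rw [hy1, hbj, hbl]; linarith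
      by_cases h4 : i = j
      · rw [h4, hbj] at h1
        linarith
      by_cases h5 : i = l
      · rw [h5, hbl] at h1
        linarith
      rcases hbet i h4 h5 with h6 | h6
      · rw [hbj, hbl, min_eq_left hlt1.le] at h6
        linarith
      · rw [hbj, hbl, max_eq_right hlt1.le] at h6
        linarith
  -- the maximum
  obtain ⟨p, hpB, hpmax⟩ := hBcomp.exists_isMaxOn ⟨_, hp1⟩ ((cont_F D).abs.continuousOn)
  obtain ⟨x0, y0⟩ := p
  have hmax : ∀ x y : ℝ, (x, y) ∈ B → |F D x y| ≤ |F D x0 y0| := fun x y h => hpmax h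
  have hge := hmax x1 y1 hp1
  have hF0 : F D x0 y0 ≠ 0 := by
    intro h
    rw [h, abs_zero] at hge
    exact hnz1 (abs_eq_zero.1 (le_antisymm hge (abs_nonneg _)))
  obtain ⟨hpx, hpy0, hpy1⟩ := hpB
  have hlev : ∀ (i : Fin D.n) (x y : ℝ), y = L i x → F D x y = 0 := by
    intro i x y h
    obtain ⟨-, τ, hτ⟩ := hL.2 x
    exact F_zero_b (τ i) (h.trans (hτ i))
  have hy0lt : L k0 x0 < y0 := lt_of_le_of_ne hpy0 fun h => hF0 (hlev k0 x0 y0 h.symm)
  have hy0gt : y0 < L k1 x0 := lt_of_le_of_ne hpy1 fun h => hF0 (hlev k1 x0 y0 h)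
  have hxz : ∀ c : ℤ, D.Zero L k c → x0 ≠ (c : ℝ) := by
    intro c hc h
    rcases hc with ⟨i, hi⟩ | hc
    · exact hF0 (F_zero_a i (by rw [h, hi]))
    · have hc' : L k0 (c : ℝ) = L k1 (c : ℝ) := hc
      rw [h, hc'] at hy0lt
      rw [h] at hy0gt
      exact lt_irrefl _ (hy0lt.trans hy0gt)
  have hx0l : (z : ℝ) < x0 := lt_of_le_of_ne hpx.1 fun h => hxz z hZ h.symm
  have hx0r : x0 < z' := lt_of_le_of_ne hpx.2 fun h => hxz z' hZ' h
  refine ⟨x0, y0, hx0l, hx0r, hy0lt, hy0gt, ?_, ?_⟩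
  · refine crit_of_max hF0 ?_ ?_
    · have h1 : ∀ᶠ t in nhds y0, L k0 x0 < t ∧ t < L k1 x0 := Ioo_mem_nhds hy0lt hy0gt
      filter_upwards [h1] with t ht
      exact hmax x0 t ⟨hpx, ht.1.le, ht.2.le⟩
    · have h1 : ∀ᶠ t in nhds x0, (z : ℝ) < t ∧ t < z' := Ioo_mem_nhds hx0l hx0r
      have h2 : ∀ᶠ t in nhds x0, L k0 t < y0 :=
        ((hL.1 k0).tendsto x0).eventually (gt_mem_nhds hy0lt)
      have h3 : ∀ᶠ t in nhds x0, y0 < L k1 t :=
        ((hL.1 k1).tendsto x0).eventually (lt_mem_nhds hy0gt)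
      filter_upwards [h1, h2, h3] with t ht1 ht2 ht3
      exact hmax t y0 ⟨⟨ht1.1.le, ht1.2.le⟩, ht2.le, ht3.le⟩
  · intro lam Λ hΛ hmu
    -- both graphs have a node above `z`
    have hnode : D.Node j z ∧ D.Node l z := by
      rcases hZ with ⟨i, hi⟩ | hc
      · exact ⟨Or.inl ⟨i, hi⟩, Or.inl ⟨i, hi⟩⟩
      · have hc' : L k0 (z : ℝ) = L k1 (z : ℝ) := hc
        have h1 := level_left hL hx1z hx1s (hσ k0)
        have h2 := level_left hL hx1z hx1s (hσ k1)
        have h3 : D.b j (z : ℝ) = D.b l (z : ℝ) := by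
          rw [← h1, ← h2, hc']
        have h4 := mem_R_of_eq hjl h3
        exact ⟨Or.inr ⟨l, hjl.symm, h4⟩, Or.inr ⟨j, hjl, by rw [D.R_symm hjl]; exact h4⟩⟩
    have h1 := (hmu j z hnode.1).trans (mu_le lam j z)
    have h2 := (hmu l z hnode.2).trans (mu_le lam l z)
    have h3 := F_mean hjl x1 hbet
    have h4 := dist_ge hjl z
    rw [← hx1] at h1 h2 h4
    set δ := |D.b j x1 - D.b l x1| with hδ
    set Aj := |∏ i, (x1 - (D.a i : ℝ))| * ∏ i ∈ Finset.univ.erase j, |D.b j x1 - D.b i x1| with hAj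
    set Al := |∏ i, (x1 - (D.a i : ℝ))| * ∏ i ∈ Finset.univ.erase l, |D.b l x1 - D.b i x1| with hAl
    have h1' : Λ ≤ |(lam : ℝ)| * Aj := by rw [hAj, ← mul_assoc]; exact h1
    have h2' : Λ ≤ |(lam : ℝ)| * Al := by rw [hAl, ← mul_assoc]; exact h2
    have h5 : Λ * Λ ≤ (|(lam : ℝ)| * Aj) * (|(lam : ℝ)| * Al) :=
      mul_le_mul h1' h2' hΛ (hΛ.trans h1')
    have e : |(lam : ℝ) * (∏ i, (x0 - (D.a i : ℝ))) * ∏ l, (y0 - D.b l x0)| =
        |(lam : ℝ)| * |F D x0 y0| := by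
      unfold F
      rw [mul_assoc, abs_mul]
    rw [e]
    have h6 : (3 / 128 * Λ) ^ 2 ≤ (|(lam : ℝ)| * |F D x1 y1|) ^ 2 := by
      have h7 : (3 / 128 : ℝ) ^ 2 ≤ (δ / 4) ^ 2 := by
        have : (3 / 128 : ℝ) ≤ δ / 4 := by linarith
        exact pow_le_pow_left₀ (by norm_num) this 2
      have h8 := mul_le_mul_of_nonneg_left h3 (sq_nonneg |(lam : ℝ)|)
      calc (3 / 128 * Λ) ^ 2 = (3 / 128 : ℝ) ^ 2 * (Λ * Λ) := by ring
        _ ≤ (δ / 4) ^ 2 * ((|(lam : ℝ)| * Aj) * (|(lam : ℝ)| * Al)) :=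
            mul_le_mul h7 h5 (mul_nonneg hΛ hΛ) (sq_nonneg _)
        _ = |(lam : ℝ)| ^ 2 * ((δ / 4) ^ 2 * (Aj * Al)) := by ring
        _ ≤ |(lam : ℝ)| ^ 2 * |F D x1 y1| ^ 2 := h8
        _ = (|(lam : ℝ)| * |F D x1 y1|) ^ 2 := by ring
    have h9 : 3 / 128 * Λ ≤ |(lam : ℝ)| * |F D x1 y1| :=
      le_of_sq_le_sq h6 (mul_nonneg (abs_nonneg _) (abs_nonneg _))
    exact h9.trans (mul_le_mul_of_nonneg_left hge (abs_nonneg _))

end MP743d1e.GA
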