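import Pool.Agent.Lib.MP_743d1e_nt.GA.SpecK
import Pool.Agent.Lib.MP_743d1e_nt.Const
import Pool.Agent.Lib.MP_743d1e_nt.K2Q
import Pool.Agent.Lib.MP_743d1e_nt.PlaceQ

/-!
# CNG: unramified sums of symbols with a constant are torsion
-/

set_option autoImplicit false

namespace MP743d1e.GA

open scoped BigOperators

namespace CNGM

open ConstM

theorem closure_le {K : Type} [Field K] [Algebra ℚ K] (U : Subgroup Kˣ) :
    AddSubgroup.closure {z : K2 K | ∃ u : Kˣ, (∃ c : ℚ, (u : K) = algebraMap ℚ K c) ∧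
      ∃ w ∈ U, z = sym u w} ≤ good U := by
  rw [AddSubgroup.closure_le]
  rintro _ ⟨u, ⟨c, hc⟩, w, hw, rfl⟩
  have hc0 : c ≠ 0 := by
    rintro rfl
    rw [map_zero] at hc
    exact u.ne_zero hc
  have e : u = cu K c := Units.ext (by rw [cu_val hc0, hc])
  rw [e]
  exact rat_mem _ hc0 w hw

end CNGM

open ConstM CNGM

theorem specCNG : SpecCNG := by
  intro K _ _ x hx hfin hC U β hβ hv
  obtain ⟨W, N, h1, h2, h3, h4⟩ := closure_le U hβ
  -- the valuations of the functions `W q` vanish
  have hord : ∀ v : DVal K,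
      (∀ c : Kˣ, (∃ r : ℚ, (c : K) = algebraMap ℚ K r) → v.ord c = 0) →
      ∀ q, v.ord (W q) = 0 := by
    intro v hv0 q
    by_cases hqp : q.Prime
    swap
    · rw [h2 q hqp, v.ord_one]
    by_cases hqN : q < N
    swap
    · rw [h1 q (not_lt.1 hqN), v.ord_one]
    have hcu : ∀ c : ℚ, v.ord (cu K c) = 0 := by
      intro c
      by_cases hc : c = 0
      · have : cu K c = 1 := by
          unfold cu
          rw [dif_pos hc]
        rw [this, v.ord_one]
      · exact hv0 _ ⟨c, cu_val hc⟩
    have ht : tame v (2 • β) = 0 := by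
      have hk : β ∈ (tame v).ker := AddMonoidHom.mem_ker.2 (hv v)
      exact AddMonoidHom.mem_ker.1 (AddSubgroup.nsmul_mem _ hk 2)
    rw [h4, map_sum] at ht
    have e1 : ∀ p ∈ Finset.range N, tame v (sym (cu K (p : ℚ)) (W p)) =
        Additive.ofMul (QuotientGroup.mk (s := v.U1)
          (if p.Prime then (cu K (p : ℚ)) ^ v.ord (W p) else 1)) := by
      intro p _
      rw [tame_sym]
      by_cases hp : p.Prime
      · rw [if_pos hp]
        unfold DVal.tameUnit
        rw [hcu]
        simp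
      · rw [if_neg hp, h2 p hp]
        unfold DVal.tameUnit
        rw [hcu, v.ord_one]
        simp
    rw [Finset.sum_congr rfl e1] at ht
    have e2 : (QuotientGroup.mk (s := v.U1) (∏ p ∈ Finset.range N,
        (if p.Prime then (cu K (p : ℚ)) ^ v.ord (W p) else 1)) : Kˣ ⧸ v.U1) = 1 := by
      have h5 := map_prod (QuotientGroup.mk' v.U1) (fun p : ℕ =>
        (if p.Prime then (cu K (p : ℚ)) ^ v.ord (W p) else 1)) (Finset.range N)
      have h6 : Additive.toMul (∑ p ∈ Finset.range N, Additive.ofMul (QuotientGroup.mk (s := v.U1)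
          (if p.Prime then (cu K (p : ℚ)) ^ v.ord (W p) else 1))) = 1 := by
        rw [ht]; rfl
      rw [toMul_sum] at h6
      exact h5.trans h6
    rw [QuotientGroup.eq_one_iff, DVal.mem_U1] at e2
    -- the product is a constant
    have e3 : ((∏ p ∈ Finset.range N,
        (if p.Prime then (cu K (p : ℚ)) ^ v.ord (W p) else 1) : Kˣ) : K) =
        algebraMap ℚ K (∏ p ∈ (Finset.range N).filter Nat.Prime, ((p : ℕ) : ℚ) ^ v.ord (W p)) := by
      rw [Units.coe_prod, Finset.prod_filter, map_prod]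
      apply Finset.prod_congr rfl
      intro p _
      by_cases hp : p.Prime
      · rw [if_pos hp, if_pos hp, Units.val_zpow_eq_zpow_val, map_zpow₀,
          cu_val (Nat.cast_ne_zero.2 hp.ne_zero)]
      · rw [if_neg hp, if_neg hp, Units.val_one, map_one]
    have e4 : (∏ p ∈ (Finset.range N).filter Nat.Prime, ((p : ℕ) : ℚ) ^ v.ord (W p)) = 1 := by
      rcases e2 with e2 | ⟨u, hu, hu1⟩
      · rw [e2, Units.val_one] at e3
        apply (algebraMap ℚ K).injective
        rw [map_one]
        exact e3.symm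
      · exfalso
        have : v.ord u = 0 := hv0 u ⟨_, by
          rw [← hu, e3, ← map_one (algebraMap ℚ K), ← map_sub]⟩
        omega
    exact exps_zero N (fun p => v.ord (W p)) e4 q hqp hqN
  -- the functions `W q` are constant
  have hconst : ∀ q, ∃ r : ℚˣ, Units.map (algebraMap ℚ K : ℚ →* K) r = W q := by
    intro q
    have halg : IsAlgebraic ℚ (W q : K) := by
      by_contra hne
      obtain ⟨v, hv0, hv1⟩ := specPlace K x hx hfin (W q) hne
      exact hv1 (hord v hv0 q)
    obtain ⟨r, hr⟩ := hC _ halg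
    have hr0 : r ≠ 0 := by
      rintro rfl
      rw [map_zero] at hr
      exact (W q).ne_zero hr.symm
    exact ⟨Units.mk0 r hr0, Units.ext hr⟩
  choose r hr using hconst
  obtain ⟨M, hM, hM2⟩ := specK2Q (∑ p ∈ Finset.range N, sym (cu ℚ (p : ℚ)) (r p))
  refine ⟨M * 2, by positivity, ?_⟩
  rw [mul_nsmul', h4]
  have h7 : ∑ p ∈ Finset.range N, sym (cu K (p : ℚ)) (W p) =
      mapK (algebraMap ℚ K) (∑ p ∈ Finset.range N, sym (cu ℚ (p : ℚ)) (r p)) := by
    rw [map_sum]
    apply Finset.sum_congr rfl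
    intro p _
    rw [mapK_sym]
    congr 1
    · apply Units.ext
      by_cases hp : (p : ℚ) = 0
      · simp [cu, hp]
      · rw [cu_val hp]
        show algebraMap ℚ K (p : ℚ) = algebraMap ℚ K (cu ℚ (p : ℚ) : ℚ)
        rw [cu_val hp]
        rfl
    · exact (hr p).symm
  rw [h7, ← map_nsmul, hM2, map_zero]

end MP743d1e.GA
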