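import Pool.Agent.Lib.MP_743d1e_nt.GA.Spec

/-!
# Arrangements of graphs: there are at most `g` critical points
-/

set_option autoImplicit false

namespace MP743d1e.GA

open scoped BigOperators
open Polynomial

namespace CNTM

theorem Pc_eval (D : Gr) (j : Fin D.n) (x0 : ℂ) : (D.Pc j).eval x0 = D.b j x0 := by
  unfold Gr.Pc Gr.b
  rw [eval_map, aeval_def]
  rfl

theorem dPc_eval (D : Gr) (j : Fin D.n) (x0 : ℂ) :
    (derivative (D.Pc j)).eval x0 = aeval x0 (derivative (D.P j)) := by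
  unfold Gr.Pc
  rw [derivative_map, eval_map, aeval_def]
  rfl

theorem Qp_map (D : Gr) (x0 : ℂ) :
    D.Qp.map (evalRingHom x0) = ∏ j, (X - C (D.b j x0)) := by
  unfold Gr.Qp
  rw [Polynomial.map_prod]
  apply Finset.prod_congr rfl
  intro j _
  rw [Polynomial.map_sub, map_X, map_C, coe_evalRingHom, Pc_eval]

theorem Qy_eval (D : Gr) (x0 y0 : ℂ) :
    ((derivative D.Qp).map (evalRingHom x0)).eval y0 =
      ∑ j, ∏ l ∈ Finset.univ.erase j, (y0 - D.b l x0) := by
  rw [← derivative_map, Qp_map, derivative_prod_finset]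
  rw [eval_finsetSum]
  apply Finset.sum_congr rfl
  intro j _
  rw [derivative_X_sub_C, mul_one, eval_prod]
  apply Finset.prod_congr rfl
  intro l _
  rw [Polynomial.eval_sub, eval_X, eval_C]

theorem Ap_eval (D : Gr) (x0 : ℂ) : D.Ap.eval x0 = ∏ i, (x0 - (D.a i : ℂ)) := by
  unfold Gr.Ap
  rw [eval_prod]
  apply Finset.prod_congr rfl
  intro l _
  rw [Polynomial.eval_sub, eval_X, eval_C]

theorem dAp_eval (D : Gr) (x0 : ℂ) : (derivative D.Ap).eval x0 =
    ∑ i, ∏ l ∈ Finset.univ.erase i, (x0 - (D.a l : ℂ)) := by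
  unfold Gr.Ap
  rw [derivative_prod_finset, eval_finsetSum]
  apply Finset.sum_congr rfl
  intro j _
  rw [derivative_X_sub_C, mul_one, eval_prod]
  apply Finset.prod_congr rfl
  intro l _
  rw [Polynomial.eval_sub, eval_X, eval_C]

theorem Gp_eval (D : Gr) (x0 y0 : ℂ) :
    (D.Gp.map (evalRingHom x0)).eval y0 =
      (∑ i, ∏ l ∈ Finset.univ.erase i, (x0 - (D.a l : ℂ))) * (∏ j, (y0 - D.b j x0)) -
      (∏ i, (x0 - (D.a i : ℂ))) * ∑ j, aeval x0 (derivative (D.P j)) *
        ∏ l ∈ Finset.univ.erase j, (y0 - D.b l x0) := by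
  unfold Gr.Gp
  rw [Polynomial.map_sub, Polynomial.map_mul, Polynomial.map_mul, map_C, map_C, Qp_map,
    Polynomial.map_sum, Polynomial.eval_sub, eval_mul, eval_mul, eval_C, eval_C, coe_evalRingHom,
    dAp_eval, Ap_eval, eval_prod, eval_finsetSum]
  congr 1
  · congr 1
    apply Finset.prod_congr rfl
    intro l _
    rw [Polynomial.eval_sub, eval_X, eval_C]
  · congr 1
    apply Finset.sum_congr rfl
    intro j _
    rw [Polynomial.map_mul, map_C, eval_mul, eval_C, coe_evalRingHom, dPc_eval, Polynomial.map_prod,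
      eval_prod]
    congr 1
    apply Finset.prod_congr rfl
    intro l _
    rw [Polynomial.map_sub, map_X, map_C, coe_evalRingHom, Pc_eval, Polynomial.eval_sub, eval_X,
      eval_C]

theorem prod_erase_inv {n : ℕ} (f : Fin n → ℂ) (j : Fin n) (hf : f j ≠ 0) :
    ∏ l ∈ Finset.univ.erase j, f l = (∏ l, f l) * (f j)⁻¹ := by
  rw [← Finset.mul_prod_erase Finset.univ f (Finset.mem_univ j)]
  field_simp

/-- The common zeros of the two partial derivatives. -/
def Z (D : Gr) (x0 y0 : ℂ) : Prop :=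
  ((derivative D.Qp).map (evalRingHom x0)).eval y0 = 0 ∧ (D.Gp.map (evalRingHom x0)).eval y0 = 0

theorem crit_Z {D : Gr} {x0 y0 : ℂ} (h : D.Crit x0 y0) : Z D x0 y0 := by
  obtain ⟨h1, h2, h3, h4⟩ := h
  have hf : ∀ l, y0 - D.b l x0 ≠ 0 := fun l => sub_ne_zero.mpr (h2 l)
  have ha : ∀ i, x0 - (D.a i : ℂ) ≠ 0 := fun i => sub_ne_zero.mpr (h1 i)
  constructor
  · rw [Qy_eval, Finset.sum_congr rfl fun j _ => prod_erase_inv (fun l => y0 - D.b l x0) j (hf j),
      ← Finset.mul_sum, h3, mul_zero]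
  · rw [Gp_eval, Finset.sum_congr rfl fun i _ => prod_erase_inv (fun l => x0 - (D.a l : ℂ)) i (ha i),
      ← Finset.mul_sum]
    have h5 : ∑ j, aeval x0 (derivative (D.P j)) * ∏ l ∈ Finset.univ.erase j, (y0 - D.b l x0) =
        (∏ l, (y0 - D.b l x0)) *
          ∑ l, aeval x0 (derivative (D.P l)) * (y0 - D.b l x0)⁻¹ := by
      rw [Finset.mul_sum]
      apply Finset.sum_congr rfl
      intro j _
      rw [prod_erase_inv (fun l => y0 - D.b l x0) j (hf j)]
      ring
    rw [h5]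
    linear_combination (∏ i, (x0 - (D.a i : ℂ))) * (∏ l, (y0 - D.b l x0)) * h4

theorem cross_Z {D : Gr} {x0 y0 : ℂ} {j l : Fin D.n} (hjl : j ≠ l) (h1 : y0 = D.b j x0)
    (h2 : y0 = D.b l x0) : Z D x0 y0 := by
  have hj : y0 - D.b j x0 = 0 := sub_eq_zero.mpr h1
  have hl : y0 - D.b l x0 = 0 := sub_eq_zero.mpr h2
  have h3 : ∀ i, ∏ h ∈ Finset.univ.erase i, (y0 - D.b h x0) = 0 := by
    intro i
    by_cases hi : i = j
    · exact Finset.prod_eq_zero (Finset.mem_erase.mpr ⟨fun e => hjl (hi.symm.trans e.symm),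
        Finset.mem_univ l⟩) hl
    · exact Finset.prod_eq_zero (Finset.mem_erase.mpr ⟨fun e => hi e.symm, Finset.mem_univ j⟩) hj
  constructor
  · rw [Qy_eval]
    exact Finset.sum_eq_zero fun i _ => h3 i
  · rw [Gp_eval, Finset.prod_eq_zero (Finset.mem_univ j) hj, mul_zero,
      Finset.sum_eq_zero fun i _ => by rw [h3 i, mul_zero], mul_zero, sub_zero]

/-- The crossings. -/
abbrev I2 (D : Gr) : Type :=
  Σ z : {z : Fin D.n × Fin D.n // z.1 < z.2}, {c : ℤ // c ∈ D.R z.1.1 z.1.2}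

theorem card_I2 (D : Gr) : Fintype.card (I2 D) = D.crossings := by
  unfold Gr.crossings
  rw [Fintype.card_sigma]
  rw [Finset.sum_subtype (p := fun z : Fin D.n × Fin D.n => z.1 < z.2) _
    (fun z => by simp) (fun z => (D.R z.1 z.2).card)]
  apply Finset.sum_congr rfl
  intro z _
  rw [Fintype.card_coe]

/-- The point of a crossing. -/
noncomputable def q (D : Gr) (t : I2 D) : ℂ × ℂ := ((t.2.1 : ℂ), D.b t.1.1.1 (t.2.1 : ℂ))

theorem q_inj (D : Gr) : Function.Injective (q D) := by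
  rintro ⟨⟨⟨j, l⟩, hjl⟩, ⟨r, hr⟩⟩ ⟨⟨⟨j', l'⟩, hjl'⟩, ⟨r', hr'⟩⟩ h
  have h1 : (r : ℂ) = (r' : ℂ) := congrArg Prod.fst h
  have h2 : D.b j (r : ℂ) = D.b j' (r' : ℂ) := congrArg Prod.snd h
  have h3 : r = r' := by exact_mod_cast h1
  subst h3
  rw [D.b_intCast, D.b_intCast, Int.cast_inj] at h2
  have hjl1 : j < l := hjl
  have hjl2 : j' < l' := hjl'
  have hr1 : r ∈ D.R j l := hr
  have hr2 : r ∈ D.R j' l' := hr'
  by_cases hj : j = j'
  · subst hj
    have h4 : l = l' := D.partner (ne_of_lt hjl1) (ne_of_lt hjl2) hr1 hr2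
    subst h4
    rfl
  · exfalso
    have h4 : r ∈ D.R j j' := (D.mem_R hj r).mpr h2
    have h5 : l = j' := D.partner (ne_of_lt hjl1) hj hr1 h4
    have h6 : r ∈ D.R j' j := by rw [D.R_symm hj]; exact h4
    have h7 : l' = j := D.partner (ne_of_lt hjl2) (Ne.symm hj) hr2 h6
    rw [h5] at hjl1
    rw [h7] at hjl2
    exact absurd hjl1 (not_lt.mpr hjl2.le)

end CNTM

/-- Module CNT. -/
theorem specCNT (hRDV : SpecRDV) (hRDG : SpecRDG) (hRNZ : SpecRNZ) : SpecCNT := by
  classical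
  intro D S hS
  let Kf : Finset (ℂ × ℂ) := Finset.univ.image (CNTM.q D)
  have hK : Kf.card = D.crossings := by
    rw [Finset.card_image_of_injective _ (CNTM.q_inj D), Finset.card_univ, CNTM.card_I2]
  have hbl : ∀ (j l : Fin D.n) (r : ℤ), j ≠ l → r ∈ D.R j l →
      D.b j (r : ℂ) = D.b l (r : ℂ) := by
    intro j l r h hr
    rw [D.b_intCast, D.b_intCast, Int.cast_inj]
    exact (D.mem_R h r).mp hr
  have hdisj : Disjoint S Kf := by
    rw [Finset.disjoint_left]
    intro z hz hzK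
    obtain ⟨t, -, rfl⟩ := Finset.mem_image.mp hzK
    exact (hS _ hz).2.1 t.1.1.1 rfl
  let T : Finset (ℂ × ℂ) := S ∪ Kf
  have hT : ∀ z ∈ T, CNTM.Z D z.1 z.2 := by
    intro z hz
    rcases Finset.mem_union.mp hz with h | h
    · exact CNTM.crit_Z (hS z h)
    · obtain ⟨t, -, rfl⟩ := Finset.mem_image.mp h
      exact CNTM.cross_Z (ne_of_lt t.1.2) rfl (hbl _ _ _ (ne_of_lt t.1.2) t.2.2)
  have hTc : T.card = S.card + D.crossings := by
    rw [Finset.card_union_of_disjoint hdisj, hK]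
  let F : ℂ → Finset ℂ := fun x0 => (T.filter fun z => z.1 = x0).image Prod.snd
  have hF : ∀ x0, (F x0).card = (T.filter fun z => z.1 = x0).card := by
    intro x0
    apply Finset.card_image_of_injOn
    intro z hz w hw hzw
    have h1 := (Finset.mem_filter.mp hz).2
    have h2 := (Finset.mem_filter.mp hw).2
    exact Prod.ext (h1.trans h2.symm) hzw
  have hdvd : ∀ x0, (X - C x0) ^ (F x0).card ∣ D.Np := by
    intro x0
    apply hRDV D x0 (F x0)
    intro y0 hy0
    obtain ⟨z, hz, rfl⟩ := Finset.mem_image.mp hy0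
    obtain ⟨h1, h2⟩ := Finset.mem_filter.mp hz
    have h3 := hT z h1
    rw [h2] at h3
    exact h3
  have hprod : ∏ x0 ∈ T.image Prod.fst, (X - C x0) ^ (F x0).card ∣ D.Np := by
    apply Finset.prod_dvd_of_coprime
    · intro x _ y _ hxy
      exact (isCoprime_X_sub_C_of_isUnit_sub (sub_ne_zero.mpr hxy).isUnit).pow
    · intro x _
      exact hdvd x
  have hdeg := natDegree_le_of_dvd hprod (hRNZ D)
  rw [natDegree_prod_of_monic _ _ fun x _ => (monic_X_sub_C x).pow _] at hdeg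
  have h1 : ∑ x0 ∈ T.image Prod.fst, ((X - C x0 : ℂ[X]) ^ (F x0).card).natDegree = T.card := by
    rw [Finset.card_eq_sum_card_image Prod.fst T]
    apply Finset.sum_congr rfl
    intro x _
    rw [natDegree_pow, natDegree_X_sub_C, mul_one, hF]
  rw [h1, hTc] at hdeg
  have h2 := hRDG D
  unfold Gr.g
  omega

end MP743d1e.GA
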