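import Pool.Agent.Lib.MP_743d1e_nt.GA.IRP

/-!
# Arrangements of graphs: the dimension of the adjoint space
-/

set_option autoImplicit false

namespace MP743d1e.GA

open scoped BigOperators
open Polynomial

namespace DIMM

theorem Pc_eval (D : Gr) (j : Fin D.n) (z : ℂ) : (D.Pc j).eval z = D.b j z := by
  unfold Gr.Pc Gr.b
  rw [eval_map, aeval_def]
  rfl

/-- The map from the coefficients to the function field. -/
noncomputable def Phi {K : Type} [Field K] [Algebra ℂ K] (D : Gr) (x y : K) :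
    (Fin D.n → ℂ[X]) →ₗ[ℂ] K where
  toFun c := ∑ k, aeval x (c k) * nbG D x y k
  map_add' c c' := by
    simp only [Pi.add_apply, map_add, add_mul, Finset.sum_add_distrib]
  map_smul' t c := by
    simp only [Pi.smul_apply, map_smul, smul_mul_assoc, RingHom.id_apply, Finset.smul_sum]

/-- The map from the coefficients to the values. -/
noncomputable def Psi (D : Gr) : (Fin D.n → ℂ[X]) →ₗ[ℂ] (Fin D.n → ℂ[X]) where
  toFun c := fun j => D.vv c j
  map_add' c c' := by
    funext j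
    simp only [Gr.vv, Pi.add_apply, add_mul, Finset.sum_add_distrib]
  map_smul' t c := by
    funext j
    simp only [Gr.vv, Pi.smul_apply, smul_mul_assoc, RingHom.id_apply, Finset.smul_sum]

/-- The polynomial with the Newton coefficients `c`. -/
noncomputable def Sp (D : Gr) (c : Fin D.n → ℂ[X]) : ℂ[X][X] :=
  ∑ k, C (c k) * ∏ i ∈ Finset.univ.filter (fun i => i < k), (X - C (D.Pc i))

theorem Sp_eval (D : Gr) (c : Fin D.n → ℂ[X]) (j : Fin D.n) :
    (Sp D c).eval (D.Pc j) = D.vv c j := by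
  simp only [Sp, Gr.vv, eval_finsetSum, eval_mul, eval_C, eval_prod, Polynomial.eval_sub, eval_X]

theorem Sp_degree (D : Gr) (c : Fin D.n → ℂ[X]) : (Sp D c).degree < D.n := by
  have hn : 0 < D.n := lt_of_lt_of_le (by norm_num) D.hn
  refine lt_of_le_of_lt (degree_sum_le _ _) ?_
  rw [Finset.sup_lt_iff (by exact_mod_cast WithBot.bot_lt_coe _)]
  intro k _
  refine lt_of_le_of_lt ((degree_mul_le _ _).trans (add_le_add degree_C_le le_rfl)) ?_
  rw [zero_add, degree_prod_of_monic _ _ fun i _ => monic_X_sub_C _,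
    Finset.sum_congr rfl fun i _ => degree_X_sub_C _, Finset.sum_const, nsmul_one]
  have h1 : (Finset.univ.filter (fun i : Fin D.n => i < k)).card = k.val := by
    have h2 : Finset.univ.filter (fun i : Fin D.n => i < k) = Finset.Iio k := by
      ext i
      simp
    rw [h2, Fin.card_Iio]
  rw [h1]
  exact_mod_cast k.isLt

theorem ev2_Sp {K : Type} [Field K] [Algebra ℂ K] (D : Gr) (x y : K) (c : Fin D.n → ℂ[X]) :
    ev2 x y (Sp D c) = Phi D x y c := by
  have h0 : ∀ i, aeval x (D.Pc i) = D.b i x := by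
    intro i
    unfold Gr.Pc Gr.b
    rw [aeval_def, eval₂_map, aeval_def]
    congr 1
    exact RingHom.ext_int _ _
  unfold ev2 Sp
  rw [eval₂_finsetSum]
  show _ = ∑ k, aeval x (c k) * nbG D x y k
  refine Finset.sum_congr rfl fun k _ => ?_
  rw [eval₂_mul, eval₂_C, eval₂_finsetProd]
  unfold nbG
  congr 1
  refine Finset.prod_congr rfl fun i _ => ?_
  rw [eval₂_sub, eval₂_X, eval₂_C, ← h0 i]
  rfl

theorem lam_ne {K : Type} [Field K] [Algebra ℂ K] {D : Gr} {lam : ℤ} {x y : K}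
    (h : IsCurveG ℂ K D lam x y) : lam ≠ 0 := by
  rintro rfl
  have := h.eqn
  rw [Int.cast_zero, zero_mul, zero_mul] at this
  exact zero_ne_one this

theorem Psi_inj (hNWL : SpecNWL) (D : Gr) : Function.Injective (Psi D) := by
  rw [← LinearMap.ker_eq_bot, LinearMap.ker_eq_bot']
  intro c hc
  exact (hNWL D c).1 fun j => congrFun hc j

theorem Phi_inj (hIRP : SpecIRP) (hNWL : SpecNWL) {K : Type} [Field K] [Algebra ℂ K] {D : Gr}
    {lam : ℤ} {x y : K} (h : IsCurveG ℂ K D lam x y) : Function.Injective (Phi D x y) := by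
  rw [← LinearMap.ker_eq_bot, LinearMap.ker_eq_bot']
  intro c hc
  have hlam := lam_ne h
  have h1 : D.poly ℂ lam ∣ Sp D c :=
    ((hIRP ℂ D lam hlam).2 K x y h).1 (Sp D c) (by rw [ev2_Sp, hc])
  have h2 : Sp D c = 0 := by
    by_contra h3
    have h4 := degree_le_of_dvd h1 h3
    have h5 : (D.poly ℂ lam).degree = D.n := by
      rw [degree_eq_natDegree, IRPM.poly_natDegree ℂ D lam hlam]
      intro h6
      have := IRPM.poly_natDegree ℂ D lam hlam
      rw [h6, natDegree_zero] at this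
      have := D.hn
      omega
    rw [h5] at h4
    exact absurd (Sp_degree D c) (not_lt.mpr h4)
  refine (hNWL D c).1 fun j => ?_
  rw [← Sp_eval, h2, eval_zero]

theorem vv_eval_R (D : Gr) (c : Fin D.n → ℂ[X]) {j l : Fin D.n} (h : j ≠ l) {r : ℤ}
    (hr : r ∈ D.R j l) : (D.vv c j).eval (r : ℂ) = (D.vv c l).eval (r : ℂ) := by
  have h1 : (D.Pc j).eval (r : ℂ) = (D.Pc l).eval (r : ℂ) := by
    rw [Pc_eval, Pc_eval, D.b_intCast, D.b_intCast, (D.mem_R h r).mp hr]
  simp only [Gr.vv, eval_finsetSum, eval_mul, eval_prod, Polynomial.eval_sub, h1]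

theorem last_iff (hNWL : SpecNWL) (D : Gr) (c : Fin D.n → ℂ[X]) :
    (∀ k : Fin D.n, k.val + 1 = D.n → (∏ i, (X - C (D.a i : ℂ))) ∣ c k) ↔
      ∀ i, ∑ j, (D.vv c j).eval (D.a i : ℂ) / ∏ l ∈ Finset.univ.erase j,
        ((D.Pc j).eval (D.a i : ℂ) - (D.Pc l).eval (D.a i : ℂ)) = 0 := by
  have hn : 0 < D.n := lt_of_lt_of_le (by norm_num) D.hn
  have ha : ∀ i, ∀ j l, j ≠ l → (D.Pc j).eval (D.a i : ℂ) ≠ (D.Pc l).eval (D.a i : ℂ) := by
    intro i j l hjl
    rw [Pc_eval, Pc_eval]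
    exact D.prod_ne hjl (D.cross_a j l i hjl)
  constructor
  · intro h i
    have hk : (⟨D.n - 1, by omega⟩ : Fin D.n).val + 1 = D.n := by
      show D.n - 1 + 1 = D.n
      omega
    rw [← (hNWL D c).2 _ (ha i) ⟨D.n - 1, by omega⟩ hk]
    have h1 : X - C (D.a i : ℂ) ∣ c ⟨D.n - 1, by omega⟩ :=
      (Finset.dvd_prod_of_mem (fun i => X - C (D.a i : ℂ)) (Finset.mem_univ i)).trans (h _ hk)
    exact dvd_iff_isRoot.mp h1
  · intro h k hk
    refine Finset.prod_dvd_of_coprime ?_ ?_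
    · intro i _ i' _ hii
      refine isCoprime_X_sub_C_of_isUnit_sub ?_
      rw [isUnit_iff_ne_zero, sub_ne_zero, Ne, Int.cast_inj]
      exact fun h' => hii (D.a_inj h')
    · intro i _
      rw [dvd_iff_isRoot, IsRoot.def, (hNWL D c).2 _ (ha i) k hk]
      exact h i

end DIMM

theorem specDIM (hIRP : SpecIRP) (hNWL : SpecNWL) (hVAL : SpecVAL) (hNWT : SpecNWT)
    (hRSD : SpecRSD) : SpecDIM := by
  intro K _ _ D lam x y hC
  obtain ⟨S, hS, hfin, hrank⟩ := hRSD D
  have hPhi := DIMM.Phi_inj hIRP hNWL hC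
  have hPsi := DIMM.Psi_inj hNWL D
  have hST : (S.comap (DIMM.Psi D)).map (DIMM.Psi D) = S := by
    rw [Submodule.map_comap_eq, inf_eq_right]
    intro v hv
    obtain ⟨c, hc⟩ := hNWT D v ((hS v).mp hv).2.1
    exact ⟨c, funext fun j => (hc j).symm⟩
  let e1 : S.comap (DIMM.Psi D) ≃ₗ[ℂ] (S.comap (DIMM.Psi D)).map (DIMM.Psi D) :=
    Submodule.equivMapOfInjective _ hPsi _
  let e2 : S.comap (DIMM.Psi D) ≃ₗ[ℂ] (S.comap (DIMM.Psi D)).map (DIMM.Phi D x y) :=
    Submodule.equivMapOfInjective _ hPhi _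
  let e : S ≃ₗ[ℂ] (S.comap (DIMM.Psi D)).map (DIMM.Phi D x y) :=
    (LinearEquiv.ofEq _ _ hST.symm).trans (e1.symm.trans e2)
  refine ⟨(S.comap (DIMM.Psi D)).map (DIMM.Phi D x y), fun q => ?_, ?_, ?_⟩
  · rw [Submodule.mem_map]
    constructor
    · rintro ⟨c, hc, rfl⟩
      have hW : D.Wv (fun j => D.vv c j) := (hS _).mp hc
      refine ⟨⟨c, (DIMM.last_iff hNWL D c).mpr hW.2.2, rfl⟩, ?_⟩
      exact (hVAL K D lam x y hC c).mpr hW.1
    · rintro ⟨⟨c, hc1, rfl⟩, hc2⟩
      refine ⟨c, ?_, rfl⟩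
      refine (hS _).mpr ⟨(hVAL K D lam x y hC c).mp hc2, fun j l hjl r hr =>
        DIMM.vv_eval_R D c hjl hr, (DIMM.last_iff hNWL D c).mp hc1⟩
  · exact Module.Finite.equiv e
  · rw [← e.finrank_eq, hrank]

end MP743d1e.GA
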