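import Pool.Agent.Lib.MP_743d1e_nt.Statement

/-!
# Arrangements of graphs: data, and the model of the regulators

`m` vertical lines `x = a i` and `n` graphs `y = P j (x)` of integral polynomials whose differences
are `P j - P l = kap j l * ∏_{r ∈ R j l} (x - r)`. The curve is
`lam * ∏ (x - a i) * ∏ (y - P j (x)) = 1`.
-/

set_option autoImplicit false

namespace MP743d1e.GA

open scoped BigOperators
open Polynomial

/-- An arrangement of `m ≥ 1` vertical lines `x = a i` and `n ≥ 2` graphs `y = P j (x)` of integral
polynomials (of any degrees), such that two of the graphs meet transversally in points with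
integral abscissas (the set `R j l`; it is empty if the difference is a constant), which are none of
the `a i`, and no three graphs meet in one point. -/
structure Gr where
  m : ℕ
  n : ℕ
  a : Fin m → ℤ
  P : Fin n → ℤ[X]
  kap : Fin n → Fin n → ℤ
  R : Fin n → Fin n → Finset ℤ
  hm : 1 ≤ m
  hn : 2 ≤ n
  a_inj : Function.Injective a
  kap_ne : ∀ j l, j ≠ l → kap j l ≠ 0
  diff : ∀ j l, j ≠ l → P j - P l = C (kap j l) * ∏ r ∈ R j l, (X - C r)
  cross_a : ∀ j l i, j ≠ l → a i ∉ R j l
  no_triple : ∀ j l l', j ≠ l → j ≠ l' → l ≠ l' → Disjoint (R j l) (R j l')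

namespace Gr

variable (D : Gr)

/-- The value of the `j`-th polynomial. -/
noncomputable def b {K : Type} [Field K] (j : Fin D.n) (x : K) : K := aeval x (D.P j)

/-- The number of crossings of the graphs. -/
def crossings : ℕ :=
  ∑ z ∈ (Finset.univ : Finset (Fin D.n × Fin D.n)).filter (fun z => z.1 < z.2), (D.R z.1 z.2).card

/-- The genus of the arrangement. -/
def g : ℕ := (D.m - 1) * (D.n - 1) + D.crossings

/-- The number of all crossings, those with the vertical lines included. -/
def e : ℕ := D.m * D.n + D.crossings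

/-- The first vertical line. -/
def i0 : Fin D.m := ⟨0, D.hm⟩

/-- The first graph. -/
def j0 : Fin D.n := ⟨0, lt_of_lt_of_le (by norm_num) D.hn⟩

/-- The abscissas of the crossings on the `j`-th graph with other graphs. -/
def cr (j : Fin D.n) : Finset ℤ := (Finset.univ.erase j).biUnion (D.R j)

/-- The abscissas of all crossings on the `j`-th graph. -/
def ns (j : Fin D.n) : Finset ℤ := Finset.univ.image D.a ∪ D.cr j

/-- The index set of the symbols and of the loops. -/
abbrev Idx : Type :=
  {z : Fin D.m × Fin D.n // z.1 ≠ D.i0 ∧ z.2 ≠ D.j0} ⊕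
    (Σ z : {z : Fin D.n × Fin D.n // z.1 < z.2}, {c : ℤ // c ∈ D.R z.1.1 z.1.2})

/-- The centre of the loop, and the zero of the first entry of the symbol. -/
def ctr : D.Idx → ℤ
  | Sum.inl z => D.a z.1.1
  | Sum.inr z => z.2.1

/-- The graph of the numerator. -/
def l1 : D.Idx → Fin D.n
  | Sum.inl z => z.1.2
  | Sum.inr z => z.1.1.1

/-- The graph of the denominator. -/
def l2 : D.Idx → Fin D.n
  | Sum.inl _ => D.j0
  | Sum.inr z => z.1.1.2

/-- A lower bound for `|x - s|` on the circles around `c` with radius between `3 / 8` and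
`1 / 2`. -/
noncomputable def fx (c s : ℤ) : ℝ := if s = c then 3 / 8 else |(c : ℝ) - s| - 1 / 2

/-- A lower bound for `|lam * ∏ (x - a i) * ∏ (P j - P l)|` on the circles around `c` with radius
between `3 / 8` and `1 / 2` (the second product is over `l ≠ j`). -/
noncomputable def mu (lam : ℤ) (j : Fin D.n) (c : ℤ) : ℝ :=
  |(lam : ℝ)| * (∏ i, fx c (D.a i)) *
    ∏ l ∈ Finset.univ.erase j, (|(D.kap j l : ℝ)| * ∏ r ∈ D.R j l, fx c r)

/-- The logarithm of the distance of the graphs `j` and `l` above `s`, or of the absolute value of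
the difference of their slopes if they meet above `s`. (`Real.log 0 = 0` is used.) -/
noncomputable def lk (j l : Fin D.n) (s : ℤ) : ℝ :=
  Real.log |(D.kap j l : ℝ)| + ∑ r ∈ D.R j l, Real.log |(s : ℝ) - r|

/-- The logarithm of the absolute value of `lam * ∏ (c - a i) * ∏ (P j - P l)(c)`, without the
factor which is zero. -/
noncomputable def Lam (lam : ℤ) (j : Fin D.n) (c : ℤ) : ℝ :=
  Real.log |(lam : ℝ)| + ∑ i, Real.log |(c : ℝ) - D.a i| + ∑ l ∈ Finset.univ.erase j, D.lk j l c

/-- The model of the regulator of `{x - s, y - P l}` along the circle around `c` on the `j`-th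
sheet, divided by `2 * π`, where `c` is the abscissa of a crossing on the `j`-th graph. -/
noncomputable def psi (lam : ℤ) (j : Fin D.n) (c s : ℤ) (l : Fin D.n) : ℝ :=
  if l = j then (if s = c then D.Lam lam j c else 0) - Real.log |(c : ℝ) - s|
  else (if c ∈ D.R j l then Real.log |(c : ℝ) - s| else 0) - if s = c then D.lk j l c else 0

/-- The model of the regulator of the `i`-th symbol
`{(x - ctr i) / (x - a 0), (y - P (l1 i)) / (y - P (l2 i))}` along the `k`-th loop (the circle
around `ctr k` on the sheet `l1 k`), divided by `2 * π`. -/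
noncomputable def A (lam : ℤ) (i k : D.Idx) : ℝ :=
  D.psi lam (D.l1 k) (D.ctr k) (D.ctr i) (D.l1 i) - D.psi lam (D.l1 k) (D.ctr k) (D.ctr i) (D.l2 i) -
    D.psi lam (D.l1 k) (D.ctr k) (D.a D.i0) (D.l1 i) +
    D.psi lam (D.l1 k) (D.ctr k) (D.a D.i0) (D.l2 i)

end Gr

end MP743d1e.GA
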