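import Pool.Agent.Lib.MP_743d1e_nt.GA.Data
import Pool.Agent.Lib.MP_743d1e_nt.Statement

/-!
# Arrangements of graphs: the curve, the symbols and the conclusion

`GA/Data.lean` contains the arrangements `Gr` and the model `A` of the regulator matrix.
-/

set_option autoImplicit false

namespace MP743d1e.GA

open scoped BigOperators
open Polynomial

/-- `IsCurveG k K D lam x y`: `K` is the function field `k(x, y)` of the plane curve
`lam * ∏ (x - a i) * ∏ (y - P j (x)) = 1` over the field `k`. -/
structure IsCurveG (k K : Type) [Field k] [Field K] [Algebra k K] (D : Gr) (lam : ℤ) (x y : K) :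
    Prop where
  transc : Transcendental k x
  gen : IntermediateField.adjoin k {x, y} = ⊤
  eqn : (lam : K) * (∏ i, (x - (D.a i : K))) * (∏ j, (y - D.b j x)) = 1

namespace Gr

variable (D : Gr)

/-- `c` is the abscissa of a point in which another curve of the arrangement meets the graph `j`. -/
def Node (j : Fin D.n) (c : ℤ) : Prop := (∃ i, c = D.a i) ∨ ∃ l, l ≠ j ∧ c ∈ D.R j l

/-- The number of common points of the graph `j` with the other graphs. -/
def s (j : Fin D.n) : ℕ := ∑ l ∈ Finset.univ.erase j, (D.R j l).card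

/-- The largest degree of a difference `P j - P l`. -/
noncomputable def d : ℕ :=
  (Finset.univ : Finset (Fin D.n × Fin D.n)).sup fun z => (D.P z.1 - D.P z.2).natDegree

/-- The threshold `50 n e ^ (3 / 2)`, where `e` is the number of nodes. -/
noncomputable def thr : ℝ := 50 * D.n * D.e * Real.sqrt D.e

/-- The condition for the gonality to be `n`. -/
def GonCond : Prop := ∀ j, (D.n - 2) * max 1 (D.P j).natDegree + 2 ≤ D.m + D.s j

/-- The data of the arrangement. -/
def data : Σ m n : ℕ, (Fin m → ℤ) × (Fin n → ℤ[X]) := ⟨D.m, D.n, D.a, D.P⟩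

end Gr

section Units

variable (K : Type) [Field K] [Algebra ℚ K]

/-- The group generated by the constants and the functions `x - a i`, `y - P j (x)`. -/
def unitsG (D : Gr) (x y : K) : Subgroup Kˣ :=
  Subgroup.closure ({u | ∃ c : ℚ, (u : K) = algebraMap ℚ K c} ∪
    {u | ∃ i, (u : K) = x - (D.a i : K)} ∪ {u | ∃ j, (u : K) = y - D.b j x})

/-- The subgroup generated by the symbols of a constant and an element of `unitsG`. -/
def symCG (D : Gr) (x y : K) : AddSubgroup (K2 K) :=
  AddSubgroup.closure {z | ∃ u : Kˣ, (∃ c : ℚ, (u : K) = algebraMap ℚ K c) ∧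
    ∃ w ∈ unitsG K D x y, z = sym u w}

/-- The subgroup of `K2 K` generated by the symbols `{c, u}` (`c` constant, `u` in `unitsG`),
`{x - a i, y - P j}` and `{x - r, (y - P j) / (y - P l)}` with `r ∈ R j l`. -/
def symG (D : Gr) (x y : K) : AddSubgroup (K2 K) :=
  AddSubgroup.closure ({z | z ∈ symCG K D x y} ∪
    {z | ∃ (u w : Kˣ) (i : Fin D.m) (j : Fin D.n), (u : K) = x - (D.a i : K) ∧
      (w : K) = y - D.b j x ∧ z = sym u w} ∪
    {z | ∃ (u w : Kˣ) (j l : Fin D.n) (r : ℤ), j ≠ l ∧ r ∈ D.R j l ∧ (u : K) = x - (r : K) ∧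
      (w : K) * (y - D.b l x) = y - D.b j x ∧ z = sym u w})

end Units

/-- `α` consists of unramified elements of `symG`, and every unramified element of `symG` has a
positive multiple in the group they generate. -/
def SpansG {K : Type} [Field K] [Algebra ℚ K] (D : Gr) (x y : K) (α : Fin D.g → K2 K) : Prop :=
  (∀ i, Unramified (α i) ∧ α i ∈ symG K D x y) ∧
    ∀ β ∈ symG K D x y, Unramified β →
      ∃ N : ℕ, 0 < N ∧ N • β ∈ AddSubgroup.closure (Set.range α)

/-- `α i` is the symbol with index `e' i`. -/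
def IsSymG {K : Type} [Field K] (D : Gr) (x y : K) (e' : Fin D.g ≃ D.Idx) (α : Fin D.g → K2 K) :
    Prop :=
  ∀ i, ∃ u w : Kˣ, (u : K) * (x - (D.a D.i0 : K)) = x - (D.ctr (e' i) : K) ∧
    (w : K) * (y - D.b (D.l2 (e' i)) x) = y - D.b (D.l1 (e' i)) x ∧ α i = sym u w

/-- The regulators of the `α i` along the loops `γ k` are `2 * π * A` up to an error at most
`272 * n / Λ`, and their determinant has absolute value at least `(2 * log Λ) ^ g`. -/
def RegG {K : Type} [Field K] (D : Gr) (lam : ℤ) (Λ : ℝ) (e' : Fin D.g ≃ D.Idx)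
    (α : Fin D.g → K2 K) (γ : Fin D.g → Loop K) : Prop :=
  (∀ i k, |reg (γ k) (α i) - 2 * Real.pi * D.A lam (e' i) (e' k)| ≤ 272 * D.n / Λ) ∧
    (2 * Real.log Λ) ^ D.g ≤ |(Matrix.of fun i k => reg (γ k) (α i)).det|

/-- The conclusion for the curve `lam * ∏ (x - a i) * ∏ (y - P j (x)) = 1`: it exists over `ℚ` and
over `ℂ`, `ℚ` is algebraically closed in the function field over `ℚ`; there are `D.g` explicit
unramified elements of `symG` which up to torsion span all unramified elements of `symG`, and `D.g`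
loops along which their regulators are as in `RegG`; over `ℂ` the genus is `D.g` and, under
`GonCond`, the gonality is `n`. -/
def ConclG (D : Gr) (lam : ℤ) (Λ : ℝ) : Prop :=
  (∃ (K : Type) (_ : Field K) (_ : Algebra ℚ K) (x y : K), IsCurveG ℚ K D lam x y) ∧
  (∃ (K : Type) (_ : Field K) (_ : Algebra ℂ K) (x y : K), IsCurveG ℂ K D lam x y) ∧
  (∀ (K : Type) [Field K] [Algebra ℚ K] (x y : K), IsCurveG ℚ K D lam x y →
    ConstQ K ∧ ∃ (e' : Fin D.g ≃ D.Idx) (α : Fin D.g → K2 K) (γ : Fin D.g → Loop K),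
      IsSymG D x y e' α ∧ SpansG D x y α ∧ RegG D lam Λ e' α γ) ∧
  (∀ (K : Type) [Field K] [Algebra ℂ K] (x y : K), IsCurveG ℂ K D lam x y →
    HasGenus K D.g ∧ (D.GonCond → HasGonality K x D.n))

end MP743d1e.GA
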