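import Pool.Agent.Lib.MP_743d1e_nt.GA.IRP
import Pool.Agent.Lib.MP_743d1e_nt.Inf

/-!
# Module INP: the points at infinity of the curve of an arrangement of graphs
-/

set_option autoImplicit false
set_option linter.unusedSectionVars false

namespace MP743d1e.GA

open scoped BigOperators
open Polynomial

namespace INPM

open MP743d1e.Inf (isU_iff v_const v_int v_int_le v_x_sub R Cg t_mem z_mem cg_of_mem v_R adjoin_inv
  ev2_surj dvd_of_ev2 one_sub_ne)

variable {K : Type} [Field K] [Algebra ℂ K]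

section Vals

variable {D : Gr} {lam : ℤ} {x y : K}

lemma lam_ne (h : IsCurveG ℂ K D lam x y) : lam ≠ 0 := by
  rintro rfl
  have := h.eqn
  simp at this

lemma v_eqn (h : IsCurveG ℂ K D lam x y) (V : ValuationSubring K) (hV : OverC V) (hx : x ∉ V) :
    V.valuation x ^ D.m * ∏ l, V.valuation (y - D.b l x) = 1 := by
  have h1 := congrArg V.valuation h.eqn
  rw [map_mul, map_mul, map_prod, map_prod, v_int V hV (lam_ne h), one_mul, map_one] at h1
  rw [← h1]
  congr 1
  rw [Finset.prod_congr rfl fun i _ => v_x_sub V hV hx (D.a i)]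
  simp

lemma charZero (K : Type) [Field K] [Algebra ℂ K] : CharZero K :=
  charZero_of_injective_algebraMap (algebraMap ℂ K).injective

/-- The size of the difference of two graphs. -/
lemma v_sub (D : Gr) (V : ValuationSubring K) (hV : OverC V) (hx : x ∉ V) {j l : Fin D.n}
    (hjl : j ≠ l) : V.valuation (D.b j x - D.b l x) = V.valuation x ^ (D.R j l).card := by
  rw [D.b_sub hjl, map_mul, v_int V hV (D.kap_ne j l hjl), one_mul, map_prod,
    Finset.prod_congr rfl fun r _ => v_x_sub V hV hx r, Finset.prod_const]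

/-- The values of all the linear forms at a point at infinity. -/
lemma vals (h : IsCurveG ℂ K D lam x y) (V : ValuationSubring K) (hV : OverC V) (hx : x ∉ V)
    (j : Fin D.n) (hj : V.valuation (y - D.b j x) < 1) :
    (∀ l, l ≠ j → V.valuation (y - D.b l x) = V.valuation x ^ (D.R j l).card) ∧
    V.valuation (y - D.b j x) * V.valuation x ^ (D.m + D.s j) = 1 := by
  have h1 : 1 < V.valuation x := by
    rwa [← not_le, V.valuation_le_one_iff]
  have hA : ∀ l, l ≠ j → V.valuation (y - D.b l x) = V.valuation x ^ (D.R j l).card := by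
    intro l hl
    have hb : y - D.b l x = (D.b j x - D.b l x) + (y - D.b j x) := by ring
    rw [hb, Valuation.map_add_eq_of_lt_left, v_sub D V hV hx (Ne.symm hl)]
    rw [v_sub D V hV hx (Ne.symm hl)]
    exact lt_of_lt_of_le hj (one_le_pow₀ h1.le)
  refine ⟨hA, ?_⟩
  have h3 := v_eqn h V hV hx
  have h4 : ∏ l, V.valuation (y - D.b l x) =
      V.valuation (y - D.b j x) * V.valuation x ^ D.s j := by
    rw [← Finset.mul_prod_erase _ _ (Finset.mem_univ j), Gr.s,
      Finset.prod_congr rfl fun l hl => hA l (Finset.ne_of_mem_erase hl),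
      Finset.prod_pow_eq_pow_sum]
  rw [h4] at h3
  rw [pow_add, ← h3]
  exact mul_left_comm _ _ _

lemma v_of_atInf (V : ValuationSubring K) (j : Fin D.n) (hj : AtInfG D x y V j) :
    V.valuation (y - D.b j x) < 1 := by
  have hm := D.hm
  have h1 : 1 < V.valuation x := by
    rw [← not_le, V.valuation_le_one_iff]
    exact hj.1
  have h2 : V.valuation (y - D.b j x) * V.valuation x ^ (D.m + D.s j) ≤ 1 := by
    rw [← map_pow, ← map_mul, V.valuation_le_one_iff]
    exact hj.2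
  by_contra hc
  rw [not_lt] at hc
  have h3 : 1 < V.valuation x ^ (D.m + D.s j) := one_lt_pow₀ h1 (by omega)
  have h4 : 1 * V.valuation x ^ (D.m + D.s j) ≤
      V.valuation (y - D.b j x) * V.valuation x ^ (D.m + D.s j) := mul_le_mul_left hc _
  rw [one_mul] at h4
  exact absurd (h3.trans_le h4) (not_lt.mpr h2)

/-- Part 1. -/
theorem exists_atInf (h : IsCurveG ℂ K D lam x y) (V : ValuationSubring K) (hV : OverC V)
    (hx : x ∉ V) : ∃ j, AtInfG D x y V j := by
  have hm := D.hm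
  have h1 : 1 < V.valuation x := by
    rwa [← not_le, V.valuation_le_one_iff]
  obtain ⟨j, -, hj⟩ := Finset.exists_min_image (Finset.univ : Finset (Fin D.n))
    (fun l => V.valuation (y - D.b l x)) ⟨D.j0, Finset.mem_univ _⟩
  have hlt : V.valuation (y - D.b j x) < 1 := by
    by_contra hc
    rw [not_lt] at hc
    have h2 := v_eqn h V hV hx
    have h3 : 1 ≤ ∏ l, V.valuation (y - D.b l x) :=
      Finset.one_le_prod' fun l _ => hc.trans (hj l (Finset.mem_univ l))
    have h4 : 1 < V.valuation x ^ D.m := one_lt_pow₀ h1 (by omega)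
    have h5 : V.valuation x ^ D.m * 1 ≤ V.valuation x ^ D.m * ∏ l, V.valuation (y - D.b l x) :=
      mul_le_mul_right h3 _
    rw [mul_one, h2] at h5
    exact absurd h4 (not_lt.mpr h5)
  refine ⟨j, hx, ?_⟩
  rw [← V.valuation_le_one_iff, map_mul, map_pow]
  exact (vals h V hV hx j hlt).2.le

/-- Part 3, the units. -/
theorem units (h : IsCurveG ℂ K D lam x y) (V : ValuationSubring K) (j : Fin D.n) (hV : OverC V)
    (hj : AtInfG D x y V j) :
    IsU V ((y - D.b j x) * x ^ (D.m + D.s j)) ∧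
      (∀ l, l ≠ j → IsU V ((y - D.b l x) * x ^ (-((D.R j l).card : ℤ)))) := by
  have h1 : 1 < V.valuation x := by
    rw [← not_le, V.valuation_le_one_iff]
    exact hj.1
  obtain ⟨hA, hC⟩ := vals h V hV hj.1 j (v_of_atInf V j hj)
  refine ⟨?_, fun l hl => ?_⟩
  · rw [isU_iff, map_mul, map_pow]
    exact hC
  · rw [isU_iff, map_mul, map_zpow₀, hA l hl, zpow_neg, zpow_natCast]
    exact mul_inv_cancel₀ (pow_ne_zero _ (zero_lt_one.trans h1).ne')

end Vals

/-! ### The local structure -/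

section Local

variable {D : Gr} {lam : ℤ} {x y : K}

/-- The inverse of `z`. -/
noncomputable def PP (D : Gr) (lam : ℤ) (x y : K) (j : Fin D.n) : K :=
  (lam : K) * (∏ i, (1 - (D.a i : K) * x⁻¹)) *
    ∏ l ∈ Finset.univ.erase j, ((y - D.b l x) * x⁻¹ ^ (D.R j l).card)

lemma z_mul_PP (h : IsCurveG ℂ K D lam x y) (hx : x ≠ 0) (j : Fin D.n) :
    (y - D.b j x) * x ^ (D.m + D.s j) * PP D lam x y j = 1 := by
  unfold PP
  have h1 : (∏ i, (1 - (D.a i : K) * x⁻¹)) = (∏ i, (x - (D.a i : K))) * (x⁻¹) ^ D.m := by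
    have : ∀ i ∈ (Finset.univ : Finset (Fin D.m)), (1 - (D.a i : K) * x⁻¹) =
        (x - (D.a i : K)) * x⁻¹ := by
      intro i _
      field_simp
    rw [Finset.prod_congr rfl this, Finset.prod_mul_distrib, Finset.prod_const, Finset.card_univ,
      Fintype.card_fin]
  have h2 : (∏ l ∈ Finset.univ.erase j, ((y - D.b l x) * x⁻¹ ^ (D.R j l).card)) =
      (∏ l ∈ Finset.univ.erase j, (y - D.b l x)) * (x⁻¹) ^ D.s j := by
    rw [Finset.prod_mul_distrib, Finset.prod_pow_eq_pow_sum, Gr.s]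
  rw [h1, h2]
  have h3 := h.eqn
  rw [← Finset.mul_prod_erase Finset.univ (fun l => y - D.b l x) (Finset.mem_univ j)] at h3
  rw [← h3, pow_add, inv_pow, inv_pow]
  field_simp

/-- The factor of the equation that belongs to the graph `l`. -/
lemma fac_eq (hx : x ≠ 0) {j l : Fin D.n} (hjl : j ≠ l) :
    (y - D.b l x) * x⁻¹ ^ (D.R j l).card =
      (D.kap j l : K) * ∏ r ∈ D.R j l, (1 - (r : K) * x⁻¹) +
        (y - D.b j x) * x ^ (D.m + D.s j) * x⁻¹ ^ (D.m + D.s j + (D.R j l).card) := by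
  have h1 : ∏ r ∈ D.R j l, (1 - (r : K) * x⁻¹) =
      (∏ r ∈ D.R j l, (x - (r : K))) * x⁻¹ ^ (D.R j l).card := by
    rw [← Finset.prod_const, ← Finset.prod_mul_distrib]
    refine Finset.prod_congr rfl fun r _ => ?_
    field_simp
  have h2 : x ^ (D.m + D.s j) * x⁻¹ ^ (D.m + D.s j) = 1 := by
    rw [← mul_pow, mul_inv_cancel₀ hx, one_pow]
  have hb : y - D.b l x = (D.b j x - D.b l x) + (y - D.b j x) := by ring
  rw [hb, D.b_sub hjl, h1, pow_add]
  linear_combination -(y - D.b j x) * x⁻¹ ^ (D.R j l).card * h2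

lemma cg_PP (h : IsCurveG ℂ K D lam x y) (hx : x ≠ 0) (j : Fin D.n) :
    ∃ c : ℂ, c ≠ 0 ∧ Cg (x⁻¹) ((y - D.b j x) * x ^ (D.m + D.s j)) c (PP D lam x y j) := by
  have hm := D.hm
  set t := x⁻¹ with ht
  set z := (y - D.b j x) * x ^ (D.m + D.s j) with hz
  have hpow : ∀ s : ℕ, t ^ s ∈ R t z := fun s => pow_mem (t_mem t z) s
  refine ⟨(lam : ℂ) * (∏ _i : Fin D.m, (1 : ℂ)) * ∏ l ∈ Finset.univ.erase j,
    (((D.kap j l : ℤ) : ℂ) * (∏ _r ∈ D.R j l, (1 : ℂ)) + 0), ?_, ?_⟩
  · refine mul_ne_zero (mul_ne_zero (by exact_mod_cast lam_ne h) (by simp)) ?_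
    refine Finset.prod_ne_zero_iff.mpr fun l hl => ?_
    rw [Finset.prod_const_one, mul_one, add_zero]
    exact_mod_cast D.kap_ne j l (Finset.ne_of_mem_erase hl).symm
  · have hone : ∀ r : ℤ, Cg t z 1 (1 - (r : K) * t) := by
      intro r
      refine ⟨-(r : K), neg_mem (intCast_mem _ _), ?_⟩
      rw [map_one]
      ring
    unfold PP
    refine ((Inf.Cg.int t z lam).mul (Inf.Cg.prod _ _ _ fun i _ => hone _)).mul
      (Inf.Cg.prod _ _ _ fun l hl => ?_)
    rw [← ht, fac_eq hx (Finset.ne_of_mem_erase hl).symm, ← ht, ← hz]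
    refine ((Inf.Cg.int t z _).mul (Inf.Cg.prod _ _ _ fun r _ => hone _)).add ?_
    refine ⟨z * t ^ (D.m + D.s j + (D.R j l).card - 1), mul_mem (z_mem t z) (hpow _), ?_⟩
    have h1 : t ^ (D.m + D.s j + (D.R j l).card) =
        t * t ^ (D.m + D.s j + (D.R j l).card - 1) := by
      rw [← pow_succ']
      congr 1
      omega
    rw [h1, map_zero]
    ring

end Local

/-! ### Part 3: the uniformizer -/

section Unif

variable {D : Gr} {lam : ℤ} {x y : K}

lemma x_ne (h : IsCurveG ℂ K D lam x y) : x ≠ 0 := by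
  rintro rfl
  exact h.transc (isAlgebraic_zero)

lemma fin_inv (h : IsCurveG ℂ K D lam x y) :
    FiniteDimensional (IntermediateField.adjoin ℂ {x⁻¹}) K ∧
      Module.finrank (IntermediateField.adjoin ℂ {x⁻¹}) K = D.n := by
  have key : ∀ E : IntermediateField ℂ K, E = IntermediateField.adjoin ℂ {x} →
      FiniteDimensional E K ∧ Module.finrank E K = D.n := by
    rintro E rfl
    exact (IRPM.main h (lam_ne h)).2
  exact key _ (adjoin_inv x)

lemma gen_tz (h : IsCurveG ℂ K D lam x y) (j : Fin D.n) (N : ℕ) :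
    IntermediateField.adjoin ℂ {x⁻¹, (y - D.b j x) * x ^ N} = ⊤ := by
  have hx := x_ne h
  rw [eq_top_iff, ← h.gen, IntermediateField.adjoin_le_iff]
  set L := IntermediateField.adjoin ℂ {x⁻¹, (y - D.b j x) * x ^ N} with hL
  have htL : x⁻¹ ∈ L := IntermediateField.subset_adjoin _ _ (Set.mem_insert _ _)
  have hzL : (y - D.b j x) * x ^ N ∈ L :=
    IntermediateField.subset_adjoin _ _ (Set.mem_insert_of_mem _ rfl)
  have hxL : x ∈ L := by
    have := inv_mem htL
    rwa [inv_inv] at this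
  rintro w (rfl | rfl)
  · exact hxL
  · have h1 : w = ((w - D.b j x) * x ^ N) * (x⁻¹) ^ N + D.b j x := by
      rw [mul_assoc, ← mul_pow, mul_inv_cancel₀ hx, one_pow, mul_one]
      ring
    show w ∈ L
    rw [h1]
    refine add_mem (mul_mem hzL (pow_mem htL _)) ?_
    exact IRPM.b_mem L.toSubring hxL j

/-- Part 3, the uniformizer. -/
theorem unif (h : IsCurveG ℂ K D lam x y) (V : ValuationSubring K) (j : Fin D.n) (hV : OverC V)
    (hj : AtInfG D x y V j) (a : K) (ha : a ≠ 0) : ∃ k : ℤ, IsU V (a * x ^ k) := by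
  have hx := x_ne h
  have h1 : 1 < V.valuation x := by
    rw [← not_le, V.valuation_le_one_iff]
    exact hj.1
  have ht : V.valuation x⁻¹ < 1 := by
    rw [map_inv₀]
    exact (inv_lt_one₀ (zero_lt_one.trans h1)).mpr h1
  have ht0 : x⁻¹ ≠ 0 := inv_ne_zero hx
  have hfin := (fin_inv h).1
  obtain ⟨c, hc, hP⟩ := cg_PP h hx j
  have hz := z_mul_PP h hx j
  have hmem : a ∈ IntermediateField.adjoin ℂ {x⁻¹, (y - D.b j x) * x ^ (D.m + D.s j)} := by
    rw [gen_tz h]
    exact IntermediateField.mem_top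
  obtain ⟨r, hr, s, hs, hrs⟩ := IntermediateField.mem_adjoin_iff_div.mp hmem
  have hr0 : r ≠ 0 := by
    rintro rfl
    rw [zero_div] at hrs
    exact ha hrs
  have hs0 : s ≠ 0 := by
    rintro rfl
    rw [div_zero] at hrs
    exact ha hrs
  obtain ⟨k, hk⟩ := v_R V hV ht hj.2 ht0 hc hP hz hr hr0
  obtain ⟨k', hk'⟩ := v_R V hV ht hj.2 ht0 hc hP hz hs hs0
  refine ⟨(k : ℤ) - k', ?_⟩
  have hv : V.valuation x ≠ 0 := (zero_lt_one.trans h1).ne'
  rw [isU_iff, map_mul, hrs, map_div₀, hk, hk', map_zpow₀, map_inv₀, ← zpow_natCast,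
    ← zpow_natCast, ← zpow_sub₀ (inv_ne_zero hv), inv_zpow, inv_mul_cancel₀ (zpow_ne_zero _ hv)]

end Unif

/-! ### Part 2: existence of the points -/

section Exist

/-- The factors of the equation at the `j`-th point at infinity. -/
noncomputable def fac (D : Gr) (j l : Fin D.n) : ℂ[X][X] :=
  C (X ^ (D.m + D.s j + (D.R j l).card)) * X +
    C (C ((D.kap j l : ℤ) : ℂ) * ∏ r ∈ D.R j l, (1 - C ((r : ℤ) : ℂ) * X))

/-- The polynomial version of `PP`. -/
noncomputable def PPp (D : Gr) (lam : ℤ) (j : Fin D.n) : ℂ[X][X] :=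
  C (C (lam : ℂ) * ∏ i, (1 - C (D.a i : ℂ) * X)) * ∏ l ∈ Finset.univ.erase j, fac D j l

/-- The equation in the coordinates `t = 1 / x` and `z`. -/
noncomputable def Hp (D : Gr) (lam : ℤ) (j : Fin D.n) : ℂ[X][X] := PPp D lam j * X - 1

lemma fac_natDegree (D : Gr) (j l : Fin D.n) : (fac D j l).natDegree = 1 := by
  unfold fac
  exact natDegree_linear (pow_ne_zero _ X_ne_zero)

lemma fac_ne (D : Gr) (j l : Fin D.n) : fac D j l ≠ 0 := by
  intro h
  have := fac_natDegree D j l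
  rw [h, natDegree_zero] at this
  exact zero_ne_one this

lemma cst_ne (D : Gr) {lam : ℤ} (hlam : lam ≠ 0) :
    (C (lam : ℂ) * ∏ i, (1 - C (D.a i : ℂ) * X) : ℂ[X]) ≠ 0 := by
  refine mul_ne_zero (by rw [Ne, C_eq_zero]; exact_mod_cast hlam) ?_
  exact Finset.prod_ne_zero_iff.mpr fun i _ => one_sub_ne _

lemma PPp_natDegree (D : Gr) {lam : ℤ} (hlam : lam ≠ 0) (j : Fin D.n) :
    (PPp D lam j).natDegree = D.n - 1 := by
  unfold PPp
  rw [natDegree_C_mul (cst_ne D hlam), natDegree_prod _ _ fun l _ => fac_ne D j l,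
    Finset.sum_congr rfl fun l _ => fac_natDegree D j l, Finset.sum_const,
    Finset.card_erase_of_mem (Finset.mem_univ _), Finset.card_univ, Fintype.card_fin, smul_eq_mul,
    mul_one]

lemma PPp_ne (D : Gr) {lam : ℤ} (hlam : lam ≠ 0) (j : Fin D.n) : PPp D lam j ≠ 0 := by
  unfold PPp
  refine mul_ne_zero (by rw [Ne, C_eq_zero]; exact cst_ne D hlam) ?_
  exact Finset.prod_ne_zero_iff.mpr fun l _ => fac_ne D j l

lemma Hp_natDegree (D : Gr) {lam : ℤ} (hlam : lam ≠ 0) (j : Fin D.n) :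
    (Hp D lam j).natDegree = D.n := by
  have hn := D.hn
  have h1 : (PPp D lam j * X).natDegree = D.n := by
    rw [natDegree_mul_X (PPp_ne D hlam j), PPp_natDegree D hlam j]
    omega
  unfold Hp
  rw [natDegree_sub_eq_left_of_natDegree_lt, h1]
  rw [h1, natDegree_one]
  omega

lemma Hp_prim (D : Gr) (lam : ℤ) (j : Fin D.n) : (Hp D lam j).IsPrimitive := by
  intro r hr
  have h1 := (C_dvd_iff_dvd_coeff _ _).mp hr 0
  unfold Hp at h1
  rw [coeff_sub, coeff_mul_X_zero, coeff_one_zero, zero_sub, dvd_neg] at h1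
  exact isUnit_of_dvd_one h1

variable {K : Type} [Field K] [Algebra ℂ K] {D : Gr} {lam : ℤ} {x y : K}

lemma ev2_PPp (_h : IsCurveG ℂ K D lam x y) (hx : x ≠ 0) (j : Fin D.n) :
    ev2 x⁻¹ ((y - D.b j x) * x ^ (D.m + D.s j)) (PPp D lam j) = PP D lam x y j := by
  unfold PPp PP ev2
  rw [eval₂_mul, eval₂_finsetProd, eval₂_C]
  congr 1
  · show aeval x⁻¹ (C (lam : ℂ) * ∏ i, (1 - C (D.a i : ℂ) * X)) = _
    rw [map_mul, map_prod]
    simp
  · refine Finset.prod_congr rfl fun l hl => ?_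
    unfold fac
    rw [eval₂_add, eval₂_mul, eval₂_C, eval₂_C, eval₂_X,
      fac_eq hx (Finset.ne_of_mem_erase hl).symm]
    show aeval x⁻¹ (X ^ (D.m + D.s j + (D.R j l).card)) * _ +
      aeval x⁻¹ (C ((D.kap j l : ℤ) : ℂ) * ∏ r ∈ D.R j l, (1 - C ((r : ℤ) : ℂ) * X)) = _
    rw [map_pow, aeval_X, map_mul, map_prod, aeval_C, map_intCast, add_comm]
    congr 1
    · congr 1
      refine Finset.prod_congr rfl fun r _ => ?_
      rw [map_sub, map_mul, aeval_C, aeval_X, map_intCast, map_one]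
    · exact mul_comm _ _

lemma ev2_Hp (h : IsCurveG ℂ K D lam x y) (hx : x ≠ 0) (j : Fin D.n) :
    ev2 x⁻¹ ((y - D.b j x) * x ^ (D.m + D.s j)) (Hp D lam j) = 0 := by
  have h1 := ev2_PPp h hx j
  have h2 := z_mul_PP h hx j
  unfold Hp
  unfold ev2 at h1 ⊢
  rw [eval₂_sub, eval₂_mul, h1, eval₂_X, eval₂_one, mul_comm, h2, sub_self]

lemma not_unit (D : Gr) {lam : ℤ} (hlam : lam ≠ 0) (j : Fin D.n) (F : ℂ[X][X]) :
    ¬ Hp D lam j ∣ 1 - C X * F := by
  intro hd
  have h1 := _root_.map_dvd (mapRingHom (evalRingHom (0 : ℂ))) hd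
  rw [map_sub, map_mul, map_one, coe_mapRingHom, map_C, coe_evalRingHom, eval_X, C_0, zero_mul,
    sub_zero] at h1
  have h2 : (Hp D lam j).map (evalRingHom (0 : ℂ)) = C ((lam : ℂ) *
      ∏ l ∈ Finset.univ.erase j, ((D.kap j l : ℤ) : ℂ)) * X - 1 := by
    unfold Hp PPp
    rw [Polynomial.map_sub, Polynomial.map_mul, Polynomial.map_mul, Polynomial.map_one, map_X,
      map_C, Polynomial.map_prod, C_mul]
    congr 3
    · congr 1
      rw [coe_evalRingHom, eval_mul, eval_C, eval_prod]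
      simp
    · rw [map_prod]
      refine Finset.prod_congr rfl fun l _ => ?_
      have hm := D.hm
      unfold fac
      rw [Polynomial.map_add, Polynomial.map_mul, map_C, map_C, map_X, coe_evalRingHom, eval_pow,
          eval_X, zero_pow (by omega), C_0, zero_mul, zero_add, eval_mul, eval_C, eval_prod]
      congr 1
      simp
  rw [h2] at h1
  have hc : (lam : ℂ) * ∏ l ∈ Finset.univ.erase j, ((D.kap j l : ℤ) : ℂ) ≠ 0 := by
    refine mul_ne_zero (by exact_mod_cast hlam) ?_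
    refine Finset.prod_ne_zero_iff.mpr fun l hl => ?_
    exact_mod_cast D.kap_ne j l (Finset.ne_of_mem_erase hl).symm
  have h3 := natDegree_eq_zero_of_isUnit (isUnit_of_dvd_one h1)
  rw [sub_eq_add_neg, ← C_1, ← C_neg, natDegree_linear hc] at h3
  exact one_ne_zero h3

theorem exists_point (h : IsCurveG ℂ K D lam x y) (j : Fin D.n) :
    ∃ V : ValuationSubring K, OverC V ∧ AtInfG D x y V j := by
  have hx := x_ne h
  have hlam := lam_ne h
  obtain ⟨hfd, hfr⟩ := fin_inv h
  have htr : Transcendental ℂ x⁻¹ := by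
    intro ha
    apply h.transc
    have := ha.inv
    rwa [inv_inv] at this
  set z := (y - D.b j x) * x ^ (D.m + D.s j) with hz
  have hI : Ideal.span {(⟨x⁻¹, t_mem x⁻¹ z⟩ : (R x⁻¹ z).toSubring)} ≠ ⊤ := by
    intro htop
    have h1 : (1 : (R x⁻¹ z).toSubring) ∈
        Ideal.span {(⟨x⁻¹, t_mem x⁻¹ z⟩ : (R x⁻¹ z).toSubring)} := by
      rw [htop]
      exact Submodule.mem_top
    rw [Ideal.mem_span_singleton] at h1
    obtain ⟨b, hb⟩ := h1
    obtain ⟨F, hF⟩ := ev2_surj x⁻¹ z b.2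
    have h2 : (1 : K) = x⁻¹ * (b : K) := congrArg Subtype.val hb
    refine not_unit D hlam j F (dvd_of_ev2 htr (gen_tz h j _) hfd hfr (Hp_prim D lam j)
      (Hp_natDegree D hlam j) (ev2_Hp h hx j) ?_)
    have h3 : ev2 x⁻¹ z (C X : ℂ[X][X]) = x⁻¹ := by
      rw [Irr.ev2_C, aeval_X]
    unfold ev2 at hF h3 ⊢
    rw [eval₂_sub, eval₂_one, eval₂_mul, hF, h3, h2, sub_self]
  obtain ⟨V, hV, hnon⟩ := Ideal.image_subset_nonunits_valuationSubring _ hI
  refine ⟨V, fun c => hV ((R x⁻¹ z).algebraMap_mem c), ?_, hV (z_mem x⁻¹ z)⟩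
  have h1 : x⁻¹ ∈ V.nonunits := hnon ⟨_, Ideal.subset_span rfl, rfl⟩
  exact (V.inv_mem_nonunits_iff.mp h1).resolve_left hx

end Exist

end INPM

theorem specINP : SpecINP := by
  intro K _ _ D lam x y h
  refine ⟨fun V hV hx => INPM.exists_atInf h V hV hx, fun j => INPM.exists_point h j,
    fun V j hV hj => ⟨fun a ha => INPM.unif h V j hV hj a ha, INPM.units h V j hV hj⟩⟩

end MP743d1e.GA
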