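import Pool.Agent.Lib.MP_743d1e_nt.GA.Spec
import Pool.Agent.Lib.MP_743d1e_nt.Irr

/-!
# Module IRP: irreducibility of the curve of an arrangement of graphs
-/

set_option autoImplicit false
set_option linter.unusedSectionVars false

namespace MP743d1e.GA

open scoped BigOperators
open Polynomial

namespace IRPM

variable (k : Type) [Field k] [CharZero k] (D : Gr) (lam : ℤ)

/-- `A = ∏ (x - a i)`. -/
noncomputable def A : k[X] := ∏ i, (X - C (D.a i : k))

/-- `b_j`. -/
noncomputable def bp (j : Fin D.n) : k[X] := (D.P j).map (Int.castRingHom k)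

/-- `β_j = b_j - b_0`. -/
noncomputable def bet (j : Fin D.n) : k[X] := bp k D j - bp k D D.j0

/-- The polynomial `∏_{j ≠ 0} (1 - β_j T)`. -/
noncomputable def Q : k[X][X] := ∏ j ∈ Finset.univ.erase D.j0, (1 - C (bet k D j) * X)

/-- The minimal polynomial of `1 / (y - b_0)`. -/
noncomputable def G : k[X][X] := X ^ D.n - C (C (lam : k) * A k D) * Q k D

lemma natDegree_Q_lt : (Q k D).natDegree < D.n := by
  have h1 : (Q k D).natDegree ≤ ∑ j ∈ Finset.univ.erase D.j0,
      (1 - C (bet k D j) * X : k[X][X]).natDegree := natDegree_prod_le _ _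
  have h2 : ∑ j ∈ Finset.univ.erase D.j0, (1 - C (bet k D j) * X : k[X][X]).natDegree ≤
      ∑ _j ∈ Finset.univ.erase D.j0, 1 := by
    refine Finset.sum_le_sum fun j _ => ?_
    refine (natDegree_sub_le _ _).trans ?_
    rw [natDegree_one]
    refine max_le (by norm_num) ?_
    refine (natDegree_C_mul_le _ _).trans ?_
    simp
  rw [Finset.sum_const, Finset.card_erase_of_mem (Finset.mem_univ _), Finset.card_univ,
    Fintype.card_fin, smul_eq_mul, mul_one] at h2
  have := D.hn
  omega

lemma natDegree_CQ_lt : (C (C (lam : k) * A k D) * Q k D).natDegree < D.n :=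
  lt_of_le_of_lt (natDegree_C_mul_le _ _) (natDegree_Q_lt k D)

lemma G_monic : (G k D lam).Monic := by
  unfold G
  refine Polynomial.monic_X_pow_sub ?_
  exact Polynomial.degree_lt_iff_coeff_zero _ _ |>.mpr fun i hi =>
    coeff_eq_zero_of_natDegree_lt (lt_of_lt_of_le (natDegree_CQ_lt k D lam) hi)

lemma G_natDegree : (G k D lam).natDegree = D.n := by
  unfold G
  rw [natDegree_sub_eq_left_of_natDegree_lt, natDegree_X_pow]
  rw [natDegree_X_pow]
  exact natDegree_CQ_lt k D lam

lemma A_split : A k D = (X - C (D.a D.i0 : k)) *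
    ∏ i ∈ Finset.univ.erase D.i0, (X - C (D.a i : k)) := by
  unfold A
  exact (Finset.mul_prod_erase Finset.univ (fun i => (X - C (D.a i : k))) (Finset.mem_univ _)).symm

lemma A_ne : A k D ≠ 0 := by
  unfold A
  exact (monic_prod_of_monic _ _ fun i _ => monic_X_sub_C _).ne_zero

lemma Q_coeff_zero : (Q k D).coeff 0 = 1 := by
  rw [coeff_zero_eq_eval_zero]
  unfold Q
  rw [eval_prod]
  refine Finset.prod_eq_one fun j _ => ?_
  simp

lemma G_irreducible (hlam : lam ≠ 0) : Irreducible (G k D lam) := by
  have hn := D.hn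
  have hp : (Ideal.span {(X - C (D.a D.i0 : k) : k[X])}).IsPrime := by
    rw [Ideal.span_singleton_prime (X_sub_C_ne_zero _)]
    exact prime_X_sub_C _
  refine irreducible_of_eisenstein_criterion hp ?_ ?_ ?_ ?_ (G_monic k D lam).isPrimitive
  · rw [(G_monic k D lam).leadingCoeff]
    exact fun h => hp.ne_top ((Ideal.eq_top_iff_one _).mpr h)
  · intro i hi
    rw [degree_eq_natDegree (G_monic k D lam).ne_zero, G_natDegree] at hi
    have hi' : i < D.n := by exact_mod_cast hi
    unfold G
    rw [coeff_sub, coeff_X_pow, if_neg hi'.ne, zero_sub, coeff_C_mul]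
    refine Ideal.neg_mem_iff _ |>.mpr ?_
    refine Ideal.mul_mem_right _ _ (Ideal.mul_mem_left _ _ ?_)
    rw [Ideal.mem_span_singleton, A_split]
    exact dvd_mul_right _ _
  · rw [degree_eq_natDegree (G_monic k D lam).ne_zero, G_natDegree]
    exact_mod_cast (by omega : 0 < D.n)
  · unfold G
    rw [coeff_sub, coeff_X_pow, if_neg (by omega), zero_sub, coeff_C_mul, Q_coeff_zero, mul_one,
      Ideal.neg_mem_iff, Ideal.span_singleton_pow, Ideal.mem_span_singleton, A_split, pow_two,
      mul_left_comm, mul_dvd_mul_iff_left (X_sub_C_ne_zero _), dvd_iff_isRoot]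
    simp only [IsRoot.def, eval_mul, eval_C, eval_prod, eval_sub, eval_X]
    refine mul_ne_zero (by exact_mod_cast hlam) (Finset.prod_ne_zero_iff.mpr fun i hi => ?_)
    rw [sub_ne_zero]
    intro h
    have : D.a D.i0 = D.a i := by exact_mod_cast h
    exact (Finset.ne_of_mem_erase hi) (D.a_inj this).symm

lemma poly_eq : D.poly k lam = C (C (lam : k) * A k D) * (∏ j, (X - C (bp k D j))) - 1 := by
  unfold Gr.poly A bp
  rw [← C_mul, C_mul]

lemma monic_prod_b : (∏ j, (X - C (bp k D j)) : k[X][X]).Monic :=
  monic_prod_of_monic _ _ fun _ _ => monic_X_sub_C _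

lemma natDegree_prod_b : (∏ j, (X - C (bp k D j)) : k[X][X]).natDegree = D.n := by
  rw [natDegree_prod_of_monic _ _ fun _ _ => monic_X_sub_C _]
  simp

lemma poly_isPrimitive : (D.poly k lam).IsPrimitive := by
  intro r hr
  -- the leading coefficient
  have hn := D.hn
  have h1 : (D.poly k lam).coeff D.n = C (lam : k) * A k D := by
    rw [poly_eq, coeff_sub, coeff_C_mul]
    have h2 : (∏ j, (X - C (bp k D j)) : k[X][X]).coeff D.n = 1 := by
      have := (monic_prod_b k D).coeff_natDegree
      rwa [natDegree_prod_b] at this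
    rw [h2, coeff_one, if_neg (by omega)]
    ring
  have h2 : r ∣ C (lam : k) * A k D := by
    rw [← h1]
    exact (C_dvd_iff_dvd_coeff _ _).mp hr _
  have h3 : (C r : k[X][X]) ∣ C (C (lam : k) * A k D) * (∏ j, (X - C (bp k D j))) :=
    (_root_.map_dvd C h2).mul_right _
  have h4 : (C r : k[X][X]) ∣ 1 := by
    have h5 := dvd_sub h3 hr
    rw [poly_eq] at h5
    simpa using h5
  exact isUnit_C.mp (isUnit_of_dvd_one h4)

lemma poly_natDegree (hlam : lam ≠ 0) : (D.poly k lam).natDegree = D.n := by
  have hn := D.hn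
  rw [poly_eq, natDegree_sub_eq_left_of_natDegree_lt]
  · rw [natDegree_C_mul, natDegree_prod_b]
    exact mul_ne_zero (by rw [Ne, C_eq_zero]; exact_mod_cast hlam) (A_ne k D)
  · rw [natDegree_one, natDegree_C_mul, natDegree_prod_b]
    · omega
    · exact mul_ne_zero (by rw [Ne, C_eq_zero]; exact_mod_cast hlam) (A_ne k D)

variable {k D lam}

/-! ### A given function field -/

section Given

variable {K : Type} [Field K] [Algebra k K] {x y : K}

lemma aeval_bp (j : Fin D.n) : aeval x (bp k D j) = D.b j x := by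
  unfold bp Gr.b
  rw [aeval_def, aeval_def, eval₂_map]
  congr 1
  exact RingHom.ext_int _ _

lemma b_mem (L : Subring K) (hx : x ∈ L) (j : Fin D.n) : D.b j x ∈ L := by
  unfold Gr.b
  rw [aeval_eq_sum_range]
  refine sum_mem fun i _ => ?_
  rw [zsmul_eq_mul]
  exact mul_mem (intCast_mem _ _) (pow_mem hx i)

lemma aeval_A : aeval x (A k D) = ∏ i, (x - (D.a i : K)) := by
  unfold A
  rw [map_prod]
  simp

lemma w_ne (h : IsCurveG k K D lam x y) (j : Fin D.n) : y - D.b j x ≠ 0 := by
  intro h0
  have := h.eqn
  rw [Finset.prod_eq_zero (Finset.mem_univ j) h0, mul_zero] at this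
  exact zero_ne_one this

lemma ev2_C (p : k[X]) : ev2 x y (C p) = aeval x p := by
  unfold ev2
  rw [eval₂_C]
  rfl

lemma ev2_eq (S : k[X][X]) : ev2 x y S = S.eval₂ ((aeval x : k[X] →ₐ[k] K) : k[X] →+* K) y := rfl

lemma ev2_poly (h : IsCurveG k K D lam x y) : ev2 x y (D.poly k lam) = 0 := by
  have h1 := h.eqn
  rw [poly_eq]
  unfold ev2
  rw [eval₂_sub, eval₂_mul, eval₂_finsetProd, eval₂_C, eval₂_one]
  simp only [eval₂_sub, eval₂_X, eval₂_C]
  rw [sub_eq_zero]
  rw [← h1]
  congr 1
  · show aeval x (C (lam : k) * A k D) = _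
    rw [map_mul, aeval_A]
    simp
  · refine Finset.prod_congr rfl fun j _ => ?_
    congr 1
    exact aeval_bp j

lemma ev2_G (h : IsCurveG k K D lam x y) : ev2 x ((y - D.b D.j0 x)⁻¹) (G k D lam) = 0 := by
  have hw := w_ne h D.j0
  have h1 := h.eqn
  set w := y - D.b D.j0 x with hwdef
  have hn := D.hn
  unfold G ev2
  rw [eval₂_sub, eval₂_mul, eval₂_X_pow, eval₂_C]
  unfold Q
  rw [eval₂_finsetProd]
  simp only [eval₂_sub, eval₂_mul, eval₂_X, eval₂_C, eval₂_one]
  have h2 : (∏ j, (y - D.b j x)) = w ^ D.n * ∏ j ∈ Finset.univ.erase D.j0,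
      (1 - aeval x (bet k D j) * w⁻¹) := by
    rw [← Finset.mul_prod_erase Finset.univ (fun j => y - D.b j x) (Finset.mem_univ D.j0),
      ← hwdef]
    have h3 : ∀ j ∈ Finset.univ.erase D.j0, y - D.b j x =
        w * (1 - aeval x (bet k D j) * w⁻¹) := by
      intro j _
      unfold bet
      rw [map_sub, aeval_bp, aeval_bp]
      field_simp
      rw [hwdef]
      ring
    rw [Finset.prod_congr rfl h3, Finset.prod_mul_distrib, Finset.prod_const,
      Finset.card_erase_of_mem (Finset.mem_univ _), Finset.card_univ, Fintype.card_fin, ← mul_assoc,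
      ← pow_succ']
    congr 2
    omega
  have h4 : ((aeval x : k[X] →ₐ[k] K) : k[X] →+* K) (C (lam : k) * A k D) =
      (lam : K) * ∏ i, (x - (D.a i : K)) := by
    show aeval x (C (lam : k) * A k D) = _
    rw [map_mul, aeval_A]
    simp
  rw [h4, sub_eq_zero, inv_pow]
  rw [h2] at h1
  have hwn : w ^ D.n ≠ 0 := pow_ne_zero _ hw
  apply mul_left_cancel₀ hwn
  rw [mul_inv_cancel₀ hwn]
  refine h1.symm.trans ?_
  show _ = w ^ D.n * ((lam : K) * (∏ i, (x - (D.a i : K))) * ∏ j ∈ Finset.univ.erase D.j0,
      (1 - aeval x (bet k D j) * w⁻¹))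
  ring

/-- The algebra structure of `k(x)` over the polynomial ring. -/
noncomputable abbrev algE (x : K) : k[X] →ₐ[k] IntermediateField.adjoin k {x} :=
  aeval (⟨x, IntermediateField.mem_adjoin_simple_self k x⟩ : IntermediateField.adjoin k {x})

lemma coe_algE (x : K) (p : k[X]) : ((algE x p : IntermediateField.adjoin k {x}) : K) = aeval x p := by
  show algebraMap (IntermediateField.adjoin k {x}) K (algE x p) = _
  rw [algE, ← aeval_algebraMap_apply]
  rfl

theorem main (h : IsCurveG k K D lam x y) (hlam : lam ≠ 0) :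
    (∀ S : k[X][X], ev2 x y S = 0 → D.poly k lam ∣ S) ∧
      FiniteDimensional (IntermediateField.adjoin k {x}) K ∧
      Module.finrank (IntermediateField.adjoin k {x}) K = D.n := by
  classical
  set E := IntermediateField.adjoin k {x} with hE
  let _ : Algebra k[X] E := (algE x).toAlgebra
  have halg : ∀ p : k[X], algebraMap k[X] E p = algE x p := fun p => rfl
  have hinj : Function.Injective (algebraMap k[X] E) := by
    rw [injective_iff_map_eq_zero]
    intro p hp
    by_contra hne
    apply h.transc
    refine ⟨p, hne, ?_⟩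
    rw [← coe_algE, ← halg, hp]
    rfl
  have _ : FaithfulSMul k[X] E := (faithfulSMul_iff_algebraMap_injective _ _).mpr hinj
  have _ : IsFractionRing k[X] E := by
    refine IsFractionRing.of_field _ _ fun z => ?_
    obtain ⟨r, s, hrs⟩ := (IntermediateField.mem_adjoin_simple_iff k (z : K)).mp z.2
    refine ⟨r, s, ?_⟩
    apply Subtype.ext
    rw [hrs, halg, halg]
    show _ = ((algE x r / algE x s : E) : K)
    rw [IntermediateField.coe_div, coe_algE, coe_algE]
  -- evaluation
  have hev : ∀ (z : K) (S : k[X][X]), ev2 x z S = aeval z (S.map (algebraMap k[X] E)) := by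
    intro z S
    unfold ev2
    rw [aeval_def, eval₂_map]
    congr 1
    ext p
    · exact (coe_algE x _).symm
    · exact (coe_algE x _).symm
  have hGirr : Irreducible ((G k D lam).map (algebraMap k[X] E)) :=
    ((G_monic k D lam).irreducible_iff_irreducible_map_fraction_map (K := E)).mp
      (G_irreducible k D lam hlam)
  set Y := (y - D.b D.j0 x)⁻¹ with hY
  have hmin : minpoly E Y = (G k D lam).map (algebraMap k[X] E) := by
    refine (minpoly.eq_of_irreducible_of_monic hGirr ?_ ((G_monic k D lam).map _)).symm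
    rw [← hev]
    exact ev2_G h
  have hint : IsIntegral E Y := by
    refine ⟨(G k D lam).map (algebraMap k[X] E), (G_monic k D lam).map _, ?_⟩
    rw [← aeval_def, ← hev]
    exact ev2_G h
  have hxE : ∀ z ∈ E, z ∈ IntermediateField.restrictScalars k (IntermediateField.adjoin E {Y}) := by
    intro z hz
    exact (IntermediateField.adjoin E {Y}).algebraMap_mem ⟨z, hz⟩
  have htop : IntermediateField.adjoin E {Y} = ⊤ := by
    have h1 : IntermediateField.adjoin k {x, y} ≤
        IntermediateField.restrictScalars k (IntermediateField.adjoin E {Y}) := by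
      rw [IntermediateField.adjoin_le_iff]
      have hx : x ∈ IntermediateField.restrictScalars k (IntermediateField.adjoin E {Y}) :=
        hxE x (IntermediateField.mem_adjoin_simple_self k x)
      rintro z (rfl | rfl)
      · exact hx
      · have h2 : z = Y⁻¹ + D.b D.j0 x := by rw [hY, inv_inv]; ring
        rw [h2]
        refine add_mem (inv_mem ?_) ?_
        · exact IntermediateField.mem_adjoin_simple_self E Y
        · exact b_mem (IntermediateField.adjoin E {Y}).toSubring hx D.j0
    rw [h.gen] at h1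
    rw [eq_top_iff]
    intro z _
    exact h1 (IntermediateField.mem_top)
  have hfd : FiniteDimensional E K := by
    have := IntermediateField.adjoin.finiteDimensional hint
    rw [htop] at this
    exact LinearEquiv.finiteDimensional
      (IntermediateField.topEquiv (F := E) (E := K)).toLinearEquiv
  have hfr : Module.finrank E K = D.n := by
    have h1 := IntermediateField.adjoin.finrank hint
    rw [htop, hmin, (G_monic k D lam).natDegree_map, G_natDegree] at h1
    rw [← h1]
    exact (IntermediateField.finrank_top' (F := E) (E := K)).symm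
  refine ⟨?_, hfd, hfr⟩
  intro S hS
  -- the minimal polynomial of `y`
  have hinty : IsIntegral E y := IsIntegral.of_finite E y
  have htopy : IntermediateField.adjoin E {y} = ⊤ := by
    have h1 : IntermediateField.adjoin k {x, y} ≤
        IntermediateField.restrictScalars k (IntermediateField.adjoin E {y}) := by
      rw [IntermediateField.adjoin_le_iff]
      rintro z (rfl | rfl)
      · exact (IntermediateField.adjoin E {y}).algebraMap_mem
          ⟨z, IntermediateField.mem_adjoin_simple_self k z⟩
      · exact IntermediateField.mem_adjoin_simple_self E z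
    rw [h.gen] at h1
    rw [eq_top_iff]
    intro z _
    exact h1 (IntermediateField.mem_top)
  have hdeg : (minpoly E y).natDegree = D.n := by
    have h1 := IntermediateField.adjoin.finrank hinty
    rw [htopy] at h1
    rw [← h1, ← hfr]
    exact IntermediateField.finrank_top' (F := E) (E := K)
  set P := (D.poly k lam).map (algebraMap k[X] E) with hP
  have hPne : D.poly k lam ≠ 0 := (poly_isPrimitive k D lam).ne_zero
  have hP0 : P ≠ 0 := by
    rw [hP, Ne, Polynomial.map_eq_zero_iff hinj]
    exact hPne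
  have hPdeg : P.natDegree = D.n := by
    rw [hP, natDegree_map_eq_of_injective hinj, poly_natDegree k D lam hlam]
  have hPy : aeval y P = 0 := by
    rw [hP, ← hev]
    exact ev2_poly h
  have hdvd : minpoly E y ∣ P := minpoly.dvd E y hPy
  obtain ⟨R, hR⟩ := hdvd
  have hR0 : R ≠ 0 := by
    rintro rfl
    rw [mul_zero] at hR
    exact hP0 hR
  have hRdeg : R.natDegree = 0 := by
    have h1 : P.natDegree = (minpoly E y).natDegree + R.natDegree := by
      rw [hR, natDegree_mul (minpoly.ne_zero hinty) hR0]
    omega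
  have hRu : IsUnit R := by
    rw [eq_C_of_natDegree_eq_zero hRdeg, isUnit_C, isUnit_iff_ne_zero]
    intro h0
    apply hR0
    rw [eq_C_of_natDegree_eq_zero hRdeg, h0, C_0]
  have hPS : P ∣ S.map (algebraMap k[X] E) := by
    rw [hR]
    have h1 : minpoly E y ∣ S.map (algebraMap k[X] E) := by
      apply minpoly.dvd
      rw [← hev]
      exact hS
    exact (hRu.mul_right_dvd).mpr h1
  exact (poly_isPrimitive k D lam).dvd_of_fraction_map_dvd_fraction_map (K := E) hPS

end Given

/-! ### Existence -/

section Exist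

variable (k D lam)

/-- `IsCurveG` for a root of `G` in an extension of `k(x)`. -/
theorem isCurve_of_root {F K : Type} [Field F] [Field K] [Algebra k F] [Algebra k[X] F]
    [IsScalarTower k k[X] F] [IsFractionRing k[X] F] [Algebra F K] [Algebra k K]
    [IsScalarTower k F K] (hlam : lam ≠ 0) (Y : K)
    (hgen : IntermediateField.adjoin F {Y} = ⊤)
    (hY : ((G k D lam).map (algebraMap k[X] F)).aeval Y = 0) :
    IsCurveG k K D lam (algebraMap F K (algebraMap k[X] F X))
      (Y⁻¹ + D.b D.j0 (algebraMap F K (algebraMap k[X] F X))) := by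
  have hn := D.hn
  set x : K := algebraMap F K (algebraMap k[X] F X) with hx
  have hpx : ∀ p : k[X], algebraMap F K (algebraMap k[X] F p) = aeval x p := by
    intro p
    have h1 : algebraMap k[X] F p = aeval (algebraMap k[X] F X) p := by
      rw [aeval_algebraMap_apply]
      congr 1
      exact (aeval_X_left_apply p).symm
    rw [h1, ← aeval_algebraMap_apply]
  have hinj : Function.Injective fun p : k[X] => aeval x p := by
    intro p q hpq
    simp only [← hpx] at hpq
    exact IsFractionRing.injective k[X] F ((algebraMap F K).injective hpq)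
  have htr : Transcendental k x := by
    rintro ⟨p, hp0, hp⟩
    exact hp0 (hinj (hp.trans (map_zero (aeval x)).symm))
  have hev : ∀ S : k[X][X], aeval Y (S.map (algebraMap k[X] F)) = ev2 x Y S := by
    intro S
    unfold ev2
    rw [aeval_def, eval₂_map]
    congr 1
    refine RingHom.ext fun p => ?_
    exact hpx p
  rw [hev] at hY
  unfold ev2 G at hY
  rw [eval₂_sub, eval₂_mul, eval₂_X_pow, eval₂_C] at hY
  unfold Q at hY
  rw [eval₂_finsetProd] at hY
  simp only [eval₂_sub, eval₂_mul, eval₂_X, eval₂_C, eval₂_one] at hY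
  have h4 : ((aeval x : k[X] →ₐ[k] K) : k[X] →+* K) (C (lam : k) * A k D) =
      (lam : K) * ∏ i, (x - (D.a i : K)) := by
    show aeval x (C (lam : k) * A k D) = _
    rw [map_mul, aeval_A]
    simp
  have h5 : (lam : K) * ∏ i, (x - (D.a i : K)) ≠ 0 := by
    rw [← h4]
    show aeval x (C (lam : k) * A k D) ≠ 0
    intro h0
    have h6 := hinj (h0.trans (map_zero (aeval x)).symm)
    exact mul_ne_zero (by rw [Ne, C_eq_zero]; exact_mod_cast hlam) (A_ne k D) h6
  rw [h4] at hY
  have hY' : Y ^ D.n = (lam : K) * (∏ i, (x - (D.a i : K))) *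
      ∏ j ∈ Finset.univ.erase D.j0, (1 - aeval x (bet k D j) * Y) := sub_eq_zero.mp hY
  have hY0 : Y ≠ 0 := by
    rintro rfl
    rw [zero_pow (by omega)] at hY'
    simp only [mul_zero, sub_zero, Finset.prod_const_one, mul_one] at hY'
    exact h5 hY'.symm
  refine ⟨htr, ?_, ?_⟩
  · set L := IntermediateField.adjoin k {x, Y⁻¹ + D.b D.j0 x} with hL
    have hxL : x ∈ L := IntermediateField.subset_adjoin _ _ (Set.mem_insert _ _)
    have hyL : Y⁻¹ + D.b D.j0 x ∈ L :=
      IntermediateField.subset_adjoin _ _ (Set.mem_insert_of_mem _ rfl)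
    have hbL : D.b D.j0 x ∈ L := by
      exact b_mem L.toSubring hxL D.j0
    have hYL : Y ∈ L := by
      have h1 : Y = ((Y⁻¹ + D.b D.j0 x) - D.b D.j0 x)⁻¹ := by
        rw [add_sub_cancel_right, inv_inv]
      rw [h1]
      exact inv_mem (sub_mem hyL hbL)
    have hpL : ∀ p : k[X], aeval x p ∈ L := by
      intro p
      have h1 : aeval x p ∈ Algebra.adjoin k {x} := aeval_mem_adjoin_singleton k x
      have h2 : Algebra.adjoin k {x} ≤ L.toSubalgebra := by
        rw [Algebra.adjoin_le_iff]
        rintro z rfl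
        exact hxL
      exact h2 h1
    have hFL : ∀ f : F, algebraMap F K f ∈ L.toSubfield := by
      intro f
      obtain ⟨p, q, hq, rfl⟩ := IsFractionRing.div_surjective (A := k[X]) f
      rw [map_div₀, hpx, hpx]
      exact L.toSubfield.div_mem (hpL p) (hpL q)
    have h2 : IntermediateField.adjoin F {Y} ≤ L.toSubfield.toIntermediateField hFL := by
      rw [IntermediateField.adjoin_simple_le_iff]
      exact hYL
    rw [hgen] at h2
    rw [eq_top_iff]
    intro z _
    exact h2 (IntermediateField.mem_top)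
  · have h3 : (∏ j, (Y⁻¹ + D.b D.j0 x - D.b j x)) = (Y⁻¹) ^ D.n *
        ∏ j ∈ Finset.univ.erase D.j0, (1 - aeval x (bet k D j) * Y) := by
      rw [← Finset.mul_prod_erase Finset.univ (fun j => Y⁻¹ + D.b D.j0 x - D.b j x)
        (Finset.mem_univ D.j0), add_sub_cancel_right]
      have h3 : ∀ j ∈ Finset.univ.erase D.j0, Y⁻¹ + D.b D.j0 x - D.b j x =
          Y⁻¹ * (1 - aeval x (bet k D j) * Y) := by
        intro j _
        unfold bet
        rw [map_sub, aeval_bp, aeval_bp]
        field_simp
        ring
      rw [Finset.prod_congr rfl h3, Finset.prod_mul_distrib, Finset.prod_const,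
        Finset.card_erase_of_mem (Finset.mem_univ _), Finset.card_univ, Fintype.card_fin,
        ← mul_assoc, ← pow_succ']
      congr 2
      omega
    rw [h3]
    calc (lam : K) * (∏ i, (x - (D.a i : K))) * ((Y⁻¹) ^ D.n *
        ∏ j ∈ Finset.univ.erase D.j0, (1 - aeval x (bet k D j) * Y))
        = (Y⁻¹) ^ D.n * ((lam : K) * (∏ i, (x - (D.a i : K))) *
        ∏ j ∈ Finset.univ.erase D.j0, (1 - aeval x (bet k D j) * Y)) := by ring
      _ = (Y⁻¹) ^ D.n * Y ^ D.n := by rw [← hY']
      _ = 1 := by rw [← mul_pow, inv_mul_cancel₀ hY0, one_pow]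

end Exist

end IRPM

open IRPM in
theorem specIRP : SpecIRP := by
  intro k _ _ D lam hlam
  refine ⟨?_, fun K _ _ x y h => main h hlam⟩
  have hirr : Irreducible ((G k D lam).map (algebraMap k[X] (FractionRing k[X]))) :=
    ((G_monic k D lam).irreducible_iff_irreducible_map_fraction_map
      (K := FractionRing k[X])).mp (G_irreducible k D lam hlam)
  have _ : Fact (Irreducible ((G k D lam).map (algebraMap k[X] (FractionRing k[X])))) := ⟨hirr⟩
  set g := (G k D lam).map (algebraMap k[X] (FractionRing k[X])) with hg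
  refine ⟨AdjoinRoot g, inferInstance, inferInstance, _, _,
    isCurve_of_root k D lam (F := FractionRing k[X]) hlam (AdjoinRoot.root g) ?_ ?_⟩
  · exact IntermediateField.adjoin_root_eq_top g
  · exact AdjoinRoot.aeval_eq g ▸ AdjoinRoot.mk_self

end MP743d1e.GA
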