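import Pool.Agent.Lib.MP_743d1e_nt.GA.SpecK
import Pool.Agent.Lib.MP_743d1e_nt.LA.Main
import Pool.Agent.Lib.MP_743d1e_nt.HY.CIR

/-!
# K2G: the conclusion on `K2` for arrangements of graphs
-/

set_option autoImplicit false

namespace MP743d1e.GA

open scoped BigOperators
open Polynomial

namespace K2GM

theorem e_ge_two (D : Gr) : 2 ≤ D.e := by
  unfold Gr.e
  have h1 := D.hm
  have h2 := D.hn
  have : 1 * 2 ≤ D.m * D.n := Nat.mul_le_mul h1 h2
  omega

theorem g_le_e (D : Gr) : D.g ≤ D.e := by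
  unfold Gr.g Gr.e
  have : (D.m - 1) * (D.n - 1) ≤ D.m * D.n := Nat.mul_le_mul (Nat.sub_le _ _) (Nat.sub_le _ _)
  omega

theorem sqrt_e (D : Gr) : (7 : ℝ) / 5 ≤ Real.sqrt D.e := by
  apply Real.le_sqrt_of_sq_le
  have : (2 : ℝ) ≤ D.e := by exact_mod_cast e_ge_two D
  linarith

theorem thr_ge (D : Gr) : 140 * (D.n : ℝ) ≤ D.thr := by
  unfold Gr.thr
  have h1 := sqrt_e D
  have h2 : (2 : ℝ) ≤ D.e := by exact_mod_cast e_ge_two D
  have h3 : (0 : ℝ) ≤ D.n := by positivity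
  have h4 : 2 * (7 / 5 : ℝ) ≤ D.e * Real.sqrt D.e :=
    mul_le_mul h2 h1 (by norm_num) (by positivity)
  calc 140 * (D.n : ℝ) = 50 * D.n * (2 * (7 / 5 : ℝ)) := by ring
    _ ≤ 50 * D.n * (D.e * Real.sqrt D.e) := mul_le_mul_of_nonneg_left h4 (by positivity)
    _ = 50 * D.n * D.e * Real.sqrt D.e := by ring

theorem thr_ge_162 (D : Gr) : 162 ≤ D.thr := by
  have h1 := thr_ge D
  have h2 : (2 : ℝ) ≤ D.n := by exact_mod_cast D.hn
  linarith

/-- the constant `C` -/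
theorem exists_C (D : Gr) {Λ : ℝ} (hΛ : D.thr ≤ Λ) : ∃ C : ℝ, 0 ≤ C ∧
    1 + 3 * (D.g : ℝ) ≤ C ^ 2 ∧ C * D.g * (272 * D.n / Λ) ≤ 17 := by
  have h162 := thr_ge_162 D
  have hpos : 0 < Λ := by linarith
  rcases Nat.eq_zero_or_pos D.g with hg | hg
  · refine ⟨1, by norm_num, ?_, ?_⟩
    · rw [hg]; norm_num
    · rw [hg]; norm_num
  · have hg1 : (1 : ℝ) ≤ D.g := by exact_mod_cast hg
    refine ⟨2 * Real.sqrt D.g, by positivity, ?_, ?_⟩
    · rw [mul_pow, Real.sq_sqrt (by positivity)]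
      linarith
    · rw [mul_div_assoc', div_le_iff₀ hpos]
      have h1 : Real.sqrt D.g ≤ Real.sqrt D.e := Real.sqrt_le_sqrt (by exact_mod_cast g_le_e D)
      have h2 : (D.g : ℝ) ≤ D.e := by exact_mod_cast g_le_e D
      have h3 : (D.g : ℝ) * Real.sqrt D.g ≤ D.e * Real.sqrt D.e :=
        mul_le_mul h2 h1 (Real.sqrt_nonneg _) (by positivity)
      have h4 : 2 * Real.sqrt D.g * D.g * (272 * D.n) = 544 * D.n * (D.g * Real.sqrt D.g) := by ring
      rw [h4]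
      have h5 : 544 * (D.n : ℝ) * (D.g * Real.sqrt D.g) ≤ 544 * D.n * (D.e * Real.sqrt D.e) :=
        mul_le_mul_of_nonneg_left h3 (by positivity)
      have h6 : 544 * (D.n : ℝ) * (D.e * Real.sqrt D.e) ≤ 17 * D.thr := by
        unfold Gr.thr
        have h7 : 0 ≤ (D.n : ℝ) * (D.e * Real.sqrt D.e) := by positivity
        linarith
      linarith

section Curve

variable {K : Type} [Field K] [Algebra ℚ K] {D : Gr} {lam : ℤ} {x y : K}

theorem lam_ne (h : IsCurveG ℚ K D lam x y) : lam ≠ 0 := by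
  rintro rfl
  have := h.eqn
  simp at this

theorem graph_ne (h : IsCurveG ℚ K D lam x y) (l : Fin D.n) : y - D.b l x ≠ 0 := by
  intro h0
  have := h.eqn
  rw [Finset.prod_eq_zero (Finset.mem_univ l) h0, mul_zero] at this
  exact zero_ne_one this

theorem int_ne (h : IsCurveG ℚ K D lam x y) (s : ℤ) : x - (s : K) ≠ 0 := by
  intro h0
  apply h.transc
  have : x = algebraMap ℚ K (s : ℚ) := by
    rw [map_intCast]; exact sub_eq_zero.mp h0
  rw [this]
  exact isAlgebraic_algebraMap _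

end Curve

end K2GM

open K2GM in
/-- K2G. -/
theorem specK2G (hSTG : SpecSTG) (hSHG : SpecSHG) (hRGG : SpecRGG) (hCOF : SpecCOF)
    (hDTG : SpecDTG) (hLMG : SpecLMG) (hING : SpecING) (hSPX : SpecSPX) (hCNG : SpecCNG)
    (hEMG : SpecEMG) (hCQG : SpecCQG) : SpecK2G := by
  intro D lam Λ hΛ hmu K _ _ x y hc
  obtain ⟨-, -, -, -, -, -, -, -, hnode, -⟩ := hSTG D
  obtain ⟨hcard, -, -, -, -, hctr⟩ := hCOF D
  have hn : (2 : ℝ) ≤ D.n := by exact_mod_cast D.hn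
  have h162 : 162 ≤ Λ := (thr_ge_162 D).trans hΛ
  have h128 : 128 * (D.n : ℝ) ≤ Λ := by
    have := thr_ge D
    linarith
  have hΛ0 : 0 < Λ := by linarith
  have hlam : lam ≠ 0 := lam_ne hc
  have : CharZero K := charZero_of_injective_algebraMap (algebraMap ℚ K).injective
  have hl0 : (lam : K) ≠ 0 := by exact_mod_cast hlam
  obtain ⟨R, hR1, hR2, htr⟩ := Hy.RELM.radius (3 / 8) (1 / 2) (by norm_num)
  have hmu' : ∀ j, ∀ c ∈ D.ns j, Λ ≤ D.mu lam j c := fun j c h => hmu j c ((hnode j c).1 h)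
  have hpath : ∀ k : D.Idx, ∃ (γ : Loop K) (Y : ℝ → ℂ), ContDiff ℝ 1 Y ∧
      (∀ θ, Y (θ + 2 * Real.pi) = Y θ) ∧
      (∀ θ, ‖Y θ - D.b (D.l1 k) (circ (D.ctr k) R θ)‖ ≤ 4 / (3 * Λ)) ∧
      (∀ θ, γ.ev θ x = circ (D.ctr k) R θ) ∧ ∀ θ, γ.ev θ y = Y θ := by
    intro k
    obtain ⟨Y, hY, hYp, heq, hnear⟩ := hSHG D lam (D.l1 k) (D.ctr k) R Λ hR1 hR2 h128
      (hmu' _ _ (hctr k).1)
    obtain ⟨γ, hγ⟩ := hEMG K D lam x y hc (circ (D.ctr k) R) Y (Circ.contDiff_circ _ _) hY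
      (Circ.circ_periodic _ _) hYp (htr _) heq
    exact ⟨γ, Y, hY, hYp, hnear, fun θ => (hγ θ).1, fun θ => (hγ θ).2⟩
  choose γ Y hY hYp hnear hγx hγy using hpath
  set X : ℤ → Kˣ := fun s => Units.mk0 _ (int_ne hc s) with hXdef
  have hX : ∀ s, (X s : K) = x - (s : K) := fun s => rfl
  set U : Fin D.n → Kˣ := fun l => Units.mk0 _ (graph_ne hc l) with hUdef
  have hU : ∀ l, (U l : K) = y - D.b l x := fun l => rfl
  set L : Kˣ := Units.mk0 _ hl0 with hLdef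
  have hL : (L : K) = (lam : K) := rfl
  have heq : L * (∏ i, X (D.a i)) * ∏ l, U l = 1 := by
    apply Units.ext
    rw [Units.val_mul, Units.val_mul, Units.coe_prod, Units.coe_prod, Units.val_one]
    exact hc.eqn
  -- the symbols
  set β : D.Idx → K2 K := fun i =>
    sym (X (D.ctr i) * (X (D.a D.i0))⁻¹) (U (D.l1 i) * (U (D.l2 i))⁻¹) with hβ
  have hβu : ∀ i, ((X (D.ctr i) * (X (D.a D.i0))⁻¹ : Kˣ) : K) * (x - (D.a D.i0 : K)) =
      x - (D.ctr i : K) := by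
    intro i
    rw [Units.val_mul, Units.val_inv_eq_inv_val, hX, hX]
    exact inv_mul_cancel_right₀ (int_ne hc _) _
  have hβw : ∀ i, ((U (D.l1 i) * (U (D.l2 i))⁻¹ : Kˣ) : K) * (y - D.b (D.l2 i) x) =
      y - D.b (D.l1 i) x := by
    intro i
    rw [Units.val_mul, Units.val_inv_eq_inv_val, hU, hU]
    exact inv_mul_cancel_right₀ (graph_ne hc _) _
  have hun : ∀ i, Unramified (β i) := fun i =>
    hING D lam K x y hc.eqn i _ _ (hβu i) (hβw i)
  obtain ⟨hmem, hspan⟩ := hSPX D lam K x y hc β fun i => ⟨_, _, hβu i, hβw i, rfl⟩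
  obtain ⟨hconst, hfin⟩ := hCQG K D lam x y hc
  set e : Fin D.g ≃ D.Idx := (Fintype.equivFinOfCardEq hcard).symm with he
  have hrange : (Set.range fun i => β (e i)) = Set.range β := e.surjective.range_comp β
  -- the regulators
  have herr : ∀ i k, |reg (γ (e k)) (β (e i)) - 2 * Real.pi * D.A lam (e i) (e k)| ≤
      272 * D.n / Λ := by
    intro i k
    exact hRGG D lam K x y (γ (e k)) X U L (D.l1 (e k)) (D.ctr (e k)) R Λ (Y (e k)) hlam hX hU hL
      heq hR1 hR2 h128 (hctr (e k)).1 (hγx _) (hγy _) (hY _) (hYp _) (hnear _)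
      (D.ctr (e i)) (D.a D.i0) (D.l1 (e i)) (D.l2 (e i)) (hctr (e i)).2
  obtain ⟨C, hC0, hC1, hC2⟩ := exists_C D hΛ
  have hk := LA.MainM.kappa_ge h162 hC2
  have hlog := LA.MainM.log_ge h162
  have hdet := hDTG D lam (Real.log (8 * Λ / 3)) C
    (fun j c h => hLMG D lam j c Λ hΛ0 h (hmu' j c h)) hC0 hC1 e
    (Matrix.of fun i k => reg (γ (e k)) (β (e i))) (272 * D.n / Λ) herr (by linarith)
  refine ⟨e, fun i => β (e i), fun k => γ (e k), ?_, ⟨fun i => ⟨hun _, hmem _⟩, ?_⟩, herr, ?_⟩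
  · intro i
    exact ⟨_, _, hβu _, hβw _, rfl⟩
  · intro z hz hzu
    obtain ⟨N, hN, hmemN⟩ := hspan z hz
    rw [AddSubgroup.mem_sup] at hmemN
    obtain ⟨a, ha, c, hcc, hac⟩ := hmemN
    have hav : ∀ v : DVal K, tame v a = 0 := by
      intro v
      have hle : AddSubgroup.closure (Set.range β) ≤ (tame v).ker := by
        rw [AddSubgroup.closure_le]
        rintro w ⟨i, rfl⟩
        exact hun i v
      exact hle ha
    have hcv : Unramified c := by
      intro v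
      have e1 : c = N • z - a := by rw [← hac]; abel
      have h1 : z ∈ (tame v).ker := hzu v
      have h2 : a ∈ (tame v).ker := hav v
      rw [e1]
      exact AddSubgroup.sub_mem _ (AddSubgroup.nsmul_mem _ h1 N) h2
    obtain ⟨N', hN', hc0⟩ := hCNG K x hc.transc hfin hconst (unitsG K D x y) c hcc hcv
    refine ⟨N' * N, Nat.mul_pos hN' hN, ?_⟩
    have e1 : (N' * N) • z = N' • a := by
      rw [mul_comm, mul_nsmul, ← hac, nsmul_add, hc0, add_zero]
    rw [e1, hrange]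
    exact AddSubgroup.nsmul_mem _ ha N'
  · exact (pow_le_pow_left₀ (by linarith) hk D.g).trans hdet

end MP743d1e.GA
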