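import Pool.Agent.Lib.MP_743d1e_nt.GA.Defs
import Pool.Agent.Lib.MP_743d1e_nt.Spec
import Pool.Agent.Lib.MP_743d1e_nt.HY.Spec

/-!
# Arrangements of graphs: exact statements of the K2 half

Module `XXX` = `Lib/MP_743d1e_nt/GA/XXX.lean`, theorem `MP743d1e.GA.specXXX (hYYY : SpecYYY) .. : SpecXXX`,
own lemmas in the namespace `MP743d1e.GA.XXXM`, `import Pool.Agent.Lib.MP_743d1e_nt.GA.SpecK`.

THE ARGUMENT. A flow is a function `z j s` (`j` a graph, `s` the abscissa of a node on `j`) which is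
balanced on every graph, on every vertical line, and has `z j s = - z l s` where the graphs `j`, `l`
meet above `s`. The symbols are a basis of the flows (`cyc`, `zv`). The regulator of
`∑ z l s {x - s, y - P l}` along the loop at the node `(j, c)` is `2 π V z j c` up to a small error.
`V z` is again a flow (VFL), and the form `ip z (V z)` is at least `(ℓ - 2 log 2) ip z z` (ENG): the
energy of integral points is at most `log 2` times the sum of the squares. So the determinant of the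
model is at least `(2 π (ℓ - 2 log 2)) ^ g`.
-/

set_option autoImplicit false

namespace MP743d1e.GA

open scoped BigOperators
open Polynomial

/-! ## Elementary facts -/

/-- STG [120 lines]. Elementary facts on the data (none).

Proof. (1) `C κ_jl ∏_{R j l} (X - r) = - C κ_lj ∏_{R l j} (X - r)`: compare leading coefficients
(`Polynomial.leadingCoeff`, `monic_prod_of_monic`) and roots (evaluate at `s`: the evaluation is zero
iff `s ∈ R`). (2) evaluate `diff` at `s`. (3) from (2). (4) `no_triple`. (5) `lk` from (2) and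
`Real.log_mul`, `Real.log_prod` (all factors are nonzero if `s ∉ R j l`). (6) `lk` from (1):
symmetric. (7) `|κ| ≥ 1` and `|s - r| ≥ 1` or `log 0 = 0`. (8) If `s ∈ R j h` and `l` is different
from `j`, `h`: `s ∉ R j l`, `s ∉ R h l` and `P j (s) = P h (s)`, so `lk j l s = lk h l s` by (5); and
`lk j h s = lk h j s`; split the sums over `univ.erase j`, `univ.erase h`. (9), (10): unfold `ns`,
`cr`, `Node`, `s` (the sets `image a` and the `R j l`, `l ≠ j`, are pairwise disjoint: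
`Finset.card_union_of_disjoint`, `Finset.card_biUnion`, `Finset.card_image_of_injective`). -/
def SpecSTG : Prop := ∀ D : Gr,
  (∀ j l, j ≠ l → D.R j l = D.R l j ∧ D.kap l j = -D.kap j l) ∧
  (∀ j l (s : ℤ), j ≠ l → (D.P j).eval s - (D.P l).eval s = D.kap j l * ∏ r ∈ D.R j l, (s - r)) ∧
  (∀ j l (s : ℤ), j ≠ l → ((D.P j).eval s = (D.P l).eval s ↔ s ∈ D.R j l)) ∧
  (∀ j l l' (s : ℤ), j ≠ l → j ≠ l' → s ∈ D.R j l → s ∈ D.R j l' → l = l') ∧
  (∀ j l (s : ℤ), j ≠ l → s ∉ D.R j l →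
    D.lk j l s = Real.log |(((D.P j).eval s : ℤ) : ℝ) - ((D.P l).eval s : ℤ)|) ∧
  (∀ j l (s : ℤ), j ≠ l → D.lk j l s = D.lk l j s) ∧
  (∀ j l (s : ℤ), j ≠ l → 0 ≤ D.lk j l s) ∧
  (∀ j h (s : ℤ) (lam : ℤ), j ≠ h → s ∈ D.R j h → D.Lam lam j s = D.Lam lam h s) ∧
  (∀ j c, c ∈ D.ns j ↔ D.Node j c) ∧
  (∀ j, (D.ns j).card = D.m + D.s j)

/-- NRG [120 lines]. Lower bounds on the circles (none).

Proof. `‖circ c R θ - s‖ = R` if `s = c`, and `≥ |c - s| - R ≥ |c - s| - 1/2` otherwise (`Circ`,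
`HY/REG`, `LA/NRM.lean`), so it is `≥ fx c s`, and `≥ R` (`fx c s ≥ 3/8` always). For `l ≠ j`:
`P j (x) - P l (x) = κ ∏ (x - r)` (apply `aeval x` to `D.diff`), `|κ| ≥ 1`. So the first part is a
product of inequalities (all `fx` are positive). Second part: `fx c r ≥ 1` unless
`r ∈ {c - 1, c, c + 1}`, so `∏_{r ∈ R j l} fx c r ≥ (1/2) (3/8) (1/2) = 3/32`. -/
def SpecNRG : Prop :=
  ∀ (D : Gr) (lam : ℤ) (j : Fin D.n) (c : ℤ) (R : ℝ), 3 / 8 < R → R < 1 / 2 → ∀ θ : ℝ,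
    D.mu lam j c ≤ ‖(lam : ℂ) * (∏ i, (circ c R θ - (D.a i : ℂ))) *
      ∏ l ∈ Finset.univ.erase j, (D.b j (circ c R θ) - D.b l (circ c R θ))‖ ∧
    (∀ l, l ≠ j → 3 / 32 ≤ ‖D.b j (circ c R θ) - D.b l (circ c R θ)‖) ∧
    ∀ s : ℤ, R ≤ ‖circ c R θ - (s : ℂ)‖

/-- SHG [300 lines]. The branch `y ≈ P j` of the curve over the circle (NRG).

Proof. Copy of `SHLM.main` in `LA/SHL.lean` (which uses `Sheet.exists_root`, `Sheet.root_unique` of
`Sheet.lean`; the auxiliary functions `be`, `AA`, `eqf` there are for lines: write them again with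
`D.b`, a polynomial in `x`). `ρ = 3/32` instead of `3/8`: `r = (3/32) / (4 n)`, `ε = 1 / lam`,
`K = (4/3) |lam| / Λ`; `‖u‖ ≤ r` gives `‖u + β l‖ ≥ ‖β l‖ (1 - 1/(4n))`, so
`‖A ∏ (u + β l)‖ ≥ (3/4) Λ / |lam|`, and `‖ε‖ K = 4/(3Λ) ≤ r/2 = 3 / (256 n)` for `Λ ≥ 128 n`. -/
def SpecSHG : Prop :=
  ∀ (D : Gr) (lam : ℤ) (j : Fin D.n) (c : ℤ) (R Λ : ℝ), 3 / 8 < R → R < 1 / 2 →
    128 * (D.n : ℝ) ≤ Λ → Λ ≤ D.mu lam j c → ∃ Y : ℝ → ℂ, ContDiff ℝ 1 Y ∧
      (∀ θ, Y (θ + 2 * Real.pi) = Y θ) ∧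
      (∀ θ, (lam : ℂ) * (∏ i, (circ c R θ - (D.a i : ℂ))) *
        (∏ l, (Y θ - D.b l (circ c R θ))) = 1) ∧
      ∀ θ, ‖Y θ - D.b j (circ c R θ)‖ ≤ 4 / (3 * Λ)

/-- RGG [400 lines]. The regulators of the symbols along a circle (NRG, STG; uses `Hy.specCIR`,
`Hy.specLOG`).

Proof. As `LA/RGL.lean` for one loop (`reg_lin`, `reg_const`, `err_ne`, `err_self`, `error_bound`
there). `γ` is a loop with `γ.ev θ x = circ c R θ`, `γ.ev θ y = Y θ`. `X s`, `U l`, `L` are the units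
`x - s`, `y - P l`, `lam`. For `l ≠ j`: `U l = B l * V l`, `B l = (P j - P l)(x) = κ ∏_{r ∈ R j l} X r`;
on the loop `V l = 1 + (Y - P j)/(P j - P l) = exp ℓ`, `ℓ = Complex.log (1 + ..)`,
`‖(Y - P j)/(P j - P l)‖ ≤ 4/(3Λ) * 32/3 = 128/(9Λ) ≤ 1/2`, `‖ℓ‖ ≤ (3/2) * 128/(9Λ) = 64/(3Λ)`. The
exact part: the regulator of `{X s, B l}` is `2 π` times `- log |κ| [s = c] +
∑_{r ∈ R j l} ([r = c] log |c - s| - [s = c] log |c - r|) = psi lam j c s l` (`reg_lin` for
`{X s, X r}`, `reg_const` for `{X s, κ}`). The error for `{X s / X s', V l}` is at most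
`4 π * 64/(3Λ)` (`error_bound`). For `l = j` the relation `L ∏ X (a i) ∏ U l = 1` gives the value
`psi lam j c s j` (here one needs that exactly one of `c = a i`, `c ∈ R j h` holds, because
`c ∈ D.ns j`) with at most `n - 1` times this error. Total for a quotient `U l / U l'`, `l ≠ l'`: at
most `n * 4 π * 64/(3Λ) ≤ 272 n / Λ`. -/
def SpecRGG : Prop :=
  ∀ (D : Gr) (lam : ℤ) (K : Type) [Field K] [CharZero K] (x y : K) (γ : Loop K) (X : ℤ → Kˣ)
    (U : Fin D.n → Kˣ) (L : Kˣ) (j : Fin D.n) (c : ℤ) (R Λ : ℝ) (Y : ℝ → ℂ), lam ≠ 0 →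
    (∀ s, (X s : K) = x - (s : K)) → (∀ l, (U l : K) = y - D.b l x) → (L : K) = (lam : K) →
    L * (∏ i, X (D.a i)) * ∏ l, U l = 1 → 3 / 8 < R → R < 1 / 2 → 128 * (D.n : ℝ) ≤ Λ →
    c ∈ D.ns j → (∀ θ, γ.ev θ x = circ c R θ) → (∀ θ, γ.ev θ y = Y θ) → ContDiff ℝ 1 Y →
    (∀ θ, Y (θ + 2 * Real.pi) = Y θ) → (∀ θ, ‖Y θ - D.b j (circ c R θ)‖ ≤ 4 / (3 * Λ)) →
      ∀ (s s' : ℤ) (l l' : Fin D.n), l ≠ l' →
        |reg γ (sym (X s * (X s')⁻¹) (U l * (U l')⁻¹)) - 2 * Real.pi *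
          (D.psi lam j c s l - D.psi lam j c s l' - D.psi lam j c s' l + D.psi lam j c s' l')| ≤
            272 * D.n / Λ

/-! ## Flows -/

/-- A flow on the dual graph of the arrangement: `z j s` is its value at the node above `s` on the
`j`-th graph. -/
structure Flow (D : Gr) (z : Fin D.n → ℤ → ℝ) : Prop where
  supp : ∀ j s, s ∉ D.ns j → z j s = 0
  vert : ∀ i, ∑ j, z j (D.a i) = 0
  pair : ∀ j l s, j ≠ l → s ∈ D.R j l → z j s + z l s = 0
  horiz : ∀ j, ∑ s ∈ D.ns j, z j s = 0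

/-- The value of the model at the node `(j, c)` for a flow. -/
noncomputable def V (D : Gr) (lam : ℤ) (z : Fin D.n → ℤ → ℝ) (j : Fin D.n) (c : ℤ) : ℝ :=
  if c ∈ D.ns j then ∑ l, ∑ s ∈ D.ns l, z l s * D.psi lam j c s l else 0

/-- The inner product of flows (each node counted once). -/
noncomputable def ip (D : Gr) (z w : Fin D.n → ℤ → ℝ) : ℝ :=
  ∑ i, ∑ j, z j (D.a i) * w j (D.a i) + (1 / 2) * ∑ j, ∑ s ∈ D.cr j, z j s * w j s

/-- The flow of the symbol with index `i`. -/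
noncomputable def cyc (D : Gr) (i : D.Idx) (j : Fin D.n) (s : ℤ) : ℝ :=
  ((if D.l1 i = j then 1 else 0) - (if D.l2 i = j then 1 else 0)) *
    ((if D.ctr i = s then 1 else 0) - (if D.a D.i0 = s then 1 else 0))

/-- The flow with the coordinates `v`. -/
noncomputable def zv (D : Gr) (v : D.Idx → ℝ) (j : Fin D.n) (s : ℤ) : ℝ := ∑ i, v i * cyc D i j s

/-- PRS [80 lines]. Above an abscissa which is no `a i` the nodes come in pairs (STG).

Proof. If `s ∉ cr l` then `s ∉ ns l` and `z l s = 0`. If `s ∈ cr l` there is exactly one `l' ≠ l` with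
`s ∈ R l l'` (STG (4)). So `∑_l z l s w l = ∑_l ∑_{l'} [l ≠ l' ∧ s ∈ R l l'] z l s w l`; this double
sum changes its sign if `l` and `l'` are exchanged (`pair`, `R l l' = R l' l`, `w l = w l'`), so it is
zero. -/
def SpecPRS : Prop :=
  ∀ (D : Gr) (z : Fin D.n → ℤ → ℝ) (w : Fin D.n → ℝ) (s : ℤ), Flow D z → (∀ i, s ≠ D.a i) →
    (∀ l l', l ≠ l' → s ∈ D.R l l' → w l = w l') → ∑ l, z l s * w l = 0

/-- VFF [150 lines]. Formulas for the values of the model (STG, PRS).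

Proof. Insert `psi`; `z l s = 0` for `s ∉ ns l`. (1) `c = a i` (so `c ∉ R j l` for all `l ≠ j`,
`c ∈ ns l` for all `l`): the terms `l = j` give `Lam * z j c - ∑_s z j s log |c - s|`, the terms
`l ≠ j` give `- z l c * lk j l c`. (2) `c ∈ R j h`: `c ∉ R j l` for `l ≠ j, h`; `l = j` as before;
`l = h` gives `∑_s z h s log |c - s| - z h c lk j h c` and `z h c = - z j c`; the sum over
`l ≠ j, h` of `z l c * lk j l c` is zero by PRS with `w l = lk j l c` for `l ≠ j, h` and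
`w j = w h = 0` (if `c ∈ R l l'` then `{l, l'} = {j, h}` or both are different from `j`, `h`, and then
`lk j l c = log |P j (c) - P l (c)| = lk j l' c`). -/
def SpecVFF : Prop :=
  ∀ (D : Gr) (lam : ℤ) (z : Fin D.n → ℤ → ℝ), Flow D z →
    (∀ j i, V D lam z j (D.a i) = z j (D.a i) * D.Lam lam j (D.a i) -
      ∑ s ∈ D.ns j, z j s * Real.log |(D.a i : ℝ) - s| -
      ∑ l ∈ Finset.univ.erase j, z l (D.a i) * D.lk j l (D.a i)) ∧
    ∀ j h c, j ≠ h → c ∈ D.R j h → V D lam z j c = z j c * (D.Lam lam j c + D.lk j h c) +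
      ∑ s ∈ D.ns h, z h s * Real.log |(c : ℝ) - s| - ∑ s ∈ D.ns j, z j s * Real.log |(c : ℝ) - s|

/-- VFL [250 lines]. The values form a flow (STG, PRS, VFF).

Proof. `supp` by definition. `pair`: VFF (2) for `(j, h)` and `(h, j)`: `z h c = - z j c`,
`Lam j c = Lam h c`, `lk` symmetric. `vert`: VFF (1), sum over `j`: `∑_j ∑_s z j s log |a i - s|`: for
`s ≠ a i` the sum `∑_j z j s` is zero (`vert` if `s = a i'`, PRS with `w = 1` otherwise), for
`s = a i` the logarithm is `0`; `∑_j z j c Lam j c - ∑_j ∑_{l ≠ j} z l c lk j l c =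
∑_j z j c (Lam j c - ∑_{l ≠ j} lk l j c) = ∑_j z j c (log |lam| + ∑ log |c - a i'|) = 0`. `horiz`: for
each `l`, `∑_{c ∈ ns j} ∑_{s ∈ ns l} z l s psi j c s l`: for `l = j` the inner sum over `c` of
`psi j c s j` is `Lam j s - ∑_{c ∈ ns j} log |c - s| = log |lam| + ∑_{h ≠ j} log |κ_jh|` (unfold `Lam`,
`lk`: the sets `image a`, `R j h` are disjoint and their union is `ns j`), independent of `s`. For
`l ≠ j` the sum over `c ∈ ns j` of `psi j c s l` is
`∑_{c ∈ R j l} log |c - s| - [s ∈ ns j] lk j l s = - log |κ_jl| + [s ∉ ns j] lk j l s`; the first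
term is independent of `s` (so it gives `0` by `horiz` for `l`); the sum of the `z l s lk j l s` over
`l ≠ j` is zero for every `s ∉ ns j`: such an `s` is no `a i`, and PRS applies with
`w l = lk j l s`, `w j = 0` (if `s ∈ R l l'` then `l`, `l'` are different from `j` because
`s ∉ ns j`, and `lk j l s = log |P j (s) - P l (s)| = lk j l' s`). -/
def SpecVFL : Prop :=
  ∀ (D : Gr) (lam : ℤ) (z : Fin D.n → ℤ → ℝ), Flow D z → Flow D (V D lam z)

/-- ENG [250 lines]. Positivity of the form (STG, VFF; `Hy.ENEM.energy` in `HY/ENE.lean`).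

Proof. By VFF, `ip z (V z) = ∑_ij z_ij² Lam + (1/2) ∑_j ∑_{s ∈ cr j} z_js² (Lam j s + lk j h s)
- ∑_j E_j - ∑_i F_i`, `E_j = ∑_{s, t ∈ ns j} z j s z j t log |s - t|`,
`F_i = ∑_{j ≠ l} z j (a i) z l (a i) log |P j (a i) - P l (a i)|`. (The part with `E`: at a crossing
`c` of `j` and `h` one has
`z j c V j c ∋ z j c (∑_t z h t log |c - t| - ∑_t z j t log |c - t|)` and `z j c = - z h c`, so this is
`- (z h c ∑_t z h t log |c - t| + z j c ∑_t z j t log |c - t|)`; summed over the ordered pairs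
`(j, h)` with the factor `1/2`: `- ∑_j ∑_{c ∈ cr j} z j c ∑_t z j t log |c - t|`; use
`∑_{s ∈ cr j} f s = ∑_{h ≠ j} ∑_{s ∈ R j h} f s` (`Finset.sum_biUnion`).) The points of `ns j` are
distinct integers and `∑ z j s = 0`: `E_j ≤ log 2 ∑_{s ∈ ns j} z j s²` (`Hy.ENEM.energy` for the
subtype of `ns j`). The `P j (a i)` are distinct integers (`a i ∉ R j l`) and `∑_j z j (a i) = 0`:
`F_i ≤ log 2 ∑_j z j (a i)²` (the terms `j = l` have `log 0 = 0`). Together `2 log 2 * ip z z`.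
Finally `lk ≥ 0`. -/
def SpecENG : Prop :=
  ∀ (D : Gr) (lam : ℤ) (ℓ : ℝ) (z : Fin D.n → ℤ → ℝ), Flow D z →
    (∀ j, ∀ c ∈ D.ns j, ℓ ≤ D.Lam lam j c) →
      (ℓ - 2 * Real.log 2) * ip D z z ≤ ip D z (V D lam z)

/-- COF [250 lines]. The symbols are a basis of the flows (STG).

Proof. (1) number of indices (`Fintype.card_sum`, `Fintype.card_sigma`, `Fintype.card_subtype`; see
`K2Main.card_idx`). (2) `cyc i` is a flow: `supp`: `cyc i j s ≠ 0` implies `j ∈ {l1 i, l2 i}` and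
`s ∈ {ctr i, a 0}`, which are in `ns j`. `vert`, `horiz`: one of the two factors sums to zero
(`∑_j [l1 = j] - [l2 = j] = 0`; `ctr i, a 0 ∈ ns j` if the first factor is not zero). `pair`:
`s ∈ R j l` is not `a 0`; if `ctr i = s` then `i` is a crossing of `l1 i`, `l2 i` above `s` (not of the
first kind because of `cross_a`), and `{l1 i, l2 i}` is equal to `{j, l}` or disjoint from it
(`no_triple`). Sums of flows are flows. (3) `cyc i (l1 k) (ctr k) = [i = k]` (as `K2Main.leading`).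
(4) A flow with `z (l1 k) (ctr k) = 0` for all `k` is zero: `z j (a i) = 0` for `i ≠ i0`, `j ≠ j0`;
`z j c = 0` at all crossings (`pair`); then `z j0 (a i) = 0` for `i ≠ i0` (`vert`), and
`z j (a i0) = 0` for all `j` (`horiz`). Apply this to `z - zv (co z)`. (5) `V (zv v)` at
`(l1 k, ctr k)`: `∑_l ∑_{s ∈ ns l} cyc i l s psi = A lam i k` because `cyc i l s` is supported in
`ns l`. -/
def SpecCOF : Prop := ∀ D : Gr,
  Fintype.card D.Idx = D.g ∧
  (∀ v : D.Idx → ℝ, Flow D (zv D v)) ∧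
  (∀ (v : D.Idx → ℝ) k, zv D v (D.l1 k) (D.ctr k) = v k) ∧
  (∀ z, Flow D z → zv D (fun k => z (D.l1 k) (D.ctr k)) = z) ∧
  (∀ (lam : ℤ) (v : D.Idx → ℝ) k, V D lam (zv D v) (D.l1 k) (D.ctr k) = ∑ i, v i * D.A lam i k) ∧
  (∀ k, D.ctr k ∈ D.ns (D.l1 k) ∧ D.l1 k ≠ D.l2 k)

/-- NOG [200 lines]. The norm of a flow and its coordinates (STG, COF).

Proof. A crossing `k = (j, l, c)`, `j < l`, occurs twice in `∑_j ∑_{s ∈ cr j} z j s²` (as `(j, c)` and
`(l, c)`, `z l c = - z j c`), so `ip z z = ∑_{i, j} z j (a i)² + ∑_{crossings k} v k²`. The entries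
with `i ≠ i0`, `j ≠ j0` are the other coordinates, so
`ip z z = ∑_k v k² + ∑_{(i, j) ∈ T} z j (a i)²`, where `T` is the set of the pairs with `i = i0` or
`j = j0`. By Cauchy-Schwarz `z j (a i)² = (∑_k v k cyc k j (a i))² ≤ g ∑_k v k² cyc k j (a i)²`, and
for every `k` the sum of `cyc k j (a i)²` over `(i, j) ∈ T` is at most `3`: over all `(i, j)` it is a
product of `∑_j ([l1 = j] - [l2 = j])² = 2` and `∑_i ([ctr = a i] - [a 0 = a i])²`, which is `2` for
`k` of the first kind (then `(ctr k, l1 k)` is not in `T`) and `1` for `k` of the second kind. -/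
def SpecNOG : Prop := ∀ (D : Gr) (v : D.Idx → ℝ),
  ∑ k, v k ^ 2 ≤ ip D (zv D v) (zv D v) ∧
  ip D (zv D v) (zv D v) ≤ (1 + 3 * (D.g : ℝ)) * ∑ k, v k ^ 2

/-- DTG [200 lines]. The determinant (VFL, ENG, COF, NOG; `LA.LNLM.det_ge_gen` in `LA/LNL.lean`).

Proof. `ip` is a positive semidefinite symmetric form; let `ψ v` be the vector with the entries
`zv v j (a i)` and `zv v j s / √2` (`s ∈ cr j`) in a Euclidean space, so `⟪ψ v, ψ w⟫ = ip (zv v) (zv w)`.
Put `(M v)_k = ∑_i v i A i k`; `zv (M v) = V (zv v)` by COF (4), (5) and VFL. ENG and Cauchy-Schwarz: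
`‖ψ (M v)‖ ≥ (ℓ - 2 log 2) ‖ψ v‖`. The error `E` (entries at most `η`) satisfies
`∑_k (∑_i v i E i k)² ≤ g² η² ∑ v² ≤ g² η² ‖ψ v‖²`, so `‖ψ (E v)‖ ≤ C g η ‖ψ v‖` by NOG. So the map of
`N` expands `‖ψ ·‖` by `κ = 2 π (ℓ - 2 log 2) - C g η`, and `κ ^ g ≤ |det N|` by `det_ge_gen`. -/
def SpecDTG : Prop :=
  ∀ (D : Gr) (lam : ℤ) (ℓ C : ℝ), (∀ j, ∀ c ∈ D.ns j, ℓ ≤ D.Lam lam j c) → 0 ≤ C →
    1 + 3 * (D.g : ℝ) ≤ C ^ 2 →
    ∀ (e' : Fin D.g ≃ D.Idx) (N : Matrix (Fin D.g) (Fin D.g) ℝ) (η : ℝ),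
      (∀ i k, |N i k - 2 * Real.pi * D.A lam (e' i) (e' k)| ≤ η) →
      0 < 2 * Real.pi * (ℓ - 2 * Real.log 2) - C * D.g * η →
        (2 * Real.pi * (ℓ - 2 * Real.log 2) - C * D.g * η) ^ D.g ≤ |N.det|

/-- LMG [100 lines]. The value of `Lam` at a node (none).

Proof. `mu` is a product of positive factors; for `s ≠ c`, `log fx c s ≤ log |c - s|`, and the factor
`3/8` of the node contributes `log (3/8)` where `Lam` has `log 0 = 0` (as `LA/LAM.lean`). -/
def SpecLMG : Prop :=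
  ∀ (D : Gr) (lam : ℤ) (j : Fin D.n) (c : ℤ) (Λ : ℝ), 0 < Λ → c ∈ D.ns j →
    Λ ≤ D.mu lam j c → Real.log (8 * Λ / 3) ≤ D.Lam lam j c

/-! ## Integrality and exactness -/

/-- ING [80 lines]. The symbols are unramified (none; `T/INT.lean`).

Proof. `TInt.tame_fG`, `TInt.tame_phi` with `f i = X - C (a i)`, `G j = X - C (P j)`, `H = C (C lam)`,
`φ = X - C c` and all exponents equal to `1`: the values are `x - a i`, `y - P j (x)`, `lam`, and
`C φ ∣ G (l1) - G (l2) = C (P (l2) - P (l1))` by `D.diff`. -/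
def SpecING : Prop :=
  ∀ (D : Gr) (lam : ℤ) (K : Type) [Field K] (x y : K),
    (lam : K) * (∏ i, (x - (D.a i : K))) * (∏ j, (y - D.b j x)) = 1 →
    ∀ (i : D.Idx) (u w : Kˣ), (u : K) * (x - (D.a D.i0 : K)) = x - (D.ctr i : K) →
      (w : K) * (y - D.b (D.l2 i) x) = y - D.b (D.l1 i) x → Unramified (sym u w)

/-- SPX [250 lines]. Up to torsion and symbols with constants the symbols span `symG` (STG).

Proof. As `Span.lean` (use its general lemmas `Span.sml`, .., `Span.s_anti`, `Span.sat` and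
`EXAM.anti`, `EXAM.self0`, `EXAM.neg1r`, `EXAM.prod_left` of `HY/EXA.lean`). Let `φ` be the projection
to the quotient of `K2 K` by the saturation of the right hand side, a torsion free group; `φ (α i) = 0`
and `φ {c, u} = 0`. Write `X s = x - s`, `Y j = y - P j`, `z j = φ {X (a 0), Y j}`. (a) The symbols of
the first kind: `φ {X (a i), Y j} = z j + φ {X (a i), Y 0} - z 0`. (b) `φ {X (a i), X (a i')} = 0`
(the difference is a constant; `Span.par`), so the symbol of `X (a i)` with the equation of the curve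
gives `∑_j φ {X (a i), Y j} = 0`; for `i = 0`: `∑_j z j = 0`, so `n (φ {X (a i), Y 0} - z 0) = 0` and
`φ {X (a i), Y j} = z j` for all `i`, `j`. (c) The symbols of the second kind:
`φ {X r, Y j / Y l} = z j - z l` for `r ∈ R j l`. (d) `B = P j - P l = κ ∏_{r ∈ R j l} X r`,
`Y l - Y j = B`, so `{Y l / B, - Y j / B} = 0`, hence `φ {Y l, Y j} = φ {B, Y j / Y l} =
φ {κ, Y j / Y l} + ∑_r φ {X r, Y j / Y l} = |R j l| (z j - z l)`. (e) The symbol of `Y j` with the
equation: `- m z j + ∑_{l ≠ j} |R j l| (z l - z j) = 0`. The integral matrix of this system is strictly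
diagonally dominant because `m ≥ 1` (`Span.mat_det`, `Span.linsys`), so `z = 0`. So `φ` is zero on all
generators of `symG`. Membership: `α i` is `{X (ctr i) / X (a 0), Y (l1) / Y (l2)}`, a sum of
generators. -/
def SpecSPX : Prop :=
  ∀ (D : Gr) (lam : ℤ) (K : Type) [Field K] [Algebra ℚ K] (x y : K), IsCurveG ℚ K D lam x y →
    ∀ α : D.Idx → K2 K, (∀ i, ∃ u w : Kˣ, (u : K) * (x - (D.a D.i0 : K)) = x - (D.ctr i : K) ∧
      (w : K) * (y - D.b (D.l2 i) x) = y - D.b (D.l1 i) x ∧ α i = sym u w) →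
      (∀ i, α i ∈ symG K D x y) ∧ ∀ β ∈ symG K D x y, ∃ N : ℕ, 0 < N ∧
        N • β ∈ AddSubgroup.closure (Set.range α) ⊔ symCG K D x y

/-- CNG [120 lines]. Unramified sums of symbols with a constant are torsion (none; `specK2Q`,
`specPlace` are proved in `K2Q.lean`, `PlaceQ.lean`, they may be used or taken as hypotheses).

Proof. Copy of `specConst` in `Const.lean` (the lemmas there are for an arbitrary group `U` of units;
`symC_le` is written for `symC` and has to be repeated). -/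
def SpecCNG : Prop :=
  ∀ (K : Type) [Field K] [Algebra ℚ K] (x : K), Transcendental ℚ x →
    FiniteDimensional (IntermediateField.adjoin ℚ {x}) K → ConstQ K → ∀ (U : Subgroup Kˣ),
    ∀ β ∈ AddSubgroup.closure {z : K2 K | ∃ u : Kˣ, (∃ c : ℚ, (u : K) = algebraMap ℚ K c) ∧
      ∃ w ∈ U, z = sym u w}, Unramified β → ∃ N : ℕ, 0 < N ∧ N • β = 0

/-! ## Bridges (from block FM) -/

/-- EMG. A closed path on the curve with transcendental abscissas is a `Loop`. -/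
def SpecEMG : Prop :=
  ∀ (K : Type) [Field K] [Algebra ℚ K] (D : Gr) (lam : ℤ) (x y : K), IsCurveG ℚ K D lam x y →
    ∀ A B : ℝ → ℂ, ContDiff ℝ 1 A → ContDiff ℝ 1 B → (∀ θ, A (θ + 2 * Real.pi) = A θ) →
      (∀ θ, B (θ + 2 * Real.pi) = B θ) → (∀ θ, Transcendental ℚ (A θ)) →
      (∀ θ, (lam : ℂ) * (∏ i, (A θ - (D.a i : ℂ))) * (∏ j, (B θ - D.b j (A θ))) = 1) →
      ∃ γ : Loop K, ∀ θ, γ.ev θ x = A θ ∧ γ.ev θ y = B θ

/-- CQG. The field of constants is `ℚ`, and `K` is finite over `ℚ(x)`. -/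
def SpecCQG : Prop :=
  ∀ (K : Type) [Field K] [Algebra ℚ K] (D : Gr) (lam : ℤ) (x y : K), IsCurveG ℚ K D lam x y →
    ConstQ K ∧ FiniteDimensional (IntermediateField.adjoin ℚ {x}) K

/-! ## The conclusion on `K2` -/

/-- K2G [200 lines]. The conclusion on `K2` (STG, SHG, RGG, COF, DTG, LMG, ING, SPX, CNG, EMG, CQG).

Proof. As `LA/Main.lean`. `thr = 50 n e √e`, `e ≥ m n ≥ 2`, `e ≥ g`: `Λ ≥ 128 n`, `Λ ≥ 162`, and
`C g * 272 n / Λ ≤ 17` for `C = 2 √g` if `g ≥ 1` (`1 + 3 g ≤ 4 g`; for `g = 0` take `C = 1`, the term is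
zero), because `32 n g √g ≤ thr`. `R` from `Hy.RELM.radius`, `Y` from SHG for `j = l1 k`,
`c = ctr k ∈ ns (l1 k)`, `γ k` from EMG. The units are `X s = x - s` (`x` is transcendental),
`U l = y - P l (x)` and `lam` (not zero by the equation). `α i = {X (ctr i) / X (a 0), U (l1) / U (l2)}`;
RGG, LMG with `ℓ = log (8 Λ / 3)`, DTG, and `LA.MainM.kappa_ge` (in `LA/Main.lean`). Spans: ING, SPX,
CNG (with `U = unitsG`) as in `Exact.lean`. -/
def SpecK2G : Prop :=
  ∀ (D : Gr) (lam : ℤ) (Λ : ℝ), D.thr ≤ Λ → (∀ j c, D.Node j c → Λ ≤ D.mu lam j c) →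
    ∀ (K : Type) [Field K] [Algebra ℚ K] (x y : K), IsCurveG ℚ K D lam x y →
      ∃ (e' : Fin D.g ≃ D.Idx) (α : Fin D.g → K2 K) (γ : Fin D.g → Loop K),
        IsSymG D x y e' α ∧ SpansG D x y α ∧ RegG D lam Λ e' α γ

/-! ## Large arrangements -/

/-- UMK [120 lines]. The number of factors (STG).

Proof. `R j l` has `natDegree (P j - P l)` elements (`D.diff`, `Polynomial.natDegree_C_mul`,
`Polynomial.natDegree_prod_of_monic`). First part: `(ns j).card = m + ∑_{l ≠ j} |R j l|` (STG (10)), so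
the right hand side is `m + ∑_{l ≠ j} max 1 |R j l| + 2`, and it suffices that some `l ≠ j` has
`|R j l| ≥ d` (if `d ≥ 1`; `n - 2` further terms are at least `1`): let `d = deg (P a - P b)`; if
`deg (P j - P a) < d` and `deg (P j - P b) < d` then `deg (P a - P b) < d`
(`Polynomial.natDegree_sub_le`), contradiction. Second part: each of the `n (n - 1) / 2` pairs has at
most `d` crossings. -/
def SpecUMK : Prop := ∀ D : Gr,
  (∀ j, D.m + D.n + D.d ≤ (D.ns j).card +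
    ((Finset.univ.erase j).filter fun l => D.R j l = ∅).card + 2) ∧
  2 * D.e ≤ 2 * (D.m * D.n) + D.n * (D.n - 1) * D.d

/-- PBK [100 lines]. Products over distinct nonzero integers (none).

Proof. As `LGEM.prod_ge` in `HY/LGE.lean`, `LA/LRG.lean`: the factor `(|s| - 1/2) / 6` is at least `1`
for `|s| ≥ 7`, so the product of these factors over `S` is at least the one over `±1, .., ±6`, which
is `(162.421875 / 46656)² ≥ 12 / 10 ^ 6`; similarly `(720 / 46656)² ≥ 238 / 10 ^ 6` for `|t| / 6`. -/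
def SpecPBK : Prop := ∀ S : Finset ℤ, 0 ∉ S →
  12 / 10 ^ 6 * (6 : ℝ) ^ S.card ≤ ∏ s ∈ S, (|(s : ℝ)| - 1 / 2) ∧
  238 / 10 ^ 6 * (6 : ℝ) ^ S.card ≤ ∏ s ∈ S, |(s : ℝ)|

/-- MUK [120 lines]. A lower bound for `mu` (STG, PBK).

Proof. `mu = |lam| (3/8) ∏_{s ∈ ns j, s ≠ c} (|c - s| - 1/2) ∏_{l ≠ j} |κ_jl|` (the sets `image a` and
`R j l`, `l ≠ j`, are disjoint with the union `ns j`). PBK for `S = {c - s}` and for
`{κ_jl : R j l = ∅}` (distinct integers because `P l = P j - C κ_jl` for these `l`: `κ_jl = κ_jl'`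
implies `P l = P l'`, so `l = l'` by STG (1), (3) / `kap_ne`); the other `|κ_jl|` are at least `1`. -/
def SpecMUK : Prop :=
  ∀ (D : Gr) (lam : ℤ) (j : Fin D.n) (c : ℤ), lam ≠ 0 → c ∈ D.ns j →
    3 / 8 * (12 / 10 ^ 6) * (238 / 10 ^ 6) * (6 : ℝ) ^ ((D.ns j).card - 1 +
      ((Finset.univ.erase j).filter fun l => D.R j l = ∅).card) ≤ D.mu lam j c

/-- NMK [120 lines]. The numerical inequality (none).

Proof. It suffices that `2500 n² e³ ≤ (1.071 / 10 ^ 9)² 36 ^ (S - 3)`, `S = m + n + d`,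
`2 e = 2 m n + n (n - 1) d`, i.e. for natural numbers `F(m, n, d) = n² (2 m n + n (n - 1) d)³`:
`2500 F * 10 ^ 24 ≤ 8 * 1071² * 36 ^ (S - 3)`. Induction on `S`: `S = 24` by `decide` for all
`(m, n, d)`. Step `S → S + 1`: if `d ≥ 2`, `F(m, n, d) ≤ 8 F(m, n, d - 1)`; if `m ≥ 2`,
`F(m, n, d) ≤ 8 F(m - 1, n, d)`; otherwise `n ≥ 23` and `F(m, n, d) ≤ 32 F(m, n - 1, d)`. -/
def SpecNMK : Prop :=
  ∀ (m n d : ℕ) (E : ℝ), 1 ≤ m → 2 ≤ n → 24 ≤ m + n + d → 0 ≤ E →
    2 * E ≤ 2 * ((m : ℝ) * n) + n * (n - 1) * d →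
      50 * n * E * Real.sqrt E ≤ 3 / 8 * (12 / 10 ^ 6) * (238 / 10 ^ 6) * (6 : ℝ) ^ (m + n + d - 3)

/-- LRK [60 lines]. Large arrangements satisfy the condition for every `lam ≠ 0` (STG, UMK, MUK, NMK).

Proof. Combine; `6 ^ (m + n + d - 3) ≤ 6 ^ ((ns j).card - 1 + ..)` by UMK. -/
def SpecLRK : Prop :=
  ∀ (D : Gr) (lam : ℤ), lam ≠ 0 → 24 ≤ D.m + D.n + D.d → ∀ j c, D.Node j c →
    D.thr ≤ D.mu lam j c

/-- FNK [250 lines]. Finitely many exceptions in total, up to `x → x + c`, `y → y + Q(x)` (STG, UMK,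
LRK).

Proof. For an exception `m + n + d ≤ 23` by LRK, so `m`, `n`, `d` and all `|R j l| ≤ d` are bounded and
`thr ≤ T` for a constant `T`. Let `mu < T` at the node `(j, c)`. All factors of `mu` are at least `3/8`
and their number is at most `23 + 23 + 23 * 23`, so each factor is at most a constant `B`: `|lam| ≤ B`,
`|κ_jl| ≤ B` for all `l ≠ j`, `|c - s| ≤ B + 1` for all `s ∈ ns j`. As `a 0 = 0` is in `ns j`,
`|c| ≤ B + 1` and `|s| ≤ 2 B + 2` for all `s ∈ ns j`, in particular for all `a i` and all elements of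
`R j l`. So the `P j - P l` (`l ≠ j`) are in the finite set `Q` of the polynomials `C κ * ∏_{r ∈ R} (X - C r)`
with `|κ| ≤ B`, `R ⊆ [-2 B - 2, 2 B + 2]`. As `P 0 = 0`: `P j ∈ Q ∪ {0}`, and `P l = P j - (P j - P l)`
is in the finite set of differences of elements of `Q ∪ {0}`. (`Set.Finite.pi`, `Set.Finite.biUnion`
over `m, n ≤ 23`, as in `LA/Main.lean`, `LA/FNL.lean`.) -/
def SpecFNK : Prop :=
  {z : (Σ m n : ℕ, (Fin m → ℤ) × (Fin n → ℤ[X])) × ℤ | z.2 ≠ 0 ∧
    ∃ D : Gr, D.data = z.1 ∧ D.a D.i0 = 0 ∧ D.P D.j0 = 0 ∧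
      ∃ j c, D.Node j c ∧ D.mu z.2 j c < D.thr}.Finite

end MP743d1e.GA
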