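import Pool.Agent.Lib.MP_743d1e_nt.GA.Spec
import Pool.Agent.Lib.MP_743d1e_nt.GA.SpecK
import Pool.Agent.Lib.MP_743d1e_nt.Kae

section
/-!
# ALP: `ℚ` is algebraically closed in the function field, `K` is finite over `ℚ(x)`
-/
set_option autoImplicit false

namespace MP743d1e.GA

namespace ALPM

open IntermediateField in
theorem aux (hIrr : SpecIRP) (k K : Type) [Field k] [CharZero k] [Field K] [Algebra k K]
    (D : Gr) (lam : ℤ) (x y : K) (hC : IsCurveG k K D lam x y)
    (z : K) (hz : IsAlgebraic k z) : z ∈ Set.range (algebraMap k K) := by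
  have hlam : lam ≠ 0 := by
    rintro rfl
    have := hC.eqn
    simp at this
  have halg : Algebra.IsAlgebraic k (IntermediateField.adjoin k {z}) :=
    isAlgebraic_adjoin_simple hz.isIntegral
  have hcz : CharZero (IntermediateField.adjoin k {z}) :=
    charZero_of_injective_algebraMap (algebraMap k (IntermediateField.adjoin k {z})).injective
  have htr : Transcendental (IntermediateField.adjoin k {z}) x := fun h =>
    hC.transc (h.restrictScalars k)
  have hgen : IntermediateField.adjoin (IntermediateField.adjoin k {z}) {x, y} = ⊤ := by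
    rw [eq_top_iff]
    intro w _
    have h8 : IntermediateField.adjoin k {x, y} ≤
        (IntermediateField.adjoin (IntermediateField.adjoin k {z}) {x, y}).restrictScalars k :=
      IntermediateField.adjoin_le_iff.2 (IntermediateField.subset_adjoin _ {x, y})
    have hw : w ∈ IntermediateField.adjoin k {x, y} := by
      rw [hC.gen]
      trivial
    exact h8 hw
  have hC' : IsCurveG (IntermediateField.adjoin k {z}) K D lam x y := ⟨htr, hgen, hC.eqn⟩
  obtain ⟨_, f1, r1⟩ := (hIrr k D lam hlam).2 K x y hC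
  obtain ⟨_, f2, r2⟩ := (hIrr (IntermediateField.adjoin k {z}) D lam hlam).2 K x y hC'
  have hle : IntermediateField.adjoin k {x} ≤
      (IntermediateField.adjoin (IntermediateField.adjoin k {z}) {x}).restrictScalars k :=
    IntermediateField.adjoin_le_iff.2 (IntermediateField.subset_adjoin _ {x})
  have heq := IntermediateField.eq_of_le_of_finrank_eq' hle (by
    rw [r1, ← r2]
    rfl)
  have hzm : z ∈ IntermediateField.adjoin k {x} := by
    rw [heq]
    exact (IntermediateField.adjoin (IntermediateField.adjoin k {z}) {x}).algebraMap_mem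
      ⟨z, IntermediateField.mem_adjoin_simple_self k z⟩
  set e := RatFunc.algEquivOfTranscendental x hC.transc with he
  have h1 : IsAlgebraic k (e.symm ⟨z, hzm⟩) := by
    refine IsAlgebraic.algHom (e.symm : IntermediateField.adjoin k {x} →ₐ[k] RatFunc k) ?_
    rwa [← isAlgebraic_algebraMap_iff
      (FaithfulSMul.algebraMap_injective (IntermediateField.adjoin k {x}) K)]
  by_cases h2 : ∃ c, e.symm ⟨z, hzm⟩ = RatFunc.C c
  · obtain ⟨c, hc⟩ := h2
    refine ⟨c, ?_⟩
    have h3 : (⟨z, hzm⟩ : IntermediateField.adjoin k {x}) =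
        algebraMap k (IntermediateField.adjoin k {x}) c := by
      rw [← e.symm.injective.eq_iff, hc, AlgEquiv.commutes]
      rfl
    exact (congrArg (fun w : IntermediateField.adjoin k {x} => (w : K)) h3).symm
  · exact absurd h1 (RatFunc.transcendental_of_ne_C _ h2)

end ALPM

/-- CQG (module ALP). -/
theorem specCQG (hIRP : SpecIRP) : SpecCQG := by
  intro K _ _ D lam x y hC
  have hlam : lam ≠ 0 := by
    rintro rfl
    have := hC.eqn
    simp at this
  exact ⟨fun z hz => ALPM.aux hIRP ℚ K D lam x y hC z hz, ((hIRP ℚ D lam hlam).2 K x y hC).2.1⟩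

end MP743d1e.GA
end

section
/-!
# Arrangements of graphs: the symbols are a basis of the flows
-/
set_option autoImplicit false

namespace MP743d1e.GA

open scoped BigOperators
open Polynomial

namespace COFM

variable (D : Gr)

theorem a_mem (i : Fin D.m) (j : Fin D.n) : D.a i ∈ D.ns j := by
  unfold Gr.ns
  exact Finset.mem_union_left _ (Finset.mem_image_of_mem _ (Finset.mem_univ i))

theorem R_mem {j l : Fin D.n} (h : j ≠ l) {s : ℤ} (hs : s ∈ D.R j l) : s ∈ D.ns j := by
  unfold Gr.ns Gr.cr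
  refine Finset.mem_union_right _ (Finset.mem_biUnion.mpr ⟨l, ?_, hs⟩)
  exact Finset.mem_erase.mpr ⟨fun e => h e.symm, Finset.mem_univ l⟩

theorem mem_ns {j : Fin D.n} {s : ℤ} (h : s ∈ D.ns j) :
    (∃ i, s = D.a i) ∨ ∃ l, j ≠ l ∧ s ∈ D.R j l := by
  unfold Gr.ns Gr.cr at h
  rcases Finset.mem_union.mp h with h | h
  · obtain ⟨i, -, hi⟩ := Finset.mem_image.mp h
    exact Or.inl ⟨i, hi.symm⟩
  · obtain ⟨l, hl, hs⟩ := Finset.mem_biUnion.mp h
    exact Or.inr ⟨l, fun e => (Finset.mem_erase.mp hl).1 e.symm, hs⟩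

theorem a_ne {j l : Fin D.n} (h : j ≠ l) {s : ℤ} (hs : s ∈ D.R j l) (i : Fin D.m) :
    D.a i ≠ s := fun e => D.cross_a j l i h (e ▸ hs)

theorem uniq {j l l' : Fin D.n} {s : ℤ} (h1 : j ≠ l) (h2 : j ≠ l') (hs : s ∈ D.R j l)
    (hs' : s ∈ D.R j l') : l = l' := by
  by_contra hne
  exact Finset.disjoint_left.mp (D.no_triple j l l' h1 h2 hne) hs hs'

theorem card_ne {m : ℕ} (i0 : Fin m) : Fintype.card {i : Fin m // i ≠ i0} = m - 1 := by
  rw [Fintype.card_subtype_compl]
  simp

theorem card_idx : Fintype.card D.Idx = D.g := by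
  rw [Fintype.card_sum]
  unfold Gr.g Gr.crossings
  congr 1
  · rw [← card_ne D.i0, ← card_ne D.j0, ← Fintype.card_prod]
    apply Fintype.card_congr
    exact {
      toFun := fun z => (⟨z.1.1, z.2.1⟩, ⟨z.1.2, z.2.2⟩)
      invFun := fun z => ⟨(z.1.1, z.2.1), z.1.2, z.2.2⟩
      left_inv := fun z => rfl
      right_inv := fun z => rfl }
  · rw [Fintype.card_sigma]
    rw [Finset.sum_subtype (p := fun z : Fin D.n × Fin D.n => z.1 < z.2) _
      (fun z => by simp) (fun z => (D.R z.1 z.2).card)]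
    apply Finset.sum_congr rfl
    intro z _
    rw [Fintype.card_coe]

variable {D}

theorem ctr_mem1 (k : D.Idx) : D.ctr k ∈ D.ns (D.l1 k) := by
  rcases k with ⟨⟨i, j⟩, hi, hj⟩ | ⟨⟨⟨j, l⟩, hjl⟩, ⟨c, hc⟩⟩
  · exact a_mem D i j
  · exact R_mem D (ne_of_lt hjl) hc

theorem ctr_mem2 (hR : ∀ j l, j ≠ l → D.R j l = D.R l j) (k : D.Idx) : D.ctr k ∈ D.ns (D.l2 k) := by
  rcases k with ⟨⟨i, j⟩, hi, hj⟩ | ⟨⟨⟨j, l⟩, hjl⟩, ⟨c, hc⟩⟩
  · exact a_mem D i _
  · have hne : j ≠ l := ne_of_lt hjl
    refine R_mem D (Ne.symm hne) ?_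
    rw [← hR j l hne]
    exact hc

theorem l_ne (k : D.Idx) : D.l1 k ≠ D.l2 k := by
  rcases k with ⟨⟨i, j⟩, hi, hj⟩ | ⟨⟨⟨j, l⟩, hjl⟩, ⟨c, hc⟩⟩
  · exact hj
  · exact ne_of_lt hjl

/-- A node on the `j`-th graph above the centre of `i` which lies on one of its graphs. -/
theorem pairing (hR : ∀ j l, j ≠ l → D.R j l = D.R l j) (i : D.Idx) {j l : Fin D.n} (h : j ≠ l)
    (hs : D.ctr i ∈ D.R j l) :
    ((if D.l1 i = j then (1 : ℝ) else 0) - (if D.l2 i = j then 1 else 0)) +
      ((if D.l1 i = l then 1 else 0) - (if D.l2 i = l then 1 else 0)) = 0 := by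
  rcases i with ⟨⟨i, j'⟩, hi, hj⟩ | ⟨⟨⟨j', l'⟩, hjl⟩, ⟨c, hc⟩⟩
  · exact (D.cross_a j l i h hs).elim
  · have hne : j' ≠ l' := ne_of_lt hjl
    have hs' : c ∈ D.R j l := hs
    have hc' : c ∈ D.R j' l' := hc
    have hc2 : c ∈ D.R l' j' := by rw [← hR j' l' hne]; exact hc'
    have hs2 : c ∈ D.R l j := by rw [← hR j l h]; exact hs'
    show ((if j' = j then (1 : ℝ) else 0) - (if l' = j then 1 else 0)) +
      ((if j' = l then 1 else 0) - (if l' = l then 1 else 0)) = 0
    by_cases e1 : j' = j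
    · subst e1
      have e2 : l' = l := uniq D hne h hc' hs'
      subst e2
      simp [hne, hne.symm]
    · by_cases e2 : l' = j
      · subst e2
        have e3 : j' = l := uniq D hne.symm h hc2 hs'
        subst e3
        simp [hne, hne.symm]
      · have e3 : j' ≠ l := by
          rintro rfl
          exact e2 (uniq D hne h.symm hc' hs2)
        have e4 : l' ≠ l := by
          rintro rfl
          exact e1 (uniq D hne.symm h.symm hc2 hs2)
        simp [e1, e2, e3, e4]

theorem flow_cyc (hR : ∀ j l, j ≠ l → D.R j l = D.R l j) (i : D.Idx) : Flow D (cyc D i) where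
  supp := by
    intro j s hs
    unfold cyc
    by_cases h1 : D.l1 i = j
    · have e1 : D.ctr i ≠ s := fun e => hs (by rw [← e, ← h1]; exact ctr_mem1 i)
      have e2 : D.a D.i0 ≠ s := fun e => hs (by rw [← e]; exact a_mem D _ j)
      simp [e1, e2]
    · by_cases h2 : D.l2 i = j
      · have e1 : D.ctr i ≠ s := fun e => hs (by rw [← e, ← h2]; exact ctr_mem2 hR i)
        have e2 : D.a D.i0 ≠ s := fun e => hs (by rw [← e]; exact a_mem D _ j)
        simp [e1, e2]
      · simp [h1, h2]
  vert := by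
    intro i'
    unfold cyc
    rw [← Finset.sum_mul, Finset.sum_sub_distrib]
    simp
  pair := by
    intro j l s h hs
    unfold cyc
    have e2 : D.a D.i0 ≠ s := a_ne D h hs _
    by_cases e1 : D.ctr i = s
    · subst e1
      have := pairing hR i h hs
      rw [if_neg e2, if_pos rfl]
      linear_combination this
    · simp [e1, e2]
  horiz := by
    intro j
    unfold cyc
    rw [← Finset.mul_sum, Finset.sum_sub_distrib]
    by_cases h1 : D.l1 i = j
    · have e1 : D.ctr i ∈ D.ns j := by rw [← h1]; exact ctr_mem1 i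
      have e2 : D.a D.i0 ∈ D.ns j := a_mem D _ j
      rw [Finset.sum_ite_eq, Finset.sum_ite_eq, if_pos e1, if_pos e2]
      simp
    · by_cases h2 : D.l2 i = j
      · have e1 : D.ctr i ∈ D.ns j := by rw [← h2]; exact ctr_mem2 hR i
        have e2 : D.a D.i0 ∈ D.ns j := a_mem D _ j
        rw [Finset.sum_ite_eq, Finset.sum_ite_eq, if_pos e1, if_pos e2]
        simp
      · simp [h1, h2]

theorem flow_zv (hR : ∀ j l, j ≠ l → D.R j l = D.R l j) (v : D.Idx → ℝ) : Flow D (zv D v) where
  supp := by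
    intro j s hs
    unfold zv
    apply Finset.sum_eq_zero
    intro i _
    rw [(flow_cyc hR i).supp j s hs, mul_zero]
  vert := by
    intro i'
    unfold zv
    rw [Finset.sum_comm]
    apply Finset.sum_eq_zero
    intro i _
    rw [← Finset.mul_sum, (flow_cyc hR i).vert i', mul_zero]
  pair := by
    intro j l s h hs
    unfold zv
    rw [← Finset.sum_add_distrib]
    apply Finset.sum_eq_zero
    intro i _
    rw [← mul_add, (flow_cyc hR i).pair j l s h hs, mul_zero]
  horiz := by
    intro j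
    unfold zv
    rw [Finset.sum_comm]
    apply Finset.sum_eq_zero
    intro i _
    rw [← Finset.mul_sum, (flow_cyc hR i).horiz j, mul_zero]

theorem flow_sub {z w : Fin D.n → ℤ → ℝ} (hz : Flow D z) (hw : Flow D w) :
    Flow D (fun j s => z j s - w j s) where
  supp := by
    intro j s hs
    show z j s - w j s = 0
    rw [hz.supp j s hs, hw.supp j s hs, sub_zero]
  vert := by
    intro i
    show ∑ j, (z j (D.a i) - w j (D.a i)) = 0
    rw [Finset.sum_sub_distrib, hz.vert i, hw.vert i, sub_zero]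
  pair := by
    intro j l s h hs
    show z j s - w j s + (z l s - w l s) = 0
    linear_combination hz.pair j l s h hs - hw.pair j l s h hs
  horiz := by
    intro j
    show ∑ s ∈ D.ns j, (z j s - w j s) = 0
    rw [Finset.sum_sub_distrib, hz.horiz j, hw.horiz j, sub_zero]

theorem leading (hR : ∀ j l, j ≠ l → D.R j l = D.R l j) (i k : D.Idx) :
    cyc D i (D.l1 k) (D.ctr k) = if i = k then 1 else 0 := by
  unfold cyc
  have hk0 : D.a D.i0 ≠ D.ctr k := by
    rcases k with ⟨⟨i', j'⟩, hi', hj'⟩ | ⟨⟨⟨j', l'⟩, hjl'⟩, ⟨c', hc'⟩⟩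
    · exact fun e => hi' (D.a_inj e).symm
    · exact a_ne D (ne_of_lt hjl') hc' _
  rw [if_neg hk0]
  by_cases hik : i = k
  · subst hik
    rw [if_pos rfl, if_pos rfl, if_pos rfl, if_neg (Ne.symm (l_ne i))]
    norm_num
  · rw [if_neg hik]
    by_cases hc : D.ctr i = D.ctr k
    · rw [if_pos hc]
      have : ((if D.l1 i = D.l1 k then (1 : ℝ) else 0) - (if D.l2 i = D.l1 k then 1 else 0)) = 0 := by
        rcases i with ⟨⟨i, j⟩, hi, hj⟩ | ⟨⟨⟨j, l⟩, hjl⟩, ⟨c, hcc⟩⟩ <;>
        rcases k with ⟨⟨i', j'⟩, hi', hj'⟩ | ⟨⟨⟨j', l'⟩, hjl'⟩, ⟨c', hcc'⟩⟩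
        · have e1 : i = i' := D.a_inj hc
          have e2 : j ≠ j' := by
            rintro rfl
            apply hik
            subst e1
            rfl
          have e3 : D.j0 ≠ j' := fun e => hj' e.symm
          show ((if j = j' then (1 : ℝ) else 0) - (if D.j0 = j' then 1 else 0)) = 0
          rw [if_neg e2, if_neg e3, sub_zero]
        · exact (a_ne D (ne_of_lt hjl') hcc' i hc).elim
        · exact (a_ne D (ne_of_lt hjl) hcc i' hc.symm).elim
        · have e1 : c = c' := hc
          subst e1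
          have h1 : j ≠ l := ne_of_lt hjl
          have h2 : j' ≠ l' := ne_of_lt hjl'
          have hjl1 : j < l := hjl
          have hjl2 : j' < l' := hjl'
          have hcc2 : c ∈ D.R l j := by rw [← hR j l h1]; exact hcc
          have e2 : j ≠ j' := by
            rintro rfl
            have e3 : l = l' := uniq D h1 h2 hcc hcc'
            subst e3
            exact hik rfl
          have e3 : l ≠ j' := by
            rintro rfl
            have e4 : j = l' := uniq D h1.symm h2 hcc2 hcc'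
            subst e4
            exact absurd hjl1 (not_lt.mpr hjl2.le)
          show ((if j = j' then (1 : ℝ) else 0) - (if l = j' then 1 else 0)) = 0
          rw [if_neg e2, if_neg e3, sub_zero]
      rw [this, zero_mul]
    · rw [if_neg hc, sub_zero, mul_zero]

theorem coord (hR : ∀ j l, j ≠ l → D.R j l = D.R l j) (v : D.Idx → ℝ) (k : D.Idx) :
    zv D v (D.l1 k) (D.ctr k) = v k := by
  unfold zv
  rw [Finset.sum_eq_single k]
  · rw [leading hR, if_pos rfl, mul_one]
  · intro i _ hik
    rw [leading hR, if_neg hik, mul_zero]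
  · intro h
    exact absurd (Finset.mem_univ k) h

theorem zero_of_coord (hR : ∀ j l, j ≠ l → D.R j l = D.R l j) {z : Fin D.n → ℤ → ℝ}
    (hz : Flow D z) (h0 : ∀ k, z (D.l1 k) (D.ctr k) = 0) (j : Fin D.n) (s : ℤ) : z j s = 0 := by
  have hcross : ∀ (j l : Fin D.n) (s : ℤ), j ≠ l → s ∈ D.R j l → z j s = 0 := by
    intro j l s hjl hs
    have hs' : s ∈ D.R l j := by rw [← hR j l hjl]; exact hs
    rcases lt_or_gt_of_ne hjl with h | h
    · exact h0 (Sum.inr ⟨⟨(j, l), h⟩, ⟨s, hs⟩⟩)
    · have h1 : z l s = 0 := h0 (Sum.inr ⟨⟨(l, j), h⟩, ⟨s, hs'⟩⟩)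
      have h2 := hz.pair j l s hjl hs
      rw [h1, add_zero] at h2
      exact h2
  have ha : ∀ (j : Fin D.n) (i : Fin D.m), i ≠ D.i0 → z j (D.a i) = 0 := by
    intro j i hi
    have h1 : ∀ j, j ≠ D.j0 → z j (D.a i) = 0 := fun j hj => h0 (Sum.inl ⟨(i, j), hi, hj⟩)
    by_cases hj : j = D.j0
    · have h2 := hz.vert i
      rw [Finset.sum_eq_single D.j0 (fun b _ hb => h1 b hb)
        (fun h => absurd (Finset.mem_univ _) h)] at h2
      rw [hj]
      exact h2
    · exact h1 j hj
  have h00 : ∀ j, z j (D.a D.i0) = 0 := by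
    intro j
    have h2 := hz.horiz j
    rw [Finset.sum_eq_single (D.a D.i0)] at h2
    · exact h2
    · intro b hb hb0
      rcases mem_ns D hb with ⟨i, hi⟩ | ⟨l, hl, hs⟩
      · rw [hi]
        apply ha
        rintro rfl
        exact hb0 hi
      · exact hcross j l b hl hs
    · intro h
      exact absurd (a_mem D _ _) h
  by_cases hs : s ∈ D.ns j
  · rcases mem_ns D hs with ⟨i, hi⟩ | ⟨l, hl, hs⟩
    · rw [hi]
      by_cases h : i = D.i0
      · rw [h]
        exact h00 j
      · exact ha j i h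
    · exact hcross j l s hl hs
  · exact hz.supp j s hs

theorem expand (hR : ∀ j l, j ≠ l → D.R j l = D.R l j) {z : Fin D.n → ℤ → ℝ} (hz : Flow D z) :
    zv D (fun k => z (D.l1 k) (D.ctr k)) = z := by
  funext j s
  have h1 := flow_sub hz (flow_zv hR (fun k => z (D.l1 k) (D.ctr k)))
  have h2 := zero_of_coord hR h1 (fun k => by
    show z (D.l1 k) (D.ctr k) - zv D (fun k => z (D.l1 k) (D.ctr k)) (D.l1 k) (D.ctr k) = 0
    rw [coord hR, sub_self]) j s
  have h3 : z j s - zv D (fun k => z (D.l1 k) (D.ctr k)) j s = 0 := h2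
  linear_combination -h3

/-- The sum over the nodes of a flow of a symbol. -/
theorem cyc_sum (hR : ∀ j l, j ≠ l → D.R j l = D.R l j) (i : D.Idx) (w : Fin D.n → ℤ → ℝ) :
    ∑ l, ∑ s ∈ D.ns l, cyc D i l s * w l s =
      w (D.l1 i) (D.ctr i) - w (D.l2 i) (D.ctr i) - w (D.l1 i) (D.a D.i0) +
        w (D.l2 i) (D.a D.i0) := by
  have h1 : ∀ l, D.ctr i ∈ D.ns l → ∑ s ∈ D.ns l,
      ((if D.ctr i = s then (1 : ℝ) else 0) - (if D.a D.i0 = s then 1 else 0)) * w l s =
        w l (D.ctr i) - w l (D.a D.i0) := by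
    intro l hl
    simp only [sub_mul, ite_mul, one_mul, zero_mul, Finset.sum_sub_distrib]
    rw [Finset.sum_ite_eq, Finset.sum_ite_eq, if_pos hl, if_pos (a_mem D _ l)]
  have h2 : ∀ l, ∑ s ∈ D.ns l, cyc D i l s * w l s =
      (if D.l1 i = l then w (D.l1 i) (D.ctr i) - w (D.l1 i) (D.a D.i0) else 0) -
      (if D.l2 i = l then w (D.l2 i) (D.ctr i) - w (D.l2 i) (D.a D.i0) else 0) := by
    intro l
    have h3 : ∑ s ∈ D.ns l, cyc D i l s * w l s =
        ((if D.l1 i = l then (1 : ℝ) else 0) - (if D.l2 i = l then 1 else 0)) * ∑ s ∈ D.ns l,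
      ((if D.ctr i = s then (1 : ℝ) else 0) - (if D.a D.i0 = s then 1 else 0)) * w l s := by
      rw [Finset.mul_sum]
      apply Finset.sum_congr rfl
      intro s _
      unfold cyc
      ring
    rw [h3]
    by_cases e1 : D.l1 i = l
    · have e2 : D.l2 i ≠ l := fun e => l_ne i (e1.trans e.symm)
      rw [h1 l (by rw [← e1]; exact ctr_mem1 i), if_pos e1, if_neg e2, if_pos e1, if_neg e2, e1]
      ring
    · by_cases e2 : D.l2 i = l
      · rw [h1 l (by rw [← e2]; exact ctr_mem2 hR i), if_neg e1, if_pos e2, if_neg e1, if_pos e2,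
          e2]
        ring
      · rw [if_neg e1, if_neg e2, if_neg e1, if_neg e2]
        ring
  rw [Finset.sum_congr rfl (fun l _ => h2 l), Finset.sum_sub_distrib, Finset.sum_ite_eq,
    Finset.sum_ite_eq, if_pos (Finset.mem_univ _), if_pos (Finset.mem_univ _)]
  ring

theorem V_coord (hR : ∀ j l, j ≠ l → D.R j l = D.R l j) (lam : ℤ) (v : D.Idx → ℝ) (k : D.Idx) :
    V D lam (zv D v) (D.l1 k) (D.ctr k) = ∑ i, v i * D.A lam i k := by
  unfold V
  rw [if_pos (ctr_mem1 k)]
  have h1 : ∀ l, ∑ s ∈ D.ns l, zv D v l s * D.psi lam (D.l1 k) (D.ctr k) s l =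
      ∑ i, v i * ∑ s ∈ D.ns l, cyc D i l s * D.psi lam (D.l1 k) (D.ctr k) s l := by
    intro l
    unfold zv
    simp only [Finset.sum_mul, Finset.mul_sum]
    rw [Finset.sum_comm]
    apply Finset.sum_congr rfl
    intro i _
    apply Finset.sum_congr rfl
    intro s _
    ring
  rw [Finset.sum_congr rfl (fun l _ => h1 l), Finset.sum_comm]
  apply Finset.sum_congr rfl
  intro i _
  rw [← Finset.mul_sum, cyc_sum hR i (fun l s => D.psi lam (D.l1 k) (D.ctr k) s l)]
  rfl

end COFM

/-- Module COF. -/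
theorem specCOF (hSTG : SpecSTG) : SpecCOF := by
  intro D
  have hR : ∀ j l, j ≠ l → D.R j l = D.R l j := fun j l h => ((hSTG D).1 j l h).1
  exact ⟨COFM.card_idx D, COFM.flow_zv hR, COFM.coord hR, fun z hz => COFM.expand hR hz,
    COFM.V_coord hR, fun k => ⟨COFM.ctr_mem1 k, COFM.l_ne k⟩⟩

end MP743d1e.GA
end

section
/-!
# EMP: a closed path on the affine curve with transcendental abscissas is a `Loop`
-/
set_option autoImplicit false

namespace MP743d1e.GA

open Polynomial

namespace EMPM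

open Emb

theorem aeval_map_int {k K : Type} [Field k] [Field K] [Algebra k K] (x : K) (p : ℤ[X]) :
    aeval x (p.map (Int.castRingHom k)) = aeval x p := by
  rw [aeval_def, eval₂_map, aeval_def]
  congr 1
  exact RingHom.ext_int _ _

theorem ev2_poly {k K : Type} [Field k] [Field K] [Algebra k K] (D : Gr) (lam : ℤ) (x y : K) :
    ev2 x y (D.poly k lam) =
      (lam : K) * (∏ i, (x - (D.a i : K))) * (∏ j, (y - D.b j x)) - 1 := by
  rw [← evh_apply]
  simp only [Gr.poly, Gr.b, map_sub, map_mul, map_prod, map_one, evh_C, evh_X, aeval_X,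
    map_intCast, aeval_map_int]

theorem dvd_iff (hIrr : SpecIRP) {k L : Type} [Field k] [CharZero k] [Field L] [Algebra k L]
    (D : Gr) (lam : ℤ) (A B : L) (hA : Transcendental k A)
    (heqn : (lam : L) * (∏ i, (A - (D.a i : L))) * (∏ j, (B - D.b j A)) = 1) (S : k[X][X]) :
    evh k A B S = 0 ↔ D.poly k lam ∣ S := by
  have hlam : lam ≠ 0 := by
    rintro rfl
    simp at heqn
  constructor
  · intro h
    set A' : IntermediateField.adjoin k {A, B} :=
      ⟨A, IntermediateField.subset_adjoin k {A, B} (Set.mem_insert _ _)⟩ with hA'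
    set B' : IntermediateField.adjoin k {A, B} :=
      ⟨B, IntermediateField.subset_adjoin k {A, B} (Set.mem_insert_of_mem _ rfl)⟩ with hB'
    have hinj := FaithfulSMul.algebraMap_injective (IntermediateField.adjoin k {A, B}) L
    have hcomp : ∀ T : k[X][X], algebraMap (IntermediateField.adjoin k {A, B}) L (ev2 A' B' T) =
        ev2 A B T := by
      intro T
      unfold ev2
      rw [Polynomial.hom_eval₂]
      have e1 : (algebraMap (IntermediateField.adjoin k {A, B}) L).comp
          ((Polynomial.aeval A' : k[X] →ₐ[k] _) : k[X] →+* _) =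
          ((Polynomial.aeval A : k[X] →ₐ[k] L) : k[X] →+* L) := by
        apply Polynomial.ringHom_ext
        · intro a
          simp
        · simp [hA']
      rw [e1]
      rfl
    have hC : IsCurveG k (IntermediateField.adjoin k {A, B}) D lam A' B' := by
      refine ⟨?_, ?_, ?_⟩
      · intro h1
        refine hA ?_
        have : A = algebraMap (IntermediateField.adjoin k {A, B}) L A' := rfl
        rw [this]
        exact h1.algebraMap
      · have h1 := IntermediateField.lift_injective (IntermediateField.adjoin k {A, B})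
        refine h1 ?_
        rw [IntermediateField.lift_adjoin, IntermediateField.lift_top]
        congr 1
        simp [Set.image_insert_eq, hA', hB']
      · have h1 := hcomp (D.poly k lam)
        rw [ev2_poly, ev2_poly, heqn, sub_self] at h1
        have h2 := hinj (h1.trans (map_zero _).symm)
        exact sub_eq_zero.1 h2
    refine ((hIrr k D lam hlam).2 _ A' B' hC).1 S (hinj ?_)
    rw [hcomp, map_zero]
    exact h
  · rintro ⟨T, rfl⟩
    rw [map_mul, evh_apply, ev2_poly, heqn, sub_self, zero_mul]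

theorem emb_one (hIrr : SpecIRP) {k K L : Type} [Field k] [CharZero k] [Field K] [Algebra k K]
    [Field L] [Algebra k L] (D : Gr) (lam : ℤ) (x y : K) (hC : IsCurveG k K D lam x y) (A B : L)
    (hA : Transcendental k A)
    (heqn : (lam : L) * (∏ i, (A - (D.a i : L))) * (∏ j, (B - D.b j A)) = 1) :
    ∃ φ : K →+* L, φ x = A ∧ φ y = B := by
  obtain ⟨φ, hφ⟩ := lift_aux (evh k x y) (evh k A B)
    (fun S => (dvd_iff hIrr D lam x y hC.transc hC.eqn S).trans
      (dvd_iff hIrr D lam A B hA heqn S).symm) (fun z => by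
      have hz : z ∈ IntermediateField.adjoin k {x, y} := by
        rw [hC.gen]
        trivial
      obtain ⟨u, hu, v, hv, rfl⟩ := IntermediateField.mem_adjoin_iff_div.1 hz
      obtain ⟨S, rfl⟩ := adjoin_le_range x y hu
      obtain ⟨T, rfl⟩ := adjoin_le_range x y hv
      exact ⟨S, T, rfl⟩)
  refine ⟨φ, ?_, ?_⟩
  · have := hφ (C X)
    rwa [evh_C, evh_C, aeval_X, aeval_X] at this
  · have := hφ X
    rwa [evh_X, evh_X] at this

end EMPM

open EMPM in
/-- EMG (module EMP). -/
theorem specEMG (hIRP : SpecIRP) : SpecEMG := by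
  intro K _ _ D lam x y hC A B hA hB hA2 hB2 htr heqn
  choose φ hφx hφy using fun θ => emb_one hIRP D lam x y hC (A θ) (B θ) (htr θ) (heqn θ)
  have hmem : ∀ z : K, z ∈ IntermediateField.adjoin ℚ {x, y} := by
    intro z
    rw [hC.gen]
    trivial
  have hsm : ∀ z : K, ContDiff ℝ 1 (fun θ => φ θ z) := by
    intro z
    induction hmem z using IntermediateField.adjoin_induction with
    | mem w hw =>
      rcases hw with rfl | hw
      · simp only [hφx]
        exact hA
      · rw [Set.mem_singleton_iff] at hw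
        subst hw
        simp only [hφy]
        exact hB
    | algebraMap c =>
      simp only [eq_ratCast, map_ratCast]
      exact contDiff_const
    | add a b _ _ ha hb =>
      simp only [map_add]
      exact ha.add hb
    | inv a _ ha =>
      simp only [map_inv₀]
      by_cases h : a = 0
      · subst h
        simp only [map_zero, inv_zero]
        exact contDiff_const
      · exact ha.inv fun θ => (map_ne_zero (φ θ)).2 h
    | mul a b _ _ ha hb =>
      simp only [map_mul]
      exact ha.mul hb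
  have hper : ∀ (θ : ℝ) (z : K), φ (θ + 2 * Real.pi) z = φ θ z := by
    intro θ z
    induction hmem z using IntermediateField.adjoin_induction with
    | mem w hw =>
      rcases hw with rfl | hw
      · rw [hφx, hφx, hA2]
      · rw [Set.mem_singleton_iff] at hw
        subst hw
        rw [hφy, hφy, hB2]
    | algebraMap c => simp only [eq_ratCast, map_ratCast]
    | add a b _ _ ha hb => rw [map_add, map_add, ha, hb]
    | inv a _ ha => rw [map_inv₀, map_inv₀, ha]
    | mul a b _ _ ha hb => rw [map_mul, map_mul, ha, hb]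
  exact ⟨⟨φ, hsm, hper⟩, fun θ => ⟨hφx θ, hφy θ⟩⟩

end MP743d1e.GA
end

section
/-!
# Arrangements of graphs: the dimension of the space of complex flows
-/
set_option autoImplicit false

namespace MP743d1e.GA

open scoped BigOperators
open Polynomial

namespace FLCM

variable {D : Gr}

/-- The flow with index `i`. -/
noncomputable def zb (D : Gr) (i : D.Idx) (j : Fin D.n) (s : ℤ) : ℂ :=
  ((if D.l1 i = j then 1 else 0) - (if D.l2 i = j then 1 else 0)) *
    ((if D.ctr i = s then 1 else 0) - (if D.a D.i0 = s then 1 else 0))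

theorem zb_eq (i : D.Idx) (j : Fin D.n) (s : ℤ) : zb D i j s = ((cyc D i j s : ℝ) : ℂ) := by
  unfold zb cyc
  push_cast
  split_ifs <;> simp

theorem hR (j l : Fin D.n) (h : j ≠ l) : D.R j l = D.R l j := (D.R_symm h).symm

theorem flow_zb (i : D.Idx) : FlowC D (zb D i) where
  supp := by
    intro j s hs
    rw [zb_eq, (COFM.flow_cyc hR i).supp j s hs]
    simp
  anti := by
    intro j l s h hs
    have h1 := (COFM.flow_cyc hR i).pair j l s h hs
    rw [zb_eq, zb_eq, ← Complex.ofReal_neg]
    congr 1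
    linear_combination h1
  f1 := by
    intro i'
    simp only [zb_eq]
    rw [← Complex.ofReal_sum, (COFM.flow_cyc hR i).vert i', Complex.ofReal_zero]
  f2 := by
    intro j
    simp only [zb_eq]
    rw [← Complex.ofReal_sum, (COFM.flow_cyc hR i).horiz j, Complex.ofReal_zero]

theorem zero_of_coord {z : Fin D.n → ℤ → ℂ}
    (hz : FlowC D z) (h0 : ∀ k, z (D.l1 k) (D.ctr k) = 0) (j : Fin D.n) (s : ℤ) : z j s = 0 := by
  have hcross : ∀ (j l : Fin D.n) (s : ℤ), j ≠ l → s ∈ D.R j l → z j s = 0 := by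
    intro j l s hjl hs
    have hs' : s ∈ D.R l j := by rw [← hR j l hjl]; exact hs
    rcases lt_or_gt_of_ne hjl with h | h
    · exact h0 (Sum.inr ⟨⟨(j, l), h⟩, ⟨s, hs⟩⟩)
    · have h1 : z l s = 0 := h0 (Sum.inr ⟨⟨(l, j), h⟩, ⟨s, hs'⟩⟩)
      have h2 := hz.anti l j s hjl.symm hs'
      rw [h1, neg_zero] at h2
      exact h2
  have ha : ∀ (j : Fin D.n) (i : Fin D.m), i ≠ D.i0 → z j (D.a i) = 0 := by
    intro j i hi
    have h1 : ∀ j, j ≠ D.j0 → z j (D.a i) = 0 := fun j hj => h0 (Sum.inl ⟨(i, j), hi, hj⟩)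
    by_cases hj : j = D.j0
    · have h2 := hz.f1 i
      rw [Finset.sum_eq_single D.j0 (fun b _ hb => h1 b hb)
        (fun h => absurd (Finset.mem_univ _) h)] at h2
      rw [hj]
      exact h2
    · exact h1 j hj
  have h00 : ∀ j, z j (D.a D.i0) = 0 := by
    intro j
    have h2 := hz.f2 j
    rw [Finset.sum_eq_single (D.a D.i0)] at h2
    · exact h2
    · intro b hb hb0
      rcases COFM.mem_ns D hb with ⟨i, hi⟩ | ⟨l, hl, hs⟩
      · rw [hi]
        apply ha
        rintro rfl
        exact hb0 hi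
      · exact hcross j l b hl hs
    · intro h
      exact absurd (COFM.a_mem D _ _) h
  by_cases hs : s ∈ D.ns j
  · rcases COFM.mem_ns D hs with ⟨i, hi⟩ | ⟨l, hl, hs⟩
    · rw [hi]
      by_cases h : i = D.i0
      · rw [h]
        exact h00 j
      · exact ha j i h
    · exact hcross j l s hl hs
  · exact hz.supp j s hs

/-- The space of flows. -/
def FS (D : Gr) : Submodule ℂ (Fin D.n → ℤ → ℂ) where
  carrier := {z | FlowC D z}
  add_mem' := by
    intro z w hz hw
    refine ⟨?_, ?_, ?_, ?_⟩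
    · intro j c hc
      show z j c + w j c = 0
      rw [hz.supp j c hc, hw.supp j c hc, add_zero]
    · intro j l c h hc
      show z l c + w l c = -(z j c + w j c)
      rw [hz.anti j l c h hc, hw.anti j l c h hc]
      ring
    · intro i
      show ∑ j, (z j (D.a i) + w j (D.a i)) = 0
      rw [Finset.sum_add_distrib, hz.f1 i, hw.f1 i, add_zero]
    · intro j
      show ∑ c ∈ D.ns j, (z j c + w j c) = 0
      rw [Finset.sum_add_distrib, hz.f2 j, hw.f2 j, add_zero]
  zero_mem' := by
    refine ⟨?_, ?_, ?_, ?_⟩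
    · intro j c hc
      rfl
    · intro j l c h hc
      show (0 : ℂ) = -0
      rw [neg_zero]
    · intro i
      exact Finset.sum_const_zero
    · intro j
      exact Finset.sum_const_zero
  smul_mem' := by
    intro t z hz
    refine ⟨?_, ?_, ?_, ?_⟩
    · intro j c hc
      show t * z j c = 0
      rw [hz.supp j c hc, mul_zero]
    · intro j l c h hc
      show t * z l c = -(t * z j c)
      rw [hz.anti j l c h hc]
      ring
    · intro i
      show ∑ j, t * z j (D.a i) = 0
      rw [← Finset.mul_sum, hz.f1 i, mul_zero]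
    · intro j
      show ∑ c ∈ D.ns j, t * z j c = 0
      rw [← Finset.mul_sum, hz.f2 j, mul_zero]

/-- The coordinates. -/
def co (D : Gr) : FS D →ₗ[ℂ] (D.Idx → ℂ) where
  toFun z := fun k => z.1 (D.l1 k) (D.ctr k)
  map_add' _ _ := rfl
  map_smul' _ _ := rfl

theorem co_inj : Function.Injective (co D) := by
  rw [injective_iff_map_eq_zero]
  intro z hz
  apply Subtype.ext
  funext j s
  exact zero_of_coord z.2 (fun k => congrFun hz k) j s

theorem co_surj : Function.Surjective (co D) := by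
  intro v
  refine ⟨∑ i, v i • (⟨zb D i, flow_zb i⟩ : FS D), ?_⟩
  rw [map_sum]
  funext k
  rw [Finset.sum_apply]
  rw [Finset.sum_eq_single k]
  · rw [map_smul]
    show v k * zb D k (D.l1 k) (D.ctr k) = v k
    rw [zb_eq, COFM.leading hR, if_pos rfl, Complex.ofReal_one, mul_one]
  · intro i _ hik
    rw [map_smul]
    show v i * zb D i (D.l1 k) (D.ctr k) = 0
    rw [zb_eq, COFM.leading hR, if_neg hik, Complex.ofReal_zero, mul_zero]
  · intro h
    exact absurd (Finset.mem_univ k) h

end FLCM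

/-- Module FLC. -/
theorem specFLC : SpecFLC := by
  intro D
  let e : FLCM.FS D ≃ₗ[ℂ] (D.Idx → ℂ) :=
    LinearEquiv.ofBijective (FLCM.co D) ⟨FLCM.co_inj, FLCM.co_surj⟩
  refine ⟨FLCM.FS D, fun z => Iff.rfl, ?_, ?_⟩
  · exact Module.Finite.equiv e.symm
  · rw [e.finrank_eq, Module.finrank_fintype_fun_eq_card, COFM.card_idx]

end MP743d1e.GA
end

section
/-!
# GA/Main: the final deduction for arrangements of graphs
-/
set_option autoImplicit false

namespace MP743d1e.GA

open scoped BigOperators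
open Polynomial

namespace MainM

theorem e_ge (D : Gr) : (2 : ℝ) ≤ D.e := by
  have h1 : 2 ≤ D.e := by
    have h2 := Nat.mul_le_mul D.hm D.hn
    unfold Gr.e
    omega
  exact_mod_cast h1

theorem thr_ge (D : Gr) : 200 ≤ D.thr := by
  have h1 := e_ge D
  have h2 : (2 : ℝ) ≤ D.n := by exact_mod_cast D.hn
  have h3 : 1 ≤ Real.sqrt D.e := by
    rw [Real.one_le_sqrt]
    linarith
  unfold Gr.thr
  have h4 : (4 : ℝ) ≤ D.n * D.e := by nlinarith
  have h5 : (4 : ℝ) * 1 ≤ D.n * D.e * Real.sqrt D.e :=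
    mul_le_mul h4 h3 (by norm_num) (by linarith)
  have h6 : 50 * (D.n : ℝ) * D.e * Real.sqrt D.e = 50 * (D.n * D.e * Real.sqrt D.e) := by ring
  rw [h6]
  linarith

end MainM

open MainM in
/-- The main theorem. -/
theorem concl (hIRP : SpecIRP) (hCQG : SpecCQG) (hGNG : SpecGNG) (hGNL : SpecGNL)
    (hSMT : SpecSMT) (hK2G : SpecK2G) (D : Gr) (lam : ℤ) (Λ : ℝ)
    (hΛ : D.thr ≤ Λ) (hmu : ∀ j c, D.Node j c → Λ ≤ D.mu lam j c) :
    ConclG D lam Λ := by
  have h200 : 200 ≤ Λ := (thr_ge D).trans hΛ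
  have hlam0 : lam ≠ 0 := by
    rintro rfl
    have h1 := hmu D.j0 (D.a D.i0) (Or.inl ⟨_, rfl⟩)
    unfold Gr.mu at h1
    rw [Int.cast_zero, abs_zero, zero_mul, zero_mul] at h1
    linarith
  have hsm : SmoothG D lam := hSMT D lam Λ (by linarith) hmu
  refine ⟨(hIRP ℚ D lam hlam0).1, (hIRP ℂ D lam hlam0).1, ?_, ?_⟩
  · intro K _ _ x y hc
    exact ⟨(hCQG K D lam x y hc).1, hK2G D lam Λ hΛ hmu K x y hc⟩
  · intro K _ _ x y hc
    exact ⟨hGNG K D lam x y hsm hc, fun hg => hGNL K D lam x y hsm hg hc⟩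

/-- Large arrangements. -/
theorem large (hLRK : SpecLRK)
    (hmain : ∀ (D : Gr) (lam : ℤ) (Λ : ℝ), D.thr ≤ Λ →
      (∀ j c, D.Node j c → Λ ≤ D.mu lam j c) → ConclG D lam Λ)
    (D : Gr) (lam : ℤ) (hlam : lam ≠ 0) (h : 24 ≤ D.m + D.n + D.d) :
    ConclG D lam D.thr :=
  hmain D lam _ le_rfl fun j c hn => hLRK D lam hlam h j c hn

/-- The exceptions are finite in number. -/
theorem finite (hFNK : SpecFNK)
    (hmain : ∀ (D : Gr) (lam : ℤ) (Λ : ℝ), D.thr ≤ Λ →
      (∀ j c, D.Node j c → Λ ≤ D.mu lam j c) → ConclG D lam Λ) :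
    {z : (Σ m n : ℕ, (Fin m → ℤ) × (Fin n → ℤ[X])) × ℤ | z.2 ≠ 0 ∧
      ∃ D : Gr, D.data = z.1 ∧ D.a D.i0 = 0 ∧ D.P D.j0 = 0 ∧
        ¬ ConclG D z.2 D.thr}.Finite := by
  refine Set.Finite.subset hFNK ?_
  rintro z ⟨hlam, D, hD, ha, hP, hno⟩
  refine ⟨hlam, D, hD, ha, hP, ?_⟩
  by_contra h
  push Not at h
  exact hno (hmain D z.2 _ le_rfl h)

end MP743d1e.GA
end
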