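import Pool.Agent.Lib.MP_743d1e_nt.GA.SpecK

/-!
# NMK: the numerical inequality
-/

set_option autoImplicit false

namespace MP743d1e.GA.NMKM

/-- `2 e`. -/
def ee (m n d : ℕ) : ℕ := 2 * m * n + n * (n - 1) * d

def F (m n d : ℕ) : ℕ := n ^ 2 * ee m n d ^ 3

theorem base : ∀ n < 25, ∀ m < 25, 1 ≤ m → 2 ≤ n → m + n ≤ 24 →
    2500 * 10 ^ 24 * F m n (24 - m - n) ≤ 8 * 1071 ^ 2 * 36 ^ 21 := by
  unfold F ee
  decide +kernel

theorem F_le (n n' e e' : ℕ) (h : e ≤ 2 * e') (hn : n ^ 2 ≤ 4 * n' ^ 2) :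
    n ^ 2 * e ^ 3 ≤ 36 * (n' ^ 2 * e' ^ 3) := by
  have h1 : e ^ 3 ≤ (2 * e') ^ 3 := Nat.pow_le_pow_left h 3
  have h2 : n ^ 2 * e ^ 3 ≤ (4 * n' ^ 2) * (2 * e') ^ 3 := Nat.mul_le_mul hn h1
  have h3 : (4 * n' ^ 2) * (2 * e') ^ 3 = 32 * (n' ^ 2 * e' ^ 3) := by ring
  omega

theorem main (S : ℕ) (hS : 24 ≤ S) : ∀ m n d : ℕ, 1 ≤ m → 2 ≤ n → m + n + d = S →
    2500 * 10 ^ 24 * F m n d ≤ 8 * 1071 ^ 2 * 36 ^ (S - 3) := by
  induction S, hS using Nat.le_induction with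
  | base =>
    intro m n d _ _ h
    have h1 : d = 24 - m - n := by omega
    rw [h1]
    exact base n (by omega) m (by omega) (by assumption) (by assumption) (by omega)
  | succ S hS ih =>
    intro m n d hm hn h
    have e1 : 36 ^ (S + 1 - 3) = 36 * 36 ^ (S - 3) := by
      have : S + 1 - 3 = (S - 3) + 1 := by omega
      rw [this, pow_succ]
      ring
    rw [e1]
    have key : ∀ m' n' d' : ℕ, 1 ≤ m' → 2 ≤ n' → m' + n' + d' = S → F m n d ≤ 36 * F m' n' d' →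
        2500 * 10 ^ 24 * F m n d ≤ 8 * 1071 ^ 2 * (36 * 36 ^ (S - 3)) := by
      intro m' n' d' h1 h2 h3 h4
      have h5 := ih m' n' d' h1 h2 h3
      calc 2500 * 10 ^ 24 * F m n d ≤ 2500 * 10 ^ 24 * (36 * F m' n' d') :=
            Nat.mul_le_mul_left _ h4
        _ = 36 * (2500 * 10 ^ 24 * F m' n' d') := by ring
        _ ≤ 36 * (8 * 1071 ^ 2 * 36 ^ (S - 3)) := Nat.mul_le_mul_left _ h5
        _ = 8 * 1071 ^ 2 * (36 * 36 ^ (S - 3)) := by ring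
    have hn4 : n ^ 2 ≤ 4 * n ^ 2 := by omega
    by_cases hd : 2 ≤ d
    · obtain ⟨d', rfl⟩ : ∃ d', d = d' + 2 := ⟨d - 2, by omega⟩
      refine key m n (d' + 1) hm hn (by omega) (F_le _ _ _ _ ?_ hn4)
      unfold ee
      generalize n * (n - 1) = B
      generalize 2 * m * n = A
      nlinarith [Nat.zero_le (B * d')]
    by_cases hm2 : 2 ≤ m
    · obtain ⟨m', rfl⟩ : ∃ m', m = m' + 2 := ⟨m - 2, by omega⟩
      refine key (m' + 1) n d (by omega) hn (by omega) (F_le _ _ _ _ ?_ hn4)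
      unfold ee
      generalize n * (n - 1) * d = B
      nlinarith [Nat.zero_le (m' * n)]
    · obtain ⟨k, rfl⟩ : ∃ k, n = k + 4 := ⟨n - 4, by omega⟩
      refine key m (k + 3) d hm (by omega) (by omega) (F_le _ _ _ _ ?_ ?_)
      · unfold ee
        have a1 : k + 4 - 1 = k + 3 := by omega
        have a2 : k + 3 - 1 = k + 2 := by omega
        rw [a1, a2]
        have b1 : 2 * m * (k + 4) ≤ 2 * (2 * m * (k + 3)) := by nlinarith [Nat.zero_le (m * k)]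
        have b2 : (k + 4) * (k + 3) * d ≤ 2 * ((k + 3) * (k + 2) * d) := by
          have : (k + 4) * (k + 3) ≤ 2 * ((k + 3) * (k + 2)) := by nlinarith [Nat.zero_le (k * k)]
          calc (k + 4) * (k + 3) * d ≤ 2 * ((k + 3) * (k + 2)) * d := Nat.mul_le_mul_right _ this
            _ = 2 * ((k + 3) * (k + 2) * d) := by ring
        omega
      · nlinarith [Nat.zero_le (k * k)]

end MP743d1e.GA.NMKM

namespace MP743d1e.GA

open NMKM

theorem specNMK : SpecNMK := by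
  intro m n d E hm hn hS hE h2E
  have h1 := main (m + n + d) hS m n d hm hn rfl
  have hsq : (0 : ℝ) ≤ Real.sqrt E := Real.sqrt_nonneg _
  have hs2 : Real.sqrt E ^ 2 = E := Real.sq_sqrt hE
  have hR : (0 : ℝ) ≤ 3 / 8 * (12 / 10 ^ 6) * (238 / 10 ^ 6) * (6 : ℝ) ^ (m + n + d - 3) := by
    positivity
  refine le_of_sq_le_sq ?_ hR
  have hee : ((ee m n d : ℕ) : ℝ) = 2 * ((m : ℝ) * n) + n * (n - 1) * d := by
    unfold ee
    have : 1 ≤ n := by omega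
    push_cast [Nat.cast_sub this]
    ring
  have h2 : (2500 : ℝ) * 10 ^ 24 * ((n : ℝ) ^ 2 * (ee m n d : ℝ) ^ 3) ≤
      8 * 1071 ^ 2 * 36 ^ (m + n + d - 3) := by
    unfold F at h1
    exact_mod_cast h1
  have h3 : (2 * E) ^ 3 ≤ (ee m n d : ℝ) ^ 3 := by
    rw [hee]
    exact pow_le_pow_left₀ (by linarith) h2E 3
  have h4 : (50 * (n : ℝ) * E * Real.sqrt E) ^ 2 = 2500 * ((n : ℝ) ^ 2 * E ^ 3) := by
    calc (50 * (n : ℝ) * E * Real.sqrt E) ^ 2 = 2500 * (n : ℝ) ^ 2 * E ^ 2 * Real.sqrt E ^ 2 := by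
          ring
      _ = _ := by rw [hs2]; ring
  have h5 : ((6 : ℝ) ^ (m + n + d - 3)) ^ 2 = 36 ^ (m + n + d - 3) := by
    rw [← pow_mul, mul_comm, pow_mul]
    norm_num
  rw [h4, mul_pow, h5]
  have h6 : (n : ℝ) ^ 2 * (2 * E) ^ 3 ≤ (n : ℝ) ^ 2 * (ee m n d : ℝ) ^ 3 :=
    mul_le_mul_of_nonneg_left h3 (by positivity)
  generalize (36 : ℝ) ^ (m + n + d - 3) = W at *
  generalize (n : ℝ) ^ 2 = N at *
  nlinarith

end MP743d1e.GA
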