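import Pool.Agent.Lib.MP_743d1e_nt.GA.SpecK
import Pool.Agent.Lib.MP_743d1e_nt.T.INT

section
/-!
# ING: the symbols are unramified
-/
set_option autoImplicit false

namespace MP743d1e.GA.INGM

open scoped BigOperators
open Polynomial MP743d1e.TInt

variable {K : Type} [Field K] {D : Gr} {lam : ℤ} {x y : K}

theorem evZ_G (j : Fin D.n) : evZ x y (X - C (D.P j)) = y - D.b j x := by
  simp [evZ, Gr.b]

theorem aev_f (c : ℤ) : Polynomial.aeval x (X - C c : ℤ[X]) = x - (c : K) := by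
  simp

theorem onCurve (h : (lam : K) * (∏ i, (x - (D.a i : K))) * (∏ j, (y - D.b j x)) = 1) :
    OnCurve (fun i : Fin D.m => (X - C (D.a i) : ℤ[X]))
      (fun j : Fin D.n => (X - C (D.P j) : ℤ[X][X])) (C (C lam)) x y := by
  constructor
  simp only [evZ_G, aev_f]
  have e : evZ x y (C (C lam)) = (lam : K) := by
    unfold evZ
    rw [eval₂_C]
    simp
  rw [e, ← h]
  ring

end MP743d1e.GA.INGM

namespace MP743d1e.GA

open scoped BigOperators
open Polynomial MP743d1e.TInt INGM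

theorem specING : SpecING := by
  intro D lam K _ x y h i u w hu hw v
  have hc := onCurve h
  have hG : ∀ j : Fin D.n, (X - C (D.P j) : ℤ[X][X]).Monic := fun j => monic_X_sub_C _
  have hf : ∀ i : Fin D.m, (X - C (D.a i) : ℤ[X]).Monic := fun i => monic_X_sub_C _
  rcases i with z | z
  · refine tame_fG (i := z.1.1) (i' := D.i0) (j := z.1.2) (l := D.j0) hf hG hc 1 1 1 1 ?_ ?_ u w
      ?_ ?_ v
    · simp only [natDegree_X_sub_C]
    · simp only [natDegree_X_sub_C]
    · simp only [pow_one, aev_f]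
      exact hu
    · simp only [pow_one, evZ_G]
      exact hw
  · refine tame_phi (i' := D.i0) (j := z.1.1.1) (l := z.1.1.2) hf hG hc (X - C (z.2.1 : ℤ))
      (monic_X_sub_C _) 1 1 1 1 ?_ ?_ ?_ u w ?_ ?_ v
    · simp only [natDegree_X_sub_C]
    · simp only [natDegree_X_sub_C]
    · have hne : z.1.1.1 ≠ z.1.1.2 := z.1.2.ne
      have e : (X - C (D.P z.1.1.1) : ℤ[X][X]) ^ 1 - (X - C (D.P z.1.1.2)) ^ 1 =
          C (D.P z.1.1.2 - D.P z.1.1.1) := by
        rw [pow_one, pow_one, C_sub]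
        ring
      rw [e]
      apply _root_.map_dvd C
      have e2 : D.P z.1.1.2 - D.P z.1.1.1 = -(D.P z.1.1.1 - D.P z.1.1.2) := by ring
      rw [e2, dvd_neg, D.diff _ _ hne]
      exact Dvd.dvd.mul_left (Finset.dvd_prod_of_mem (fun r : ℤ => (X - C r : ℤ[X])) z.2.2) _
    · simp only [pow_one, aev_f]
      exact hu
    · simp only [pow_one, evZ_G]
      exact hw

end MP743d1e.GA
end

section
/-!
# LMG: the value of `Lam` at a node
-/
set_option autoImplicit false

namespace MP743d1e.GA.LMGM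

open scoped BigOperators
open MP743d1e.GA.Gr

theorem int_ge {z : ℤ} (h : z ≠ 0) : (1 : ℝ) ≤ |(z : ℝ)| := by
  have : 1 ≤ |z| := Int.one_le_abs h
  exact_mod_cast this

theorem sub_ge {c s : ℤ} (h : s ≠ c) : (1 : ℝ) ≤ |(c : ℝ) - s| := by
  have := int_ge (sub_ne_zero.2 (Ne.symm h))
  push_cast at this
  exact this

theorem fx_pos (c s : ℤ) : 0 < fx c s := by
  unfold fx
  split_ifs with h
  · norm_num
  · have := sub_ge h
    linarith

theorem log_fx (c s : ℤ) :
    Real.log (fx c s) ≤ Real.log |(c : ℝ) - s| + (if s = c then 1 else 0) * Real.log (3 / 8) := by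
  unfold fx
  split_ifs with h
  · rw [h]
    simp
  · have := sub_ge h
    rw [zero_mul, add_zero]
    exact Real.log_le_log (by linarith) (by linarith)

theorem sum_log_fx {ι : Type} (T : Finset ι) (c : ℤ) (f : ι → ℤ) :
    ∑ r ∈ T, Real.log (fx c (f r)) ≤ ∑ r ∈ T, Real.log |(c : ℝ) - f r| +
      (∑ r ∈ T, if f r = c then (1 : ℝ) else 0) * Real.log (3 / 8) := by
  rw [Finset.sum_mul, ← Finset.sum_add_distrib]
  exact Finset.sum_le_sum fun r _ => log_fx _ _

theorem ind_nonneg {ι : Type} (T : Finset ι) (c : ℤ) (f : ι → ℤ) :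
    0 ≤ ∑ r ∈ T, if f r = c then (1 : ℝ) else 0 :=
  Finset.sum_nonneg fun i _ => by split_ifs <;> norm_num

theorem ind_ge {ι : Type} (T : Finset ι) (c : ℤ) (f : ι → ℤ) {r : ι} (hr : r ∈ T)
    (h : f r = c) : 1 ≤ ∑ r ∈ T, if f r = c then (1 : ℝ) else 0 := by
  have e3 : (if f r = c then (1 : ℝ) else 0) ≤ ∑ r ∈ T, if f r = c then (1 : ℝ) else 0 :=
    Finset.single_le_sum (f := fun i => if f i = c then (1 : ℝ) else 0)
      (fun i _ => by split_ifs <;> norm_num) hr
  rwa [if_pos h] at e3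

end MP743d1e.GA.LMGM

namespace MP743d1e.GA

open scoped BigOperators
open MP743d1e.GA.Gr LMGM

theorem specLMG : SpecLMG := by
  intro D lam j c Λ hΛ hnode hmu
  have hmu0 : 0 < D.mu lam j c := hΛ.trans_le hmu
  have hP1 : 0 < ∏ i, fx c (D.a i) := Finset.prod_pos fun i _ => fx_pos _ _
  have hkap : ∀ l ∈ Finset.univ.erase j, |(D.kap j l : ℝ)| ≠ 0 := fun l hl =>
    (lt_of_lt_of_le one_pos (int_ge (D.kap_ne j l (Finset.ne_of_mem_erase hl).symm))).ne'
  have hR : ∀ l, 0 < ∏ r ∈ D.R j l, fx c r := fun l => Finset.prod_pos fun r _ => fx_pos _ _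
  have hfac : ∀ l ∈ Finset.univ.erase j, |(D.kap j l : ℝ)| * ∏ r ∈ D.R j l, fx c r ≠ 0 :=
    fun l hl => mul_ne_zero (hkap l hl) (hR l).ne'
  have hP2 : (∏ l ∈ Finset.univ.erase j, (|(D.kap j l : ℝ)| * ∏ r ∈ D.R j l, fx c r)) ≠ 0 :=
    Finset.prod_ne_zero_iff.2 hfac
  have hlam : |(lam : ℝ)| ≠ 0 := by
    intro h
    unfold Gr.mu at hmu0
    rw [h, zero_mul, zero_mul] at hmu0
    exact lt_irrefl _ hmu0
  have h1 : Real.log (D.mu lam j c) = Real.log |(lam : ℝ)| + ∑ i, Real.log (fx c (D.a i)) +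
      ∑ l ∈ Finset.univ.erase j,
        (Real.log |(D.kap j l : ℝ)| + ∑ r ∈ D.R j l, Real.log (fx c r)) := by
    unfold Gr.mu
    rw [Real.log_mul (mul_ne_zero hlam hP1.ne') hP2, Real.log_mul hlam hP1.ne',
      Real.log_prod (fun i _ => (fx_pos _ _).ne'), Real.log_prod hfac]
    congr 1
    refine Finset.sum_congr rfl fun l hl => ?_
    rw [Real.log_mul (hkap l hl) (hR l).ne', Real.log_prod (fun r _ => (fx_pos _ _).ne')]
  have h2 := sum_log_fx (Finset.univ : Finset (Fin D.m)) c D.a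
  have h3 : ∑ l ∈ Finset.univ.erase j,
        (Real.log |(D.kap j l : ℝ)| + ∑ r ∈ D.R j l, Real.log (fx c r)) ≤
      ∑ l ∈ Finset.univ.erase j, D.lk j l c +
      (∑ l ∈ Finset.univ.erase j, ∑ r ∈ D.R j l, if r = c then (1 : ℝ) else 0) *
        Real.log (3 / 8) := by
    rw [Finset.sum_mul, ← Finset.sum_add_distrib]
    refine Finset.sum_le_sum fun l _ => ?_
    have := sum_log_fx (D.R j l) c (fun r => r)
    unfold Gr.lk
    linarith
  have e1 := ind_nonneg (Finset.univ : Finset (Fin D.m)) c D.a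
  have e2 : 0 ≤ ∑ l ∈ Finset.univ.erase j, ∑ r ∈ D.R j l, if r = c then (1 : ℝ) else 0 :=
    Finset.sum_nonneg fun l _ => ind_nonneg (D.R j l) c (fun r => r)
  have h4 : (1 : ℝ) ≤ (∑ i, if D.a i = c then (1 : ℝ) else 0) +
      ∑ l ∈ Finset.univ.erase j, ∑ r ∈ D.R j l, if r = c then (1 : ℝ) else 0 := by
    unfold Gr.ns Gr.cr at hnode
    rcases Finset.mem_union.1 hnode with h | h
    · obtain ⟨i, _, hi⟩ := Finset.mem_image.1 h
      have := ind_ge (Finset.univ : Finset (Fin D.m)) c D.a (Finset.mem_univ i) hi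
      linarith
    · obtain ⟨l, hl, hc⟩ := Finset.mem_biUnion.1 h
      have e3 := ind_ge (D.R j l) c (fun r => r) hc rfl
      have e4 : (∑ r ∈ D.R j l, if r = c then (1 : ℝ) else 0) ≤
          ∑ l ∈ Finset.univ.erase j, ∑ r ∈ D.R j l, if r = c then (1 : ℝ) else 0 :=
        Finset.single_le_sum (f := fun l => ∑ r ∈ D.R j l, if r = c then (1 : ℝ) else 0)
          (fun l _ => ind_nonneg (D.R j l) c (fun r => r)) hl
      linarith
  have h5 : Real.log (3 / 8) < 0 := Real.log_neg (by norm_num) (by norm_num)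
  have h6 : Real.log Λ ≤ Real.log (D.mu lam j c) := Real.log_le_log hΛ hmu
  have h7 : Real.log (8 * Λ / 3) = Real.log Λ - Real.log (3 / 8) := by
    rw [← Real.log_div hΛ.ne' (by norm_num)]
    congr 1
    ring
  have h8 : ((∑ i, if D.a i = c then (1 : ℝ) else 0) +
      ∑ l ∈ Finset.univ.erase j, ∑ r ∈ D.R j l, if r = c then (1 : ℝ) else 0) *
      Real.log (3 / 8) ≤ 1 * Real.log (3 / 8) := mul_le_mul_of_nonpos_right h4 h5.le
  unfold Gr.Lam
  rw [h7]
  linarith

end MP743d1e.GA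
end

section
/-!
# Arrangements of graphs: large arrangements satisfy the condition for every `lam ≠ 0`
-/
set_option autoImplicit false

namespace MP743d1e.GA

open scoped BigOperators
open Polynomial

theorem specLRK (hSTG : SpecSTG) (hUMK : SpecUMK) (hMUK : SpecMUK) (hNMK : SpecNMK) : SpecLRK := by
  intro D lam hlam h24 j c hc
  obtain ⟨-, -, -, -, -, -, -, -, h9, -⟩ := hSTG D
  have hc' : c ∈ D.ns j := (h9 j c).2 hc
  have h1 := hMUK D lam j c hlam hc'
  obtain ⟨h2, h3⟩ := hUMK D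
  have h4 : (2 : ℝ) * (D.e : ℝ) ≤ 2 * ((D.m : ℝ) * D.n) + D.n * (D.n - 1) * D.d := by
    have h5 : ((2 * D.e : ℕ) : ℝ) ≤ ((2 * (D.m * D.n) + D.n * (D.n - 1) * D.d : ℕ) : ℝ) := by
      exact_mod_cast h3
    have h6 : ((D.n - 1 : ℕ) : ℝ) = (D.n : ℝ) - 1 := by
      rw [Nat.cast_sub (le_trans (by norm_num) D.hn), Nat.cast_one]
    push_cast at h5
    rw [h6] at h5
    linarith
  have h5 := hNMK D.m D.n D.d D.e D.hm D.hn h24 (Nat.cast_nonneg _) h4
  refine le_trans h5 (le_trans ?_ h1)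
  refine mul_le_mul_of_nonneg_left ?_ (by norm_num)
  refine pow_le_pow_right₀ (by norm_num) ?_
  have h6 := h2 j
  have h7 : 1 ≤ (D.ns j).card := Finset.card_pos.2 ⟨c, hc'⟩
  omega

end MP743d1e.GA
end

section
/-!
# Arrangements of graphs: a lower bound for `mu`
-/
set_option autoImplicit false

namespace MP743d1e.GA

open scoped BigOperators
open Polynomial

namespace MUKM

lemma fx_nonneg (c s : ℤ) : 0 ≤ Gr.fx c s := by
  unfold Gr.fx
  split_ifs with h
  · norm_num
  · have h1 : (1 : ℝ) ≤ |(c : ℝ) - s| := by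
      have : (1 : ℤ) ≤ |c - s| := Int.one_le_abs (sub_ne_zero.2 (fun h' => h h'.symm))
      exact_mod_cast this
    linarith

lemma kap_inj (D : Gr) {j l l' : Fin D.n} (h : l ≠ j) (h' : l' ≠ j) (hl : D.R j l = ∅)
    (hl' : D.R j l' = ∅) (hk : D.kap j l = D.kap j l') : l = l' := by
  by_contra hne
  have h1 := D.diff j l h.symm
  have h2 := D.diff j l' h'.symm
  have h3 := D.diff l l' hne
  rw [hl, Finset.prod_empty, mul_one] at h1
  rw [hl', Finset.prod_empty, mul_one, ← hk] at h2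
  have h4 : D.P l - D.P l' = 0 := by
    have : D.P l - D.P l' = (D.P j - D.P l') - (D.P j - D.P l) := by ring
    rw [this, h1, h2, sub_self]
  rw [h4] at h3
  have h5 : (∏ r ∈ D.R l l', (X - C r) : ℤ[X]) ≠ 0 := (monic_prod_of_monic _ _
    (fun r _ => monic_X_sub_C r)).ne_zero
  rcases mul_eq_zero.1 h3.symm with h6 | h6
  · exact D.kap_ne l l' hne (by simpa using h6)
  · exact h5 h6

lemma prod_ns (D : Gr) (j : Fin D.n) (f : ℤ → ℝ) :
    ∏ s ∈ D.ns j, f s = (∏ i, f (D.a i)) * ∏ l ∈ Finset.univ.erase j, ∏ r ∈ D.R j l, f r := by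
  rw [Gr.ns, Gr.cr, Finset.prod_union, Finset.prod_image (fun x _ y _ h => D.a_inj h),
    Finset.prod_biUnion]
  · intro l hl l' hl' hne
    exact D.no_triple j l l' (Finset.ne_of_mem_erase hl).symm (Finset.ne_of_mem_erase hl').symm hne
  · rw [Finset.disjoint_left]
    intro s hs hs'
    obtain ⟨i, -, rfl⟩ := Finset.mem_image.1 hs
    obtain ⟨l, hl, hl'⟩ := Finset.mem_biUnion.1 hs'
    exact D.cross_a j l i (Finset.ne_of_mem_erase hl).symm hl'

lemma mu_eq (D : Gr) (lam : ℤ) (j : Fin D.n) (c : ℤ) :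
    D.mu lam j c = |(lam : ℝ)| * (∏ s ∈ D.ns j, Gr.fx c s) *
      ∏ l ∈ Finset.univ.erase j, |(D.kap j l : ℝ)| := by
  rw [prod_ns, Gr.mu, Finset.prod_mul_distrib]
  ring

end MUKM

open MUKM in
theorem specMUK (hPBK : SpecPBK) : SpecMUK := by
  intro D lam j c hlam hc
  rw [mu_eq]
  have h1 : (1 : ℝ) ≤ |(lam : ℝ)| := by
    exact_mod_cast Int.one_le_abs hlam
  -- the product over the nodes
  have h2 : 3 / 8 * (12 / 10 ^ 6 * (6 : ℝ) ^ ((D.ns j).card - 1)) ≤ ∏ s ∈ D.ns j, Gr.fx c s := by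
    rw [← Finset.mul_prod_erase _ _ hc]
    have h3 : Gr.fx c c = 3 / 8 := by simp [Gr.fx]
    rw [h3]
    refine mul_le_mul_of_nonneg_left ?_ (by norm_num)
    have h4 : ∏ s ∈ (D.ns j).erase c, Gr.fx c s =
        ∏ s ∈ ((D.ns j).erase c).image (fun s => c - s), (|(s : ℝ)| - 1 / 2) := by
      rw [Finset.prod_image (fun x _ y _ h => by simpa using h)]
      refine Finset.prod_congr rfl fun s hs => ?_
      have : s ≠ c := Finset.ne_of_mem_erase hs
      simp [Gr.fx, this]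
    have h5 : (((D.ns j).erase c).image (fun s => c - s)).card = (D.ns j).card - 1 := by
      rw [Finset.card_image_of_injective _ (fun x y h => by simpa using h),
        Finset.card_erase_of_mem hc]
    rw [h4, ← h5]
    refine (hPBK _ ?_).1
    intro h6
    obtain ⟨s, hs, hs'⟩ := Finset.mem_image.1 h6
    exact Finset.ne_of_mem_erase hs (by omega)
  -- the product of the `kap`
  set F := (Finset.univ.erase j).filter fun l => D.R j l = ∅ with hF
  have h7 : 238 / 10 ^ 6 * (6 : ℝ) ^ F.card ≤ ∏ l ∈ Finset.univ.erase j, |(D.kap j l : ℝ)| := by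
    have h8 : ∏ l ∈ F, |(D.kap j l : ℝ)| ≤ ∏ l ∈ Finset.univ.erase j, |(D.kap j l : ℝ)| := by
      rw [← Finset.prod_filter_mul_prod_filter_not (Finset.univ.erase j) (fun l => D.R j l = ∅)]
      refine le_mul_of_one_le_right (Finset.prod_nonneg fun l _ => abs_nonneg _) ?_
      rw [← Finset.prod_const_one (s := (Finset.univ.erase j).filter fun l => ¬ D.R j l = ∅)]
      refine Finset.prod_le_prod (fun _ _ => zero_le_one) fun l hl => ?_
      exact_mod_cast Int.one_le_abs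
        (D.kap_ne j l (Finset.ne_of_mem_erase (Finset.mem_filter.1 hl).1).symm)
    refine le_trans ?_ h8
    have hinj : Set.InjOn (fun l => D.kap j l) (F : Set (Fin D.n)) := by
      intro l hl l' hl' h
      have hl := Finset.mem_filter.1 (Finset.mem_coe.1 hl)
      have hl' := Finset.mem_filter.1 (Finset.mem_coe.1 hl')
      exact kap_inj D (Finset.ne_of_mem_erase hl.1) (Finset.ne_of_mem_erase hl'.1) hl.2 hl'.2 h
    have h9 : ∏ l ∈ F, |(D.kap j l : ℝ)| = ∏ s ∈ F.image (fun l => D.kap j l), |(s : ℝ)| := by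
      rw [Finset.prod_image hinj]
    rw [h9, ← Finset.card_image_of_injOn hinj]
    refine (hPBK _ ?_).2
    intro h6
    obtain ⟨l, hl, hl'⟩ := Finset.mem_image.1 h6
    exact D.kap_ne j l (Finset.ne_of_mem_erase (Finset.mem_filter.1 hl).1).symm hl'
  have h10 : 0 ≤ ∏ s ∈ D.ns j, Gr.fx c s := Finset.prod_nonneg fun s _ => fx_nonneg c s
  calc 3 / 8 * (12 / 10 ^ 6) * (238 / 10 ^ 6) * (6 : ℝ) ^ ((D.ns j).card - 1 + F.card)
      = 3 / 8 * (12 / 10 ^ 6 * (6 : ℝ) ^ ((D.ns j).card - 1)) *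
          (238 / 10 ^ 6 * (6 : ℝ) ^ F.card) := by rw [pow_add]; ring
    _ ≤ (∏ s ∈ D.ns j, Gr.fx c s) * ∏ l ∈ Finset.univ.erase j, |(D.kap j l : ℝ)| :=
        mul_le_mul h2 h7 (by positivity) h10
    _ ≤ |(lam : ℝ)| * ((∏ s ∈ D.ns j, Gr.fx c s) * ∏ l ∈ Finset.univ.erase j, |(D.kap j l : ℝ)|) := by
        refine le_mul_of_one_le_left (mul_nonneg h10 ?_) h1
        exact Finset.prod_nonneg fun l _ => abs_nonneg _
    _ = _ := by ring

end MP743d1e.GA
end

section
/-!
# Arrangements of graphs: the norm of a flow and its coordinates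
-/
set_option autoImplicit false

namespace MP743d1e.GA

open scoped BigOperators
open Polynomial

namespace NOGM

variable {D : Gr}

/-- The sum over the crossings of the `j`-th graph. -/
theorem sum_cr (j : Fin D.n) (F : ℤ → ℝ) :
    ∑ s ∈ D.cr j, F s = ∑ l ∈ Finset.univ.erase j, ∑ s ∈ D.R j l, F s := by
  unfold Gr.cr
  refine Finset.sum_biUnion ?_
  intro l hl l' hl' hne
  have h1 : j ≠ l := fun e => (Finset.mem_erase.mp hl).1 e.symm
  have h2 : j ≠ l' := fun e => (Finset.mem_erase.mp hl').1 e.symm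
  exact D.no_triple j l l' h1 h2 hne

/-- The sum over the ordered pairs of a symmetric function. -/
theorem sum_sym {n : ℕ} (G : Fin n → Fin n → ℝ) (hG : ∀ j l, j ≠ l → G j l = G l j) :
    ∑ j, ∑ l ∈ Finset.univ.erase j, G j l =
      2 * ∑ z ∈ (Finset.univ : Finset (Fin n × Fin n)).filter (fun z => z.1 < z.2), G z.1 z.2 := by
  have h1 : ∀ j : Fin n, ∑ l ∈ Finset.univ.erase j, G j l =
      (∑ l, if j < l then G j l else 0) + ∑ l, if l < j then G l j else 0 := by
    intro j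
    rw [← Finset.sum_add_distrib]
    have h2 : ∀ l, ((if j < l then G j l else 0) + if l < j then G l j else 0) =
        if l ∈ Finset.univ.erase j then G j l else 0 := by
      intro l
      rcases lt_trichotomy j l with h | h | h
      · have hne : l ∈ Finset.univ.erase j := Finset.mem_erase.mpr ⟨h.ne', Finset.mem_univ l⟩
        rw [if_pos h, if_neg (asymm h), if_pos hne, add_zero]
      · subst h
        simp
      · have hne : l ∈ Finset.univ.erase j := Finset.mem_erase.mpr ⟨h.ne, Finset.mem_univ l⟩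
        rw [if_neg (asymm h), if_pos h, if_pos hne, zero_add, hG l j h.ne]
    rw [Finset.sum_congr rfl fun l _ => h2 l, ← Finset.sum_filter]
    refine Finset.sum_congr ?_ fun _ _ => rfl
    ext l
    simp
  rw [Finset.sum_congr rfl fun j _ => h1 j, Finset.sum_add_distrib, Finset.sum_comm (s := Finset.univ)
    (t := Finset.univ) (f := fun j l => if l < j then G l j else 0)]
  rw [Finset.sum_filter, Fintype.sum_prod_type]
  ring

/-- The coordinates of the second kind. -/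
theorem sum_inr (F : Fin D.n → ℤ → ℝ) :
    ∑ k : (Σ z : {z : Fin D.n × Fin D.n // z.1 < z.2}, {c : ℤ // c ∈ D.R z.1.1 z.1.2}),
      F (D.l1 (Sum.inr k)) (D.ctr (Sum.inr k)) =
      ∑ z ∈ (Finset.univ : Finset (Fin D.n × Fin D.n)).filter (fun z => z.1 < z.2),
        ∑ s ∈ D.R z.1 z.2, F z.1 s := by
  rw [Fintype.sum_sigma]
  rw [Finset.sum_subtype (p := fun z : Fin D.n × Fin D.n => z.1 < z.2) _
    (fun z => by simp) (fun z => ∑ s ∈ D.R z.1 z.2, F z.1 s)]
  refine Finset.sum_congr rfl fun z _ => ?_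
  rw [← Finset.sum_coe_sort (D.R z.1.1 z.1.2) (fun s => F z.1.1 s)]
  rfl

/-- The coordinates of the first kind. -/
theorem sum_inl (F : Fin D.n → ℤ → ℝ) :
    ∑ k : {z : Fin D.m × Fin D.n // z.1 ≠ D.i0 ∧ z.2 ≠ D.j0},
      F (D.l1 (Sum.inl k)) (D.ctr (Sum.inl k)) =
      ∑ i, ∑ j, if i ≠ D.i0 ∧ j ≠ D.j0 then F j (D.a i) else 0 := by
  rw [← Fintype.sum_prod_type' (f := fun i j => if i ≠ D.i0 ∧ j ≠ D.j0 then F j (D.a i) else 0)]
  rw [← Finset.sum_filter]
  rw [Finset.sum_subtype (p := fun z : Fin D.m × Fin D.n => z.1 ≠ D.i0 ∧ z.2 ≠ D.j0) _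
    (fun z => by simp) (fun z => F z.2 (D.a z.1))]
  rfl

/-- The inner product of a flow with itself. -/
theorem ip_eq (hR : ∀ j l, j ≠ l → D.R j l = D.R l j) {z : Fin D.n → ℤ → ℝ} (hz : Flow D z) :
    ip D z z = ∑ k : D.Idx, z (D.l1 k) (D.ctr k) ^ 2 +
      ∑ i, ∑ j, if i = D.i0 ∨ j = D.j0 then z j (D.a i) ^ 2 else 0 := by
  have h1 : (1 / 2 : ℝ) * ∑ j, ∑ s ∈ D.cr j, z j s * z j s =
      ∑ k : (Σ z : {z : Fin D.n × Fin D.n // z.1 < z.2}, {c : ℤ // c ∈ D.R z.1.1 z.1.2}),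
        z (D.l1 (Sum.inr k)) (D.ctr (Sum.inr k)) ^ 2 := by
    rw [sum_inr (D := D) (fun j s => z j s ^ 2)]
    simp only [sum_cr]
    rw [sum_sym (fun j l => ∑ s ∈ D.R j l, z j s * z j s)]
    · have h2 : ∀ x y : ℝ, x = y → 1 / 2 * (2 * x) = y := by
        intro x y h
        rw [h]
        ring
      refine h2 _ _ (Finset.sum_congr rfl fun w _ => Finset.sum_congr rfl fun s _ => ?_)
      rw [sq]
    · intro j l hjl
      show ∑ s ∈ D.R j l, z j s * z j s = ∑ s ∈ D.R l j, z l s * z l s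
      rw [← hR j l hjl]
      refine Finset.sum_congr rfl fun s hs => ?_
      have h3 : z j s = - z l s := eq_neg_of_add_eq_zero_left (hz.pair j l s hjl hs)
      rw [h3]
      ring
  have h4 : ∑ i, ∑ j, z j (D.a i) * z j (D.a i) =
      ∑ k : {z : Fin D.m × Fin D.n // z.1 ≠ D.i0 ∧ z.2 ≠ D.j0},
        z (D.l1 (Sum.inl k)) (D.ctr (Sum.inl k)) ^ 2 +
      ∑ i, ∑ j, if i = D.i0 ∨ j = D.j0 then z j (D.a i) ^ 2 else 0 := by
    rw [sum_inl (D := D) (fun j s => z j s ^ 2), ← Finset.sum_add_distrib]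
    refine Finset.sum_congr rfl fun i _ => ?_
    rw [← Finset.sum_add_distrib]
    refine Finset.sum_congr rfl fun j _ => ?_
    by_cases h : i = D.i0 ∨ j = D.j0
    · rw [if_pos h, if_neg (by tauto), zero_add, sq]
    · rw [if_neg h, if_pos (by tauto), add_zero, sq]
  unfold ip
  rw [h1, h4]
  rw [Fintype.sum_sum_type]
  ring

theorem a_ctr_ne (k : D.Idx) : D.ctr k ≠ D.a D.i0 := by
  rcases k with ⟨⟨i, j⟩, hi, hj⟩ | ⟨⟨⟨j, l⟩, hjl⟩, ⟨c, hc⟩⟩
  · intro h
    exact hi (D.a_inj h)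
  · intro h
    have h' : c = D.a D.i0 := h
    rw [h'] at hc
    exact D.cross_a j l D.i0 (ne_of_lt hjl) hc

theorem l1_ne_of (k : D.Idx) (i : Fin D.m) (h : D.ctr k = D.a i) : D.l1 k ≠ D.j0 := by
  rcases k with ⟨⟨i', j⟩, hi, hj⟩ | ⟨⟨⟨j, l⟩, hjl⟩, ⟨c, hc⟩⟩
  · exact hj
  · have h' : c = D.a i := h
    rw [h'] at hc
    exact (D.cross_a j l i (ne_of_lt hjl) hc).elim

theorem cyc_sq_le (k : D.Idx) (hne : D.l1 k ≠ D.l2 k) (i : Fin D.m) (j : Fin D.n)
    (hT : i = D.i0 ∨ j = D.j0) :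
    cyc D k j (D.a i) ^ 2 ≤ (if i = D.i0 then (if j = D.l1 k then (1 : ℝ) else 0) else 0) +
      (if i = D.i0 then (if j = D.l2 k then (1 : ℝ) else 0) else 0) +
      (if D.ctr k = D.a i then (if j = D.l2 k then (1 : ℝ) else 0) else 0) := by
  have hA : ((if D.l1 k = j then (1 : ℝ) else 0) - (if D.l2 k = j then 1 else 0)) ^ 2 =
      (if j = D.l1 k then (1 : ℝ) else 0) + if j = D.l2 k then (1 : ℝ) else 0 := by
    by_cases h1 : D.l1 k = j
    · have h2 : ¬ D.l2 k = j := fun e => hne (h1.trans e.symm)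
      rw [if_pos h1, if_neg h2, if_pos h1.symm, if_neg fun e => h2 e.symm]
      norm_num
    · by_cases h2 : D.l2 k = j
      · rw [if_neg h1, if_pos h2, if_neg fun e => h1 e.symm, if_pos h2.symm]
        norm_num
      · rw [if_neg h1, if_neg h2, if_neg fun e => h1 e.symm, if_neg fun e => h2 e.symm]
        norm_num
  unfold cyc
  rw [mul_pow, hA]
  by_cases hi : i = D.i0
  · subst hi
    have h1 : ¬ D.ctr k = D.a D.i0 := a_ctr_ne k
    simp only [if_neg h1, if_true]
    norm_num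
  · have hai : ¬ D.a D.i0 = D.a i := fun e => hi (D.a_inj e).symm
    have hj : j = D.j0 := by
      rcases hT with h | h
      · exact absurd h hi
      · exact h
    simp only [if_neg hi, if_neg hai]
    by_cases hc : D.ctr k = D.a i
    · have h3 : ¬ j = D.l1 k := fun e => l1_ne_of k i hc (e.symm.trans hj)
      simp only [if_pos hc, if_neg h3]
      norm_num
    · simp only [if_neg hc]
      norm_num

theorem sum_cyc_le (k : D.Idx) (hne : D.l1 k ≠ D.l2 k) :
    ∑ i, ∑ j, (if i = D.i0 ∨ j = D.j0 then cyc D k j (D.a i) ^ 2 else 0) ≤ 3 := by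
  have h1 : ∀ i j, (if i = D.i0 ∨ j = D.j0 then cyc D k j (D.a i) ^ 2 else 0) ≤
      (if i = D.i0 then (if j = D.l1 k then (1 : ℝ) else 0) else 0) +
      (if i = D.i0 then (if j = D.l2 k then (1 : ℝ) else 0) else 0) +
      (if D.ctr k = D.a i then (if j = D.l2 k then (1 : ℝ) else 0) else 0) := by
    intro i j
    by_cases h : i = D.i0 ∨ j = D.j0
    · rw [if_pos h]
      exact cyc_sq_le k hne i j h
    · rw [if_neg h]
      have e1 : ∀ (p : Prop) [Decidable p] (x : ℝ), 0 ≤ x → 0 ≤ if p then x else 0 := by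
        intro p _ x hx
        split_ifs
        · exact hx
        · exact le_rfl
      have e2 : ∀ (p : Prop) [Decidable p], (0 : ℝ) ≤ if p then 1 else 0 := fun p _ =>
        e1 p 1 zero_le_one
      exact add_nonneg (add_nonneg (e1 _ _ (e2 _)) (e1 _ _ (e2 _))) (e1 _ _ (e2 _))
  have h2 := Finset.sum_le_sum (s := Finset.univ) fun i (_ : i ∈ Finset.univ) =>
    Finset.sum_le_sum (s := Finset.univ) fun j (_ : j ∈ Finset.univ) => h1 i j
  refine h2.trans ?_
  simp only [Finset.sum_add_distrib]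
  have h3 : ∀ l : Fin D.n, ∑ i, ∑ j, (if i = D.i0 then (if j = l then (1 : ℝ) else 0) else 0) =
      1 := by
    intro l
    rw [Finset.sum_eq_single D.i0]
    · simp
    · intro i _ hi
      simp [hi]
    · intro h
      exact absurd (Finset.mem_univ _) h
  have h4 : ∑ i, ∑ j, (if D.ctr k = D.a i then (if j = D.l2 k then (1 : ℝ) else 0) else 0) ≤ 1 := by
    by_cases h : ∃ i, D.ctr k = D.a i
    · obtain ⟨i1, hi1⟩ := h
      rw [Finset.sum_eq_single i1]
      · simp [hi1]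
      · intro i _ hi
        have : ¬ D.ctr k = D.a i := fun e => hi (D.a_inj (e.symm.trans hi1))
        simp [this]
      · intro h
        exact absurd (Finset.mem_univ _) h
    · have h5 : ∀ i, ¬ D.ctr k = D.a i := fun i e => h ⟨i, e⟩
      simp [h5]
  rw [h3, h3]
  linarith

end NOGM

open NOGM in
theorem specNOG (hSTG : SpecSTG) (hCOF : SpecCOF) : SpecNOG := by
  intro D v
  obtain ⟨hR, -⟩ := hSTG D
  obtain ⟨hcard, hflow, hco, -, -, hk⟩ := hCOF D
  have hR' : ∀ j l, j ≠ l → D.R j l = D.R l j := fun j l h => (hR j l h).1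
  have hip := ip_eq hR' (hflow v)
  have e1 : ∑ k : D.Idx, zv D v (D.l1 k) (D.ctr k) ^ 2 = ∑ k, v k ^ 2 :=
    Finset.sum_congr rfl fun k _ => by rw [hco v k]
  rw [e1] at hip
  constructor
  · rw [hip]
    have h0 : 0 ≤ ∑ i, ∑ j, if i = D.i0 ∨ j = D.j0 then zv D v j (D.a i) ^ 2 else 0 := by
      refine Finset.sum_nonneg fun i _ => Finset.sum_nonneg fun j _ => ?_
      split_ifs
      · exact sq_nonneg _
      · exact le_rfl
    linarith
  · rw [hip]
    have hcs : ∀ i j, zv D v j (D.a i) ^ 2 ≤ (D.g : ℝ) * ∑ k, v k ^ 2 * cyc D k j (D.a i) ^ 2 := by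
      intro i j
      unfold zv
      have h1 := sq_sum_le_card_mul_sum_sq (s := (Finset.univ : Finset D.Idx))
        (f := fun k => v k * cyc D k j (D.a i))
      rw [Finset.card_univ, hcard] at h1
      refine h1.trans (le_of_eq ?_)
      congr 1
      exact Finset.sum_congr rfl fun k _ => mul_pow _ _ _
    have h2 : ∑ i, ∑ j, (if i = D.i0 ∨ j = D.j0 then zv D v j (D.a i) ^ 2 else 0) ≤
        ∑ i, ∑ j, ∑ k, (D.g : ℝ) * v k ^ 2 *
          (if i = D.i0 ∨ j = D.j0 then cyc D k j (D.a i) ^ 2 else 0) := by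
      refine Finset.sum_le_sum fun i _ => Finset.sum_le_sum fun j _ => ?_
      by_cases h : i = D.i0 ∨ j = D.j0
      · rw [if_pos h]
        refine (hcs i j).trans (le_of_eq ?_)
        rw [Finset.mul_sum]
        refine Finset.sum_congr rfl fun k _ => ?_
        rw [if_pos h]
        ring
      · rw [if_neg h]
        refine le_of_eq ?_
        symm
        refine Finset.sum_eq_zero fun k _ => ?_
        rw [if_neg h, mul_zero]
    have h3 : ∑ i, ∑ j, ∑ k, (D.g : ℝ) * v k ^ 2 *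
          (if i = D.i0 ∨ j = D.j0 then cyc D k j (D.a i) ^ 2 else 0) =
        ∑ k, (D.g : ℝ) * v k ^ 2 *
          ∑ i, ∑ j, (if i = D.i0 ∨ j = D.j0 then cyc D k j (D.a i) ^ 2 else 0) := by
      have e2 : ∀ i, ∑ j, ∑ k, (D.g : ℝ) * v k ^ 2 *
          (if i = D.i0 ∨ j = D.j0 then cyc D k j (D.a i) ^ 2 else 0) =
          ∑ k, ∑ j, (D.g : ℝ) * v k ^ 2 *
            (if i = D.i0 ∨ j = D.j0 then cyc D k j (D.a i) ^ 2 else 0) := fun i =>
        Finset.sum_comm
      rw [Finset.sum_congr rfl fun i _ => e2 i, Finset.sum_comm]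
      refine Finset.sum_congr rfl fun k _ => ?_
      rw [Finset.mul_sum]
      refine Finset.sum_congr rfl fun i _ => ?_
      rw [Finset.mul_sum]
    have h4 : ∑ k, (D.g : ℝ) * v k ^ 2 *
          ∑ i, ∑ j, (if i = D.i0 ∨ j = D.j0 then cyc D k j (D.a i) ^ 2 else 0) ≤
        ∑ k, (D.g : ℝ) * v k ^ 2 * 3 := by
      refine Finset.sum_le_sum fun k _ => ?_
      refine mul_le_mul_of_nonneg_left (sum_cyc_le k (hk k).2) ?_
      exact mul_nonneg (Nat.cast_nonneg _) (sq_nonneg _)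
    have h5 : ∑ k, (D.g : ℝ) * v k ^ 2 * 3 = 3 * (D.g : ℝ) * ∑ k, v k ^ 2 := by
      rw [Finset.mul_sum]
      refine Finset.sum_congr rfl fun k _ => ?_
      ring
    rw [h3] at h2
    rw [h5] at h4
    linarith

end MP743d1e.GA
end
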