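import Pool.Agent.Lib.MP_743d1e_nt.GA.SpecK
import Pool.Agent.Lib.MP_743d1e_nt.LA.Main
import Pool.Agent.Lib.MP_743d1e_nt.LA.LRG

section
/-!
# Arrangements of graphs: the determinant (DTG)
-/
set_option autoImplicit false

namespace MP743d1e.GA

open scoped BigOperators

namespace DTGM

variable {D : Gr}

theorem zv_add (v w : D.Idx → ℝ) (j : Fin D.n) (s : ℤ) :
    zv D (v + w) j s = zv D v j s + zv D w j s := by
  unfold zv
  rw [← Finset.sum_add_distrib]
  exact Finset.sum_congr rfl fun i _ => by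
    rw [Pi.add_apply]
    ring

theorem zv_smul (c : ℝ) (v : D.Idx → ℝ) (j : Fin D.n) (s : ℤ) :
    zv D (c • v) j s = c * zv D v j s := by
  unfold zv
  rw [Finset.mul_sum]
  exact Finset.sum_congr rfl fun i _ => by
    rw [Pi.smul_apply, smul_eq_mul]
    ring

/-- The vector of the values of a flow. -/
noncomputable def ps (D : Gr) :
    (D.Idx → ℝ) →ₗ[ℝ] EuclideanSpace ℝ ((Fin D.m × Fin D.n) ⊕
      (Σ j : Fin D.n, {s : ℤ // s ∈ D.cr j})) where
  toFun v := WithLp.toLp 2 (Sum.elim (fun z => zv D v z.2 (D.a z.1))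
    fun z => zv D v z.1 z.2.1 / Real.sqrt 2)
  map_add' v w := by
    ext z
    rcases z with z | z
    · simp [zv_add]
    · simp [zv_add, add_div]
  map_smul' c v := by
    ext z
    rcases z with z | z
    · simp [zv_smul]
    · simp [zv_smul, mul_div_assoc]

theorem ps_inl (v : D.Idx → ℝ) (z : Fin D.m × Fin D.n) :
    (ps D v) (Sum.inl z) = zv D v z.2 (D.a z.1) := rfl

theorem ps_inr (v : D.Idx → ℝ) (z : Σ j : Fin D.n, {s : ℤ // s ∈ D.cr j}) :
    (ps D v) (Sum.inr z) = zv D v z.1 z.2.1 / Real.sqrt 2 := rfl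

theorem inner_ps (v w : D.Idx → ℝ) :
    inner ℝ (ps D v) (ps D w) = ip D (zv D v) (zv D w) := by
  rw [PiLp.inner_apply, Fintype.sum_sum_type, Fintype.sum_prod_type, Fintype.sum_sigma]
  unfold ip
  congr 1
  · refine Finset.sum_congr rfl fun k _ => Finset.sum_congr rfl fun j _ => ?_
    rw [ps_inl, ps_inl]
    simp [mul_comm]
  · rw [Finset.mul_sum]
    refine Finset.sum_congr rfl fun j _ => ?_
    rw [← Finset.sum_coe_sort (D.cr j) (fun s => zv D v j s * zv D w j s), Finset.mul_sum]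
    refine Finset.sum_congr rfl fun s _ => ?_
    rw [ps_inr, ps_inr]
    have h2 : Real.sqrt 2 * Real.sqrt 2 = 2 := Real.mul_self_sqrt (by norm_num)
    have h4 : zv D w j s.1 / Real.sqrt 2 * (zv D v j s.1 / Real.sqrt 2) =
        1 / 2 * (zv D v j s.1 * zv D w j s.1) := by
      rw [div_mul_div_comm, h2]
      ring
    simpa using h4

theorem norm_ps_sq (v : D.Idx → ℝ) : ‖ps D v‖ ^ 2 = ip D (zv D v) (zv D v) := by
  rw [← real_inner_self_eq_norm_sq, inner_ps]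

theorem expand (hVFL : SpecVFL) (hENG : SpecENG) (hCOF : SpecCOF) (lam : ℤ) (ℓ : ℝ)
    (hℓ : ∀ j, ∀ c ∈ D.ns j, ℓ ≤ D.Lam lam j c) (v : D.Idx → ℝ) :
    (ℓ - 2 * Real.log 2) * ‖ps D v‖ ≤ ‖ps D (fun k => ∑ i, v i * D.A lam i k)‖ := by
  obtain ⟨-, c2, -, c4, c5, -⟩ := hCOF D
  have hf := c2 v
  have hF := hVFL D lam _ hf
  have hw : (fun k => ∑ i, v i * D.A lam i k) =
      fun k => V D lam (zv D v) (D.l1 k) (D.ctr k) := by
    funext k
    exact (c5 lam v k).symm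
  rw [hw]
  have h2 := hENG D lam ℓ _ hf hℓ
  have h3 := real_inner_le_norm (ps D v)
    (ps D (fun k => V D lam (zv D v) (D.l1 k) (D.ctr k)))
  rw [inner_ps, c4 _ hF] at h3
  rw [← norm_ps_sq] at h2
  set P := ‖ps D v‖ with hP
  set Q := ‖ps D (fun k => V D lam (zv D v) (D.l1 k) (D.ctr k))‖ with hQ
  have hP0 : 0 ≤ P := norm_nonneg _
  have hQ0 : 0 ≤ Q := norm_nonneg _
  rcases hP0.eq_or_lt with h | h
  · rw [← h, mul_zero]
    exact hQ0
  · have h4 : ((ℓ - 2 * Real.log 2) * P) * P ≤ Q * P := by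
      calc ((ℓ - 2 * Real.log 2) * P) * P = (ℓ - 2 * Real.log 2) * P ^ 2 := by ring
        _ ≤ P * Q := h2.trans h3
        _ = Q * P := mul_comm _ _
    exact le_of_mul_le_mul_right h4 h

theorem error (hCOF : SpecCOF) (hNOG : SpecNOG) (C : ℝ) (hC : 0 ≤ C)
    (hC2 : 1 + 3 * (D.g : ℝ) ≤ C ^ 2) (E : D.Idx → D.Idx → ℝ) {η : ℝ} (hη : 0 ≤ η)
    (hE : ∀ i k, |E i k| ≤ η) (v : D.Idx → ℝ) :
    ‖ps D (fun k => ∑ i, v i * E i k)‖ ≤ C * D.g * η * ‖ps D v‖ := by
  have hcard : (Fintype.card D.Idx : ℝ) = D.g := by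
    rw [(hCOF D).1]
  have h5 : ∑ k, v k ^ 2 ≤ ‖ps D v‖ ^ 2 := by
    rw [norm_ps_sq]
    exact (hNOG D v).1
  have h1 : ∀ k, (∑ i, v i * E i k) ^ 2 ≤ η ^ 2 * (D.g * ‖ps D v‖ ^ 2) := by
    intro k
    have h2 : (∑ i, v i * E i k) ^ 2 ≤ (∑ i, v i ^ 2) * ∑ i, E i k ^ 2 :=
      Finset.sum_mul_sq_le_sq_mul_sq _ _ _
    have h3 : ∑ i, E i k ^ 2 ≤ D.g * η ^ 2 := by
      have h4 : ∀ i ∈ (Finset.univ : Finset D.Idx), E i k ^ 2 ≤ η ^ 2 := by
        intro i _
        exact sq_le_sq' (by linarith [(abs_le.1 (hE i k)).1]) (abs_le.1 (hE i k)).2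
      refine (Finset.sum_le_sum h4).trans ?_
      rw [Finset.sum_const, nsmul_eq_mul, Finset.card_univ, hcard]
    calc (∑ i, v i * E i k) ^ 2 ≤ (∑ i, v i ^ 2) * ∑ i, E i k ^ 2 := h2
      _ ≤ ‖ps D v‖ ^ 2 * (D.g * η ^ 2) := mul_le_mul h5 h3
          (Finset.sum_nonneg fun _ _ => sq_nonneg _) (sq_nonneg _)
      _ = _ := by ring
  have h6 := (hNOG D (fun k => ∑ i, v i * E i k)).2
  rw [← norm_ps_sq] at h6
  have h7 : ∑ k, (∑ i, v i * E i k) ^ 2 ≤ D.g * (η ^ 2 * (D.g * ‖ps D v‖ ^ 2)) := by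
    refine (Finset.sum_le_sum fun k _ => h1 k).trans ?_
    rw [Finset.sum_const, nsmul_eq_mul, Finset.card_univ, hcard]
  have h8 : ‖ps D (fun k => ∑ i, v i * E i k)‖ ^ 2 ≤ (C * D.g * η * ‖ps D v‖) ^ 2 := by
    have h9 : (1 + 3 * (D.g : ℝ)) * ∑ k, (∑ i, v i * E i k) ^ 2 ≤
        C ^ 2 * (D.g * (η ^ 2 * (D.g * ‖ps D v‖ ^ 2))) :=
      mul_le_mul hC2 h7 (Finset.sum_nonneg fun _ _ => sq_nonneg _) (sq_nonneg _)
    refine h6.trans (h9.trans (le_of_eq ?_))
    ring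
  exact le_of_abs_le (abs_le_of_sq_le_sq h8 (by positivity))

end DTGM

open DTGM in
/-- DTG -/
theorem specDTG (hVFL : SpecVFL) (hENG : SpecENG) (hCOF : SpecCOF) (hNOG : SpecNOG) :
    SpecDTG := by
  intro D lam ℓ C hℓ hC hC2 e N η hN hκ
  rcases Nat.eq_zero_or_pos D.g with h0 | h0
  · have : IsEmpty (Fin D.g) := by
      rw [h0]
      infer_instance
    rw [Matrix.det_isEmpty]
    have h1 : ∀ x : ℝ, x ^ D.g = 1 := fun x => by rw [h0, pow_zero]
    rw [h1, abs_one]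
  have hη : 0 ≤ η := (abs_nonneg _).trans (hN ⟨0, h0⟩ ⟨0, h0⟩)
  set ψ : (Fin D.g → ℝ) →ₗ[ℝ] EuclideanSpace ℝ ((Fin D.m × Fin D.n) ⊕
      (Σ j : Fin D.n, {s : ℤ // s ∈ D.cr j})) :=
    (ps D) ∘ₗ (LinearMap.funLeft ℝ ℝ e.symm) with hψ
  have hψv : ∀ v, ψ v = ps D (fun k => v (e.symm k)) := fun v => rfl
  refine LA.LNLM.det_ge_gen ψ ?_ N hκ ?_
  · intro v
    rw [hψv, norm_ps_sq]
    refine le_trans (le_of_eq ?_) (hNOG D (fun k => v (e.symm k))).1
    exact (Equiv.sum_comp e.symm fun i => v i ^ 2).symm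
  · intro v
    rw [hψv, hψv]
    set u : D.Idx → ℝ := fun k => v (e.symm k) with hu
    set E : D.Idx → D.Idx → ℝ := fun i k => N (e.symm i) (e.symm k) -
      2 * Real.pi * D.A lam i k with hEdef
    have hE : ∀ i k, |E i k| ≤ η := by
      intro i k
      have h1 := hN (e.symm i) (e.symm k)
      rw [e.apply_symm_apply, e.apply_symm_apply] at h1
      exact h1
    have h1 : (fun k : D.Idx => ∑ i, v i * N i (e.symm k)) =
        (2 * Real.pi) • (fun k => ∑ i, u i * D.A lam i k) + fun k => ∑ i, u i * E i k := by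
      funext k
      have h2 : ∑ i, v i * N i (e.symm k) = ∑ i, u i * N (e.symm i) (e.symm k) :=
        (Equiv.sum_comp e.symm fun i => v i * N i (e.symm k)).symm
      rw [h2]
      show _ = 2 * Real.pi * (∑ i, u i * D.A lam i k) + ∑ i, u i * E i k
      rw [Finset.mul_sum, ← Finset.sum_add_distrib]
      refine Finset.sum_congr rfl fun i _ => ?_
      rw [hEdef]
      ring
    rw [h1, map_add, map_smul]
    have h3 := expand hVFL hENG hCOF lam ℓ hℓ u
    have h4 := error hCOF hNOG C hC hC2 E hη hE u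
    have hpi : 0 < 2 * Real.pi := by positivity
    have h5 : ‖(2 * Real.pi) • ps D (fun k => ∑ i, u i * D.A lam i k)‖ =
        2 * Real.pi * ‖ps D (fun k => ∑ i, u i * D.A lam i k)‖ := by
      rw [norm_smul, Real.norm_of_nonneg hpi.le]
    have h6 := norm_sub_le_norm_add
      ((2 * Real.pi) • ps D (fun k => ∑ i, u i * D.A lam i k))
      (ps D (fun k => ∑ i, u i * E i k))
    rw [h5] at h6
    have h7 := mul_le_mul_of_nonneg_left h3 hpi.le
    have h8 : (2 * Real.pi * (ℓ - 2 * Real.log 2) - C * D.g * η) * ‖ps D u‖ =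
        2 * Real.pi * ((ℓ - 2 * Real.log 2) * ‖ps D u‖) - C * D.g * η * ‖ps D u‖ := by ring
    rw [h8]
    linarith

end MP743d1e.GA
end

section
/-!
# PBK: products over distinct nonzero integers
-/
set_option autoImplicit false

namespace MP743d1e.GA

open scoped BigOperators

namespace PBKM

/-- the absolute value, and one at zero -/
noncomputable def G (d : ℤ) : ℝ := if d = 0 then 1 else |(d : ℝ)|

theorem G_pos (d : ℤ) : 0 < G d := by
  unfold G
  split_ifs with h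
  · norm_num
  · exact abs_pos.2 (by exact_mod_cast h)

theorem G_small (d : ℤ) (hd : |d| ≤ 6) : G d / 6 ≤ 1 := by
  unfold G
  split_ifs with h
  · norm_num
  · have h2 : |(d : ℝ)| ≤ 6 := by exact_mod_cast hd
    linarith

theorem G_large (d : ℤ) (hd : ¬ |d| ≤ 6) : 1 ≤ G d / 6 := by
  unfold G
  split_ifs with h
  · rw [h] at hd
    norm_num at hd
  · have h1 : (7 : ℤ) ≤ |d| := by omega
    have h2 : (7 : ℝ) ≤ |(d : ℝ)| := by exact_mod_cast h1
    linarith

theorem prod_ge (S : Finset ℤ) (h0 : (0 : ℤ) ∉ S) :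
    ∏ d ∈ (Finset.Icc (-6 : ℤ) 6).erase 0, G d / 6 ≤ ∏ d ∈ S, G d / 6 := by
  classical
  have hS : ∀ d ∈ S, d ≠ 0 := fun d hd h => h0 (h ▸ hd)
  set A := S.filter fun d => |d| ≤ 6 with hA
  have h1 : ∏ d ∈ A, G d / 6 ≤ ∏ d ∈ S, G d / 6 := by
    rw [← Finset.prod_filter_mul_prod_filter_not S (fun d => |d| ≤ 6)]
    refine le_mul_of_one_le_right (Finset.prod_nonneg fun d hd => ?_) ?_
    · have := G_pos d
      positivity
    · have h2 : ∏ _d ∈ S.filter (fun d => ¬ |d| ≤ 6), (1 : ℝ) ≤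
          ∏ d ∈ S.filter (fun d => ¬ |d| ≤ 6), G d / 6 :=
        Finset.prod_le_prod (fun _ _ => zero_le_one) fun d hd =>
          G_large d (Finset.mem_filter.1 hd).2
      simpa using h2
  refine le_trans ?_ h1
  have hsub : A ⊆ (Finset.Icc (-6 : ℤ) 6).erase 0 := by
    intro d hd
    rw [hA, Finset.mem_filter] at hd
    rw [Finset.mem_erase, Finset.mem_Icc]
    exact ⟨hS d hd.1, abs_le.1 hd.2⟩
  rw [← Finset.prod_sdiff hsub]
  refine mul_le_of_le_one_left (Finset.prod_nonneg fun d hd => ?_) ?_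
  · have := G_pos d
    positivity
  · refine Finset.prod_le_one (fun d hd => ?_) fun d hd => ?_
    · have := G_pos d
      positivity
    · have h3 := Finset.mem_Icc.1 (Finset.mem_of_mem_erase (Finset.mem_sdiff.1 hd).1)
      exact G_small d (abs_le.2 h3)

theorem value : (238 / 1000000 : ℝ) ≤ ∏ d ∈ (Finset.Icc (-6 : ℤ) 6).erase 0, G d / 6 := by
  have h1 : (Finset.Icc (-6 : ℤ) 6).erase 0 = {-6, -5, -4, -3, -2, -1, 1, 2, 3, 4, 5, 6} := by
    decide
  rw [h1]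
  unfold G
  norm_num

theorem set_ge (S : Finset ℤ) (h0 : (0 : ℤ) ∉ S) :
    (6 : ℝ) ^ S.card * (238 / 1000000) ≤ ∏ d ∈ S, G d := by
  have h4 : ∏ d ∈ S, G d = 6 ^ S.card * ∏ d ∈ S, G d / 6 := by
    rw [Finset.prod_div_distrib, Finset.prod_const, mul_div_cancel₀]
    positivity
  rw [h4]
  exact mul_le_mul_of_nonneg_left (value.trans (prod_ge S h0)) (by positivity)

end PBKM

open PBKM in
theorem specPBK : SpecPBK := by
  intro S h0
  have hS : ∀ d ∈ S, d ≠ 0 := fun d hd h => h0 (h ▸ hd)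
  refine ⟨?_, ?_⟩
  · have h1 := LA.LRGM.set_ge S h0
    have h2 : ∏ d ∈ S, LA.LRGM.F d = ∏ s ∈ S, (|(s : ℝ)| - 1 / 2) := by
      refine Finset.prod_congr rfl fun d hd => ?_
      unfold LA.LRGM.F
      rw [if_neg (hS d hd)]
    rw [h2] at h1
    norm_num at h1 ⊢
    linarith
  · have h1 := set_ge S h0
    have h2 : ∏ d ∈ S, G d = ∏ s ∈ S, |(s : ℝ)| := by
      refine Finset.prod_congr rfl fun d hd => ?_
      unfold G
      rw [if_neg (hS d hd)]
    rw [h2] at h1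
    norm_num at h1 ⊢
    linarith

end MP743d1e.GA
end
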