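import Pool.Agent.Lib.MP_743d1e_nt.GA.Spec
import Pool.Agent.Lib.MP_743d1e_nt.GA.Main

/-!
# Arrangements of graphs: residues on the graphs and flows
-/

set_option autoImplicit false

namespace MP743d1e.GA

open scoped BigOperators
open Polynomial

namespace RSDM

variable (D : Gr)

/-- The embedding of the integers. -/
noncomputable abbrev iv : ℤ → ℂ := fun c => (c : ℂ)

theorem iv_inj (s : Finset ℤ) : Set.InjOn iv (s : Set ℤ) := by
  intro c _ c' _ h
  exact Int.cast_injective h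

/-- The product of the leading coefficients. -/
noncomputable def kk (j : Fin D.n) : ℂ := ∏ l ∈ Finset.univ.erase j, (D.kap j l : ℂ)

theorem kk_ne (j : Fin D.n) : kk D j ≠ 0 := by
  refine Finset.prod_ne_zero_iff.mpr fun l hl => ?_
  exact_mod_cast D.kap_ne j l (Finset.ne_of_mem_erase hl).symm

/-- The restriction of the equation to the graph `j`. -/
noncomputable def Wp (j : Fin D.n) : ℂ[X] :=
  (∏ i, (X - C (D.a i : ℂ))) * ∏ l ∈ Finset.univ.erase j, (D.Pc j - D.Pc l)

theorem Pc_sub {j l : Fin D.n} (h : j ≠ l) :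
    D.Pc j - D.Pc l = C (D.kap j l : ℂ) * ∏ r ∈ D.R j l, (X - C (r : ℂ)) := by
  unfold Gr.Pc
  rw [← Polynomial.map_sub, D.diff j l h, Polynomial.map_mul, Polynomial.map_prod, map_C]
  congr 1
  apply Finset.prod_congr rfl
  intro r _
  rw [Polynomial.map_sub, map_X, map_C]
  rfl

theorem disj_a (j : Fin D.n) : Disjoint (Finset.univ.image D.a) (D.cr j) := by
  rw [Finset.disjoint_left]
  intro c hc hc'
  obtain ⟨i, -, rfl⟩ := Finset.mem_image.mp hc
  obtain ⟨l, hl, hc'⟩ := Finset.mem_biUnion.mp hc'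
  exact D.cross_a j l i (Finset.ne_of_mem_erase hl).symm hc'

theorem disj_R (j : Fin D.n) :
    ((Finset.univ.erase j : Finset (Fin D.n)) : Set (Fin D.n)).PairwiseDisjoint (D.R j) := by
  intro l hl l' hl' hne
  exact D.no_triple j l l' (Finset.ne_of_mem_erase hl).symm (Finset.ne_of_mem_erase hl').symm hne

theorem card_ns (j : Fin D.n) : (D.ns j).card = D.m + D.s j := by
  unfold Gr.ns
  rw [Finset.card_union_of_disjoint (disj_a D j), Finset.card_image_of_injective _ D.a_inj,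
    Finset.card_univ, Fintype.card_fin]
  congr 1
  unfold Gr.cr Gr.s
  rw [Finset.card_biUnion]
  exact fun l hl l' hl' hne => disj_R D j hl hl' hne

theorem nodal_ns (j : Fin D.n) : Lagrange.nodal (D.ns j) iv =
    (∏ i, (X - C (D.a i : ℂ))) * ∏ l ∈ Finset.univ.erase j, ∏ r ∈ D.R j l, (X - C (r : ℂ)) := by
  rw [Lagrange.nodal_eq]
  unfold Gr.ns
  rw [Finset.prod_union (disj_a D j), Finset.prod_image (fun i _ i' _ h => D.a_inj h)]
  congr 1
  unfold Gr.cr
  rw [Finset.prod_biUnion (disj_R D j)]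

theorem Wp_eq (j : Fin D.n) : Wp D j = C (kk D j) * Lagrange.nodal (D.ns j) iv := by
  rw [nodal_ns, Wp, kk, map_prod, mul_left_comm]
  congr 1
  rw [← Finset.prod_mul_distrib]
  apply Finset.prod_congr rfl
  intro l hl
  exact Pc_sub D (Finset.ne_of_mem_erase hl).symm

/-- The derivative at the nodes. -/
noncomputable def w (j : Fin D.n) (c : ℤ) : ℂ := (derivative (Wp D j)).eval (c : ℂ)

theorem w_eq {j : Fin D.n} {c : ℤ} (hc : c ∈ D.ns j) :
    w D j c = kk D j * ∏ c' ∈ (D.ns j).erase c, (iv c - iv c') := by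
  have h1 := Lagrange.eval_nodal_derivative_eval_node_eq (v := iv) hc
  rw [Lagrange.eval_nodal] at h1
  rw [w, Wp_eq, derivative_C_mul, eval_mul, eval_C, ← h1]

theorem w_ne {j : Fin D.n} {c : ℤ} (hc : c ∈ D.ns j) : w D j c ≠ 0 := by
  rw [w_eq D hc]
  refine mul_ne_zero (kk_ne D j) (Finset.prod_ne_zero_iff.mpr fun c' hc' => ?_)
  rw [sub_ne_zero]
  intro h
  exact (Finset.ne_of_mem_erase hc') (Int.cast_injective h).symm

theorem w_a (j : Fin D.n) (i : Fin D.m) : w D j (D.a i) =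
    (derivative (∏ i, (X - C (D.a i : ℂ)))).eval (D.a i : ℂ) *
      ∏ l ∈ Finset.univ.erase j, ((D.Pc j).eval (D.a i : ℂ) - (D.Pc l).eval (D.a i : ℂ)) := by
  rw [w, Wp, derivative_mul, eval_add, eval_mul, eval_mul]
  have h0 : eval (D.a i : ℂ) (∏ i, (X - C (D.a i : ℂ))) = 0 := by
    rw [eval_prod]
    exact Finset.prod_eq_zero (Finset.mem_univ i) (by simp)
  rw [h0, zero_mul, add_zero, eval_prod]
  congr 1
  apply Finset.prod_congr rfl
  intro l _
  rw [eval_sub]

theorem a_ne (i : Fin D.m) :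
    (derivative (∏ i, (X - C (D.a i : ℂ)))).eval (D.a i : ℂ) ≠ 0 := by
  intro h
  have h1 := w_a D D.j0 i
  rw [h, zero_mul] at h1
  exact w_ne D (COFM.a_mem D i D.j0) h1

theorem pa_ne (j : Fin D.n) (i : Fin D.m) :
    ∏ l ∈ Finset.univ.erase j, ((D.Pc j).eval (D.a i : ℂ) - (D.Pc l).eval (D.a i : ℂ)) ≠ 0 := by
  intro h
  have h1 := w_a D j i
  rw [h, mul_zero] at h1
  exact w_ne D (COFM.a_mem D i j) h1

theorem Pc_eval {j l : Fin D.n} (h : j ≠ l) {r : ℤ} (hr : r ∈ D.R j l) :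
    (D.Pc j).eval (r : ℂ) = (D.Pc l).eval (r : ℂ) := by
  rw [← sub_eq_zero, ← eval_sub, Pc_sub D h, eval_mul, eval_prod,
    Finset.prod_eq_zero hr (by simp), mul_zero]

theorem w_R0 {j l : Fin D.n} (h : j ≠ l) {r : ℤ} (hr : r ∈ D.R j l) : w D j r =
    (derivative (D.Pc j - D.Pc l)).eval (r : ℂ) * ((∏ i, ((r : ℂ) - (D.a i : ℂ))) *
      ∏ h ∈ (Finset.univ.erase j).erase l, ((D.Pc j).eval (r : ℂ) - (D.Pc h).eval (r : ℂ))) := by
  have hl : l ∈ Finset.univ.erase j := Finset.mem_erase.mpr ⟨h.symm, Finset.mem_univ l⟩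
  have h1 : Wp D j = (D.Pc j - D.Pc l) * ((∏ i, (X - C (D.a i : ℂ))) *
      ∏ h ∈ (Finset.univ.erase j).erase l, (D.Pc j - D.Pc h)) := by
    rw [Wp, ← Finset.mul_prod_erase _ _ hl]
    ring
  have h2 : eval (r : ℂ) (D.Pc j - D.Pc l) = 0 := by
    rw [eval_sub, Pc_eval D h hr, sub_self]
  rw [w, h1, derivative_mul, eval_add, eval_mul, eval_mul, eval_mul, h2, zero_mul, add_zero,
    eval_prod, eval_prod]
  congr 2
  · apply Finset.prod_congr rfl
    intro i _
    simp
  · apply Finset.prod_congr rfl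
    intro l' _
    rw [eval_sub]

theorem w_R {j l : Fin D.n} (h : j ≠ l) {r : ℤ} (hr : r ∈ D.R j l) : w D l r = -w D j r := by
  have hr' : r ∈ D.R l j := by rw [D.R_symm h]; exact hr
  rw [w_R0 D h hr, w_R0 D h.symm hr', Finset.erase_right_comm]
  have h1 : derivative (D.Pc l - D.Pc j) = -derivative (D.Pc j - D.Pc l) := by
    rw [derivative_sub, derivative_sub]
    ring
  rw [h1, eval_neg, Pc_eval D h hr]
  ring

theorem sum_div {j : Fin D.n} {f : ℂ[X]} (hf : f.degree < (D.ns j).card) :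
    ∑ c ∈ D.ns j, f.eval (c : ℂ) / w D j c = f.coeff ((D.ns j).card - 1) / kk D j := by
  rw [Lagrange.coeff_eq_sum (iv_inj (D.ns j)) hf, Finset.sum_div]
  apply Finset.sum_congr rfl
  intro c hc
  rw [w_eq D hc, div_div, mul_comm]

theorem degree_lt {j : Fin D.n} {f : ℂ[X]} (hf : f = 0 ∨ f.natDegree + 2 ≤ D.m + D.s j) :
    f.degree < (D.ns j).card ∧ f.coeff ((D.ns j).card - 1) = 0 := by
  have hm := D.hm
  rw [card_ns]
  rcases hf with rfl | hf
  · simp
  · constructor
    · refine lt_of_le_of_lt degree_le_natDegree ?_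
      exact_mod_cast (by omega : f.natDegree < D.m + D.s j)
    · apply coeff_eq_zero_of_natDegree_lt
      omega

theorem degree_lt' {j : Fin D.n} {f : ℂ[X]} (hf : f.degree < (D.ns j).card)
    (h0 : f.coeff ((D.ns j).card - 1) = 0) : f = 0 ∨ f.natDegree + 2 ≤ D.m + D.s j := by
  by_cases h : f = 0
  · exact Or.inl h
  · right
    rw [← card_ns]
    have h1 : f.natDegree < (D.ns j).card := by
      rw [degree_eq_natDegree h] at hf
      exact_mod_cast hf
    have h2 : f.natDegree ≠ (D.ns j).card - 1 := by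
      intro h2
      rw [← h2] at h0
      exact h (leadingCoeff_eq_zero.mp h0)
    omega

/-- The values as a flow. -/
noncomputable def Phi (v : Fin D.n → ℂ[X]) (j : Fin D.n) (c : ℤ) : ℂ :=
  if c ∈ D.ns j then (v j).eval (c : ℂ) / w D j c else 0

theorem flow_Phi {v : Fin D.n → ℂ[X]} (hv : D.Wv v) : FlowC D (Phi D v) where
  supp := by
    intro j c hc
    rw [Phi, if_neg hc]
  anti := by
    intro j l c h hc
    have hc' : c ∈ D.R l j := by rw [D.R_symm h]; exact hc
    rw [Phi, Phi, if_pos (COFM.R_mem D h hc), if_pos (COFM.R_mem D h.symm hc'), w_R D h hc,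
      hv.2.1 j l h c hc, div_neg]
  f1 := by
    intro i
    have h1 := hv.2.2 i
    have h2 : ∀ j, Phi D v j (D.a i) =
        (v j).eval (D.a i : ℂ) / (∏ l ∈ Finset.univ.erase j,
          ((D.Pc j).eval (D.a i : ℂ) - (D.Pc l).eval (D.a i : ℂ))) /
          (derivative (∏ i, (X - C (D.a i : ℂ)))).eval (D.a i : ℂ) := by
      intro j
      rw [Phi, if_pos (COFM.a_mem D i j), w_a, div_div, mul_comm]
    simp only [h2]
    rw [← Finset.sum_div, h1, zero_div]
  f2 := by
    intro j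
    obtain ⟨h1, h2⟩ := degree_lt D (hv.1 j)
    have h3 : ∑ c ∈ D.ns j, Phi D v j c = ∑ c ∈ D.ns j, (v j).eval (c : ℂ) / w D j c := by
      apply Finset.sum_congr rfl
      intro c hc
      rw [Phi, if_pos hc]
    rw [h3, sum_div D h1, h2, zero_div]

/-- The polynomials with given residues. -/
noncomputable def Psi (z : Fin D.n → ℤ → ℂ) (j : Fin D.n) : ℂ[X] :=
  Lagrange.interpolate (D.ns j) iv (fun c => w D j c * z j c)

theorem Psi_eval (z : Fin D.n → ℤ → ℂ) {j : Fin D.n} {c : ℤ} (hc : c ∈ D.ns j) :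
    (Psi D z j).eval (c : ℂ) = w D j c * z j c :=
  Lagrange.eval_interpolate_at_node _ (iv_inj (D.ns j)) hc

theorem Psi_degree (z : Fin D.n → ℤ → ℂ) (j : Fin D.n) :
    (Psi D z j).degree < (D.ns j).card := Lagrange.degree_interpolate_lt _ (iv_inj (D.ns j))

theorem Wv_Psi {z : Fin D.n → ℤ → ℂ} (hz : FlowC D z) : D.Wv (Psi D z) := by
  refine ⟨?_, ?_, ?_⟩
  · intro j
    refine degree_lt' D (Psi_degree D z j) ?_
    have h1 := sum_div D (Psi_degree D z j)
    have h2 : ∑ c ∈ D.ns j, (Psi D z j).eval (c : ℂ) / w D j c = ∑ c ∈ D.ns j, z j c := by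
      apply Finset.sum_congr rfl
      intro c hc
      rw [Psi_eval D z hc, mul_div_cancel_left₀ _ (w_ne D hc)]
    rw [h2, hz.f2 j] at h1
    rcases div_eq_zero_iff.mp h1.symm with h | h
    · exact h
    · exact absurd h (kk_ne D j)
  · intro j l h r hr
    have hr' : r ∈ D.R l j := by rw [D.R_symm h]; exact hr
    rw [Psi_eval D z (COFM.R_mem D h hr), Psi_eval D z (COFM.R_mem D h.symm hr'), w_R D h hr,
      hz.anti j l r h hr]
    ring
  · intro i
    have h1 : ∀ j, (Psi D z j).eval (D.a i : ℂ) / (∏ l ∈ Finset.univ.erase j,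
          ((D.Pc j).eval (D.a i : ℂ) - (D.Pc l).eval (D.a i : ℂ))) =
        (derivative (∏ i, (X - C (D.a i : ℂ)))).eval (D.a i : ℂ) * z j (D.a i) := by
      intro j
      rw [Psi_eval D z (COFM.a_mem D i j), w_a, div_eq_iff (pa_ne D j i)]
      ring
    simp only [h1]
    rw [← Finset.mul_sum, hz.f1 i, mul_zero]

theorem Phi_Psi {z : Fin D.n → ℤ → ℂ} (hz : FlowC D z) : Phi D (Psi D z) = z := by
  funext j c
  by_cases hc : c ∈ D.ns j
  · rw [Phi, if_pos hc, Psi_eval D z hc, mul_div_cancel_left₀ _ (w_ne D hc)]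
  · rw [Phi, if_neg hc, hz.supp j c hc]

theorem Phi_inj {v : Fin D.n → ℂ[X]} (hv : D.Wv v) (h : Phi D v = 0) : v = 0 := by
  funext j
  obtain ⟨h1, -⟩ := degree_lt D (hv.1 j)
  refine Polynomial.eq_zero_of_degree_lt_of_eval_index_eq_zero (v := iv) (D.ns j) (iv_inj (D.ns j)) h1 ?_
  intro c hc
  have h2 := congrFun (congrFun h j) c
  rw [Phi, if_pos hc] at h2
  rcases div_eq_zero_iff.mp h2 with h3 | h3
  · exact h3
  · exact absurd h3 (w_ne D hc)

/-- The space of the values. -/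
def VS : Submodule ℂ (Fin D.n → ℂ[X]) where
  carrier := {v | D.Wv v}
  add_mem' := by
    intro v v' hv hv'
    refine ⟨?_, ?_, ?_⟩
    · intro j
      obtain ⟨h1, h2⟩ := degree_lt D (hv.1 j)
      obtain ⟨h3, h4⟩ := degree_lt D (hv'.1 j)
      refine degree_lt' D ?_ ?_
      · exact lt_of_le_of_lt (degree_add_le _ _) (max_lt h1 h3)
      · show (v j + v' j).coeff _ = 0
        rw [coeff_add, h2, h4, add_zero]
    · intro j l h r hr
      show (v j + v' j).eval (r : ℂ) = (v l + v' l).eval (r : ℂ)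
      rw [eval_add, eval_add, hv.2.1 j l h r hr, hv'.2.1 j l h r hr]
    · intro i
      show ∑ j, (v j + v' j).eval (D.a i : ℂ) / _ = 0
      simp only [eval_add, add_div]
      rw [Finset.sum_add_distrib, hv.2.2 i, hv'.2.2 i, add_zero]
  zero_mem' := by
    refine ⟨fun j => Or.inl rfl, fun j l _ r _ => ?_, fun i => ?_⟩
    · show (0 : ℂ[X]).eval (r : ℂ) = (0 : ℂ[X]).eval (r : ℂ)
      rfl
    · show ∑ j, (0 : ℂ[X]).eval (D.a i : ℂ) / _ = 0
      simp
  smul_mem' := by
    intro t v hv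
    refine ⟨?_, ?_, ?_⟩
    · intro j
      obtain ⟨h1, h2⟩ := degree_lt D (hv.1 j)
      refine degree_lt' D ?_ ?_
      · exact lt_of_le_of_lt (degree_smul_le _ _) h1
      · show (t • v j).coeff _ = 0
        rw [coeff_smul, h2, smul_zero]
    · intro j l h r hr
      show (t • v j).eval (r : ℂ) = (t • v l).eval (r : ℂ)
      rw [eval_smul, eval_smul, hv.2.1 j l h r hr]
    · intro i
      show ∑ j, (t • v j).eval (D.a i : ℂ) / _ = 0
      simp only [eval_smul, smul_eq_mul, mul_div_assoc]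
      rw [← Finset.mul_sum, hv.2.2 i, mul_zero]

theorem Phi_add (v v' : Fin D.n → ℂ[X]) : Phi D (v + v') = Phi D v + Phi D v' := by
  funext j c
  simp only [Phi, Pi.add_apply, eval_add, add_div]
  split_ifs
  · rfl
  · rw [add_zero]

theorem Phi_smul (t : ℂ) (v : Fin D.n → ℂ[X]) : Phi D (t • v) = t • Phi D v := by
  funext j c
  simp only [Phi, Pi.smul_apply, eval_smul, smul_eq_mul, mul_div_assoc, mul_ite, mul_zero]

end RSDM

open RSDM in
/-- Module RSD. -/
theorem specRSD (hFLC : SpecFLC) : SpecRSD := by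
  intro D
  obtain ⟨S, hS, hfin, hrank⟩ := hFLC D
  let f : VS D →ₗ[ℂ] S :=
    { toFun := fun v => ⟨Phi D v.1, (hS _).mpr (flow_Phi D v.2)⟩
      map_add' := fun v v' => Subtype.ext (Phi_add D v.1 v'.1)
      map_smul' := fun t v => Subtype.ext (Phi_smul D t v.1) }
  have hinj : Function.Injective f := by
    rw [injective_iff_map_eq_zero]
    intro v hv
    apply Subtype.ext
    exact Phi_inj D v.2 (congrArg Subtype.val hv)
  have hsurj : Function.Surjective f := by
    intro z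
    refine ⟨⟨Psi D z.1, Wv_Psi D ((hS _).mp z.2)⟩, ?_⟩
    apply Subtype.ext
    exact Phi_Psi D ((hS _).mp z.2)
  let e : VS D ≃ₗ[ℂ] S := LinearEquiv.ofBijective f ⟨hinj, hsurj⟩
  refine ⟨VS D, fun v => Iff.rfl, ?_, ?_⟩
  · exact Module.Finite.equiv e.symm
  · rw [e.finrank_eq, hrank]

end MP743d1e.GA
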