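import Pool.Agent.Lib.MP_743d1e_nt.GA.SpecK
import Pool.Agent.Lib.MP_743d1e_nt.HY.EXA

/-!
# Arrangements of graphs: up to torsion and symbols with constants the symbols span `symG`
-/

set_option autoImplicit false

namespace MP743d1e.GA

open scoped BigOperators
open Polynomial

namespace SPXM

open MP743d1e.Span (sml smr sst s1l s1r sil sir sdl sdr s_neg_self s_self s_two s_anti sat)
open MP743d1e.Hy.EXAM (anti self0 neg1r neg1l prod_left cst_ex)

variable {K : Type} [Field K] [Algebra ℚ K] {D : Gr} {lam : ℤ} {x y : K}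

theorem int_ne (h : IsCurveG ℚ K D lam x y) (s : ℤ) : x - (s : K) ≠ 0 := by
  intro e
  apply h.transc
  have e1 : x = algebraMap ℚ K (s : ℚ) := by
    rw [map_intCast]
    linear_combination e
  rw [e1]
  exact isAlgebraic_algebraMap _

theorem gr_ne (h : IsCurveG ℚ K D lam x y) (j : Fin D.n) : y - D.b j x ≠ 0 := by
  intro e
  have h1 := h.eqn
  rw [Finset.prod_eq_zero (Finset.mem_univ j) e, mul_zero] at h1
  exact zero_ne_one h1

theorem lam_ne (h : IsCurveG ℚ K D lam x y) : lam ≠ 0 := by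
  rintro rfl
  have h1 := h.eqn
  simp at h1

/-- The vertical functions. -/
noncomputable def X (h : IsCurveG ℚ K D lam x y) (s : ℤ) : Kˣ :=
  Units.mk0 (x - (s : K)) (int_ne h s)

/-- The functions of the graphs. -/
noncomputable def Y (h : IsCurveG ℚ K D lam x y) (j : Fin D.n) : Kˣ :=
  Units.mk0 (y - D.b j x) (gr_ne h j)

theorem X_mem (h : IsCurveG ℚ K D lam x y) (i : Fin D.m) : X h (D.a i) ∈ unitsG K D x y :=
  Subgroup.subset_closure (Or.inl (Or.inr ⟨i, rfl⟩))

theorem Y_mem (h : IsCurveG ℚ K D lam x y) (j : Fin D.n) : Y h j ∈ unitsG K D x y :=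
  Subgroup.subset_closure (Or.inr ⟨j, rfl⟩)

theorem cst_mem {c : ℚ} {u : Kˣ} (hu : (u : K) = algebraMap ℚ K c) : u ∈ unitsG K D x y :=
  Subgroup.subset_closure (Or.inl (Or.inl ⟨c, hu⟩))

/-! ### Membership -/

theorem XY_mem (h : IsCurveG ℚ K D lam x y) (i : Fin D.m) (j : Fin D.n) :
    sym (X h (D.a i)) (Y h j) ∈ symG K D x y :=
  AddSubgroup.subset_closure (Or.inl (Or.inr ⟨_, _, i, j, rfl, rfl, rfl⟩))

theorem XYY_mem (h : IsCurveG ℚ K D lam x y) (j l : Fin D.n) (r : ℤ) (hjl : j ≠ l)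
    (hr : r ∈ D.R j l) : sym (X h r) (Y h j / Y h l) ∈ symG K D x y := by
  refine AddSubgroup.subset_closure (Or.inr ⟨_, _, j, l, r, hjl, hr, rfl, ?_, rfl⟩)
  rw [Units.val_div_eq_div_val]
  exact div_mul_cancel₀ _ (gr_ne h l)

theorem alpha_eq (h : IsCurveG ℚ K D lam x y) (i : D.Idx) {u w : Kˣ}
    (hu : (u : K) * (x - (D.a D.i0 : K)) = x - (D.ctr i : K))
    (hw : (w : K) * (y - D.b (D.l2 i) x) = y - D.b (D.l1 i) x) :
    sym u w = sym (X h (D.ctr i) / X h (D.a D.i0)) (Y h (D.l1 i) / Y h (D.l2 i)) := by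
  have e1 : u = X h (D.ctr i) / X h (D.a D.i0) := by
    apply Units.ext
    rw [Units.val_div_eq_div_val, eq_div_iff (Units.ne_zero _)]
    exact hu
  have e2 : w = Y h (D.l1 i) / Y h (D.l2 i) := by
    apply Units.ext
    rw [Units.val_div_eq_div_val, eq_div_iff (Units.ne_zero _)]
    exact hw
  rw [e1, e2]

theorem alpha_mem (h : IsCurveG ℚ K D lam x y) (i : D.Idx) :
    sym (X h (D.ctr i) / X h (D.a D.i0)) (Y h (D.l1 i) / Y h (D.l2 i)) ∈ symG K D x y := by
  rcases i with ⟨⟨i, j⟩, hi, hj⟩ | ⟨⟨⟨j, l⟩, hjl⟩, ⟨c, hc⟩⟩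
  · show sym (X h (D.a i) / X h (D.a D.i0)) (Y h j / Y h D.j0) ∈ symG K D x y
    rw [sdl, sdr, sdr]
    exact sub_mem (sub_mem (XY_mem h _ _) (XY_mem h _ _)) (sub_mem (XY_mem h _ _) (XY_mem h _ _))
  · show sym (X h c / X h (D.a D.i0)) (Y h j / Y h l) ∈ symG K D x y
    rw [sdl, sdr (X h (D.a D.i0))]
    exact sub_mem (XYY_mem h j l c (ne_of_lt hjl) hc) (sub_mem (XY_mem h _ _) (XY_mem h _ _))

/-! ### Vanishing in a torsion free quotient -/

omit [Algebra ℚ K] in
/-- The difference of two graphs. -/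
theorem b_sub (j l : Fin D.n) (hjl : j ≠ l) :
    D.b j x - D.b l x = (D.kap j l : K) * ∏ r ∈ D.R j l, (x - (r : K)) := by
  have h1 := congrArg (aeval x) (D.diff j l hjl)
  rw [map_sub, map_mul, aeval_C, map_prod] at h1
  unfold Gr.b
  rw [h1, eq_intCast]
  congr 1
  apply Finset.prod_congr rfl
  intro r _
  rw [map_sub, aeval_X, aeval_C, eq_intCast]

section Vanish

variable (h : IsCurveG ℚ K D lam x y) {G : Type} [AddCommGroup G]
  (tf : ∀ (n : ℕ) (g : G), 0 < n → n • g = 0 → g = 0) (φ : K2 K →+ G)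
  (hR : ∀ j l, j ≠ l → D.R j l = D.R l j)
  (hM : ∀ i : D.Idx, φ (sym (X h (D.ctr i) / X h (D.a D.i0)) (Y h (D.l1 i) / Y h (D.l2 i))) = 0)
  (hC : ∀ c w : Kˣ, (∃ r : ℚ, (c : K) = algebraMap ℚ K r) → w ∈ unitsG K D x y →
    φ (sym c w) = 0)

include hC in
theorem hC2 (c w : Kˣ) (hc : ∃ r : ℚ, (c : K) = algebraMap ℚ K r) (hw : w ∈ unitsG K D x y) :
    φ (sym w c) = 0 := by
  rw [anti, hC c w hc hw, neg_zero]

include hC tf in
theorem XX (i i' : Fin D.m) : φ (sym (X h (D.a i)) (X h (D.a i'))) = 0 := by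
  by_cases hab : i = i'
  · rw [hab]
    exact self0 tf φ _
  · have hne : ((D.a i' - D.a i : ℤ) : ℚ) ≠ 0 := by
      rw [Ne, Int.cast_eq_zero, sub_eq_zero]
      exact fun e => hab (D.a_inj e).symm
    obtain ⟨c, hc⟩ := cst_ex K _ hne
    have hc' : (c : K) = (D.a i' : K) - (D.a i : K) := by
      rw [hc, map_intCast]
      push_cast
      ring
    have hc0 : (c : K) ≠ 0 := Units.ne_zero _
    have key : sym (X h (D.a i) / c) ((-1) * X h (D.a i') / c) = 0 := by
      apply sst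
      rw [Units.val_div_eq_div_val, Units.val_div_eq_div_val, Units.val_mul, Units.val_neg,
        Units.val_one, ← add_div, div_eq_one_iff_eq hc0, hc']
      show x - (D.a i : K) + -1 * (x - (D.a i' : K)) = _
      ring
    have hcm : c ∈ unitsG K D x y := cst_mem hc
    have hac : X h (D.a i) / c ∈ unitsG K D x y := div_mem (X_mem h i) hcm
    have hm1 : ∃ r : ℚ, (((-1 : Kˣ)) : K) = algebraMap ℚ K r := ⟨-1, by simp⟩
    have key2 := congrArg φ key
    rw [sdr, smr, map_sub, map_add, hC2 φ hC _ _ hm1 hac, hC2 φ hC _ _ ⟨_, hc⟩ hac, sdl, map_sub,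
      hC _ _ ⟨_, hc⟩ (X_mem h i'), map_zero] at key2
    simpa using key2

include hC in
theorem total (L : Kˣ) (hL : L ∈ unitsG K D x y) :
    ∑ i, φ (sym L (X h (D.a i))) + ∑ j, φ (sym L (Y h j)) = 0 := by
  have hlam : (lam : ℚ) ≠ 0 := by exact_mod_cast lam_ne h
  obtain ⟨c, hc⟩ := cst_ex K _ hlam
  have e : c * (∏ i, X h (D.a i)) * (∏ j, Y h j) = 1 := by
    apply Units.ext
    rw [Units.val_mul, Units.val_mul, Units.coe_prod, Units.coe_prod, Units.val_one, hc,
      map_intCast]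
    exact h.eqn
  have key := congrArg (fun w => φ (sym L w)) e
  simp only [smr, map_add, s1r, map_zero, MP743d1e.Span.prod_right] at key
  rw [hC2 φ hC _ _ ⟨(lam : ℚ), hc⟩ hL, zero_add] at key
  exact key

include hM in
theorem c1 (i : Fin D.m) (j : Fin D.n) : φ (sym (X h (D.a i)) (Y h j)) =
    φ (sym (X h (D.a D.i0)) (Y h j)) + φ (sym (X h (D.a i)) (Y h D.j0)) -
      φ (sym (X h (D.a D.i0)) (Y h D.j0)) := by
  by_cases hi : i = D.i0
  · rw [hi]; abel
  by_cases hj : j = D.j0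
  · rw [hj]; abel
  have key : φ (sym (X h (D.a i) / X h (D.a D.i0)) (Y h j / Y h D.j0)) = 0 :=
    hM (Sum.inl ⟨(i, j), hi, hj⟩)
  rw [sdl, sdr, sdr] at key
  simp only [map_sub] at key
  rw [← sub_eq_zero]
  rw [← key]
  abel

include hM hR in
theorem c2 (j l : Fin D.n) (hjl : j ≠ l) (r : ℤ) (hr : r ∈ D.R j l) :
    φ (sym (X h r) (Y h j / Y h l)) =
      φ (sym (X h (D.a D.i0)) (Y h j)) - φ (sym (X h (D.a D.i0)) (Y h l)) := by
  have main : ∀ j l : Fin D.n, j < l → r ∈ D.R j l → φ (sym (X h r) (Y h j / Y h l)) =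
      φ (sym (X h (D.a D.i0)) (Y h j)) - φ (sym (X h (D.a D.i0)) (Y h l)) := by
    intro j l hjl hr
    have key : φ (sym (X h r / X h (D.a D.i0)) (Y h j / Y h l)) = 0 :=
      hM (Sum.inr ⟨⟨(j, l), hjl⟩, ⟨r, hr⟩⟩)
    rw [sdl, map_sub, sdr (X h (D.a D.i0)), map_sub] at key
    exact sub_eq_zero.mp key
  rcases lt_or_gt_of_ne hjl with hlt | hgt
  · exact main j l hlt hr
  · have h1 := main l j hgt (by rw [← hR j l hjl]; exact hr)
    have e : Y h j / Y h l = (Y h l / Y h j)⁻¹ := by rw [inv_div]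
    rw [e, sir, map_neg, h1]
    abel

include hM hC tf hR in
theorem YY (j l : Fin D.n) (hjl : j ≠ l) : φ (sym (Y h l) (Y h j)) =
    (D.R j l).card • (φ (sym (X h (D.a D.i0)) (Y h j)) - φ (sym (X h (D.a D.i0)) (Y h l))) := by
  have hk : (D.kap j l : ℚ) ≠ 0 := by exact_mod_cast D.kap_ne j l hjl
  obtain ⟨c, hc⟩ := cst_ex K _ hk
  obtain ⟨B, hB⟩ : ∃ B : Kˣ, B = c * ∏ r ∈ D.R j l, X h r := ⟨_, rfl⟩
  have hBv : (B : K) = D.b j x - D.b l x := by
    rw [b_sub j l hjl, hB, Units.val_mul, Units.coe_prod, hc, map_intCast]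
    rfl
  have hB0 : (B : K) ≠ 0 := Units.ne_zero _
  have key : sym (Y h l / B) ((-1) * Y h j / B) = 0 := by
    apply sst
    rw [Units.val_div_eq_div_val, Units.val_div_eq_div_val, Units.val_mul, Units.val_neg,
      Units.val_one, ← add_div, div_eq_one_iff_eq hB0, hBv]
    show y - D.b l x + -1 * (y - D.b j x) = _
    ring
  have key2 := congrArg φ key
  rw [mul_div_assoc, smr, map_add, neg1r tf φ, zero_add, sdl, sdr, sdr, map_zero] at key2
  simp only [map_sub] at key2
  rw [self0 tf φ B, anti φ (Y h l) B] at key2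
  have h1 : φ (sym (Y h l) (Y h j)) = φ (sym B (Y h j / Y h l)) := by
    rw [sdr, map_sub]
    rw [← sub_eq_zero]
    rw [← key2]
    abel
  rw [h1, hB, sml, map_add, hC c _ ⟨_, hc⟩ (div_mem (Y_mem h j) (Y_mem h l)), zero_add, prod_left]
  rw [Finset.sum_congr rfl (fun r hr => c2 h φ hR hM j l hjl r hr), Finset.sum_const]

/-- The integer matrix of the linear system. -/
def mat (D : Gr) : Matrix (Fin D.n) (Fin D.n) ℤ := Matrix.of fun l j =>
  (if l = j then (D.m : ℤ) + ∑ j', (if j' = l then 0 else ((D.R l j').card : ℤ)) else 0) -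
    (if j = l then 0 else ((D.R l j).card : ℤ))

theorem mat_det (D : Gr) : (mat D).det ≠ 0 := by
  intro h0
  have h1 : ((mat D).map (Int.cast : ℤ → ℝ)).det ≠ 0 := by
    apply det_ne_zero_of_sum_row_lt_diag
    intro l
    have e1 : ∀ j ∈ Finset.univ.erase l, ‖((mat D).map (Int.cast : ℤ → ℝ)) l j‖ =
        (if j = l then (0 : ℝ) else ((D.R l j).card : ℝ)) := by
      intro j hj
      have hne : l ≠ j := (Finset.ne_of_mem_erase hj).symm
      simp only [Matrix.map_apply, mat, Matrix.of_apply, if_neg hne, if_neg hne.symm]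
      simp
    rw [Finset.sum_congr rfl e1]
    have e2 : ∑ j ∈ Finset.univ.erase l, (if j = l then (0 : ℝ) else ((D.R l j).card : ℝ)) ≤
        ∑ j, (if j = l then (0 : ℝ) else ((D.R l j).card : ℝ)) :=
      Finset.sum_le_sum_of_subset_of_nonneg (Finset.erase_subset _ _) (by
        intro i _ _
        split_ifs
        · exact le_refl _
        · positivity)
    have e3 : ((mat D).map (Int.cast : ℤ → ℝ)) l l =
        (D.m : ℝ) + ∑ j, (if j = l then (0 : ℝ) else ((D.R l j).card : ℝ)) := by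
      simp only [Matrix.map_apply, mat, Matrix.of_apply, if_true]
      push_cast
      simp
    have e4 : (0 : ℝ) < D.m := by exact_mod_cast D.hm
    rw [e3]
    refine lt_of_lt_of_le ?_ (le_abs_self _)
    linarith
  apply h1
  have h2 : ((mat D).map (Int.cast : ℤ → ℝ)) = (Int.castRingHom ℝ).mapMatrix (mat D) := rfl
  rw [h2, ← RingHom.map_det, h0, map_zero]

include tf in
theorem linsys (z : Fin D.n → G) (hz : ∀ l, ∑ j, mat D l j • z j = 0) (k : Fin D.n) : z k = 0 := by
  have h1 : (mat D).det • z k = 0 := by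
    calc (mat D).det • z k = ∑ j, ((mat D).det • (1 : Matrix (Fin D.n) (Fin D.n) ℤ)) k j • z j := by
          rw [Finset.sum_eq_single k]
          · simp
          · intro j _ hj
            rw [Matrix.smul_apply, Matrix.one_apply_ne hj.symm, smul_zero, zero_smul]
          · intro hk
            exact absurd (Finset.mem_univ k) hk
      _ = ∑ j, ((mat D).adjugate * mat D) k j • z j := by rw [Matrix.adjugate_mul]
      _ = ∑ j, ∑ l, (mat D).adjugate k l • (mat D l j • z j) := by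
          refine Finset.sum_congr rfl fun j _ => ?_
          rw [Matrix.mul_apply, Finset.sum_smul]
          refine Finset.sum_congr rfl fun l _ => ?_
          rw [mul_smul]
      _ = ∑ l, (mat D).adjugate k l • ∑ j, mat D l j • z j := by
          rw [Finset.sum_comm]
          refine Finset.sum_congr rfl fun l _ => ?_
          rw [Finset.smul_sum]
      _ = 0 := by
          refine Finset.sum_eq_zero fun l _ => ?_
          rw [hz l, smul_zero]
  have h2 : (mat D).det.natAbs • z k = 0 := by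
    rcases Int.natAbs_eq (mat D).det with h3 | h3
    · rw [h3] at h1
      rw [natCast_zsmul] at h1
      exact h1
    · rw [h3, neg_smul, natCast_zsmul, neg_eq_zero] at h1
      exact h1
  exact tf _ _ (Int.natAbs_pos.mpr (mat_det D)) h2

include hM hC tf in
theorem tzero (i : Fin D.m) : φ (sym (X h (D.a i)) (Y h D.j0)) =
    φ (sym (X h (D.a D.i0)) (Y h D.j0)) := by
  have e : ∀ i, ∑ j, φ (sym (X h (D.a i)) (Y h j)) = 0 := by
    intro i
    have := total h φ hC (X h (D.a i)) (X_mem h i)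
    rw [Finset.sum_eq_zero (fun i' _ => XX h tf φ hC i i'), zero_add] at this
    exact this
  have e0 := e D.i0
  have e1 := e i
  have e2 : ∑ j, φ (sym (X h (D.a i)) (Y h j)) = ∑ j, φ (sym (X h (D.a D.i0)) (Y h j)) +
      D.n • (φ (sym (X h (D.a i)) (Y h D.j0)) -
        φ (sym (X h (D.a D.i0)) (Y h D.j0))) := by
    rw [Finset.sum_congr rfl fun j _ => c1 h φ hM i j]
    simp only [add_sub_assoc, Finset.sum_add_distrib, Finset.sum_const, Finset.card_univ,
      Fintype.card_fin]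
  rw [e1, e0, zero_add] at e2
  have := tf _ _ (lt_of_lt_of_le (by norm_num) D.hn) e2.symm
  exact sub_eq_zero.mp this

include hM hC tf in
theorem XY0 (i : Fin D.m) (j : Fin D.n) : φ (sym (X h (D.a i)) (Y h j)) =
    φ (sym (X h (D.a D.i0)) (Y h j)) := by
  rw [c1 h φ hM i j, tzero h tf φ hM hC i]
  abel

include hM hC tf hR in
theorem zzero (k : Fin D.n) : φ (sym (X h (D.a D.i0)) (Y h k)) = 0 := by
  apply linsys tf (fun k => φ (sym (X h (D.a D.i0)) (Y h k)))
  intro l
  have key := total h φ hC (Y h l) (Y_mem h l)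
  have e1 : ∑ i, φ (sym (Y h l) (X h (D.a i))) =
      -((D.m : ℤ) • φ (sym (X h (D.a D.i0)) (Y h l))) := by
    rw [Finset.sum_congr rfl fun i _ => by
      rw [anti φ (Y h l) (X h (D.a i)), XY0 h tf φ hM hC i l]]
    rw [Finset.sum_const, Finset.card_univ, Fintype.card_fin, smul_neg, natCast_zsmul]
  have e2 : ∀ j, φ (sym (Y h l) (Y h j)) = (if j = l then (0 : ℤ) else ((D.R l j).card : ℤ)) •
      φ (sym (X h (D.a D.i0)) (Y h j)) - (if j = l then (0 : ℤ) else ((D.R l j).card : ℤ)) •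
      φ (sym (X h (D.a D.i0)) (Y h l)) := by
    intro j
    split_ifs with hp
    · rw [hp, self0 tf φ]; simp
    · rw [YY h tf φ hR hM hC j l hp, hR j l hp, nsmul_sub, natCast_zsmul, natCast_zsmul]
  rw [e1, Finset.sum_congr rfl fun j _ => e2 j, Finset.sum_sub_distrib, ← Finset.sum_smul] at key
  have e3 : ∀ j, mat D l j • φ (sym (X h (D.a D.i0)) (Y h j)) =
      (if l = j then ((D.m : ℤ) + ∑ j', (if j' = l then (0 : ℤ) else ((D.R l j').card : ℤ))) •
        φ (sym (X h (D.a D.i0)) (Y h j)) else 0) -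
      (if j = l then (0 : ℤ) else ((D.R l j).card : ℤ)) • φ (sym (X h (D.a D.i0)) (Y h j)) := by
    intro j
    rw [mat, Matrix.of_apply, sub_smul, ite_smul, zero_smul]
  show ∑ j, mat D l j • φ (sym (X h (D.a D.i0)) (Y h j)) = 0
  rw [Finset.sum_congr rfl fun j _ => e3 j, Finset.sum_sub_distrib, Finset.sum_ite_eq,
    if_pos (Finset.mem_univ l), add_smul]
  generalize (∑ j, (if j = l then (0 : ℤ) else ((D.R l j).card : ℤ)) •
    φ (sym (X h (D.a D.i0)) (Y h j))) = A at key ⊢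
  generalize (∑ j', (if j' = l then (0 : ℤ) else ((D.R l j').card : ℤ))) •
    φ (sym (X h (D.a D.i0)) (Y h l)) = B at key ⊢
  rw [← neg_eq_zero, ← key]
  abel

include hC in
theorem vanishC (z : K2 K) (hz : z ∈ symCG K D x y) : φ z = 0 := by
  unfold symCG at hz
  induction hz using AddSubgroup.closure_induction with
  | mem z hz =>
    obtain ⟨u, hc, w, hw, rfl⟩ := hz
    exact hC u w hc hw
  | zero => rw [map_zero]
  | add a b _ _ ha hb => rw [map_add, ha, hb, add_zero]
  | neg a _ ha => rw [map_neg, ha, neg_zero]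

include hM hC tf hR in
/-- All elements of `symG` vanish. -/
theorem vanish (β : K2 K) (hβ : β ∈ symG K D x y) : φ β = 0 := by
  unfold symG at hβ
  induction hβ using AddSubgroup.closure_induction with
  | mem z hz =>
    rcases hz with (hz | ⟨u, w, i, j, hu, hw, rfl⟩) | ⟨u, w, j, l, r, hjl, hr, hu, hw, rfl⟩
    · exact vanishC φ hC z hz
    · have eu : u = X h (D.a i) := Units.ext hu
      have ew : w = Y h j := Units.ext hw
      rw [eu, ew, XY0 h tf φ hM hC, zzero h tf φ hR hM hC]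
    · have eu : u = X h r := Units.ext hu
      have ew : w = Y h j / Y h l := by
        apply Units.ext
        rw [Units.val_div_eq_div_val, eq_div_iff (Units.ne_zero _)]
        exact hw
      rw [eu, ew, c2 h φ hR hM j l hjl r hr, zzero h tf φ hR hM hC, zzero h tf φ hR hM hC,
        sub_zero]
  | zero => rw [map_zero]
  | add a b _ _ ha hb => rw [map_add, ha, hb, add_zero]
  | neg a _ ha => rw [map_neg, ha, neg_zero]

end Vanish

end SPXM

open SPXM MP743d1e.Span in
/-- Module SPX. -/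
theorem specSPX (hSTG : SpecSTG) : SpecSPX := by
  intro D lam K _ _ x y h α hα
  have hR : ∀ j l, j ≠ l → D.R j l = D.R l j := fun j l h => ((hSTG D).1 j l h).1
  have hα' : ∀ i, α i =
      sym (X h (D.ctr i) / X h (D.a D.i0)) (Y h (D.l1 i) / Y h (D.l2 i)) := by
    intro i
    obtain ⟨u, w, hu, hw, e⟩ := hα i
    rw [e]
    exact alpha_eq h i hu hw
  refine ⟨fun i => by rw [hα' i]; exact alpha_mem h i, ?_⟩
  set M : AddSubgroup (K2 K) := AddSubgroup.closure (Set.range α) ⊔ symCG K D x y with hMdef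
  have hzero : ∀ β : K2 K, QuotientAddGroup.mk' (sat M) β = 0 ↔ ∃ N : ℕ, 0 < N ∧ N • β ∈ M :=
    fun β => QuotientAddGroup.eq_zero_iff β
  have tf : ∀ (n : ℕ) (g : K2 K ⧸ sat M), 0 < n → n • g = 0 → g = 0 := by
    intro n g hn hg
    obtain ⟨β, rfl⟩ := QuotientAddGroup.mk'_surjective (sat M) g
    rw [← map_nsmul, hzero] at hg
    rw [hzero]
    obtain ⟨N, hN, hN'⟩ := hg
    refine ⟨N * n, Nat.mul_pos hN hn, ?_⟩
    rw [mul_smul]
    exact hN'
  have hle : ∀ β ∈ M, QuotientAddGroup.mk' (sat M) β = 0 := fun β hβ =>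
    (hzero β).mpr ⟨1, one_pos, by rwa [one_smul]⟩
  have hM' : ∀ i : D.Idx, QuotientAddGroup.mk' (sat M)
      (sym (X h (D.ctr i) / X h (D.a D.i0)) (Y h (D.l1 i) / Y h (D.l2 i))) = 0 :=
    fun i => hle _ ((le_sup_left : _ ≤ M) (AddSubgroup.subset_closure ⟨i, hα' i⟩))
  have hC' : ∀ c w : Kˣ, (∃ r : ℚ, (c : K) = algebraMap ℚ K r) → w ∈ unitsG K D x y →
      QuotientAddGroup.mk' (sat M) (sym c w) = 0 := fun c w hc hw =>
    hle _ ((le_sup_right : _ ≤ M) (AddSubgroup.subset_closure ⟨c, hc, w, hw, rfl⟩))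
  intro β hβ
  rw [← hzero]
  exact vanish h tf _ hR hM' hC' β hβ

end MP743d1e.GA
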