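import Pool.Agent.Lib.MP_743d1e_nt.GA.VFF
import Pool.Agent.Lib.MP_743d1e_nt.Spec

/-!
# Exact statements of the geometric modules of block GA (arrangements of graphs)

Module XXX = Lib/MP_743d1e_nt/GA/XXX.lean with `theorem MP743d1e.GA.specXXX (hYYY : SpecYYY) ... :
SpecXXX`. The basic facts about arrangements are in `GA/Basic.lean` (`Gr.b_sub`, `Gr.mem_R`,
`Gr.R_symm`, `Gr.partner`, `Gr.natDegree_sub`, `Gr.b_intCast`, ...). The files `Irr.lean`,
`Inf.lean`, `UpperInf.lean`, `UpperLat.lean`, `Upper.lean`, `LowBasic.lean`, `Lower.lean`,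
`Genus.lean`, `Forms.lean`, `GonAbs.lean` treat the case `P j = p j * x + q j` (structure `Arr`);
most proofs below are adaptations: `D.b j x` is now `aeval x (D.P j)`, `D.dd j` becomes `D.s j`, and
`(b j - b l)` is `kap j l * ∏_{r ∈ R j l} (x - r)`, of degree `(R j l).card`.
-/

set_option autoImplicit false

namespace MP743d1e.GA

open scoped BigOperators
open Polynomial

/-! ## The function field -/

/-- The polynomial of the curve; the outer variable is `y`, the inner one is `x`. -/
noncomputable def Gr.poly (D : Gr) (k : Type) [Field k] (lam : ℤ) : k[X][X] :=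
  C (C (lam : k)) * C (∏ i, (X - C (D.a i : k))) *
    (∏ j, (X - C ((D.P j).map (Int.castRingHom k)))) - 1

/-- IRP. Irreducibility of the curve and its consequences, over any field of characteristic 0.

Proof. Copy `Irr.lean` with `bp k D j = (D.P j).map (Int.castRingHom k)`
(`aeval x ((D.P j).map (Int.castRingHom k)) = D.b j x`); nothing else in that file depends on the
degree of the `b j`. -/
def SpecIRP : Prop :=
  ∀ (k : Type) [Field k] [CharZero k] (D : Gr) (lam : ℤ), lam ≠ 0 →
    (∃ (K : Type) (_ : Field K) (_ : Algebra k K) (x y : K), IsCurveG k K D lam x y) ∧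
    ∀ (K : Type) [Field K] [Algebra k K] (x y : K), IsCurveG k K D lam x y →
      (∀ S : k[X][X], ev2 x y S = 0 → D.poly k lam ∣ S) ∧
      FiniteDimensional (IntermediateField.adjoin k {x}) K ∧
      Module.finrank (IntermediateField.adjoin k {x}) K = D.n

section Geometry

variable {K : Type} [Field K] [Algebra ℂ K]

/-- `V` is the point at infinity of the `j`-th branch. -/
def AtInfG (D : Gr) (x y : K) (V : ValuationSubring K) (j : Fin D.n) : Prop :=
  x ∉ V ∧ (y - D.b j x) * x ^ (D.m + D.s j) ∈ V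

/-- The logarithmic derivative with respect to `y` of the equation. -/
noncomputable def pwG (D : Gr) (x y : K) : K := ∑ l, (y - D.b l x)⁻¹

/-- The Newton basis `∏_{i < k} (y - b i)`. -/
noncomputable def nbG (D : Gr) (x y : K) (k : Fin D.n) : K :=
  ∏ i ∈ Finset.univ.filter (fun i => i < k), (y - D.b i x)

/-- The lattice `∑ ℂ[x] nb k`, the last coefficient being divisible by `∏ (x - a i)`. -/
def InLatG (D : Gr) (x y q : K) : Prop :=
  ∃ c : Fin D.n → ℂ[X], (∀ k : Fin D.n, k.val + 1 = D.n → (∏ i, (X - C (D.a i : ℂ))) ∣ c k) ∧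
    q = ∑ k, aeval x (c k) * nbG D x y k

/-- The adjoint space: `q dx / pw` is regular. -/
def AdjG (D : Gr) (x y q : K) : Prop :=
  InLatG D x y q ∧ ∀ (V : ValuationSubring K) (j : Fin D.n), OverC V → AtInfG D x y V j →
    q * x ^ ((2 : ℤ) - ((D.m + D.s j : ℕ) : ℤ)) ∈ V

end Geometry

/-- INP. The points at infinity.

Proof. As `Inf.lean`. Let `v` be the valuation of `V`, `x ∉ V`. For `l ≠ j`,
`v (b j - b l) = v x ^ (R j l).card ≥ 1` (`Gr.b_sub`). (1) Take `j` with `v (y - b j)` minimal. For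
`l ≠ j` then `v (y - b l) ≥ v (b j - b l)` (otherwise `v (y - b j) = v (b j - b l) > v (y - b l)`),
so the equation gives `v (y - b j) * v x ^ (m + s j) ≤ 1`. (2) If `AtInfG D x y V j` then
`v (y - b j) < 1 ≤ v (b j - b l)`, so `v (y - b l) = v x ^ (R j l).card` for `l ≠ j`, and
`v (y - b j) * v x ^ (m + s j) = 1` by the equation. (3) Put `t = x⁻¹`, `N = m + s j ≥ 1`,
`z = (y - b j) x ^ N`. Then `y - b l = x ^ d (z t ^ (N + d) + kap j l ∏_{r ∈ R j l} (1 - r t))`,
`d = (R j l).card`, and the equation is `z * PP = 1`,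
`PP = lam ∏ (1 - a i t) ∏_{l ≠ j} (z t ^ (N + d) + kap j l ∏_{r} (1 - r t))`, a polynomial in
`t, z` which is the nonzero constant `lam ∏_{l ≠ j} kap j l` at `t = 0`. With this `PP` the part of
`Inf.lean` from `Cg` to `exists_point` (existence of `V`, uniformizer `t`) goes through. -/
def SpecINP : Prop :=
  ∀ (K : Type) [Field K] [Algebra ℂ K] (D : Gr) (lam : ℤ) (x y : K), IsCurveG ℂ K D lam x y →
    (∀ V : ValuationSubring K, OverC V → x ∉ V → ∃ j, AtInfG D x y V j) ∧
    (∀ j, ∃ V : ValuationSubring K, OverC V ∧ AtInfG D x y V j) ∧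
    (∀ (V : ValuationSubring K) (j : Fin D.n), OverC V → AtInfG D x y V j →
      (∀ a : K, a ≠ 0 → ∃ k : ℤ, IsU V (a * x ^ k)) ∧
      IsU V ((y - D.b j x) * x ^ (D.m + D.s j)) ∧
      (∀ l, l ≠ j → IsU V ((y - D.b l x) * x ^ (-((D.R j l).card : ℤ)))))

/-- UPI. Regular differentials at the points at infinity. (As `UpperInf.lean`: `pw` is
`(y - b j)⁻¹` times a one-unit, so of the size of `x ^ (m + s j)`, and `f dx` regular means
`f * x ^ 2 ∈ V`.) -/
def SpecUPI : Prop :=
  ∀ (K : Type) [Field K] [Algebra ℂ K] (D : Gr) (lam : ℤ) (x y : K) (δ : Derivation ℂ K K),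
    IsCurveG ℂ K D lam x y → δ x = 1 → ∀ f, Reg δ f →
      ∀ (V : ValuationSubring K) (j : Fin D.n), OverC V → AtInfG D x y V j →
        (f * pwG D x y) * x ^ ((2 : ℤ) - ((D.m + D.s j : ℕ) : ℤ)) ∈ V

/-- UPL. Regular differentials at the finite points. (As `UpperLat.lean`.) -/
def SpecUPL : Prop :=
  ∀ (K : Type) [Field K] [Algebra ℂ K] (D : Gr) (lam : ℤ) (x y : K) (δ : Derivation ℂ K K),
    IsCurveG ℂ K D lam x y → δ x = 1 → ∀ f, Reg δ f → InLatG D x y (f * pwG D x y)

/-- The affine curve is smooth. -/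
def SmoothG (D : Gr) (lam : ℤ) : Prop :=
  ∀ x0 y0 : ℂ, (lam : ℂ) * (∏ i, (x0 - (D.a i : ℂ))) * (∏ j, (y0 - D.b j x0)) = 1 →
    ¬ ((∑ l, (y0 - D.b l x0)⁻¹ = 0) ∧
      (∑ i, (x0 - (D.a i : ℂ))⁻¹) -
        (∑ l, aeval x0 (derivative (D.P l)) * (y0 - D.b l x0)⁻¹) = 0)

/-- LWR. The adjoint space gives regular differentials on smooth curves.

Proof. As `Lower.lean` (and `LowBasic.lean`, which can be imported: only `b_mem` there depends on
`Arr`). Finite points: `δ y * pw = ∑ l, P_l'(x) / (y - b l) - ∑ i, 1 / (x - a i)` by differentiating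
the equation (`δ (D.b l x) = aeval x (derivative (D.P l))`). Points above `a i` (there `y ∉ V`, and
`y - b l = y * one-unit`) and at infinity: as in that file, with INP. -/
def SpecLWR : Prop :=
  ∀ (K : Type) [Field K] [Algebra ℂ K] (D : Gr) (lam : ℤ) (x y : K) (δ : Derivation ℂ K K),
    IsCurveG ℂ K D lam x y → SmoothG D lam → δ x = 1 → ∀ q, AdjG D x y q → Reg δ (q / pwG D x y)

/-! ## The dimension of the adjoint space -/

/-- The polynomial `P j` over `ℂ`. -/
noncomputable def Gr.Pc (D : Gr) (j : Fin D.n) : ℂ[X] := (D.P j).map (Int.castRingHom ℂ)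

/-- The value at the `j`-th graph of `∑ c k nb k`. -/
noncomputable def Gr.vv (D : Gr) (c : Fin D.n → ℂ[X]) (j : Fin D.n) : ℂ[X] :=
  ∑ k, c k * ∏ i ∈ Finset.univ.filter (fun i => i < k), (D.Pc j - D.Pc i)

/-- NWT. Newton interpolation.

Proof. (1) General statement, by induction on `n`: let `p, v : Fin n → ℂ[X]`, the `p j` distinct,
such that for `j ≠ l` every root `z` of `p j - p l` is simple, `v j` and `v l` have the same value
at `z`, and `p h` has another value at `z` for `h ≠ j, l`. Then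
`v j = ∑ k, c k ∏_{i < k} (p j - p i)` for some `c`. Take `c 0 = v 0`; `v (j+1) - v 0` vanishes at
the simple roots of `p (j+1) - p 0`, so it is `(p (j+1) - p 0) * v' j` (over `ℂ`: the polynomial
splits); and `v'` satisfies the hypothesis for the `p (j+1)`: at a root `z` of
`p (j+1) - p (l+1)` the numbers `v (j+1) - v 0` and `p (j+1) - p 0 ≠ 0` at `z` agree with those for
`l`. Here: `Pc j - Pc l = kap j l ∏_{r ∈ R j l} (X - r)`. (2) The last coefficient: at a point `z`
where the `p j` have distinct values, `∑ k, c k(z) ∏_{i < k} (Y - p i(z))` is the polynomial of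
degree `< n` in `Y` with the values `v j(z)` at `p j(z)`, and the coefficient of `Y ^ (n - 1)` in
Lagrange's formula is `∑ j, v j(z) / ∏_{l ≠ j} (p j(z) - p l(z))`. -/
def SpecNWT : Prop :=
  ∀ (D : Gr) (v : Fin D.n → ℂ[X]),
    (∀ j l, j ≠ l → ∀ r ∈ D.R j l, (v j).eval (r : ℂ) = (v l).eval (r : ℂ)) →
      ∃ c : Fin D.n → ℂ[X], ∀ j, v j = D.vv c j

/-- NWL. The coefficients and the last coefficient, see the proof of NWT. (The first part: if all
`D.vv c j = 0` then `c = 0`, by induction on `k`.) -/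
def SpecNWL : Prop :=
  ∀ (D : Gr) (c : Fin D.n → ℂ[X]), ((∀ j, D.vv c j = 0) → c = 0) ∧
    ∀ z : ℂ, (∀ j l, j ≠ l → (D.Pc j).eval z ≠ (D.Pc l).eval z) →
      ∀ k : Fin D.n, k.val + 1 = D.n → (c k).eval z =
        ∑ j, (D.vv c j).eval z / ∏ l ∈ Finset.univ.erase j, ((D.Pc j).eval z - (D.Pc l).eval z)

/-- VAL. The condition at infinity in terms of the values on the graphs.

Proof. Let `q = ∑ k, aeval x (c k) * nb k` and `v j = D.vv c j`. Lagrange interpolation in `K` (a
polynomial identity in `y` over `K`, at the distinct points `b j x`; `D.b j x - D.b l x ≠ 0` because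
`x` is transcendental) gives `q = ∑ j, v j(x) ∏_{l ≠ j} (y - b l) / (b j - b l)`. Let `V` be at
infinity on the branch `i` (INP) and measure sizes by powers of `x`. The term `j = i` has exactly
the size `deg (v i)` (`(y - b l) / (b i - b l)` is a unit, even a one-unit, of `V` for `l ≠ i`). The
term `j ≠ i` has the size
`deg (v j) - (m + s i) - d_ij + ∑_{l ≠ i, j} (d_il - d_jl) = deg (v j) - (m + s j) - d_ij`,
`d_jl = (R j l).card`. (⇐) If `deg (v j) ≤ m + s j - 2` for all `j`, the terms `j ≠ i` have size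
`≤ - 2 ≤ m + s i - 2`, so `q` has size `≤ m + s i - 2`. (⇒) Suppose
`M = max_j (deg (v j) - (m + s j)) ≥ - 1`, attained at `i` (over the `j` with `v j ≠ 0`). At a
point `V` at infinity on the branch `i` the term `j = i` has size `M + m + s i ≥ M + 1` and the
other terms have size `≤ M`, so `q` has the size `M + m + s i > m + s i - 2`: contradiction. -/
def SpecVAL : Prop :=
  ∀ (K : Type) [Field K] [Algebra ℂ K] (D : Gr) (lam : ℤ) (x y : K), IsCurveG ℂ K D lam x y →
    ∀ c : Fin D.n → ℂ[X],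
      (∀ (V : ValuationSubring K) (j : Fin D.n), OverC V → AtInfG D x y V j →
        (∑ k, aeval x (c k) * nbG D x y k) * x ^ ((2 : ℤ) - ((D.m + D.s j : ℕ) : ℤ)) ∈ V) ↔
      ∀ j, D.vv c j = 0 ∨ (D.vv c j).natDegree + 2 ≤ D.m + D.s j

/-- The conditions on the values `v j` on the graphs. -/
def Gr.Wv (D : Gr) (v : Fin D.n → ℂ[X]) : Prop :=
  (∀ j, v j = 0 ∨ (v j).natDegree + 2 ≤ D.m + D.s j) ∧
  (∀ j l, j ≠ l → ∀ r ∈ D.R j l, (v j).eval (r : ℂ) = (v l).eval (r : ℂ)) ∧
  ∀ i, ∑ j, (v j).eval (D.a i : ℂ) /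
    ∏ l ∈ Finset.univ.erase j, ((D.Pc j).eval (D.a i : ℂ) - (D.Pc l).eval (D.a i : ℂ)) = 0

/-- A complex flow on the dual graph: `z j c` is the value at the point of the graph `j` with the
abscissa `c`. -/
structure FlowC (D : Gr) (z : Fin D.n → ℤ → ℂ) : Prop where
  supp : ∀ j c, c ∉ D.ns j → z j c = 0
  anti : ∀ j l c, j ≠ l → c ∈ D.R j l → z l c = -z j c
  f1 : ∀ i, ∑ j, z j (D.a i) = 0
  f2 : ∀ j, ∑ c ∈ D.ns j, z j c = 0

/-- FLC. The dimension of the space of flows.

Proof. The flow with index `t : D.Idx` is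
`zb t j c = ([l1 t = j] - [l2 t = j]) * ([ctr t = c] - [a i0 = c])`. (1) It is a flow. (2) For
`k : D.Idx`, `zb t (l1 k) (ctr k) = [t = k]` (compare `K2Main.leading`; use `Gr.partner`,
`cross_a`, `a_inj`). (3) A flow `z` with `z (l1 k) (ctr k) = 0` for all `k : D.Idx` is `0`: it
vanishes at the crossings of two graphs (`anti`), at `(j, a i)` with `i ≠ i0`, `j ≠ j0`, so by `f1`
at `(j0, a i)`, `i ≠ i0`, and then by `f2` (on the graph `j` only the point `a i0` is left) at
`(j, a i0)`. So `z ↦ (z (l1 k) (ctr k))_k` is an isomorphism onto `D.Idx → ℂ`, of dimension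
`card D.Idx = D.g` (as `K2Main.card_idx`; a sigma type over `{z // z.1 < z.2}`). -/
def SpecFLC : Prop :=
  ∀ D : Gr, ∃ S : Submodule ℂ (Fin D.n → ℤ → ℂ), (∀ z, z ∈ S ↔ FlowC D z) ∧
    FiniteDimensional ℂ S ∧ Module.finrank ℂ S = D.g

/-- RSD. The space of the `v` is isomorphic to the space of flows (residues of the differentials
`v j dx / W j` on the graphs).

Proof. `W j = ∏ (X - a i) * ∏_{l ≠ j} (Pc j - Pc l)` has degree `m + s j` and the simple roots
`D.ns j`. Polynomials `w` of degree `≤ m + s j - 2` (or `0`) correspond to families `(z c)`,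
`c ∈ ns j`, with sum `0` by `z c = w(c) / W_j'(c)`, `w = ∑ c, z c * (W j / (X - c))` (Lagrange
interpolation; the coefficient of `X ^ (m + s j - 1)` of the latter is the leading coefficient of
`W j` times `∑ z c`). For `r ∈ R j l`:
`W_j'(r) = A(r) (P_j - P_l)'(r) ∏_{h ≠ j, l} (P_j - P_h)(r) = - W_l'(r)`, because
`P_j(r) = P_l(r)`; so `v j(r) = v l(r)` iff `z l r = - z j r`. At `a i`:
`W_j'(a i) = A'(a i) ∏_{l ≠ j} (P_j - P_l)(a i)`, so the last condition is
`A'(a i) ∑ j, z j (a i) = 0`. -/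
def SpecRSD : Prop :=
  ∀ D : Gr, ∃ S : Submodule ℂ (Fin D.n → ℂ[X]), (∀ v, v ∈ S ↔ D.Wv v) ∧
    FiniteDimensional ℂ S ∧ Module.finrank ℂ S = D.g

/-- DIM. The dimension of the adjoint space.

Proof. The map `c ↦ ∑ k, aeval x (c k) * nb k` is injective (the `nb k` are linearly independent
over `ℂ(x)`, because `[K : ℂ(x)] = n` by IRP and `K = ℂ(x, y)`), and `c ↦ (D.vv c j)_j` is
injective by NWL. Under these maps the adjoint space corresponds to the `v` with `D.Wv v`: the
condition at infinity by VAL; a `v` with `Wv` comes from some `c` by NWT, and every `v = D.vv c`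
satisfies `v j(r) = v l(r)` (`Pc j (r) = Pc l (r)`); `∏ (X - a i) ∣ c (n - 1)` iff `c (n - 1)`
vanishes at the `a i` iff the third condition of `Wv` (NWL; the `P j (a i)` are distinct). The
dimension is `g` by RSD. -/
def SpecDIM : Prop :=
  ∀ (K : Type) [Field K] [Algebra ℂ K] (D : Gr) (lam : ℤ) (x y : K), IsCurveG ℂ K D lam x y →
    ∃ S : Submodule ℂ K, (∀ q, q ∈ S ↔ AdjG D x y q) ∧ FiniteDimensional ℂ S ∧
      Module.finrank ℂ S = D.g

/-- GNG. The genus. (As `Genus.lean`, without the reordering; hypotheses `SpecDer`, `SpecKae`, UPI,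
UPL, LWR, DIM, IRP, INP.) -/
def SpecGNG : Prop :=
  ∀ (K : Type) [Field K] [Algebra ℂ K] (D : Gr) (lam : ℤ) (x y : K), SmoothG D lam →
    IsCurveG ℂ K D lam x y → HasGenus K D.g

/-- FRM. Monomials of small degree are adjoint under `GonCond`.

Proof. As `Forms.lean`. `x ^ i * y ^ k` with `k ≤ n - 2` is in the lattice (express `y ^ k` by the
monic Newton basis `nb 0, .., nb k`). At the point at infinity of the branch `j`: `y - b j` has size
`≤ 0` and `b j` size `≤ deg (P j)`, so `y` has size `≤ deg (P j)` and `x ^ i * y ^ k` has size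
`≤ (i + k) * max 1 (deg (P j)) ≤ (n - 2) * max 1 (deg (P j)) ≤ m + s j - 2`. -/
def SpecFRM : Prop :=
  ∀ (K : Type) [Field K] [Algebra ℂ K] (D : Gr) (lam : ℤ) (x y : K), D.GonCond →
    IsCurveG ℂ K D lam x y → ∀ i k : ℕ, i + k + 2 ≤ D.n → AdjG D x y (x ^ i * y ^ k)

/-- GNL. The gonality. (As `specGon` in `Genus.lean` or `GonAbs.lean`; hypotheses IRP, `SpecFinT`,
`SpecGonAbs`, FRM, LWR, INP, `SpecDer`.) -/
def SpecGNL : Prop :=
  ∀ (K : Type) [Field K] [Algebra ℂ K] (D : Gr) (lam : ℤ) (x y : K), SmoothG D lam → D.GonCond →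
    IsCurveG ℂ K D lam x y → HasGonality K x D.n

/-! ## Smoothness -/

/-- `(x0, y0)` is a critical point of `∏ (x - a i) * ∏ (y - P j)` outside of the arrangement. -/
def Gr.Crit (D : Gr) (x0 y0 : ℂ) : Prop :=
  (∀ i, x0 ≠ (D.a i : ℂ)) ∧ (∀ l, y0 ≠ D.b l x0) ∧ (∑ l, (y0 - D.b l x0)⁻¹ = 0) ∧
    (∑ i, (x0 - (D.a i : ℂ))⁻¹) - (∑ l, aeval x0 (derivative (D.P l)) * (y0 - D.b l x0)⁻¹) = 0

/-- `∏ (y - P j)` as a polynomial in `y` over `ℂ[x]`. -/
noncomputable def Gr.Qp (D : Gr) : ℂ[X][X] := ∏ j, (X - C (D.Pc j))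

/-- `∏ (x - a i)` over `ℂ`. -/
noncomputable def Gr.Ap (D : Gr) : ℂ[X] := ∏ i, (X - C (D.a i : ℂ))

/-- The derivative with respect to `x` of `∏ (x - a i) * ∏ (y - P j)`. -/
noncomputable def Gr.Gp (D : Gr) : ℂ[X][X] :=
  C (derivative D.Ap) * D.Qp -
    C D.Ap * ∑ j, C (derivative (D.Pc j)) * ∏ l ∈ Finset.univ.erase j, (X - C (D.Pc l))

/-- The resultant with respect to `y` of the partial derivatives. -/
noncomputable def Gr.Np (D : Gr) : ℂ[X] := resultant (derivative D.Qp) D.Gp (D.n - 1) D.n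

/-- SYL. A matrix over `ℂ[X]` whose value at `x0` has many null vectors.

Proof. Extend the family `w` to a basis of `Fin N → ℂ`; let `U` be the invertible matrix with these
columns. `det (M * U) = det M * det U`, and the entries of the columns of `M * U` (over `ℂ[X]`)
which belong to the `w t` vanish at `x0`, so they are divisible by `X - x0`; expand the determinant
(or factor the columns: `M * U = M' * diag`). -/
def SpecSYL : Prop :=
  ∀ (N q : ℕ) (M : Matrix (Fin N) (Fin N) ℂ[X]) (x0 : ℂ) (w : Fin q → Fin N → ℂ),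
    LinearIndependent ℂ w → (∀ t, (M.map (Polynomial.eval x0)).mulVec (w t) = 0) →
      (X - C x0) ^ q ∣ M.det

/-- RDV. Common zeros of the partial derivatives above `x0`.

Proof. `D.Np` is the determinant of the Sylvester matrix `M` of `derivative D.Qp` and `D.Gp` (sizes
`n - 1`, `n`), whose value at `x0` is the Sylvester matrix of the evaluated polynomials
(`sylvester_map_map`). If `y0` is a common root of these, the vector of the powers
`(y0 ^ i)_(i < 2 n - 1)` is a null vector of its transpose or of itself (look at Mathlib's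
`sylvester`: the columns, or rows, are the coefficients of `Y ^ i f` and `Y ^ i g`; reindex if
necessary). The power vectors of distinct `y0` are linearly independent (Vandermonde; a polynomial
of degree `< 2 n - 1` cannot vanish at more points; `T` has at most `n - 1` elements because
`derivative D.Qp` at `x0` has degree `n - 1`). Apply SYL (to the transpose if necessary). -/
def SpecRDV : Prop :=
  ∀ (D : Gr) (x0 : ℂ) (T : Finset ℂ),
    (∀ y0 ∈ T, ((derivative D.Qp).map (evalRingHom x0)).eval y0 = 0 ∧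
      (D.Gp.map (evalRingHom x0)).eval y0 = 0) → (X - C x0) ^ T.card ∣ D.Np

/-- RDG. The degree of the resultant.

Proof. For `x ∈ ℂ`, `Np(x) = ± n ^ n ∏_η G(x, η)` over the `n - 1` roots `η` of `Q_y(x, ·)`
(`resultant_map_map`, `resultant_eq_prod_eval`). Let `|x|` be large, so that `|x - r| ≥ |x| / 2` for
all `r ∈ R j l` and `r = a i`. At a root `η` put `f l = η - P_l(x)`; no `f l` is zero (otherwise
`P_l(x)` is a multiple root of `Q(x, ·)`, so `P_l(x) = P_h(x)` for some `h ≠ l`), and
`∑ 1 / f l = 0`. Let `|f j|` be the smallest of the `|f l|`. Then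
`G(x, η) = A(x) Q(x, η) (A'/A - ∑ l, P_l' / f l)`, and
`∑ l, P_l' / f l = ∑_{l ≠ j} (P_l' - P_j') / f l`, where
`|P_l' - P_j'| / |f l| = |∑_{r ∈ R j l} 1 / (x - r)| * |f j - f l| / |f l| ≤ (2 d / |x|) * 2`. So
`|G(x, η)| ≤ (C / |x|) |A(x)| |Q(x, η)|`. Moreover `n ^ n ∏_η |Q(x, η)|` is the absolute value of
the resultant of `Q_y` and `Q`, i.e. (`resultant_comm`) `∏_j |Q_y(x, P_j)| =
∏_{j ≠ l} |P_j - P_l| ≤ C |x| ^ (2 * crossings)`. Altogether
`|Np(x)| ≤ C |x| ^ (m (n - 1) - (n - 1) + 2 * crossings)` for large `|x|`, and a polynomial with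
this growth has at most this degree. -/
def SpecRDG : Prop :=
  ∀ D : Gr, D.Np.natDegree ≤ (D.m - 1) * (D.n - 1) + 2 * D.crossings

/-- RNZ. The resultant is not zero.

Proof. At `x = a i0`: `G(a i0, η) = A'(a i0) Q(a i0, η) ≠ 0` at the roots `η` of `Q_y(a i0, ·)`,
because the `P_j(a i0)` are distinct, so `Q(a i0, ·)` has no multiple root. So
`Np(a i0) = ± n ^ n ∏ G(a i0, η) ≠ 0`. -/
def SpecRNZ : Prop := ∀ D : Gr, D.Np ≠ 0

/-- CNT. There are at most `g` critical points.

Proof. A critical point satisfies `Q_y = Q ∑ 1 / (y - P_l) = 0` and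
`G = A Q (A'/A - ∑ P_l' / (y - P_l)) = 0`. So do the points `(r, P_j(r))`, `r ∈ R j l`, `j < l` (two
factors of `Q` vanish, so `Q_y = 0` and all the products `∏_{h ≠ j'} (y - P_h)` vanish); these are
`crossings` distinct points (`Gr.partner`), different from the critical points, where `Q ≠ 0`. If
`T` is the union of `S` and these points, then by RDV `∏_{x0} (X - x0) ^ #(T above x0)` divides
`Np` (coprime factors), so `card T ≤ deg Np ≤ (m - 1)(n - 1) + 2 * crossings` by RDG and RNZ. -/
def SpecCNT : Prop :=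
  ∀ (D : Gr) (S : Finset (ℂ × ℂ)), (∀ z ∈ S, D.Crit z.1 z.2) → S.card ≤ D.g

/-- LEV. Order statistics of continuous functions.

Proof. For instance `L k x = min` over the sets `S` of `k + 1` indices of `max_{j ∈ S} f j x`,
which is continuous as a minimum of maxima; for fixed `x` it is the `k`-th smallest value:
with `σ = Tuple.sort (fun j => f j x)`, `L k x = f (σ k) x`. -/
def SpecLEV : Prop :=
  ∀ (n : ℕ) (f : Fin n → ℝ → ℝ), (∀ j, Continuous (f j)) →
    ∃ L : Fin n → ℝ → ℝ, (∀ k, Continuous (L k)) ∧ ∀ x, (Monotone fun k => L k x) ∧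
      ∃ σ : Equiv.Perm (Fin n), ∀ k, L k x = f (σ k) x

/-- The gap between the levels `k` and `k + 1` is closed above `c`, or `c` is one of the `a i`. -/
def Gr.Zero (D : Gr) (L : Fin D.n → ℝ → ℝ) (k : Fin (D.n - 1)) (c : ℤ) : Prop :=
  (∃ i, c = D.a i) ∨ L ⟨k.val, by omega⟩ (c : ℝ) = L ⟨k.val + 1, by omega⟩ (c : ℝ)

/-- `L` are the order statistics of the `P j`. -/
def Gr.IsLev (D : Gr) (L : Fin D.n → ℝ → ℝ) : Prop :=
  (∀ k, Continuous (L k)) ∧ ∀ x : ℝ, (Monotone fun k => L k x) ∧
    ∃ σ : Equiv.Perm (Fin D.n), ∀ k, L k x = D.b (σ k) x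

/-- ZER. The number of zeros on all levels.

Proof. (a) If `L k x = L (k + 1) x` for a real `x`, then two different `P j`, `P l` have the same
value at `x`, so `x` is an integer, `x ∈ R j l` (`Gr.b_ne`); so `Zero` holds only for `c` in
`⋃ ns j`, a finite set. (b) For an integer `r` each value of `j ↦ P j (r)` is attained at most twice
(`no_triple`), so the number of the `k` with `L k r = L (k + 1) r` is the number of the pairs
`j < l` with `r ∈ R j l` (a value `v = P j (r) = P l (r)` corresponds to the `k` which is the number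
of the `h` with `P h (r) < v`). It is `0` for `r = a i`. Sum over `r`. -/
def SpecZER : Prop :=
  ∀ (D : Gr) (L : Fin D.n → ℝ → ℝ), D.IsLev L → ∃ Z : Fin (D.n - 1) → Finset ℤ,
    (∀ k c, c ∈ Z k ↔ D.Zero L k c) ∧ ∑ k, (Z k).card = D.m * (D.n - 1) + D.crossings

/-- CEL. A critical point in a bounded cell.

Proof. Let `z < z'` be consecutive elements of the set of zeros of the level `k`, and
`F(x, y) = ∏ (x - a i) ∏ (y - P j (x))`. The set `B` of the `(x, y)`, `z ≤ x ≤ z'`,
`L k x ≤ y ≤ L (k + 1) x`, is compact (`L` continuous); `F = 0` at its points with `x = z`,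
`x = z'`, `y = L k x` or `y = L (k + 1) x` (if `x = z` is not an `a i` then `L k z = L (k + 1) z`),
and `F ≠ 0` at the other ones (no `P j (x)` lies strictly between the two levels, and
`L k x < L (k + 1) x` there by (a) of ZER). So `|F|` has a maximum on `B` at an interior point
`(x0, y0)`, where both partial derivatives of `F` vanish: `D.Crit`. Lower bound: let `R = 7 / 16`,
`x = z + R` (less than `z'`), and let `P j`, `P l` be the levels `k`, `k + 1` at `x`, `y` their
arithmetic mean at `x`. Both graphs have a node above `z`: if `z` is an `a i` this is clear;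
otherwise `L k z = L (k + 1) z` and, as there are no common points of two graphs above `(z, x]`,
`P j` and `P l` are the levels `k`, `k + 1` on `(z, x]`, so `P j (z) = P l (z)`. Then
`|y - P j| = |y - P l| = |P j - P l| / 2` and for the other `h`, as `P h (x)` is not between `P j`
and `P l`, `|y - P h| = (|P j - P h| + |P l - P h|) / 2 ≥ √(|P j - P h| |P l - P h|)`, so
`|F(x0, y0)| ≥ |F(x, y)| ≥ (|P j - P l| / 4) √(a b)` with
`a = |∏ (x - a i) ∏_{h ≠ j} (P j - P h)|`, `b` the same for `l`. Finally `|x - s| ≥ fx z s` for all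
integers `s`, so `|lam| a ≥ mu lam j z ≥ Λ`, `|lam| b ≥ Λ`, and
`|P j - P l| ≥ ∏_{r ∈ R j l} fx z r ≥ 3 / 32` (distinct integers: `fx z z = 3 / 8`,
`fx z (z ± 1) = 1 / 2`, the other ones are larger than `1`). -/
def SpecCEL : Prop :=
  ∀ (D : Gr) (L : Fin D.n → ℝ → ℝ), D.IsLev L → ∀ (k : Fin (D.n - 1)) (z z' : ℤ), z < z' →
    D.Zero L k z → D.Zero L k z' → (∀ c, z < c → c < z' → ¬ D.Zero L k c) →
      ∃ x0 y0 : ℝ, (z : ℝ) < x0 ∧ x0 < z' ∧ L ⟨k.val, by omega⟩ x0 < y0 ∧
        y0 < L ⟨k.val + 1, by omega⟩ x0 ∧ D.Crit x0 y0 ∧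
        ∀ (lam : ℤ) (Λ : ℝ), 0 ≤ Λ → (∀ j c, D.Node j c → Λ ≤ D.mu lam j c) →
          3 / 128 * Λ ≤ |(lam : ℝ) * (∏ i, (x0 - (D.a i : ℝ))) * ∏ l, (y0 - D.b l x0)|

/-- SMT. Smoothness under local conditions at the nodes.

Proof. Take `L` from LEV, `Z` from ZER. The pairs `(k, z)`, `z ∈ Z k` not the largest element of
`Z k` (which contains `a i0`), are `∑ (card (Z k) - 1) = m (n - 1) + crossings - (n - 1) = g`
in number, and CEL gives a critical point for each of them (`z'` the next element of `Z k`). These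
points are distinct: for the same `k` the abscissas are in disjoint intervals, and for `k < k'` and
the same abscissa the ordinates are separated by the level `k + 1`. So by CNT these are all the
critical points in `ℂ ^ 2`, and at each of them `|lam F| ≥ 3 / 128 * Λ > 1`; a singular point of the
curve would be a critical point with `lam F = 1`. -/
def SpecSMT : Prop :=
  ∀ (D : Gr) (lam : ℤ) (Λ : ℝ), 43 ≤ Λ → (∀ j c, D.Node j c → Λ ≤ D.mu lam j c) → SmoothG D lam

end MP743d1e.GA
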