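import Pool.Agent.Lib.MP_743d1e_nt.GA.Spec
import Pool.Agent.Lib.MP_743d1e_nt.Kae
import Pool.Agent.Lib.MP_743d1e_nt.UpperLat

section
/-!
# FRM: monomials of small degree are adjoint
-/
set_option autoImplicit false
set_option linter.unusedSectionVars false

namespace MP743d1e.GA

open scoped BigOperators
open Polynomial

namespace FRMM

variable {K : Type} [Field K] [Algebra ℂ K]

/-- representation with coefficients only at indices `≤ d` -/
def LatD (D : Gr) (x y : K) (d : ℕ) (q : K) : Prop :=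
  ∃ c : Fin D.n → ℂ[X], (∀ k : Fin D.n, d < k.val → c k = 0) ∧
    q = ∑ k, aeval x (c k) * nbG D x y k

theorem latD_zero (D : Gr) (x y : K) (q : ℂ[X]) : LatD D x y 0 (aeval x q) := by
  classical
  have hn : 0 < D.n := by have := D.hn; omega
  refine ⟨fun k => if k.val = 0 then q else 0, ?_, ?_⟩
  · intro k hk
    simp [show k.val ≠ 0 by omega]
  · rw [Finset.sum_eq_single (⟨0, hn⟩ : Fin D.n)]
    · have : (Finset.univ.filter (fun i : Fin D.n => i < ⟨0, hn⟩)) = ∅ := by
        ext i
        simp [Fin.lt_def]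
      simp [nbG, this]
    · intro k _ hk
      have : k.val ≠ 0 := fun h => hk (Fin.ext h)
      simp [this]
    · simp

theorem LatD.add {D : Gr} {x y : K} {d : ℕ} {q q' : K} (h : LatD D x y d q)
    (h' : LatD D x y d q') : LatD D x y d (q + q') := by
  obtain ⟨c, hc, rfl⟩ := h
  obtain ⟨c', hc', rfl⟩ := h'
  refine ⟨fun k => c k + c' k, fun k hk => by simp [hc k hk, hc' k hk], ?_⟩
  rw [← Finset.sum_add_distrib]
  refine Finset.sum_congr rfl fun k _ => ?_
  rw [map_add, add_mul]

theorem LatD.mul {D : Gr} {x y : K} {d : ℕ} {q : K} (h : LatD D x y d q) (p : ℂ[X]) :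
    LatD D x y d (aeval x p * q) := by
  obtain ⟨c, hc, rfl⟩ := h
  refine ⟨fun k => p * c k, fun k hk => by simp [hc k hk], ?_⟩
  rw [Finset.mul_sum]
  refine Finset.sum_congr rfl fun k _ => ?_
  rw [map_mul, mul_assoc]

theorem LatD.mono {D : Gr} {x y : K} {d d' : ℕ} (hd : d ≤ d') {q : K} (h : LatD D x y d q) :
    LatD D x y d' q := by
  obtain ⟨c, hc, rfl⟩ := h
  exact ⟨c, fun k hk => hc k (by omega), rfl⟩

theorem LatD.sum {D : Gr} {x y : K} {d : ℕ} {ι : Type} (s : Finset ι) (f : ι → K)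
    (h : ∀ i ∈ s, LatD D x y d (f i)) : LatD D x y d (∑ i ∈ s, f i) := by
  classical
  induction s using Finset.induction_on with
  | empty =>
    refine ⟨fun _ => 0, fun _ _ => rfl, by simp⟩
  | insert a s ha ih =>
    rw [Finset.sum_insert ha]
    exact (h a (Finset.mem_insert_self a s)).add (ih fun i hi => h i (Finset.mem_insert_of_mem hi))

theorem latD_nb (D : Gr) (x y : K) (k : Fin D.n) : LatD D x y k.val (nbG D x y k) := by
  classical
  refine ⟨fun l => if l = k then 1 else 0, ?_, ?_⟩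
  · intro l hl
    have : l ≠ k := fun h => by rw [h] at hl; omega
    simp [this]
  · rw [Finset.sum_eq_single k]
    · simp
    · intro l _ hl
      simp [hl]
    · simp

theorem aeval_Pc (D : Gr) (j : Fin D.n) (x : K) : aeval x (D.Pc j) = D.b j x := by
  unfold Gr.Pc Gr.b
  rw [aeval_def, eval₂_map, aeval_def]
  congr 1
  exact RingHom.ext_int _ _

theorem nb_succ (D : Gr) (x y : K) (k k' : Fin D.n) (h : k'.val = k.val + 1) :
    nbG D x y k' = nbG D x y k * (y - D.b k x) := by
  classical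
  unfold nbG
  have : (Finset.univ.filter (fun i : Fin D.n => i < k')) =
      insert k (Finset.univ.filter (fun i : Fin D.n => i < k)) := by
    ext i
    simp only [Finset.mem_filter, Finset.mem_univ, true_and, Finset.mem_insert, Fin.lt_def,
      Fin.ext_iff]
    omega
  rw [this, Finset.prod_insert (by simp), mul_comm]

theorem LatD.mul_y {D : Gr} {x y : K} {d : ℕ} (hd : d + 1 < D.n) {q : K} (h : LatD D x y d q) :
    LatD D x y (d + 1) (y * q) := by
  obtain ⟨c, hc, rfl⟩ := h
  rw [Finset.mul_sum]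
  refine LatD.sum _ _ fun k _ => ?_
  by_cases hk : d < k.val
  · rw [hc k hk]
    simp only [map_zero, zero_mul, mul_zero]
    exact ⟨fun _ => 0, fun _ _ => rfl, by simp⟩
  · have hk' : k.val + 1 < D.n := by omega
    have e : y * (aeval x (c k) * nbG D x y k) =
        aeval x (c k) * (nbG D x y ⟨k.val + 1, hk'⟩ + aeval x (D.Pc k) * nbG D x y k) := by
      rw [nb_succ D x y k ⟨k.val + 1, hk'⟩ rfl, aeval_Pc]
      ring
    rw [e]
    refine LatD.mul (LatD.add ?_ ?_) _
    · exact (latD_nb D x y ⟨k.val + 1, hk'⟩).mono (by simp only []; omega)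
    · exact ((latD_nb D x y k).mono (by omega)).mul _

theorem latD_pow (D : Gr) (x y : K) (k : ℕ) (hk : k < D.n) : LatD D x y k (y ^ k) := by
  induction k with
  | zero =>
    have := latD_zero D x y 1
    simpa using this
  | succ k ih =>
    rw [pow_succ']
    exact (ih (by omega)).mul_y hk

theorem LatD.inLat {D : Gr} {x y : K} {d : ℕ} (hd : d + 1 < D.n) {q : K} (h : LatD D x y d q) :
    InLatG D x y q := by
  obtain ⟨c, hc, rfl⟩ := h
  refine ⟨c, fun k hk => ?_, rfl⟩
  rw [hc k (by omega)]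
  exact dvd_zero _

/-! ### at infinity -/

theorem ne_zero_of_atInf {D : Gr} {x y : K} {V : ValuationSubring K} {j : Fin D.n}
    (h : AtInfG D x y V j) : x ≠ 0 := by
  rintro rfl
  exact h.1 V.zero_mem

theorem inv_mem_of_atInf {D : Gr} {x y : K} {V : ValuationSubring K} {j : Fin D.n}
    (h : AtInfG D x y V j) : x⁻¹ ∈ V := by
  rcases V.mem_or_inv_mem x with h1 | h1
  · exact absurd h1 h.1
  · exact h1

theorem zpow_mem {D : Gr} {x y : K} {V : ValuationSubring K} {j : Fin D.n}
    (h : AtInfG D x y V j) {e : ℤ} (he : e ≤ 0) : x ^ e ∈ V := by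
  obtain ⟨n, rfl⟩ := Int.exists_eq_neg_ofNat he
  rw [zpow_neg, zpow_natCast, ← inv_pow]
  exact pow_mem (inv_mem_of_atInf h) n

theorem b_div_mem {D : Gr} {x y : K} {V : ValuationSubring K} {j : Fin D.n} (hV : OverC V)
    (h : AtInfG D x y V j) {d : ℕ} (hd : (D.P j).natDegree ≤ d) : D.b j x * x⁻¹ ^ d ∈ V := by
  have hx := ne_zero_of_atInf h
  have hinv := inv_mem_of_atInf h
  unfold Gr.b
  rw [aeval_eq_sum_range' (Nat.lt_succ_of_le hd), Finset.sum_mul]
  refine sum_mem fun i hi => ?_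
  have hi' : i ≤ d := Nat.lt_succ_iff.mp (Finset.mem_range.mp hi)
  have e : (D.P j).coeff i • x ^ i * x⁻¹ ^ d =
      algebraMap ℂ K ((D.P j).coeff i : ℂ) * x⁻¹ ^ (d - i) := by
    obtain ⟨r, rfl⟩ := Nat.exists_eq_add_of_le hi'
    rw [Nat.add_sub_cancel_left, pow_add, zsmul_eq_mul, map_intCast]
    have hxi : x ^ i * x⁻¹ ^ i = 1 := by
      rw [← mul_pow, mul_inv_cancel₀ hx, one_pow]
    calc ((D.P j).coeff i : K) * x ^ i * (x⁻¹ ^ i * x⁻¹ ^ r) =
        ((D.P j).coeff i : K) * (x ^ i * x⁻¹ ^ i) * x⁻¹ ^ r := by ring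
      _ = _ := by rw [hxi, mul_one]
  rw [e]
  exact V.mul_mem _ _ (hV _) (pow_mem hinv _)

theorem y_div_mem {D : Gr} {x y : K} {V : ValuationSubring K} {j : Fin D.n} (hV : OverC V)
    (h : AtInfG D x y V j) {d : ℕ} (hd : (D.P j).natDegree ≤ d) : y * x⁻¹ ^ d ∈ V := by
  have hx := ne_zero_of_atInf h
  have hinv := inv_mem_of_atInf h
  have e : y * x⁻¹ ^ d = ((y - D.b j x) * x ^ (D.m + D.s j)) * x⁻¹ ^ (D.m + D.s j + d) +
      D.b j x * x⁻¹ ^ d := by
    have hxi : x ^ (D.m + D.s j) * x⁻¹ ^ (D.m + D.s j) = 1 := by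
      rw [← mul_pow, mul_inv_cancel₀ hx, one_pow]
    rw [pow_add]
    calc y * x⁻¹ ^ d = (y - D.b j x) * 1 * x⁻¹ ^ d + D.b j x * x⁻¹ ^ d := by ring
      _ = _ := by rw [← hxi]; ring
  rw [e]
  exact V.add_mem _ _ (V.mul_mem _ _ h.2 (pow_mem hinv _)) (b_div_mem hV h hd)

end FRMM

/-- FRM -/
theorem specFRM : SpecFRM := by
  intro K _ _ D lam x y hgon _ i k hik
  refine ⟨?_, ?_⟩
  · have h1 := (FRMM.latD_pow D x y k (by omega)).mul (X ^ i)
    have h2 := h1.inLat (by omega)
    simpa using h2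
  · intro V j hV hj
    have hx := FRMM.ne_zero_of_atInf hj
    have hm := hgon j
    set d := max 1 (D.P j).natDegree with hd
    have hd1 : 1 ≤ d := le_max_left _ _
    have hd2 : (D.P j).natDegree ≤ d := le_max_right _ _
    have e : x ^ i * y ^ k * x ^ ((2 : ℤ) - ((D.m + D.s j : ℕ) : ℤ)) =
        (y * x⁻¹ ^ d) ^ k * x ^ ((i + d * k + 2 : ℤ) - ((D.m + D.s j : ℕ) : ℤ)) := by
      have e1 : ((i + d * k + 2 : ℤ) - ((D.m + D.s j : ℕ) : ℤ)) =
          (i : ℤ) + ((d * k : ℕ) : ℤ) + ((2 : ℤ) - ((D.m + D.s j : ℕ) : ℤ)) := by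
        push_cast
        ring
      have hxi : x⁻¹ ^ (d * k) * x ^ (d * k) = 1 := by
        rw [← mul_pow, inv_mul_cancel₀ hx, one_pow]
      rw [e1, zpow_add₀ hx, zpow_add₀ hx, zpow_natCast, zpow_natCast, mul_pow, ← pow_mul]
      generalize x ^ ((2 : ℤ) - ((D.m + D.s j : ℕ) : ℤ)) = u
      calc x ^ i * y ^ k * u = y ^ k * (x⁻¹ ^ (d * k) * x ^ (d * k)) * x ^ i * u := by
            rw [hxi]
            ring
        _ = _ := by ring
    rw [e]
    refine V.mul_mem _ _ (pow_mem (FRMM.y_div_mem hV hj hd2) k) (FRMM.zpow_mem hj ?_)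
    have h1 : i + d * k + 2 ≤ D.m + D.s j := by
      have h2 : i + d * k ≤ (D.n - 2) * d := by
        calc i + d * k ≤ d * i + d * k := Nat.add_le_add_right (Nat.le_mul_of_pos_left i hd1) _
          _ = (i + k) * d := by ring
          _ ≤ (D.n - 2) * d := Nat.mul_le_mul_right d (by omega)
      omega
    have h3 : ((i + d * k + 2 : ℕ) : ℤ) ≤ ((D.m + D.s j : ℕ) : ℤ) := by exact_mod_cast h1
    push_cast at h3 ⊢
    linarith

end MP743d1e.GA
end

section
/-!
# GNG: the genus of an arrangement of graphs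
-/
set_option autoImplicit false

namespace MP743d1e.GA

open scoped BigOperators
open Polynomial

namespace GNGM

variable {K : Type} [Field K] [Algebra ℂ K]

/-- A unit times a positive power of `x ∉ V` is not in `V`. -/
theorem unit_mul_pow_not_mem (V : ValuationSubring K) {x u : K} (hx : x ∉ V) (hu : IsU V u)
    (N : ℕ) (hN : 1 ≤ N) : u * x ^ N ∉ V := by
  intro h
  have h1 : x ^ N ∈ V := by
    have : x ^ N = u⁻¹ * (u * x ^ N) := by
      rw [← mul_assoc, inv_mul_cancel₀ hu.1, one_mul]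
    rw [this]
    exact V.mul_mem _ _ hu.2.2 h
  have hx0 : x ≠ 0 := fun h0 => hx (h0 ▸ V.zero_mem)
  have hxi : x⁻¹ ∈ V := by
    rcases V.mem_or_inv_mem x with h' | h'
    · exact absurd h' hx
    · exact h'
  apply hx
  have : x = x ^ N * (x⁻¹) ^ (N - 1) := by
    obtain ⟨M, rfl⟩ : ∃ M, N = M + 1 := ⟨N - 1, by omega⟩
    rw [Nat.add_sub_cancel, pow_succ, mul_right_comm, ← mul_pow, mul_inv_cancel₀ hx0, one_pow,
      one_mul]
  rw [this]
  exact V.mul_mem _ _ h1 (pow_mem hxi _)

theorem lam_ne (D : Gr) (lam : ℤ) (x y : K) (h : IsCurveG ℂ K D lam x y) : lam ≠ 0 := by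
  rintro rfl
  have := h.eqn
  simp at this

theorem pw_ne (hINP : SpecINP) (D : Gr) (lam : ℤ) (x y : K) (h : IsCurveG ℂ K D lam x y) :
    pwG D x y ≠ 0 := by
  classical
  obtain ⟨_, hex, hun⟩ := hINP K D lam x y h
  have hn : 0 < D.n := by have := D.hn; omega
  set j : Fin D.n := ⟨0, hn⟩
  obtain ⟨V, hV, hA⟩ := hex j
  obtain ⟨_, h1, h2⟩ := hun V j hV hA
  have hx : x ∉ V := hA.1
  have hx0 : x ≠ 0 := fun h0 => hx (h0 ▸ V.zero_mem)
  have hxi : x⁻¹ ∈ V := by
    rcases V.mem_or_inv_mem x with h' | h'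
    · exact absurd h' hx
    · exact h'
  intro h0
  have hN : 1 ≤ D.m + D.s j := by have := D.hm; omega
  -- the `j`-th term
  have hyj : (y - D.b j x)⁻¹ = ((y - D.b j x) * x ^ (D.m + D.s j))⁻¹ * x ^ (D.m + D.s j) := by
    rw [mul_inv, mul_assoc, inv_mul_cancel₀ (pow_ne_zero _ hx0), mul_one]
  have hu : IsU V ((y - D.b j x) * x ^ (D.m + D.s j))⁻¹ :=
    ⟨inv_ne_zero h1.1, h1.2.2, by rw [inv_inv]; exact h1.2.1⟩
  have hnot : (y - D.b j x)⁻¹ ∉ V := by
    rw [hyj]
    exact unit_mul_pow_not_mem V hx hu _ hN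
  apply hnot
  have hsum : (y - D.b j x)⁻¹ = -∑ l ∈ Finset.univ.erase j, (y - D.b l x)⁻¹ := by
    have := Finset.add_sum_erase Finset.univ (fun l => (y - D.b l x)⁻¹) (Finset.mem_univ j)
    have h4 : pwG D x y = ∑ l, (y - D.b l x)⁻¹ := rfl
    rw [← h4, h0] at this
    exact eq_neg_of_add_eq_zero_left this
  rw [hsum]
  apply V.neg_mem
  apply sum_mem
  intro l hl
  have hlj : l ≠ j := Finset.ne_of_mem_erase hl
  have hul := h2 l hlj
  have : (y - D.b l x)⁻¹ =
      ((y - D.b l x) * x ^ (-((D.R j l).card : ℤ)))⁻¹ * x⁻¹ ^ (D.R j l).card := by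
    rw [mul_inv, zpow_neg, inv_inv, zpow_natCast, inv_pow, mul_assoc,
      mul_inv_cancel₀ (pow_ne_zero _ hx0), mul_one]
  rw [this]
  exact V.mul_mem _ _ hul.2.2 (pow_mem hxi _)

end GNGM

open GNGM

/-- GNG -/
theorem specGNG (hDer : SpecDer) (hKae : SpecKae) (hUPI : SpecUPI) (hUPL : SpecUPL)
    (hLWR : SpecLWR) (hDIM : SpecDIM) (hIRP : SpecIRP) (hINP : SpecINP) : SpecGNG := by
  intro K _ _ D lam x y hS hC
  obtain ⟨_, hfin, _⟩ := (hIRP ℂ D lam (lam_ne D lam x y hC)).2 K x y hC
  have halg : Algebra.IsAlgebraic (Ct x) K := by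
    have : FiniteDimensional (Ct x) K := hfin
    exact Algebra.IsAlgebraic.of_finite (Ct x) K
  obtain ⟨δ, hδ⟩ := (hDer K x hC.transc halg).1
  obtain ⟨S, hSq, hSfin, hSrank⟩ := hDIM K D lam x y hC
  have hpw := pw_ne hINP D lam x y hC
  -- multiplication by the inverse of `pw`
  let M : K →ₗ[ℂ] K := LinearMap.mulRight ℂ (pwG D x y)⁻¹
  have hMinj : Function.Injective M := by
    intro a b hab
    have : a * (pwG D x y)⁻¹ = b * (pwG D x y)⁻¹ := hab
    exact mul_right_cancel₀ (inv_ne_zero hpw) this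
  let S' : Submodule ℂ K := S.map M
  have hS'q : ∀ f, f ∈ S' ↔ Reg δ f := by
    intro f
    constructor
    · rintro ⟨q, hq, rfl⟩
      have := hLWR K D lam x y δ hC hS hδ q ((hSq q).mp hq)
      rw [div_eq_mul_inv] at this
      exact this
    · intro hf
      refine ⟨f * pwG D x y, (hSq _).mpr ⟨hUPL K D lam x y δ hC hδ f hf, ?_⟩, ?_⟩
      · intro V j hV hj
        exact hUPI K D lam x y δ hC hδ f hf V j hV hj
      · show f * pwG D x y * (pwG D x y)⁻¹ = f
        rw [mul_assoc, mul_inv_cancel₀ hpw, mul_one]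
  obtain ⟨e⟩ := (hKae K x δ hC.transc halg hδ).2 S' hS'q
  let e2 : S ≃ₗ[ℂ] S' := Submodule.equivMapOfInjective M hMinj S
  have : FiniteDimensional ℂ S := hSfin
  have : FiniteDimensional ℂ S' := e2.finiteDimensional
  refine ⟨e.symm.finiteDimensional, ?_⟩
  rw [e.finrank_eq, ← e2.finrank_eq, hSrank]

end MP743d1e.GA
end

section
/-!
# GNL: the gonality of an arrangement of graphs
-/
set_option autoImplicit false

namespace MP743d1e.GA

open scoped BigOperators
open Polynomial

namespace GNLM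

variable {K : Type} [Field K] [Algebra ℂ K]

theorem lam_ne (D : Gr) (lam : ℤ) (x y : K) (h : IsCurveG ℂ K D lam x y) : lam ≠ 0 := by
  rintro rfl
  have := h.eqn
  simp at this

theorem pw_ne (hInf : SpecINP) (D : Gr) (lam : ℤ) (x y : K) (h : IsCurveG ℂ K D lam x y) :
    pwG D x y ≠ 0 := by
  classical
  obtain ⟨_, hex, hun⟩ := hInf K D lam x y h
  obtain ⟨V, hV, hA⟩ := hex D.j0
  obtain ⟨_, h1, h2⟩ := hun V D.j0 hV hA
  have hx : x ∉ V := hA.1
  have hx0 : x ≠ 0 := fun h0 => hx (h0 ▸ V.zero_mem)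
  have hxi : x⁻¹ ∈ V := by
    rcases V.mem_or_inv_mem x with h' | h'
    · exact absurd h' hx
    · exact h'
  intro h0
  have hN : 1 ≤ D.m + D.s D.j0 := by have := D.hm; omega
  have hyj : (y - D.b D.j0 x)⁻¹ = ((y - D.b D.j0 x) * x ^ (D.m + D.s D.j0))⁻¹ *
      x ^ (D.m + D.s D.j0) := by
    rw [mul_inv, mul_assoc, inv_mul_cancel₀ (pow_ne_zero _ hx0), mul_one]
  have hu : IsU V ((y - D.b D.j0 x) * x ^ (D.m + D.s D.j0))⁻¹ :=
    ⟨inv_ne_zero h1.1, h1.2.2, by rw [inv_inv]; exact h1.2.1⟩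
  have hnot : (y - D.b D.j0 x)⁻¹ ∉ V := by
    rw [hyj]
    exact Genus.unit_mul_pow_not_mem V hx hu _ hN
  apply hnot
  have hsum : (y - D.b D.j0 x)⁻¹ = -∑ l ∈ Finset.univ.erase D.j0, (y - D.b l x)⁻¹ := by
    have := Finset.add_sum_erase Finset.univ (fun l => (y - D.b l x)⁻¹) (Finset.mem_univ D.j0)
    have h4 : pwG D x y = ∑ l, (y - D.b l x)⁻¹ := rfl
    rw [← h4, h0] at this
    exact eq_neg_of_add_eq_zero_left this
  rw [hsum]
  apply V.neg_mem
  apply sum_mem
  intro l hl
  have hlj : l ≠ D.j0 := Finset.ne_of_mem_erase hl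
  have hul := h2 l hlj
  rw [zpow_neg, zpow_natCast] at hul
  have : (y - D.b l x)⁻¹ = ((y - D.b l x) * (x ^ (D.R D.j0 l).card)⁻¹)⁻¹ *
      (x⁻¹) ^ (D.R D.j0 l).card := by
    rw [mul_inv, inv_inv, mul_assoc, ← mul_pow, mul_inv_cancel₀ hx0, one_pow, mul_one]
  rw [this]
  exact V.mul_mem _ _ hul.2.2 (pow_mem hxi _)

end GNLM

open GNLM in
theorem specGNL (hIRP : SpecIRP) (hFinT : SpecFinT) (hGonAbs : SpecGonAbs) (hFRM : SpecFRM)
    (hLWR : SpecLWR) (hINP : SpecINP) (hDer : SpecDer) : SpecGNL := by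
  intro K _ _ D lam x y hS hgon hC
  obtain ⟨_, hfin, hrank⟩ := (hIRP ℂ D lam (lam_ne D lam x y hC)).2 K x y hC
  have halg : Algebra.IsAlgebraic (Ct x) K := by
    have : FiniteDimensional (Ct x) K := hfin
    exact Algebra.IsAlgebraic.of_finite (Ct x) K
  obtain ⟨δ, hδ⟩ := (hDer K x hC.transc halg).1
  have hpw := pw_ne hINP D lam x y hC
  refine ⟨hrank, ?_⟩
  intro t ht
  have hfint := hFinT K x y t hC.transc ht hC.gen hfin
  refine ⟨hfint, ?_⟩
  have h := hGonAbs K x y (pwG D x y)⁻¹ δ (D.n - 2) hC.transc hC.gen hδ (inv_ne_zero hpw) ?_ t ht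
    hfint
  · have hn := D.hn
    have h' : D.n - 2 + 2 ≤ Module.finrank (IntermediateField.adjoin ℂ {t}) K := h
    exact le_trans (by omega) h'
  · intro i k hik
    have hn := D.hn
    have := hLWR K D lam x y δ hC hS hδ _ (hFRM K D lam x y hgon hC i k (by omega))
    rw [div_eq_mul_inv] at this
    exact this

end MP743d1e.GA
end

section
/-!
# Module LEV of block GA: order statistics of continuous functions
-/
set_option autoImplicit false

namespace MP743d1e.GA

namespace LEVM

open Finset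

variable {n : ℕ}

lemma pne (k : Fin n) : (powersetCard ((k : ℕ) + 1) (univ : Finset (Fin n))).attach.Nonempty := by
  rw [attach_nonempty_iff, powersetCard_nonempty]
  simp

lemma sne {k : Fin n} (S : {S // S ∈ powersetCard ((k : ℕ) + 1) (univ : Finset (Fin n))}) :
    S.1.Nonempty := by
  have h := (mem_powersetCard.1 S.2).2
  rw [← card_pos, h]
  omega

/-- The minimum over the sets of `k + 1` indices of the maxima. -/
noncomputable def lev (f : Fin n → ℝ → ℝ) (k : Fin n) (x : ℝ) : ℝ :=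
  (powersetCard ((k : ℕ) + 1) (univ : Finset (Fin n))).attach.inf' (pne k)
    fun S => S.1.sup' (sne S) fun j => f j x

lemma lev_cont (f : Fin n → ℝ → ℝ) (hf : ∀ j, Continuous (f j)) (k : Fin n) :
    Continuous (lev f k) := by
  unfold lev
  apply Continuous.finset_inf'_apply
  intro S _
  apply Continuous.finset_sup'_apply
  intro j _
  exact hf j

lemma lev_eq (f : Fin n → ℝ → ℝ) (x : ℝ) (σ : Equiv.Perm (Fin n))
    (hσ : Monotone fun k => f (σ k) x) (k : Fin n) : lev f k x = f (σ k) x := by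
  apply le_antisymm
  · have hS : ((Iic k).map σ.toEmbedding) ∈ powersetCard ((k : ℕ) + 1) (univ : Finset (Fin n)) := by
      rw [mem_powersetCard]
      refine ⟨subset_univ _, ?_⟩
      rw [card_map, Fin.card_Iic]
    refine (inf'_le _ (mem_attach _ ⟨_, hS⟩)).trans ?_
    apply sup'_le
    intro j hj
    simp only [mem_map, mem_Iic] at hj
    obtain ⟨i, hi, rfl⟩ := hj
    exact hσ hi
  · apply le_inf'
    intro S _
    have hc := (mem_powersetCard.1 S.2).2
    have hex : ∃ j ∈ S.1, k ≤ σ.symm j := by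
      by_contra hcon
      push Not at hcon
      have hsub : S.1 ⊆ (Iio k).map σ.toEmbedding := by
        intro j hj
        simp only [mem_map, mem_Iio]
        exact ⟨σ.symm j, hcon j hj, by simp⟩
      have := card_le_card hsub
      rw [card_map, Fin.card_Iio, hc] at this
      omega
    obtain ⟨j, hj, hk⟩ := hex
    have h1 : f (σ k) x ≤ f (σ (σ.symm j)) x := hσ hk
    rw [Equiv.apply_symm_apply] at h1
    exact h1.trans (le_sup' (fun j => f j x) hj)

end LEVM

theorem specLEV : SpecLEV := by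
  intro n f hf
  refine ⟨LEVM.lev f, fun k => LEVM.lev_cont f hf k, fun x => ?_⟩
  have hσ : Monotone fun k => f (Tuple.sort (fun j => f j x) k) x :=
    Tuple.monotone_sort (fun j => f j x)
  have h := LEVM.lev_eq f x _ hσ
  refine ⟨?_, Tuple.sort (fun j => f j x), h⟩
  intro a b hab
  simp only [h]
  exact hσ hab

end MP743d1e.GA
end

section
/-!
# LWR: the adjoint space gives regular differentials on smooth curves (arrangements of graphs)
-/
set_option autoImplicit false
set_option linter.unusedSectionVars false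

namespace MP743d1e.GA

open scoped BigOperators
open Polynomial

namespace LWRM

open MP743d1e.Low (mem_iff inM_iff isU_iff isU_mem isU_inv_mem isU_inv isU_mul isU_prod isU_pow
  isU_const isU_intCast intCast_mem aeval_mem Res res_const res_intCast exists_res regD_base
  dlog_mul dlog_prod δ_intCast RegD.add RegD.neg RegD.mul RegD.sum)
open MP743d1e.Low

section gen

variable {K : Type} [Field K] [Algebra ℂ K] {V : ValuationSubring K}

/-- the polynomial over `ℂ` -/
noncomputable def bp (D : Gr) (j : Fin D.n) : ℂ[X] := (D.P j).map (Int.castRingHom ℂ)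

theorem aeval_map_int (x : K) (P : ℤ[X]) :
    aeval x (P.map (Int.castRingHom ℂ)) = aeval x P := by
  rw [aeval_def, eval₂_map, aeval_def]
  congr 1
  exact RingHom.ext_int _ _

theorem aeval_bp (D : Gr) (j : Fin D.n) (x : K) : aeval x (bp D j) = D.b j x :=
  aeval_map_int x (D.P j)

theorem b_mem (hV : OverC V) (D : Gr) (j : Fin D.n) {x : K} (hx : x ∈ V) : D.b j x ∈ V := by
  rw [← aeval_bp]
  exact aeval_mem hV hx _

theorem δ_b (δ : Derivation ℂ K K) (D : Gr) (j : Fin D.n) (x : K) :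
    δ (D.b j x) = aeval x (derivative (D.P j)) * δ x := by
  rw [← aeval_bp, Derivation.map_aeval, smul_eq_mul]
  congr 1
  unfold bp
  rw [derivative_map, aeval_map_int]

end gen

variable {K : Type} [Field K] [Algebra ℂ K]
variable {V : ValuationSubring K}

/-! ### the curve -/

section curve

variable {D : Gr} {lam : ℤ} {x y : K}

theorem lam_ne (h : IsCurveG ℂ K D lam x y) : lam ≠ 0 := by
  rintro rfl
  have := h.eqn
  simp at this

theorem fac_ne (h : IsCurveG ℂ K D lam x y) (l : Fin D.n) : y - D.b l x ≠ 0 := by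
  intro h0
  have := h.eqn
  rw [Finset.prod_eq_zero (Finset.mem_univ l) h0] at this
  simp at this

theorem xfac_ne (h : IsCurveG ℂ K D lam x y) (i : Fin D.m) : x - (D.a i : K) ≠ 0 := by
  intro h0
  have := h.eqn
  rw [Finset.prod_eq_zero (Finset.mem_univ i) h0] at this
  simp at this

/-- the logarithmic derivative of the equation -/
theorem dlog_eqn (h : IsCurveG ℂ K D lam x y) (δ : Derivation ℂ K K) :
    (∑ i, δ (x - (D.a i : K)) / (x - (D.a i : K))) +
      ∑ l, δ (y - D.b l x) / (y - D.b l x) = 0 := by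
  have hlam : (lam : K) ≠ 0 := by
    intro h0
    have := h.eqn
    rw [h0] at this
    simp at this
  have h1 : ∏ i, (x - (D.a i : K)) ≠ 0 := Finset.prod_ne_zero_iff.2 fun i _ => xfac_ne h i
  have h2 : ∏ j, (y - D.b j x) ≠ 0 := Finset.prod_ne_zero_iff.2 fun i _ => fac_ne h i
  have h3 : δ ((lam : K) * (∏ i, (x - (D.a i : K))) * (∏ j, (y - D.b j x))) /
      ((lam : K) * (∏ i, (x - (D.a i : K))) * (∏ j, (y - D.b j x))) = 0 := by
    rw [h.eqn]
    simp
  rw [dlog_mul δ (mul_ne_zero hlam h1) h2, dlog_mul δ hlam h1, dlog_prod, dlog_prod, δ_intCast,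
    zero_div, zero_add] at h3
  · exact h3
  · exact fun i _ => fac_ne h i
  · exact fun i _ => xfac_ne h i

/-- `pw * δ y = -R` -/
theorem pw_δy (h : IsCurveG ℂ K D lam x y) (δ : Derivation ℂ K K) (hδ : δ x = 1) :
    pwG D x y * δ y = -((∑ i, (x - (D.a i : K))⁻¹) - ∑ l, aeval x (derivative (D.P l)) * (y - D.b l x)⁻¹) := by
  have h1 := dlog_eqn h δ
  have h2 : ∀ i : Fin D.m, δ (x - (D.a i : K)) / (x - (D.a i : K)) = (x - (D.a i : K))⁻¹ := by
    intro i
    rw [map_sub, hδ, δ_intCast, sub_zero, one_div]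
  have h3 : ∀ l : Fin D.n, δ (y - D.b l x) / (y - D.b l x) =
      (y - D.b l x)⁻¹ * δ y - aeval x (derivative (D.P l)) * (y - D.b l x)⁻¹ := by
    intro l
    rw [map_sub, δ_b, hδ, mul_one, div_eq_mul_inv]
    ring
  rw [Finset.sum_congr rfl fun i _ => h2 i, Finset.sum_congr rfl fun l _ => h3 l,
    Finset.sum_sub_distrib, ← Finset.sum_mul] at h1
  unfold pwG
  linear_combination h1

/-- `(y - b_l)⁻¹ ∈ V` if `x ∈ V` -/
theorem fac_inv_mem (h : IsCurveG ℂ K D lam x y) (hV : OverC V) (hx : x ∈ V) (l : Fin D.n) :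
    (y - D.b l x)⁻¹ ∈ V := by
  rcases V.mem_or_inv_mem (y - D.b l x) with h1 | h1
  · -- then `y ∈ V`, everything is in `V`
    have hy : y ∈ V := by
      have := V.add_mem _ _ h1 (b_mem hV D l hx)
      rwa [sub_add_cancel] at this
    have e : (y - D.b l x)⁻¹ = (lam : K) * (∏ i, (x - (D.a i : K))) *
        ∏ j ∈ Finset.univ.erase l, (y - D.b j x) := by
      have h2 := h.eqn
      rw [← Finset.mul_prod_erase Finset.univ _ (Finset.mem_univ l)] at h2
      have h3 := fac_ne h l
      field_simp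
      linear_combination -h2
    rw [e]
    refine V.mul_mem _ _ (V.mul_mem _ _ (intCast_mem hV _) ?_) ?_
    · exact prod_mem fun i _ => V.sub_mem hx (intCast_mem hV _)
    · exact prod_mem fun i _ => V.sub_mem hy (b_mem hV D i hx)
  · exact h1

end curve

variable {D : Gr} {lam : ℤ} {x y : K} {δ : Derivation ℂ K K}

theorem regD_of_mem (hδ : δ x = 1) (hx : x ∈ V) {f : K} (hf : f ∈ V) : RegD δ V f := by
  have := regD_base δ hf hx
  rwa [hδ, mul_one] at this

theorem isU_one : IsU V (1 : K) := isU_iff.2 (by simp)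

theorem nb_mem (hV : OverC V) (hx : x ∈ V) (hy : y ∈ V) (k : Fin D.n) : nbG D x y k ∈ V :=
  prod_mem fun i _ => V.sub_mem hy (b_mem hV D i hx)

theorem lat_mem (hV : OverC V) (hx : x ∈ V) (hy : y ∈ V) {q : K} (hq : InLatG D x y q) :
    q ∈ V := by
  obtain ⟨c, -, rfl⟩ := hq
  exact sum_mem fun k _ => V.mul_mem _ _ (aeval_mem hV hx _) (nb_mem hV hx hy k)

/-! ### finite points -/

theorem res_pow (hV : OverC V) {a : K} {c : ℂ} (h : Res V a c) (k : ℕ) : Res V (a ^ k) (c ^ k) := by
  induction k with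
  | zero =>
    have := res_const (K := K) (V := V) 1
    rw [map_one] at this
    simpa using this
  | succ k ih =>
    rw [pow_succ, pow_succ]
    exact ih.mul hV h

theorem res_aeval (hV : OverC V) {x0 : ℂ} (hx : Res V x x0) (P : ℤ[X]) :
    Res V (aeval x P) (aeval x0 P) := by
  induction P using Polynomial.induction_on' with
  | add p q hp hq =>
    rw [map_add, map_add]
    exact hp.add hq
  | monomial k c =>
    rw [aeval_monomial, aeval_monomial, eq_intCast, eq_intCast]
    exact (res_intCast c).mul hV (res_pow hV hx k)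

theorem res_b (hV : OverC V) {x0 : ℂ} (hx : Res V x x0) (j : Fin D.n) :
    Res V (D.b j x) (D.b j x0) := res_aeval hV hx (D.P j)

theorem finite_point (hC : IsCurveG ℂ K D lam x y) (hSm : SmoothG D lam) (hδ : δ x = 1)
    (hV : OverC V) (hx : x ∈ V) (hy : y ∈ V) {x0 y0 : ℂ} (hx0 : Res V x x0) (hy0 : Res V y y0)
    {q : K} (hq : InLatG D x y q) : RegD δ V (q / pwG D x y) := by
  have hqV := lat_mem hV hx hy hq
  have hxa : ∀ i : Fin D.m, Res V (x - (D.a i : K)) (x0 - (D.a i : ℂ)) := fun i =>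
    hx0.sub (res_intCast _)
  have hyb : ∀ l : Fin D.n, Res V (y - D.b l x) (y0 - D.b l x0) := fun l =>
    hy0.sub (res_b hV hx0 l)
  have heq : (lam : ℂ) * (∏ i, (x0 - (D.a i : ℂ))) * (∏ j, (y0 - D.b j x0)) = 1 := by
    have h1 : Res V ((lam : K) * (∏ i, (x - (D.a i : K))) * (∏ j, (y - D.b j x)))
        ((lam : ℂ) * (∏ i, (x0 - (D.a i : ℂ))) * (∏ j, (y0 - D.b j x0))) :=
      ((res_intCast lam).mul hV (Res.prod hV _ _ _ fun i _ => hxa i)).mul hV
        (Res.prod hV _ _ _ fun l _ => hyb l)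
    rw [hC.eqn] at h1
    have h2 : Res V (1 : K) (1 : ℂ) := by
      have := res_const (K := K) (V := V) 1
      rwa [map_one] at this
    exact h1.unique hV h2
  have hne1 : ∀ i : Fin D.m, x0 - (D.a i : ℂ) ≠ 0 := by
    intro i h0
    rw [Finset.prod_eq_zero (Finset.mem_univ i) h0] at heq
    simp at heq
  have hne2 : ∀ l : Fin D.n, y0 - D.b l x0 ≠ 0 := by
    intro l h0
    rw [Finset.prod_eq_zero (Finset.mem_univ l) h0] at heq
    simp at heq
  have hpw : Res V (pwG D x y) (∑ l, (y0 - D.b l x0)⁻¹) :=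
    Res.sum _ _ _ fun l _ => (hyb l).inv hV (hne2 l)
  have hR : Res V ((∑ i, (x - (D.a i : K))⁻¹) - ∑ l, aeval x (derivative (D.P l)) * (y - D.b l x)⁻¹)
      ((∑ i, (x0 - (D.a i : ℂ))⁻¹) - (∑ l, aeval x0 (derivative (D.P l)) * (y0 - D.b l x0)⁻¹)) :=
    (Res.sum _ _ _ fun i _ => (hxa i).inv hV (hne1 i)).sub
      (Res.sum _ _ _ fun l _ => (res_aeval hV hx0 _).mul hV ((hyb l).inv hV (hne2 l)))
  by_cases h0 : ∑ l, (y0 - D.b l x0)⁻¹ = 0
  · have h1 : (∑ i, (x0 - (D.a i : ℂ))⁻¹) - (∑ l, aeval x0 (derivative (D.P l)) * (y0 - D.b l x0)⁻¹) ≠ 0 :=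
      fun h => hSm x0 y0 heq ⟨h0, h⟩
    have hU := hR.isU hV h1
    have hpy := pw_δy hC δ hδ
    set R := (∑ i, (x - (D.a i : K))⁻¹) - ∑ l, aeval x (derivative (D.P l)) * (y - D.b l x)⁻¹ with hRdef
    have hR0 : R ≠ 0 := hU.1
    have hpw0 : pwG D x y ≠ 0 := by
      intro h
      rw [h, zero_mul] at hpy
      exact hR0 (neg_eq_zero.1 hpy.symm)
    have e : q / pwG D x y = (-q * R⁻¹) * δ y := by
      have : δ y = -R / pwG D x y := by
        rw [eq_div_iff hpw0, mul_comm]
        exact hpy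
      rw [this]
      field_simp
    rw [e]
    exact regD_base δ (V.mul_mem _ _ (V.neg_mem _ hqV) (isU_inv_mem hU)) hy
  · have hU := hpw.isU hV h0
    rw [div_eq_mul_inv]
    exact regD_of_mem hδ hx (V.mul_mem _ _ hqV (isU_inv_mem hU))

/-! ### points at infinity -/

theorem infinite_point (hC : IsCurveG ℂ K D lam x y) (hδ : δ x = 1)
    (hV : OverC V) (hx : x ∉ V) {j : Fin D.n} {q : K}
    (h1 : IsU V ((y - D.b j x) * x ^ (D.m + D.s j)))
    (h2 : ∀ l, l ≠ j → IsU V ((y - D.b l x) * x ^ (-((D.R j l).card : ℤ))))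
    (hq : q * x ^ ((2 : ℤ) - ((D.m + D.s j : ℕ) : ℤ)) ∈ V) : RegD δ V (q / pwG D x y) := by
  classical
  have hxi : InM V x⁻¹ := Or.inr (by rwa [inv_inv])
  have hx0 : x ≠ 0 := by
    rintro rfl
    exact hx V.zero_mem
  obtain ⟨M, hM⟩ : ∃ M : ℕ, D.m + D.s j = M + 1 := ⟨D.m + D.s j - 1, by have := D.hm; omega⟩
  rw [hM] at h1 hq
  have hother : ∀ l, l ≠ j → (y - D.b l x)⁻¹ ∈ V := by
    intro l hl
    have := V.mul_mem _ _ (isU_inv_mem (h2 l hl)) (pow_mem (inM_mem hxi) (D.R j l).card)
    have e : ((y - D.b l x) * x ^ (-((D.R j l).card : ℤ)))⁻¹ * x⁻¹ ^ (D.R j l).card =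
        (y - D.b l x)⁻¹ := by
      have h0 := fac_ne hC l
      have h1 : x ^ (D.R j l).card ≠ 0 := pow_ne_zero _ hx0
      rw [zpow_neg, zpow_natCast, inv_pow]
      field_simp
    rwa [e] at this
  have hU : IsU V (pwG D x y * (x⁻¹) ^ (M + 1)) := by
    unfold pwG
    rw [← Finset.add_sum_erase Finset.univ _ (Finset.mem_univ j), add_mul]
    refine isU_add_inM ?_ ?_
    · have := isU_inv h1
      rwa [mul_inv, ← inv_pow] at this
    · refine inM_mul' (sum_mem fun l hl => hother l (Finset.ne_of_mem_erase hl)) ?_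
      rw [pow_succ]
      exact inM_mul' (pow_mem (inM_mem hxi) M) hxi
  have hpw0 : pwG D x y ≠ 0 := left_ne_zero_of_mul hU.1
  have hδx : δ x⁻¹ = -(x⁻¹ ^ 2) := by
    rw [Derivation.leibniz_inv, hδ]
    simp
  have e : q / pwG D x y =
      (-(q * x ^ ((2 : ℤ) - ((M + 1 : ℕ) : ℤ))) * (pwG D x y * (x⁻¹) ^ (M + 1))⁻¹) * δ x⁻¹ := by
    rw [hδx, zpow_sub₀ hx0, zpow_natCast]
    have : x ^ (2 : ℤ) = x ^ 2 := by norm_cast
    rw [this, inv_pow]
    field_simp
  rw [e]
  exact regD_base δ (V.mul_mem _ _ (V.neg_mem _ hq) (isU_inv_mem hU)) (inM_mem hxi)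

/-! ### points over the vertical lines -/

theorem prod_shift (hs : y ≠ 0) (S : Finset (Fin D.n)) :
    (∏ i ∈ S, (y - D.b i x)) * y⁻¹ ^ S.card = ∏ i ∈ S, (1 - D.b i x * y⁻¹) := by
  rw [← Finset.prod_const, ← Finset.prod_mul_distrib]
  refine Finset.prod_congr rfl fun i _ => ?_
  field_simp

theorem card_lt (k : Fin D.n) : (Finset.univ.filter (fun i => i < k)).card = k.val := by
  have : Finset.univ.filter (fun i => i < k) = Finset.Iio k := by
    ext i
    simp
  rw [this, Fin.card_Iio]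

theorem vertical_point (hC : IsCurveG ℂ K D lam x y) (hδ : δ x = 1)
    (hV : OverC V) (hx : x ∈ V) (hy : y ∉ V) {q : K} (hq : InLatG D x y q) :
    RegD δ V (q / pwG D x y) := by
  classical
  have hy0 : y ≠ 0 := by
    rintro rfl
    exact hy V.zero_mem
  obtain ⟨n, hn⟩ : ∃ n : ℕ, D.n = n + 2 := ⟨D.n - 2, by have := D.hn; omega⟩
  set s : K := y⁻¹ with hs
  have hs0 : s ≠ 0 := inv_ne_zero hy0
  have hsM : InM V s := Or.inr (by rwa [hs, inv_inv])
  have hsV : s ∈ V := inM_mem hsM
  have hbs : ∀ l : Fin D.n, InM V (D.b l x * s) := fun l => inM_mul' (b_mem hV D l hx) hsM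
  have hone : ∀ l : Fin D.n, Res V (1 - D.b l x * s) 1 := by
    intro l
    unfold Res
    rw [map_one]
    have := inM_neg (hbs l)
    convert this using 1
    ring
  have hu : ∀ l : Fin D.n, IsU V (1 - D.b l x * s) := fun l => (hone l).isU hV one_ne_zero
  -- the equation
  have hlam : IsU V (lam : K) := isU_intCast hV (lam_ne hC)
  set W : K := (lam : K) * ∏ l, (1 - D.b l x * s) with hW
  have hWU : IsU V W := isU_mul hlam (isU_prod _ _ fun l _ => hu l)
  set A : K := ∏ i, (x - (D.a i : K)) with hA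
  have hAW : A * W = s ^ (n + 2) := by
    have h1 := prod_shift (D := D) (x := x) hy0 Finset.univ
    rw [Finset.card_univ, Fintype.card_fin] at h1
    rw [hW, hs, ← h1, ← hn]
    have h2 := hC.eqn
    rw [← hA] at h2
    linear_combination (y⁻¹ ^ D.n) * h2
  have hA' : A = s ^ (n + 2) * W⁻¹ := by
    rw [← hAW]
    have := hWU.1
    field_simp
  have hAM : InM V A := by
    rw [hA', pow_succ]
    exact inM_mul (inM_mul' (pow_mem hsV _) hsM) (isU_inv_mem hWU)
  obtain ⟨i0, -, hi0⟩ := exists_inM_of_prod (V := V) Finset.univ (fun i => x - (D.a i : K))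
    (fun i _ => V.sub_mem hx (intCast_mem hV _)) hAM
  have hi : ∀ i, i ≠ i0 → IsU V (x - (D.a i : K)) := by
    intro i hne
    have h1 : D.a i0 - D.a i ≠ 0 := fun h => hne (D.a_inj (by omega))
    have h2 := isU_add_inM (isU_intCast (V := V) (K := K) hV h1) hi0
    have e : ((D.a i0 - D.a i : ℤ) : K) + (x - (D.a i0 : K)) = x - (D.a i : K) := by
      push_cast
      ring
    rwa [e] at h2
  have hAi : A = (x - (D.a i0 : K)) * ∏ i ∈ Finset.univ.erase i0, (x - (D.a i : K)) :=
    (Finset.mul_prod_erase Finset.univ _ (Finset.mem_univ i0)).symm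
  set A' : K := ∏ i ∈ Finset.univ.erase i0, (x - (D.a i : K)) with hA'def
  have hA'U : IsU V A' := isU_prod _ _ fun i hi' => hi i (Finset.ne_of_mem_erase hi')
  set P : K := ∑ i, (x - (D.a i : K))⁻¹ with hP
  -- `s ^ n * P` is a unit
  have hwU : IsU V (s ^ (n + 2) * P) := by
    have e : s ^ (n + 2) * P = A' * W + s ^ (n + 2) *
        ∑ i ∈ Finset.univ.erase i0, (x - (D.a i : K))⁻¹ := by
      rw [hP, ← Finset.add_sum_erase Finset.univ _ (Finset.mem_univ i0), mul_add]
      congr 1
      rw [← hAW, hAi]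
      have := xfac_ne hC i0
      field_simp
    rw [e]
    refine isU_add_inM (isU_mul hA'U hWU) (inM_mul ?_ ?_)
    · rw [pow_succ]
      exact inM_mul' (pow_mem hsV _) hsM
    · exact sum_mem fun i hi' => isU_inv_mem (hi i (Finset.ne_of_mem_erase hi'))
  have hP0 : P ≠ 0 := right_ne_zero_of_mul hwU.1
  -- `s * P` is regular
  have hyb : ∀ l : Fin D.n, y - D.b l x = (1 - D.b l x * s) * y := by
    intro l
    rw [hs]
    field_simp
  have hdy : δ y / y = -(δ s / s) := by
    rw [hs, Derivation.leibniz_inv, smul_eq_mul]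
    field_simp
  have hsP : RegD δ V (s * P) := by
    have h1 := dlog_eqn hC δ
    have h2 : ∀ i : Fin D.m, δ (x - (D.a i : K)) / (x - (D.a i : K)) = (x - (D.a i : K))⁻¹ := by
      intro i
      rw [map_sub, hδ, δ_intCast, sub_zero, one_div]
    have h3 : ∀ l : Fin D.n, δ (y - D.b l x) / (y - D.b l x) =
        δ (1 - D.b l x * s) / (1 - D.b l x * s) - δ s / s := by
      intro l
      rw [hyb l, dlog_mul δ (hu l).1 hy0, hdy]
      ring
    rw [Finset.sum_congr rfl fun i _ => h2 i, Finset.sum_congr rfl fun l _ => h3 l,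
      Finset.sum_sub_distrib, Finset.sum_const, Finset.card_univ, Fintype.card_fin,
      nsmul_eq_mul] at h1
    have e : s * P = (D.n : K) * δ s +
        -(∑ l, (s * (1 - D.b l x * s)⁻¹) * δ (1 - D.b l x * s)) := by
      have h4 : ∑ l, (s * (1 - D.b l x * s)⁻¹) * δ (1 - D.b l x * s) =
          s * ∑ l, δ (1 - D.b l x * s) / (1 - D.b l x * s) := by
        rw [Finset.mul_sum]
        refine Finset.sum_congr rfl fun l _ => ?_
        rw [div_eq_mul_inv]
        ring
      rw [h4]
      have h5 : s * (δ s / s) = δ s := by field_simp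
      linear_combination s * h1 + (D.n : K) * h5
    rw [e]
    refine RegD.add (regD_base δ ?_ hsV) (RegD.neg (RegD.sum _ _ fun l _ => regD_base δ ?_ ?_))
    · have := intCast_mem (K := K) hV (D.n : ℤ)
      rwa [Int.cast_natCast] at this
    · exact V.mul_mem _ _ hsV (isU_inv_mem (hu l))
    · exact isU_mem (hu l)
  -- `pw = s * u`
  set u : K := ∑ l, (1 - D.b l x * s)⁻¹ with hudef
  have hpw : pwG D x y = s * u := by
    unfold pwG
    rw [hudef, Finset.mul_sum]
    refine Finset.sum_congr rfl fun l _ => ?_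
    rw [hyb l, mul_inv, ← hs, mul_comm]
  have huU : IsU V u := by
    have h1 : Res V u (∑ _l : Fin D.n, (1 : ℂ)⁻¹) :=
      Res.sum _ _ _ fun l _ => (hone l).inv hV one_ne_zero
    refine h1.isU hV ?_
    simp [hn]
    norm_cast
  -- `q * s ^ (n - 2)` is in `V`
  have hqs : q * s ^ n ∈ V := by
    obtain ⟨c, hc, rfl⟩ := hq
    rw [Finset.sum_mul]
    refine sum_mem fun k _ => ?_
    have hnb : nbG D x y k * s ^ k.val ∈ V := by
      have h1 := prod_shift (D := D) (x := x) hy0 (Finset.univ.filter (fun i => i < k))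
      rw [card_lt] at h1
      unfold nbG
      rw [hs, h1]
      exact prod_mem fun i _ => isU_mem (hu i)
    by_cases hk : k.val + 1 = D.n
    · obtain ⟨c', hc'⟩ := hc k hk
      have h1 : aeval x (c k) = A * aeval x c' := by
        rw [hc', map_mul, map_prod, hA]
        congr 1
        refine Finset.prod_congr rfl fun i _ => ?_
        simp
      have hk' : k.val = n + 1 := by omega
      have e : aeval x (c k) * nbG D x y k * s ^ n =
          aeval x c' * (s ^ (n + 1) * W⁻¹) * (nbG D x y k * s ^ k.val) := by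
        rw [h1, hA', hk']
        ring
      rw [e]
      exact V.mul_mem _ _ (V.mul_mem _ _ (aeval_mem hV hx _)
        (V.mul_mem _ _ (pow_mem hsV _) (isU_inv_mem hWU))) hnb
    · have hk' : k.val ≤ n := by have := k.isLt; omega
      have e : aeval x (c k) * nbG D x y k * s ^ n =
          aeval x (c k) * (nbG D x y k * s ^ k.val) * s ^ (n - k.val) := by
        have : s ^ n = s ^ k.val * s ^ (n - k.val) := by
          rw [← pow_add]
          congr 1
          omega
        rw [this]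
        ring
      rw [e]
      exact V.mul_mem _ _ (V.mul_mem _ _ (aeval_mem hV hx _) hnb) (pow_mem hsV _)
  have e : q / pwG D x y = ((q * s ^ n) * u⁻¹ * (s ^ (n + 2) * P)⁻¹) * (s * P) := by
    have hu0 := huU.1
    rw [hpw]
    field_simp
    ring
  rw [e]
  exact RegD.mul (V.mul_mem _ _ (V.mul_mem _ _ hqs (isU_inv_mem huU)) (isU_inv_mem hwU)) hsP


end LWRM

open LWRM MP743d1e.Low in
/-- LWR -/
theorem specLWR (hINP : SpecINP) (hIRP : SpecIRP) (hFinT : SpecFinT) : SpecLWR := by
  intro K _ _ D lam x y δ hC hSm hδ q hq V hV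
  by_cases hVt : V = ⊤
  · subst hVt
    exact regD_of_mem hδ (ValuationSubring.mem_top x) (ValuationSubring.mem_top _)
  by_cases hx : x ∈ V
  · by_cases hy : y ∈ V
    · have hfin : FiniteDimensional (Ct x) K :=
        ((hIRP ℂ D lam (LWRM.lam_ne hC)).2 K x y hC).2.1
      have halg : ∀ s : K, Transcendental ℂ s → Algebra.IsAlgebraic (Ct s) K := by
        intro s hs
        have := hFinT K x y s hC.transc hs hC.gen hfin
        exact Algebra.IsAlgebraic.of_finite _ _
      obtain ⟨x0, hx0⟩ := exists_res hV hVt halg hx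
      obtain ⟨y0, hy0⟩ := exists_res hV hVt halg hy
      exact finite_point hC hSm hδ hV hx hy hx0 hy0 hq.1
    · exact vertical_point hC hδ hV hx hy hq.1
  · obtain ⟨h1, -, h3⟩ := hINP K D lam x y hC
    obtain ⟨j, hj⟩ := h1 V hV hx
    obtain ⟨-, h4, h5⟩ := h3 V j hV hj
    exact infinite_point hC hδ hV hx h4 h5 (hq.2 V j hV hj)

end MP743d1e.GA
end

section
/-!
# NWL: Newton interpolation, uniqueness and the last coefficient
-/
set_option autoImplicit false

namespace MP743d1e.GA

open scoped BigOperators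
open Polynomial

namespace NWLM

theorem uniq {R : Type} [CommRing R] [IsDomain R] {n : ℕ} (p c : Fin n → R)
    (hp : ∀ j l, j ≠ l → p j ≠ p l)
    (h : ∀ j, ∑ k, c k * ∏ i ∈ Finset.univ.filter (fun i => i < k), (p j - p i) = 0) :
    ∀ j, c j = 0 := by
  have key : ∀ m : ℕ, ∀ j : Fin n, j.val < m → c j = 0 := by
    intro m
    induction m with
    | zero => intro j hj; omega
    | succ m ih =>
      intro j hj
      rcases Nat.lt_or_ge j.val m with h1 | h1
      · exact ih j h1
      have h2 := h j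
      rw [Finset.sum_eq_single j] at h2
      · rcases mul_eq_zero.1 h2 with h3 | h3
        · exact h3
        · exfalso
          rw [Finset.prod_eq_zero_iff] at h3
          obtain ⟨i, hi, h4⟩ := h3
          have h5 : i < j := (Finset.mem_filter.1 hi).2
          exact hp j i (ne_of_gt h5) (sub_eq_zero.1 h4)
      · intro k _ hk
        rcases lt_or_gt_of_ne hk with h3 | h3
        · rw [ih k (by have : k.val < j.val := h3; omega), zero_mul]
        · rw [Finset.prod_eq_zero (Finset.mem_filter.2 ⟨Finset.mem_univ j, h3⟩) (sub_self _),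
            mul_zero]
      · intro h3
        exact absurd (Finset.mem_univ j) h3
  exact fun j => key (j.val + 1) j (Nat.lt_succ_self _)

theorem card_lt {n : ℕ} (k : Fin n) : (Finset.univ.filter (fun i : Fin n => i < k)).card = k.val := by
  have : Finset.univ.filter (fun i : Fin n => i < k) = Finset.Iio k := by
    ext i
    simp
  rw [this]
  exact Fin.card_Iio k

theorem last {n : ℕ} (p a : Fin n → ℂ) (hp : ∀ j l, j ≠ l → p j ≠ p l) (k : Fin n)
    (hk : k.val + 1 = n) :
    a k = ∑ j, (∑ k, a k * ∏ i ∈ Finset.univ.filter (fun i => i < k), (p j - p i)) /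
      ∏ l ∈ Finset.univ.erase j, (p j - p l) := by
  classical
  set T : Fin n → ℂ[X] := fun k => ∏ i ∈ Finset.univ.filter (fun i => i < k), (X - C (p i)) with hT
  have hTm : ∀ k, (T k).Monic := fun k => monic_prod_of_monic _ _ fun i _ => monic_X_sub_C _
  have hTd : ∀ k, (T k).natDegree = k.val := by
    intro k
    rw [hT]
    simp only
    rw [natDegree_prod_of_monic _ _ fun i _ => monic_X_sub_C _,
      Finset.sum_congr rfl fun i _ => natDegree_X_sub_C _]
    simp [card_lt]
  set F : ℂ[X] := ∑ k, C (a k) * T k with hF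
  have hdeg : F.degree < (Finset.univ : Finset (Fin n)).card := by
    rw [Finset.card_univ, Fintype.card_fin, hF]
    refine (degree_sum_le _ _).trans_lt ?_
    refine (Finset.sup_lt_iff (WithBot.bot_lt_coe n)).2 fun k _ => ?_
    refine (degree_mul_le _ _).trans_lt ?_
    have h3 : (T k).degree = (k.val : WithBot ℕ) := by
      rw [degree_eq_natDegree (hTm k).ne_zero, hTd]
    have h4 : (C (a k) : ℂ[X]).degree ≤ 0 := degree_C_le
    refine (add_le_add_left h4 _).trans_lt ?_
    rw [h3, zero_add]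
    exact WithBot.coe_lt_coe.2 k.isLt
  have h1 := Lagrange.coeff_eq_sum (s := Finset.univ) (v := p)
    (fun j _ l _ h => by
      by_contra hne
      exact hp j l hne h) hdeg
  rw [Finset.card_univ, Fintype.card_fin] at h1
  have h2 : F.coeff (n - 1) = a k := by
    rw [hF, finsetSum_coeff, Finset.sum_eq_single k]
    · rw [coeff_C_mul]
      have : (T k).coeff (n - 1) = 1 := by
        have h3 := (hTm k).coeff_natDegree
        rw [hTd] at h3
        rw [show n - 1 = k.val by omega]
        exact h3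
      rw [this, mul_one]
    · intro l _ hl
      rw [coeff_C_mul, coeff_eq_zero_of_natDegree_lt, mul_zero]
      rw [hTd]
      have h3 := l.isLt
      have h4 : l.val ≠ k.val := fun h => hl (Fin.ext h)
      omega
    · intro h
      exact absurd (Finset.mem_univ k) h
  rw [← h2, h1]
  refine Finset.sum_congr rfl fun j _ => ?_
  congr 1
  rw [hF, eval_finsetSum]
  refine Finset.sum_congr rfl fun k _ => ?_
  rw [eval_mul, eval_C, hT]
  simp only
  rw [eval_prod]
  congr 1
  exact Finset.prod_congr rfl fun i _ => by rw [eval_sub, eval_X, eval_C]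

end NWLM

open NWLM in
theorem specNWL : SpecNWL := by
  intro D c
  refine ⟨fun h => ?_, fun z hz k hk => ?_⟩
  · have hp : ∀ j l, j ≠ l → D.Pc j ≠ D.Pc l := by
      intro j l hjl h1
      have h2 := Polynomial.map_injective (Int.castRingHom ℂ) Int.cast_injective h1
      exact hjl (D.P_inj h2)
    have h1 := uniq D.Pc c hp h
    funext j
    exact h1 j
  · have h1 := last (fun j => (D.Pc j).eval z) (fun j => (c j).eval z) hz k hk
    rw [h1]
    refine Finset.sum_congr rfl fun j _ => ?_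
    congr 1
    unfold Gr.vv
    rw [eval_finsetSum]
    refine Finset.sum_congr rfl fun k _ => ?_
    rw [eval_mul, eval_prod]
    congr 1
    exact Finset.prod_congr rfl fun i _ => by rw [eval_sub]

end MP743d1e.GA
end

section
/-!
# NWT: Newton interpolation
-/
set_option autoImplicit false

namespace MP743d1e.GA

open scoped BigOperators
open Polynomial

namespace NWTM

/-- A product of distinct linear factors divides every polynomial vanishing at the roots. -/
theorem prod_dvd (R : Finset ℂ) (q : ℂ[X]) (h : ∀ r ∈ R, q.eval r = 0) :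
    (∏ r ∈ R, (X - C r)) ∣ q := by
  refine Finset.prod_dvd_of_coprime ?_ ?_
  · intro a _ b _ hab
    exact Polynomial.pairwise_coprime_X_sub_C (Function.injective_id) hab
  · intro r hr
    rw [dvd_iff_isRoot]
    exact h r hr

/-- The general Newton interpolation. -/
theorem newton (n : ℕ) : ∀ (p v : Fin n → ℂ[X]),
    (∀ j l, j ≠ l → ∃ (κ : ℂ) (R : Finset ℂ), κ ≠ 0 ∧ p j - p l = C κ * ∏ r ∈ R, (X - C r)) →
    (∀ j l, j ≠ l → ∀ z, (p j).eval z = (p l).eval z → (v j).eval z = (v l).eval z) →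
    (∀ j l h, j ≠ l → h ≠ j → h ≠ l → ∀ z, (p j).eval z = (p l).eval z →
      (p h).eval z ≠ (p j).eval z) →
    ∃ c : Fin n → ℂ[X], ∀ j, v j =
      ∑ k, c k * ∏ i ∈ Finset.univ.filter (fun i => i < k), (p j - p i) := by
  induction n with
  | zero =>
    intro p v _ _ _
    exact ⟨fun _ => 0, fun j => j.elim0⟩
  | succ n ih =>
    intro p v hd hv ht
    have hex : ∀ j : Fin n, ∃ w : ℂ[X], v j.succ - v 0 = (p j.succ - p 0) * w := by
      intro j
      obtain ⟨κ, R, hκ, hR⟩ := hd j.succ 0 (Fin.succ_ne_zero j)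
      have h1 : (∏ r ∈ R, (X - C r)) ∣ v j.succ - v 0 := by
        refine prod_dvd R _ fun r hr => ?_
        rw [eval_sub, sub_eq_zero]
        refine hv j.succ 0 (Fin.succ_ne_zero j) r ?_
        rw [← sub_eq_zero, ← eval_sub, hR, eval_mul, eval_prod]
        rw [Finset.prod_eq_zero hr (by simp), mul_zero]
      obtain ⟨w, hw⟩ := h1
      refine ⟨C κ⁻¹ * w, ?_⟩
      rw [hR, hw]
      have h2 : C κ * C κ⁻¹ = (1 : ℂ[X]) := by
        rw [← C_mul, mul_inv_cancel₀ hκ, C_1]
      calc (∏ r ∈ R, (X - C r)) * w = (C κ * C κ⁻¹) * ((∏ r ∈ R, (X - C r)) * w) := by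
            rw [h2, one_mul]
        _ = C κ * (∏ r ∈ R, (X - C r)) * (C κ⁻¹ * w) := by ring
    choose w hw using hex
    obtain ⟨c, hc⟩ := ih (fun j => p j.succ) w
      (fun j l hjl => hd j.succ l.succ (fun h => hjl (Fin.succ_injective n h)))
      (by
        intro j l hjl z hz
        have hne : j.succ ≠ l.succ := fun h => hjl (Fin.succ_injective n h)
        have h0 : (p 0).eval z ≠ (p j.succ).eval z :=
          ht j.succ l.succ 0 hne (Fin.succ_ne_zero j).symm (Fin.succ_ne_zero l).symm z hz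
        have h1 := hv j.succ l.succ hne z hz
        have h2 := congrArg (eval z) (hw j)
        have h3 := congrArg (eval z) (hw l)
        rw [eval_sub, eval_mul, eval_sub] at h2 h3
        have hz' : (p j.succ).eval z = (p l.succ).eval z := hz
        rw [← h1, ← hz', h2] at h3
        exact mul_left_cancel₀ (sub_ne_zero.mpr h0.symm) h3)
      (by
        intro j l h hjl hhj hhl z hz
        exact ht j.succ l.succ h.succ (fun e => hjl (Fin.succ_injective n e))
          (fun e => hhj (Fin.succ_injective n e)) (fun e => hhl (Fin.succ_injective n e)) z hz)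
    refine ⟨Fin.cons (v 0) c, fun j => ?_⟩
    have hprod0 : ∀ q : ℂ[X], (∏ i ∈ Finset.univ.filter (fun i : Fin (n + 1) => i < 0),
        (q - p i)) = 1 := by
      intro q
      have : (Finset.univ.filter (fun i : Fin (n + 1) => i < 0)) = ∅ := by
        ext i
        simp
      rw [this, Finset.prod_empty]
    have hprod : ∀ (q : ℂ[X]) (k : Fin n),
        (∏ i ∈ Finset.univ.filter (fun i : Fin (n + 1) => i < k.succ), (q - p i)) =
        (q - p 0) * ∏ i ∈ Finset.univ.filter (fun i : Fin n => i < k), (q - p i.succ) := by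
      intro q k
      rw [Finset.prod_filter, Fin.prod_univ_succ, Finset.prod_filter]
      simp
    rw [Fin.sum_univ_succ, hprod0, mul_one]
    simp only [Fin.cons_zero, Fin.cons_succ, hprod]
    refine Fin.cases ?_ (fun j => ?_) j
    · simp
    · have h1 : (∑ k, c k * ((p j.succ - p 0) *
          ∏ i ∈ Finset.univ.filter (fun i : Fin n => i < k), (p j.succ - p i.succ))) =
          (p j.succ - p 0) * ∑ k, c k *
          ∏ i ∈ Finset.univ.filter (fun i : Fin n => i < k), (p j.succ - p i.succ) := by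
        rw [Finset.mul_sum]
        refine Finset.sum_congr rfl fun k _ => ?_
        ring
      rw [h1, ← hc j, ← hw j]
      ring

end NWTM

/-- NWT -/
theorem specNWT : SpecNWT := by
  classical
  intro D v hv
  have hdiff : ∀ j l, j ≠ l → D.Pc j - D.Pc l = C (D.kap j l : ℂ) *
      ∏ r ∈ (D.R j l).map ⟨fun r : ℤ => (r : ℂ), Int.cast_injective⟩, (X - C r) := by
    intro j l h
    rw [Finset.prod_map]
    have := congrArg (Polynomial.map (Int.castRingHom ℂ)) (D.diff j l h)
    rw [Polynomial.map_sub, Polynomial.map_mul, Polynomial.map_prod] at this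
    unfold Gr.Pc
    rw [this]
    simp
  have hev : ∀ j l, j ≠ l → ∀ z : ℂ, (D.Pc j).eval z = (D.Pc l).eval z →
      ∃ r ∈ D.R j l, z = (r : ℂ) := by
    intro j l h z hz
    have h1 : (D.Pc j - D.Pc l).eval z = 0 := by
      rw [Polynomial.eval_sub, hz, sub_self]
    rw [hdiff j l h, eval_mul, eval_C, eval_prod, mul_eq_zero] at h1
    rcases h1 with h1 | h1
    · exact absurd h1 (by exact_mod_cast D.kap_ne j l h)
    · rw [Finset.prod_eq_zero_iff] at h1
      obtain ⟨r, hr, hr'⟩ := h1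
      rw [Finset.mem_map] at hr
      obtain ⟨r', hr1, rfl⟩ := hr
      refine ⟨r', hr1, ?_⟩
      rw [eval_sub, eval_X, eval_C, sub_eq_zero] at hr'
      exact hr'
  refine NWTM.newton D.n D.Pc v ?_ ?_ ?_
  · intro j l h
    exact ⟨_, _, by exact_mod_cast D.kap_ne j l h, hdiff j l h⟩
  · intro j l h z hz
    obtain ⟨r, hr, rfl⟩ := hev j l h z hz
    exact hv j l h r hr
  · intro j l h hjl hhj hhl z hz hcon
    obtain ⟨r, hr, rfl⟩ := hev j l hjl z hz
    obtain ⟨r', hr', hrr⟩ := hev j h hhj.symm r hcon.symm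
    have : r = r' := by exact_mod_cast hrr
    subst this
    exact Finset.disjoint_left.mp (D.no_triple j l h hjl hhj.symm hhl.symm) hr hr'

end MP743d1e.GA
end

section
/-!
# UPL: regular differentials at the finite points (arrangements of graphs)
-/
set_option autoImplicit false
set_option linter.unusedSectionVars false

namespace MP743d1e.GA

open scoped BigOperators
open Polynomial

namespace UPLM

open MP743d1e.Upper (PolD ph ph_apply)

variable {K : Type} [Field K] [Algebra ℂ K]

/-- representation with coefficients only at indices `≤ d` -/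
def LatD (D : Gr) (x y : K) (d : ℕ) (q : K) : Prop :=
  ∃ c : Fin D.n → ℂ[X], (∀ k : Fin D.n, d < k.val → c k = 0) ∧
    q = ∑ k, aeval x (c k) * nbG D x y k

theorem latD_zero (D : Gr) (x y : K) (q : ℂ[X]) : LatD D x y 0 (aeval x q) := by
  classical
  have hn : 0 < D.n := by have := D.hn; omega
  refine ⟨fun k => if k.val = 0 then q else 0, ?_, ?_⟩
  · intro k hk
    simp [show k.val ≠ 0 by omega]
  · rw [Finset.sum_eq_single (⟨0, hn⟩ : Fin D.n)]
    · have : (Finset.univ.filter (fun i : Fin D.n => i < ⟨0, hn⟩)) = ∅ := by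
        ext i
        simp [Fin.lt_def]
      simp [nbG, this]
    · intro k _ hk
      have : k.val ≠ 0 := fun h => hk (Fin.ext h)
      simp [this]
    · simp

theorem LatD.add {D : Gr} {x y : K} {d : ℕ} {q q' : K} (h : LatD D x y d q)
    (h' : LatD D x y d q') : LatD D x y d (q + q') := by
  obtain ⟨c, hc, rfl⟩ := h
  obtain ⟨c', hc', rfl⟩ := h'
  refine ⟨fun k => c k + c' k, fun k hk => by simp [hc k hk, hc' k hk], ?_⟩
  rw [← Finset.sum_add_distrib]
  refine Finset.sum_congr rfl fun k _ => ?_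
  rw [map_add, add_mul]

theorem LatD.mul {D : Gr} {x y : K} {d : ℕ} {q : K} (h : LatD D x y d q) (p : ℂ[X]) :
    LatD D x y d (aeval x p * q) := by
  obtain ⟨c, hc, rfl⟩ := h
  refine ⟨fun k => p * c k, fun k hk => by simp [hc k hk], ?_⟩
  rw [Finset.mul_sum]
  refine Finset.sum_congr rfl fun k _ => ?_
  rw [map_mul, mul_assoc]

theorem LatD.mono {D : Gr} {x y : K} {d d' : ℕ} (hd : d ≤ d') {q : K} (h : LatD D x y d q) :
    LatD D x y d' q := by
  obtain ⟨c, hc, rfl⟩ := h
  exact ⟨c, fun k hk => hc k (by omega), rfl⟩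

theorem LatD.sum {D : Gr} {x y : K} {d : ℕ} {ι : Type} (s : Finset ι) (f : ι → K)
    (h : ∀ i ∈ s, LatD D x y d (f i)) : LatD D x y d (∑ i ∈ s, f i) := by
  classical
  induction s using Finset.induction_on with
  | empty =>
    refine ⟨fun _ => 0, fun _ _ => rfl, by simp⟩
  | insert a s ha ih =>
    rw [Finset.sum_insert ha]
    exact (h a (Finset.mem_insert_self a s)).add (ih fun i hi => h i (Finset.mem_insert_of_mem hi))

theorem latD_nb (D : Gr) (x y : K) (k : Fin D.n) : LatD D x y k.val (nbG D x y k) := by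
  classical
  refine ⟨fun l => if l = k then 1 else 0, ?_, ?_⟩
  · intro l hl
    have : l ≠ k := fun h => by rw [h] at hl; omega
    simp [this]
  · rw [Finset.sum_eq_single k]
    · simp
    · intro l _ hl
      simp [hl]
    · simp

theorem nb_succ (D : Gr) (x y : K) (k k' : Fin D.n) (h : k'.val = k.val + 1) :
    nbG D x y k' = nbG D x y k * (y - D.b k x) := by
  classical
  unfold nbG
  have : (Finset.univ.filter (fun i : Fin D.n => i < k')) =
      insert k (Finset.univ.filter (fun i : Fin D.n => i < k)) := by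
    ext i
    simp only [Finset.mem_filter, Finset.mem_univ, true_and, Finset.mem_insert, Fin.lt_def,
      Fin.ext_iff]
    omega
  rw [this, Finset.prod_insert (by simp), mul_comm]

theorem LatD.mul_y {D : Gr} {x y : K} {d : ℕ} (hd : d + 1 < D.n) {q : K} (h : LatD D x y d q) :
    LatD D x y (d + 1) (y * q) := by
  obtain ⟨c, hc, rfl⟩ := h
  rw [Finset.mul_sum]
  refine LatD.sum _ _ fun k _ => ?_
  by_cases hk : d < k.val
  · rw [hc k hk]
    simp only [map_zero, zero_mul, mul_zero]
    exact ⟨fun _ => 0, fun _ _ => rfl, by simp⟩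
  · have hk' : k.val + 1 < D.n := by omega
    have e : y * (aeval x (c k) * nbG D x y k) =
        aeval x (c k) * (nbG D x y ⟨k.val + 1, hk'⟩ + aeval x (LWRM.bp D k) * nbG D x y k) := by
      rw [nb_succ D x y k ⟨k.val + 1, hk'⟩ rfl, LWRM.aeval_bp]
      ring
    rw [e]
    refine LatD.mul (LatD.add ?_ ?_) _
    · exact (latD_nb D x y ⟨k.val + 1, hk'⟩).mono (by simp only []; omega)
    · exact ((latD_nb D x y k).mono (by omega)).mul _

theorem latD_pow (D : Gr) (x y : K) (k : ℕ) (hk : k < D.n) : LatD D x y k (y ^ k) := by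
  induction k with
  | zero =>
    have := latD_zero D x y 1
    simpa using this
  | succ k ih =>
    rw [pow_succ']
    exact (ih (by omega)).mul_y hk

theorem LatD.inLat {D : Gr} {x y : K} {d : ℕ} (hd : d + 1 < D.n) {q : K} (h : LatD D x y d q) :
    InLatG D x y q := by
  obtain ⟨c, hc, rfl⟩ := h
  refine ⟨c, fun k hk => ?_, rfl⟩
  rw [hc k (by omega)]
  exact dvd_zero _

/-! ### the lattice -/

section lat

variable {D : Gr} {x y : K}

theorem inLat_add {q q' : K} (h : InLatG D x y q) (h' : InLatG D x y q') :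
    InLatG D x y (q + q') := by
  obtain ⟨c, hc, rfl⟩ := h
  obtain ⟨c', hc', rfl⟩ := h'
  refine ⟨fun k => c k + c' k, fun k hk => dvd_add (hc k hk) (hc' k hk), ?_⟩
  rw [← Finset.sum_add_distrib]
  refine Finset.sum_congr rfl fun k _ => ?_
  rw [map_add, add_mul]

theorem inLat_mul {q : K} (h : InLatG D x y q) (p : ℂ[X]) : InLatG D x y (aeval x p * q) := by
  obtain ⟨c, hc, rfl⟩ := h
  refine ⟨fun k => p * c k, fun k hk => dvd_mul_of_dvd_right (hc k hk) p, ?_⟩
  rw [Finset.mul_sum]
  refine Finset.sum_congr rfl fun k _ => ?_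
  rw [map_mul, mul_assoc]

theorem inLat_sum {ι : Type} (s : Finset ι) (f : ι → K) (h : ∀ i ∈ s, InLatG D x y (f i)) :
    InLatG D x y (∑ i ∈ s, f i) := by
  classical
  induction s using Finset.induction_on with
  | empty => exact ⟨fun _ => 0, fun _ _ => dvd_zero _, by simp⟩
  | insert a s ha ih =>
    rw [Finset.sum_insert ha]
    exact inLat_add (h a (Finset.mem_insert_self a s))
      (ih fun i hi => h i (Finset.mem_insert_of_mem hi))

theorem latD_pow_sub (l : Fin D.n) (k : ℕ) (hk : k < D.n) :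
    LatD D x y k ((y - D.b l x) ^ k) := by
  induction k with
  | zero =>
    have := latD_zero D x y 1
    simpa using this
  | succ k ih =>
    have h1 := ih (by omega)
    have e : (y - D.b l x) ^ (k + 1) =
        y * (y - D.b l x) ^ k + aeval x (-(LWRM.bp D l)) * (y - D.b l x) ^ k := by
      rw [map_neg, LWRM.aeval_bp]
      ring
    rw [e]
    exact (h1.mul_y hk).add ((h1.mul _).mono (by omega))

/-- the last line -/
def jl (D : Gr) : Fin D.n := ⟨D.n - 1, by have := D.hn; omega⟩

theorem nb_last : nbG D x y (jl D) = ∏ j ∈ Finset.univ.erase (jl D), (y - D.b j x) := by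
  classical
  unfold nbG
  refine Finset.prod_congr ?_ fun _ _ => rfl
  ext i
  simp only [Finset.mem_filter, Finset.mem_univ, true_and, Finset.mem_erase, and_true]
  constructor
  · intro h
    exact ne_of_lt h
  · intro h
    have h1 : i.val ≠ D.n - 1 := fun h' => h (Fin.ext h')
    have := i.isLt
    show i.val < D.n - 1
    omega

variable {lam : ℤ}

/-- `1 / (y - b_last)` -/
theorem inv_last (h : IsCurveG ℂ K D lam x y) :
    (y - D.b (jl D) x)⁻¹ = (lam : K) * (∏ i, (x - (D.a i : K))) * nbG D x y (jl D) := by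
  classical
  have h2 := h.eqn
  rw [← Finset.mul_prod_erase Finset.univ _ (Finset.mem_univ (jl D)), ← nb_last] at h2
  have h3 := LWRM.fac_ne h (jl D)
  field_simp
  linear_combination -h2

theorem inLat_inv (h : IsCurveG ℂ K D lam x y) : InLatG D x y (y - D.b (jl D) x)⁻¹ := by
  classical
  rw [inv_last h]
  refine ⟨fun k => if k = jl D then C (lam : ℂ) * ∏ i, (X - C (D.a i : ℂ)) else 0, ?_, ?_⟩
  · intro k hk
    have : k = jl D := Fin.ext (by show k.val = D.n - 1; omega)
    beta_reduce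
    rw [if_pos this]
    exact dvd_mul_left _ _
  · rw [Finset.sum_eq_single (jl D)]
    · beta_reduce
      rw [if_pos rfl, map_mul, map_prod, aeval_C]
      congr 2
      · simp
      · refine Finset.prod_congr rfl fun i _ => ?_
        simp
    · intro k _ hk
      beta_reduce
      rw [if_neg hk, map_zero, zero_mul]
    · intro h
      exact absurd (Finset.mem_univ _) h

/-- `w^(n-2) * ∑ ℂ[x] Y^r ⊆` lattice -/
theorem inLat_of_polD (h : IsCurveG ℂ K D lam x y) {z : K}
    (hz : PolD x (y - D.b (jl D) x)⁻¹ D.n z) :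
    InLatG D x y ((y - D.b (jl D) x) ^ (D.n - 2) * z) := by
  obtain ⟨c, rfl⟩ := hz
  have hn := D.hn
  have hw := LWRM.fac_ne h (jl D)
  rw [Finset.mul_sum]
  refine inLat_sum _ _ fun r hr => ?_
  have hr' := Finset.mem_range.1 hr
  rw [← mul_assoc, mul_comm ((y - D.b (jl D) x) ^ (D.n - 2)), mul_assoc]
  refine inLat_mul ?_ _
  by_cases hr2 : r ≤ D.n - 2
  · have e : (y - D.b (jl D) x) ^ (D.n - 2) * ((y - D.b (jl D) x)⁻¹) ^ r =
        (y - D.b (jl D) x) ^ (D.n - 2 - r) := by
      rw [inv_pow, pow_sub₀ _ hw hr2]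
    rw [e]
    exact (latD_pow_sub (jl D) (D.n - 2 - r) (by omega)).inLat (by omega)
  · have e : (y - D.b (jl D) x) ^ (D.n - 2) * ((y - D.b (jl D) x)⁻¹) ^ r =
        (y - D.b (jl D) x)⁻¹ := by
      have : r = D.n - 2 + 1 := by omega
      rw [this, pow_succ, inv_pow, ← mul_assoc, mul_inv_cancel₀ (pow_ne_zero _ hw), one_mul]
    rw [e]
    exact inLat_inv h

end lat

/-! ### the equation of `1 / (y - b_last)` -/

section eqn

/-- the equation -/
noncomputable def G0 (D : Gr) (lam : ℤ) : ℂ[X][X] :=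
  X ^ D.n - C (C (lam : ℂ) * ∏ i, (X - C (D.a i : ℂ))) *
    ∏ j ∈ Finset.univ.erase (jl D), (1 - C (LWRM.bp D j - LWRM.bp D (jl D)) * X)

theorem natDegree_aux (D : Gr) (lam : ℤ) :
    (C (C (lam : ℂ) * ∏ i, (X - C (D.a i : ℂ))) *
      ∏ j ∈ Finset.univ.erase (jl D),
        (1 - C (LWRM.bp D j - LWRM.bp D (jl D)) * X) : ℂ[X][X]).natDegree ≤ D.n - 1 := by
  classical
  refine (Polynomial.natDegree_C_mul_le _ _).trans ?_
  refine (Polynomial.natDegree_prod_le _ _).trans ?_
  refine (Finset.sum_le_card_nsmul _ _ 1 fun j _ => ?_).trans ?_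
  · refine (Polynomial.natDegree_sub_le _ _).trans ?_
    rw [Polynomial.natDegree_one]
    refine max_le (by omega) ?_
    exact (Polynomial.natDegree_C_mul_le _ _).trans Polynomial.natDegree_X_le
  · rw [Finset.card_erase_of_mem (Finset.mem_univ _), Finset.card_univ, Fintype.card_fin]
    simp

theorem G0_monic (D : Gr) (lam : ℤ) : (G0 D lam).Monic := by
  have hn := D.hn
  refine Polynomial.Monic.sub_of_left (Polynomial.monic_X_pow _) ?_
  rw [Polynomial.degree_X_pow]
  refine (Polynomial.degree_le_natDegree.trans (WithBot.coe_le_coe.2 (natDegree_aux D lam))).trans_lt ?_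
  exact WithBot.coe_lt_coe.2 (by omega : D.n - 1 < D.n)

theorem G0_natDegree (D : Gr) (lam : ℤ) : (G0 D lam).natDegree = D.n := by
  have hn := D.hn
  unfold G0
  rw [Polynomial.natDegree_sub_eq_left_of_natDegree_lt, Polynomial.natDegree_X_pow]
  rw [Polynomial.natDegree_X_pow]
  exact lt_of_le_of_lt (natDegree_aux D lam) (by omega)

variable {D : Gr} {lam : ℤ} {x y : K}

theorem ph_A (D : Gr) (lam : ℤ) (x : K) : ph x (C (lam : ℂ) * ∏ i, (X - C (D.a i : ℂ))) =
    (lam : K) * ∏ i, (x - (D.a i : K)) := by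
  rw [ph_apply, map_mul, map_prod, aeval_C]
  congr 1
  · simp
  · refine Finset.prod_congr rfl fun i _ => ?_
    simp

theorem ph_sub (D : Gr) (j l : Fin D.n) (x : K) :
    ph x (LWRM.bp D j - LWRM.bp D l) = D.b j x - D.b l x := by
  rw [ph_apply, map_sub, LWRM.aeval_bp, LWRM.aeval_bp]

theorem fac_u (h : IsCurveG ℂ K D lam x y) (j : Fin D.n) :
    1 - (D.b j x - D.b (jl D) x) * (y - D.b (jl D) x)⁻¹ =
      (y - D.b j x) * (y - D.b (jl D) x)⁻¹ := by
  have := LWRM.fac_ne h (jl D)
  field_simp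
  ring

theorem prod_u (h : IsCurveG ℂ K D lam x y) :
    (lam : K) * (∏ i, (x - (D.a i : K))) *
      ∏ j ∈ Finset.univ.erase (jl D), (1 - (D.b j x - D.b (jl D) x) * (y - D.b (jl D) x)⁻¹) =
      ((y - D.b (jl D) x)⁻¹) ^ D.n := by
  classical
  have hn := D.hn
  have hw := LWRM.fac_ne h (jl D)
  rw [Finset.prod_congr rfl fun j _ => fac_u h j, Finset.prod_mul_distrib, Finset.prod_const,
    Finset.card_erase_of_mem (Finset.mem_univ _), Finset.card_univ, Fintype.card_fin, ← nb_last,
    ← mul_assoc, ← inv_last h]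
  conv_rhs => rw [show D.n = D.n - 1 + 1 by omega, pow_succ]
  rw [mul_comm]

theorem eval_G0 (h : IsCurveG ℂ K D lam x y) :
    (G0 D lam).eval₂ (ph x) (y - D.b (jl D) x)⁻¹ = 0 := by
  classical
  unfold G0
  rw [eval₂_sub, eval₂_mul, eval₂_pow, eval₂_X, eval₂_C, ph_A, eval₂_finsetProd]
  rw [Finset.prod_congr rfl fun j _ => (show
    eval₂ (ph x) (y - D.b (jl D) x)⁻¹ (1 - C (LWRM.bp D j - LWRM.bp D (jl D)) * X) =
      1 - (D.b j x - D.b (jl D) x) * (y - D.b (jl D) x)⁻¹ by
        rw [eval₂_sub, eval₂_mul, eval₂_X, eval₂_C, eval₂_one, ph_sub])]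
  rw [prod_u h, sub_self]

theorem eval_dG0 (h : IsCurveG ℂ K D lam x y) :
    (y - D.b (jl D) x) ^ (D.n - 2) *
      (derivative (G0 D lam)).eval₂ (ph x) (y - D.b (jl D) x)⁻¹ = pwG D x y := by
  classical
  have hn := D.hn
  have hw := LWRM.fac_ne h (jl D)
  set w := y - D.b (jl D) x with hwdef
  have hu : ∀ j, 1 - (D.b j x - D.b (jl D) x) * w⁻¹ ≠ 0 := by
    intro j
    rw [hwdef, fac_u h j]
    exact mul_ne_zero (LWRM.fac_ne h j) (inv_ne_zero hw)
  unfold G0
  rw [derivative_sub, derivative_X_pow, derivative_C_mul, derivative_prod_finset, eval₂_sub, eval₂_mul,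
    eval₂_mul, eval₂_C, eval₂_C, ph_A, eval₂_finsetSum, eval₂_pow, eval₂_X, map_natCast]
  have e1 : ∀ j ∈ Finset.univ.erase (jl D),
      eval₂ (ph x) w⁻¹ ((∏ i ∈ (Finset.univ.erase (jl D)).erase j,
        (1 - C (LWRM.bp D i - LWRM.bp D (jl D)) * X)) *
          derivative (1 - C (LWRM.bp D j - LWRM.bp D (jl D)) * X)) =
      -((∏ i ∈ Finset.univ.erase (jl D), (1 - (D.b i x - D.b (jl D) x) * w⁻¹)) *
        ((1 - (D.b j x - D.b (jl D) x) * w⁻¹)⁻¹ * (D.b j x - D.b (jl D) x))) := by
    intro j hj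
    rw [eval₂_mul, eval₂_finsetProd, derivative_sub, derivative_one, derivative_C_mul,
      derivative_X, mul_one, zero_sub, eval₂_neg, eval₂_C, ph_sub]
    rw [Finset.prod_congr rfl fun i _ => (show
      eval₂ (ph x) w⁻¹ (1 - C (LWRM.bp D i - LWRM.bp D (jl D)) * X) =
        1 - (D.b i x - D.b (jl D) x) * w⁻¹ by
          rw [eval₂_sub, eval₂_mul, eval₂_X, eval₂_C, eval₂_one, ph_sub])]
    rw [← Finset.mul_prod_erase (Finset.univ.erase (jl D)) _ hj]
    have huj := hu j
    generalize (∏ i ∈ (Finset.univ.erase (jl D)).erase j,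
      (1 - (D.b i x - D.b (jl D) x) * w⁻¹)) = P
    have e3 : (1 - (D.b j x - D.b (jl D) x) * w⁻¹) *
        (1 - (D.b j x - D.b (jl D) x) * w⁻¹)⁻¹ = 1 := mul_inv_cancel₀ huj
    linear_combination (P * (D.b j x - D.b (jl D) x)) * e3
  rw [Finset.sum_congr rfl e1, Finset.sum_neg_distrib, ← Finset.mul_sum, mul_neg, sub_neg_eq_add,
    ← mul_assoc, prod_u h]
  have e2 : ∀ j ∈ Finset.univ.erase (jl D),
      (1 - (D.b j x - D.b (jl D) x) * w⁻¹)⁻¹ * (D.b j x - D.b (jl D) x) =
        w ^ 2 * (y - D.b j x)⁻¹ - w := by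
    intro j _
    rw [hwdef, fac_u h j]
    have h1 := LWRM.fac_ne h j
    rw [← hwdef]
    field_simp
    rw [hwdef]
    ring
  rw [Finset.sum_congr rfl e2, Finset.sum_sub_distrib, Finset.sum_const,
    Finset.card_erase_of_mem (Finset.mem_univ _), Finset.card_univ, Fintype.card_fin,
    ← Finset.mul_sum, nsmul_eq_mul]
  unfold pwG
  rw [← Finset.add_sum_erase Finset.univ _ (Finset.mem_univ (jl D)), ← hwdef]
  obtain ⟨m, hm⟩ : ∃ m, D.n = m + 2 := ⟨D.n - 2, by omega⟩
  generalize (∑ i ∈ Finset.univ.erase (jl D), (y - D.b i x)⁻¹) = S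
  rw [hm]
  simp only [Nat.add_sub_cancel, show m + 2 - 1 = m + 1 by omega]
  push_cast
  have hwm : w ^ m ≠ 0 := pow_ne_zero _ hw
  rw [inv_pow, inv_pow, pow_succ w (m + 1), pow_succ w m]
  field_simp
  ring

end eqn

end UPLM

/-- UPPER, lattice half -/
theorem specUPL (hTrace : SpecTrace) (hIRP : SpecIRP) : SpecUPL := by
  intro K _ _ D lam x y δ h hδ f hf
  classical
  obtain ⟨-, hI⟩ := hIRP ℂ D lam (LWRM.lam_ne h)
  obtain ⟨-, hfin, hrank⟩ := hI K x y h
  have : FiniteDimensional (Ct x) K := hfin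
  have : CharZero K := charZero_of_injective_algebraMap (algebraMap ℂ K).injective
  have : CharZero (Ct x) := charZero_of_injective_algebraMap (algebraMap ℂ (Ct x)).injective
  have hw := LWRM.fac_ne h (UPLM.jl D)
  set Y : K := (y - D.b (UPLM.jl D) x)⁻¹ with hY
  -- the generator
  set gx : Ct x := IntermediateField.AdjoinSimple.gen ℂ x with hgx
  have hgx' : algebraMap (Ct x) K gx = x := IntermediateField.AdjoinSimple.algebraMap_gen ℂ x
  set ψ : ℂ[X] →+* Ct x := ((aeval gx : ℂ[X] →ₐ[ℂ] Ct x) : ℂ[X] →+* Ct x) with hψ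
  have hcomp : (algebraMap (Ct x) K).comp ψ = Upper.ph x := by
    ext p
    · simp [hψ, Upper.ph]
    · simp [hψ, Upper.ph, hgx']
  have hgen : IntermediateField.adjoin (Ct x) {Y} = ⊤ := by
    rw [eq_top_iff]
    have h1 : (IntermediateField.adjoin ℂ {x, y} : IntermediateField ℂ K) ≤
        (IntermediateField.adjoin (Ct x) {Y}).restrictScalars ℂ := by
      rw [IntermediateField.adjoin_le_iff]
      have hx : x ∈ IntermediateField.adjoin (Ct x) {Y} := by
        rw [← hgx']
        exact IntermediateField.algebraMap_mem _ _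
      have hYm : Y ∈ IntermediateField.adjoin (Ct x) {Y} :=
        IntermediateField.mem_adjoin_simple_self _ _
      have hb : D.b (UPLM.jl D) x ∈ IntermediateField.adjoin (Ct x) {Y} := by
        rw [← LWRM.aeval_bp, aeval_eq_sum_range]
        refine sum_mem fun i _ => ?_
        rw [Algebra.smul_def]
        refine mul_mem ?_ (pow_mem hx i)
        rw [IsScalarTower.algebraMap_apply ℂ (Ct x) K]
        exact IntermediateField.algebraMap_mem _ _
      rintro z (rfl | rfl)
      · exact hx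
      · have h2 := add_mem (inv_mem hYm) hb
        rw [hY, inv_inv, sub_add_cancel] at h2
        exact h2
    rw [h.gen] at h1
    intro z _
    exact h1 (IntermediateField.mem_top)
  have hmin : minpoly (Ct x) Y = (UPLM.G0 D lam).map ψ := by
    refine Upper.minpoly_eq ((UPLM.G0_monic D lam).map ψ) ?_ ?_ hgen
    · rw [(UPLM.G0_monic D lam).natDegree_map, UPLM.G0_natDegree, ← hrank]
    · rw [aeval_def, eval₂_map, hcomp]
      exact UPLM.eval_G0 h
  have hnd : (minpoly (Ct x) Y).natDegree = D.n := by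
    rw [hmin, (UPLM.G0_monic D lam).natDegree_map, UPLM.G0_natDegree]
  have hmain := Upper.polD_main (f := f) hgen (by
    intro i
    refine ⟨(UPLM.G0 D lam).coeff i, ?_⟩
    rw [hmin, coeff_map]
    exact RingHom.congr_fun hcomp _) (by
    intro i
    refine (hTrace K x δ h.transc hfin hδ (f * Y ^ i)).1 ?_
    intro V hV hx
    rw [mul_comm]
    exact MP743d1e.Low.RegD.mul (pow_mem (LWRM.fac_inv_mem h hV hx _) i) (hf V hV))
  rw [hnd] at hmain
  have hres := UPLM.inLat_of_polD h hmain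
  have e : (y - D.b (UPLM.jl D) x) ^ (D.n - 2) *
      (f * aeval Y (derivative (minpoly (Ct x) Y))) = f * pwG D x y := by
    rw [hmin, derivative_map, aeval_def, eval₂_map, hcomp, ← UPLM.eval_dG0 h]
    ring
  rwa [e] at hres

end MP743d1e.GA
end
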