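import Pool.Agent.Lib.MP_743d1e_nt.GA.Defs
import Pool.Agent.Lib.MP_743d1e_nt.GA.SpecK
import Pool.Agent.Lib.MP_743d1e_nt.HY.ENE
import Pool.Agent.Lib.MP_743d1e_nt.Kae
import Pool.Agent.Lib.MP_743d1e_nt.LA.RGL

section
/-!
# Arrangements of graphs: basic facts
-/
set_option autoImplicit false

namespace MP743d1e.GA

open scoped BigOperators
open Polynomial

namespace Gr

variable (D : Gr)

theorem b_map {K L : Type} [Field K] [Field L] (φ : K →+* L) (j : Fin D.n) (x : K) :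
    φ (D.b j x) = D.b j (φ x) := by
  unfold b
  rw [aeval_def, aeval_def, hom_eval₂]
  congr 1
  exact RingHom.ext_int _ _

theorem b_sub {K : Type} [Field K] {j l : Fin D.n} (h : j ≠ l) (x : K) :
    D.b j x - D.b l x = (D.kap j l : K) * ∏ r ∈ D.R j l, (x - (r : K)) := by
  unfold b
  rw [← map_sub, D.diff j l h, map_mul, map_prod, aeval_C]
  simp

theorem eval_sub {j l : Fin D.n} (h : j ≠ l) (c : ℤ) :
    (D.P j).eval c - (D.P l).eval c = D.kap j l * ∏ r ∈ D.R j l, (c - r) := by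
  rw [← Polynomial.eval_sub, D.diff j l h, eval_mul, eval_prod, eval_C]
  simp

theorem mem_R {j l : Fin D.n} (h : j ≠ l) (r : ℤ) :
    r ∈ D.R j l ↔ (D.P j).eval r = (D.P l).eval r := by
  rw [← sub_eq_zero, D.eval_sub h, mul_eq_zero, Finset.prod_eq_zero_iff]
  constructor
  · intro hr
    exact Or.inr ⟨r, hr, sub_self _⟩
  · rintro (h1 | ⟨r', hr', h2⟩)
    · exact absurd h1 (D.kap_ne j l h)
    · have : r = r' := sub_eq_zero.mp h2
      rwa [this]

theorem R_symm {j l : Fin D.n} (h : j ≠ l) : D.R l j = D.R j l := by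
  ext r
  rw [D.mem_R h, D.mem_R h.symm]
  exact eq_comm

theorem prod_monic (S : Finset ℤ) : (∏ r ∈ S, (X - C r) : ℤ[X]).Monic :=
  monic_prod_of_monic _ _ fun r _ => monic_X_sub_C r

theorem kap_symm {j l : Fin D.n} (h : j ≠ l) : D.kap l j = -D.kap j l := by
  have h1 : C (D.kap l j) * ∏ r ∈ D.R j l, (X - C r) = C (-D.kap j l) * ∏ r ∈ D.R j l, (X - C r) := by
    rw [← D.R_symm h, ← D.diff l j h.symm, D.R_symm h, C_neg, neg_mul, ← D.diff j l h]
    ring
  have h2 := mul_right_cancel₀ (prod_monic (D.R j l)).ne_zero h1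
  exact C_injective h2

theorem sub_ne {j l : Fin D.n} (h : j ≠ l) : D.P j - D.P l ≠ 0 := by
  rw [D.diff j l h]
  refine mul_ne_zero ?_ (prod_monic _).ne_zero
  rw [Ne, C_eq_zero]
  exact D.kap_ne j l h

theorem P_inj : Function.Injective D.P := by
  intro j l h
  by_contra hne
  exact D.sub_ne hne (sub_eq_zero.mpr h)

theorem natDegree_sub {j l : Fin D.n} (h : j ≠ l) : (D.P j - D.P l).natDegree = (D.R j l).card := by
  rw [D.diff j l h, natDegree_C_mul (D.kap_ne j l h), natDegree_prod_of_monic _ _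
    fun r _ => monic_X_sub_C r, Finset.sum_congr rfl fun r _ => natDegree_X_sub_C r]
  simp

theorem leadingCoeff_sub {j l : Fin D.n} (h : j ≠ l) :
    (D.P j - D.P l).leadingCoeff = D.kap j l := by
  rw [D.diff j l h, leadingCoeff_mul, leadingCoeff_C, (prod_monic _).leadingCoeff, mul_one]

/-- The ultrametric inequality for the numbers of crossings. -/
theorem ultra {j l h : Fin D.n} (h1 : j ≠ l) (h2 : j ≠ h) (h3 : h ≠ l) :
    (D.R j l).card ≤ max (D.R j h).card (D.R h l).card := by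
  rw [← D.natDegree_sub h1, ← D.natDegree_sub h2, ← D.natDegree_sub h3]
  have : D.P j - D.P l = (D.P j - D.P h) + (D.P h - D.P l) := by ring
  rw [this]
  exact natDegree_add_le _ _

theorem card_le_d {j l : Fin D.n} (h : j ≠ l) : (D.R j l).card ≤ D.d := by
  rw [← D.natDegree_sub h]
  unfold d
  have h1 := Finset.le_sup (f := fun z : Fin D.n × Fin D.n => (D.P z.1 - D.P z.2).natDegree)
    (Finset.mem_univ (j, l))
  exact h1

theorem b_intCast {K : Type} [Field K] (j : Fin D.n) (c : ℤ) :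
    D.b j (c : K) = (((D.P j).eval c : ℤ) : K) := by
  unfold b
  rw [aeval_def, show (c : K) = (Int.castRingHom K) c from rfl,
    show algebraMap ℤ K = Int.castRingHom K from rfl, eval₂_at_apply]
  rfl

theorem partner {j l l' : Fin D.n} {c : ℤ} (h : j ≠ l) (h' : j ≠ l') (hc : c ∈ D.R j l)
    (hc' : c ∈ D.R j l') : l = l' := by
  by_contra hne
  exact Finset.disjoint_left.mp (D.no_triple j l l' h h' hne) hc hc'

theorem eval_a_ne {j l : Fin D.n} (h : j ≠ l) (i : Fin D.m) :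
    (D.P j).eval (D.a i) ≠ (D.P l).eval (D.a i) := by
  rw [Ne, ← D.mem_R h]
  exact D.cross_a j l i h

theorem prod_ne {K : Type} [Field K] [CharZero K] {j l : Fin D.n} (h : j ≠ l) {c : ℤ}
    (hc : c ∉ D.R j l) : D.b j (c : K) ≠ D.b l (c : K) := by
  rw [D.b_intCast, D.b_intCast, Ne, Int.cast_inj, ← D.mem_R h]
  exact hc

/-- Above a point that is not one of the integers `R j l` the graphs `j` and `l` are different. -/
theorem b_ne {K : Type} [Field K] [CharZero K] {j l : Fin D.n} (h : j ≠ l) {x : K}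
    (hx : ∀ r ∈ D.R j l, x ≠ (r : K)) : D.b j x ≠ D.b l x := by
  rw [← sub_ne_zero, D.b_sub h]
  refine mul_ne_zero (by exact_mod_cast D.kap_ne j l h) (Finset.prod_ne_zero_iff.mpr fun r hr => ?_)
  exact sub_ne_zero.mpr (hx r hr)

theorem node_iff (j : Fin D.n) (c : ℤ) : D.Node j c ↔ c ∈ D.ns j := by
  unfold Node ns cr
  simp only [Finset.mem_union, Finset.mem_image, Finset.mem_univ, true_and, Finset.mem_biUnion,
    Finset.mem_erase, and_true]
  constructor
  · rintro (⟨i, rfl⟩ | ⟨l, h1, h2⟩)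
    · exact Or.inl ⟨i, rfl⟩
    · exact Or.inr ⟨l, h1, h2⟩
  · rintro (⟨i, rfl⟩ | ⟨l, h1, h2⟩)
    · exact Or.inl ⟨i, rfl⟩
    · exact Or.inr ⟨l, h1, h2⟩

end Gr

end MP743d1e.GA
end

section
/-!
# Arrangements of graphs: positivity of the form (ENG)
-/
set_option autoImplicit false

namespace MP743d1e.GA

open scoped BigOperators
open Polynomial

namespace ENGM

variable {D : Gr}

theorem sum_ns (j : Fin D.n) (f : ℤ → ℝ) :
    ∑ s ∈ D.ns j, f s = ∑ i, f (D.a i) + ∑ s ∈ D.cr j, f s := by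
  unfold Gr.ns
  rw [Finset.sum_union, Finset.sum_image (fun x _ y _ h => D.a_inj h)]
  rw [Finset.disjoint_left]
  intro s hs hs'
  obtain ⟨i, -, rfl⟩ := Finset.mem_image.1 hs
  obtain ⟨l, hl, h⟩ := Finset.mem_biUnion.1 hs'
  exact D.cross_a j l i (Finset.mem_erase.1 hl).1.symm h

theorem sum_cr (j : Fin D.n) (f : ℤ → ℝ) :
    ∑ s ∈ D.cr j, f s = ∑ h ∈ Finset.univ.erase j, ∑ s ∈ D.R j h, f s := by
  unfold Gr.cr
  rw [Finset.sum_biUnion]
  intro l hl l' hl' hne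
  exact D.no_triple j l l' (Finset.ne_of_mem_erase (Finset.mem_coe.1 hl)).symm
    (Finset.ne_of_mem_erase (Finset.mem_coe.1 hl')).symm hne

theorem mem_ns_a (j : Fin D.n) (i : Fin D.m) : D.a i ∈ D.ns j :=
  Finset.mem_union_left _ (Finset.mem_image_of_mem _ (Finset.mem_univ i))

theorem mem_ns_R {j l : Fin D.n} (h : j ≠ l) {c : ℤ} (hc : c ∈ D.R j l) : c ∈ D.ns j :=
  Finset.mem_union_right _ (Finset.mem_biUnion.2
    ⟨l, Finset.mem_erase.2 ⟨h.symm, Finset.mem_univ _⟩, hc⟩)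

/-- One term of the energy of a graph. -/
noncomputable def U (D : Gr) (z : Fin D.n → ℤ → ℝ) (j : Fin D.n) (c : ℤ) : ℝ :=
  z j c * ∑ s ∈ D.ns j, z j s * Real.log |(c : ℝ) - s|

theorem E_le (z : Fin D.n → ℤ → ℝ) (hF : Flow D z) (j : Fin D.n) :
    ∑ c ∈ D.ns j, U D z j c ≤ Real.log 2 * ∑ s ∈ D.ns j, z j s ^ 2 := by
  have h1 := Hy.ENEM.energy (fun k : {s // s ∈ D.ns j} => (k : ℤ)) Subtype.val_injective
    (fun k => z j k.1) (by
      rw [Finset.sum_coe_sort (D.ns j) (fun s => z j s)]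
      exact hF.horiz j)
  rw [Finset.sum_coe_sort (D.ns j) (fun s => z j s ^ 2)] at h1
  refine le_trans (le_of_eq ?_) h1
  rw [← Finset.sum_coe_sort (D.ns j) (fun c => U D z j c)]
  refine Finset.sum_congr rfl fun k _ => ?_
  unfold U
  rw [← Finset.sum_coe_sort (D.ns j) (fun s => z j s * Real.log |((k : ℤ) : ℝ) - s|),
    Finset.mul_sum]
  exact Finset.sum_congr rfl fun l _ => by ring

/-- The energy of the ordinates above `a i`. -/
noncomputable def W (D : Gr) (z : Fin D.n → ℤ → ℝ) (i : Fin D.m) : ℝ :=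
  ∑ j, ∑ l ∈ Finset.univ.erase j, z j (D.a i) * (z l (D.a i) * D.lk j l (D.a i))

theorem W_le (hSTG : SpecSTG) (z : Fin D.n → ℤ → ℝ) (hF : Flow D z) (i : Fin D.m) :
    W D z i ≤ Real.log 2 * ∑ j, z j (D.a i) ^ 2 := by
  have h1 := Hy.ENEM.energy (fun j : Fin D.n => (D.P j).eval (D.a i)) (by
    intro j l h
    by_contra hne
    exact D.eval_a_ne hne i h) (fun j => z j (D.a i)) (hF.vert i)
  refine le_trans (le_of_eq ?_) h1
  unfold W
  refine Finset.sum_congr rfl fun j _ => ?_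
  rw [← Finset.add_sum_erase _ _ (Finset.mem_univ j)]
  simp only [sub_self, abs_zero, Real.log_zero, mul_zero, zero_add]
  refine Finset.sum_congr rfl fun l hl => ?_
  have hne : j ≠ l := (Finset.ne_of_mem_erase hl).symm
  rw [(hSTG D).2.2.2.2.1 j l (D.a i) hne (D.cross_a j l i hne)]
  ring

theorem swap (g : Fin D.n → Fin D.n → ℝ) :
    ∑ j, ∑ h ∈ Finset.univ.erase j, g j h = ∑ j, ∑ h ∈ Finset.univ.erase j, g h j := by
  have key : ∀ f : Fin D.n → Fin D.n → ℝ, ∑ j, ∑ h ∈ Finset.univ.erase j, f j h =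
      ∑ j, ∑ h, (f j h - if h = j then f j j else 0) := by
    intro f
    refine Finset.sum_congr rfl fun j _ => ?_
    rw [Finset.sum_sub_distrib, Finset.sum_ite_eq' Finset.univ j (fun _ => f j j)]
    rw [← Finset.add_sum_erase _ _ (Finset.mem_univ j)]
    simp
  rw [key, key, Finset.sum_comm]
  refine Finset.sum_congr rfl fun j _ => Finset.sum_congr rfl fun h _ => ?_
  by_cases hj : h = j
  · subst hj
    simp
  · rw [if_neg hj, if_neg (Ne.symm hj)]

theorem partA (hVFF : SpecVFF) (lam : ℤ) (z : Fin D.n → ℤ → ℝ) (hF : Flow D z) :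
    ∑ i, ∑ j, z j (D.a i) * V D lam z j (D.a i) =
      (∑ i, ∑ j, z j (D.a i) ^ 2 * D.Lam lam j (D.a i)) - (∑ j, ∑ i, U D z j (D.a i)) -
        ∑ i, W D z i := by
  rw [Finset.sum_comm (f := fun j i => U D z j (D.a i)), ← Finset.sum_sub_distrib,
    ← Finset.sum_sub_distrib]
  refine Finset.sum_congr rfl fun i _ => ?_
  unfold W
  rw [← Finset.sum_sub_distrib, ← Finset.sum_sub_distrib]
  refine Finset.sum_congr rfl fun j _ => ?_
  rw [(hVFF D lam z hF).1 j i, ← Finset.mul_sum]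
  unfold U
  ring

theorem partB (hVFF : SpecVFF) (lam : ℤ) (z : Fin D.n → ℤ → ℝ) (hF : Flow D z) :
    ∑ j, ∑ s ∈ D.cr j, z j s * V D lam z j s =
      (∑ j, ∑ h ∈ Finset.univ.erase j, ∑ s ∈ D.R j h, z j s ^ 2 * (D.Lam lam j s + D.lk j h s)) -
        2 * ∑ j, ∑ s ∈ D.cr j, U D z j s := by
  have h1 : ∑ j, ∑ s ∈ D.cr j, z j s * V D lam z j s =
      ∑ j, ∑ h ∈ Finset.univ.erase j, ((∑ s ∈ D.R j h, z j s ^ 2 * (D.Lam lam j s + D.lk j h s)) -
        (∑ s ∈ D.R j h, U D z h s) - ∑ s ∈ D.R j h, U D z j s) := by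
    refine Finset.sum_congr rfl fun j _ => ?_
    rw [sum_cr]
    refine Finset.sum_congr rfl fun h hh => ?_
    have hne : j ≠ h := (Finset.ne_of_mem_erase hh).symm
    rw [← Finset.sum_sub_distrib, ← Finset.sum_sub_distrib]
    refine Finset.sum_congr rfl fun s hs => ?_
    rw [(hVFF D lam z hF).2 j h s hne hs]
    have h2 : z j s = -z h s := by linarith [hF.pair j h s hne hs]
    have h3 : z j s * ∑ t ∈ D.ns h, z h t * Real.log |(s : ℝ) - t| = -U D z h s := by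
      unfold U
      rw [h2]
      ring
    have h4 : z j s * ∑ t ∈ D.ns j, z j t * Real.log |(s : ℝ) - t| = U D z j s := rfl
    rw [mul_sub, mul_add, h3, h4]
    ring
  have h5 : ∑ j, ∑ h ∈ Finset.univ.erase j, ∑ s ∈ D.R j h, U D z h s =
      ∑ j, ∑ s ∈ D.cr j, U D z j s := by
    rw [swap (fun j h => ∑ s ∈ D.R j h, U D z h s)]
    refine Finset.sum_congr rfl fun j _ => ?_
    rw [sum_cr]
    refine Finset.sum_congr rfl fun h hh => ?_
    rw [D.R_symm (Finset.ne_of_mem_erase hh).symm]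
  have h6 : ∑ j, ∑ h ∈ Finset.univ.erase j, ∑ s ∈ D.R j h, U D z j s =
      ∑ j, ∑ s ∈ D.cr j, U D z j s :=
    Finset.sum_congr rfl fun j _ => (sum_cr j _).symm
  rw [h1]
  simp only [Finset.sum_sub_distrib]
  rw [h5, h6]
  ring

end ENGM

open ENGM in
/-- ENG -/
theorem specENG (hSTG : SpecSTG) (hVFF : SpecVFF) : SpecENG := by
  intro D lam ℓ z hF hℓ
  have hA : ∑ i, ∑ j, ℓ * z j (D.a i) ^ 2 ≤ ∑ i, ∑ j, z j (D.a i) ^ 2 * D.Lam lam j (D.a i) := by
    refine Finset.sum_le_sum fun i _ => Finset.sum_le_sum fun j _ => ?_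
    rw [mul_comm]
    exact mul_le_mul_of_nonneg_left (hℓ j _ (mem_ns_a j i)) (sq_nonneg _)
  have hB : ∑ j, ∑ s ∈ D.cr j, ℓ * z j s ^ 2 ≤
      ∑ j, ∑ h ∈ Finset.univ.erase j, ∑ s ∈ D.R j h,
        z j s ^ 2 * (D.Lam lam j s + D.lk j h s) := by
    refine Finset.sum_le_sum fun j _ => ?_
    rw [sum_cr]
    refine Finset.sum_le_sum fun h hh => Finset.sum_le_sum fun s hs => ?_
    have hne : j ≠ h := (Finset.ne_of_mem_erase hh).symm
    rw [mul_comm]
    refine mul_le_mul_of_nonneg_left ?_ (sq_nonneg _)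
    have h1 := hℓ j s (mem_ns_R hne hs)
    have h2 := (hSTG D).2.2.2.2.2.2.1 j h s hne
    linarith
  have hE : ∑ j, (∑ i, U D z j (D.a i) + ∑ s ∈ D.cr j, U D z j s) ≤
      ∑ j, Real.log 2 * (∑ i, z j (D.a i) ^ 2 + ∑ s ∈ D.cr j, z j s ^ 2) := by
    refine Finset.sum_le_sum fun j _ => ?_
    have h1 := E_le z hF j
    rw [sum_ns, sum_ns] at h1
    exact h1
  have hW : ∑ i, W D z i ≤ ∑ i, Real.log 2 * ∑ j, z j (D.a i) ^ 2 :=
    Finset.sum_le_sum fun i _ => W_le hSTG z hF i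
  simp only [← Finset.mul_sum, Finset.sum_add_distrib] at hA hB hE hW
  rw [Finset.sum_comm (f := fun j i => z j (D.a i) ^ 2)] at hE
  unfold ip
  rw [partA hVFF lam z hF, partB hVFF lam z hF]
  have e1 : ∑ i, ∑ j, z j (D.a i) * z j (D.a i) = ∑ i, ∑ j, z j (D.a i) ^ 2 :=
    Finset.sum_congr rfl fun i _ => Finset.sum_congr rfl fun j _ => by ring
  have e2 : ∑ j, ∑ s ∈ D.cr j, z j s * z j s = ∑ j, ∑ s ∈ D.cr j, z j s ^ 2 :=
    Finset.sum_congr rfl fun j _ => Finset.sum_congr rfl fun s _ => by ring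
  rw [e1, e2]
  nlinarith

end MP743d1e.GA
end

section
/-!
# Arrangements of graphs: finitely many exceptions
-/
set_option autoImplicit false

namespace MP743d1e.GA

open scoped BigOperators
open Polynomial

namespace FNKM

theorem one_le_abs {d : ℤ} (h : d ≠ 0) : (1 : ℝ) ≤ |(d : ℝ)| := by
  have h1 := Int.one_le_abs h
  exact_mod_cast h1

theorem fx_ge (c s : ℤ) : 3 / 8 ≤ Gr.fx c s := by
  unfold Gr.fx
  split_ifs with h
  · norm_num
  · have h1 : (1 : ℝ) ≤ |((c - s : ℤ) : ℝ)| := one_le_abs (sub_ne_zero.2 (Ne.symm h))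
    push_cast at h1
    linarith

theorem fx_abs (c s : ℤ) : |(c : ℝ) - s| ≤ Gr.fx c s + 1 / 2 := by
  unfold Gr.fx
  split_ifs with h
  · rw [h, sub_self, abs_zero]
    norm_num
  · linarith

theorem prod_ge {ι : Type} (S : Finset ι) (f : ι → ℝ) (δ : ℝ) (h0 : 0 < δ) (h1 : δ ≤ 1)
    (hf : ∀ i ∈ S, δ ≤ f i) {N : ℕ} (hN : S.card ≤ N) : δ ^ N ≤ ∏ i ∈ S, f i := by
  refine (pow_le_pow_of_le_one h0.le h1 hN).trans ?_
  rw [← Finset.prod_const]
  exact Finset.prod_le_prod (fun _ _ => h0.le) hf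

theorem factor_le {ι : Type} [DecidableEq ι] (S : Finset ι) (f : ι → ℝ) (δ : ℝ) (h0 : 0 < δ)
    (h1 : δ ≤ 1) (hf : ∀ i ∈ S, δ ≤ f i) {N : ℕ} (hN : S.card ≤ N) {i : ι} (hi : i ∈ S) :
    f i * δ ^ N ≤ ∏ i ∈ S, f i := by
  have h2 : 0 ≤ f i := h0.le.trans (hf i hi)
  rw [← Finset.mul_prod_erase S f hi]
  refine mul_le_mul_of_nonneg_left ?_ h2
  exact prod_ge (S.erase i) f δ h0 h1 (fun k hk => hf k (Finset.mem_of_mem_erase hk))
    ((Finset.card_le_card (Finset.erase_subset i S)).trans hN)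

theorem card_le (D : Gr) (j l : Fin D.n) (h : j ≠ l) : (D.R j l).card ≤ D.d := by
  have h1 : (D.P j - D.P l).natDegree = (D.R j l).card := by
    rw [D.diff j l h, natDegree_C_mul (D.kap_ne j l h),
      natDegree_finsetProd_X_sub_C_eq_card (D.R j l) (fun r => r)]
  rw [← h1]
  have h2 : ∀ f : Fin D.n × Fin D.n → ℕ, f (j, l) ≤ (Finset.univ : Finset _).sup f :=
    fun f => Finset.le_sup (Finset.mem_univ (j, l))
  exact h2 fun z => (D.P z.1 - D.P z.2).natDegree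

/-- The factors are bounded. -/
theorem factors (D : Gr) (lam : ℤ) (hlam : lam ≠ 0) (j : Fin D.n) (c : ℤ) (T M δ ε : ℝ) (N : ℕ)
    (hδ : δ = 3 / 8) (hε : ε = δ ^ N)
    (hm : D.m ≤ N) (hn : D.n ≤ N) (hR : ∀ l, l ≠ j → (D.R j l).card ≤ N) (h0T : 0 ≤ T)
    (hT : D.mu lam j c ≤ T) (hM : T / (ε * ε ^ N) / ε ≤ M) :
    |(lam : ℝ)| ≤ M ∧ (∀ i, Gr.fx c (D.a i) ≤ M) ∧
      ∀ l, l ≠ j → |(D.kap j l : ℝ)| ≤ M ∧ ∀ r ∈ D.R j l, Gr.fx c r ≤ M := by
  classical
  have hδ0 : 0 < δ := by rw [hδ]; norm_num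
  have hδ1 : δ ≤ 1 := by rw [hδ]; norm_num
  have hε0 : 0 < ε := by rw [hε]; positivity
  have hε1 : ε ≤ 1 := by rw [hε]; exact pow_le_one₀ hδ0.le hδ1
  have hεN : 0 < ε ^ N := by positivity
  have hl1 : (1 : ℝ) ≤ |(lam : ℝ)| := one_le_abs hlam
  have hf : ∀ i ∈ (Finset.univ : Finset (Fin D.m)), δ ≤ Gr.fx c (D.a i) :=
    fun i _ => by rw [hδ]; exact fx_ge _ _
  have hcm : (Finset.univ : Finset (Fin D.m)).card ≤ N := by
    rw [Finset.card_univ, Fintype.card_fin]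
    exact hm
  have hcn : (Finset.univ.erase j : Finset (Fin D.n)).card ≤ N := by
    refine (Finset.card_le_card (Finset.erase_subset _ _)).trans ?_
    rw [Finset.card_univ, Fintype.card_fin]
    exact hn
  have hfr : ∀ l, ∀ r ∈ D.R j l, δ ≤ Gr.fx c r := fun l r _ => by rw [hδ]; exact fx_ge _ _
  have hP : ∀ l, l ≠ j → ε ≤ ∏ r ∈ D.R j l, Gr.fx c r := fun l hl => by
    rw [hε]
    exact prod_ge _ _ δ hδ0 hδ1 (hfr l) (hR l hl)
  have hk : ∀ l, l ≠ j → (1 : ℝ) ≤ |(D.kap j l : ℝ)| := fun l hl =>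
    one_le_abs (D.kap_ne j l (Ne.symm hl))
  have hg : ∀ l ∈ Finset.univ.erase j,
      ε ≤ |(D.kap j l : ℝ)| * ∏ r ∈ D.R j l, Gr.fx c r := by
    intro l hl
    have hlj := Finset.ne_of_mem_erase hl
    have h1 := hP l hlj
    have h2 := hk l hlj
    calc ε ≤ ∏ r ∈ D.R j l, Gr.fx c r := h1
      _ ≤ _ := le_mul_of_one_le_left (hε0.le.trans h1) h2
  have hA : ε ≤ ∏ i, Gr.fx c (D.a i) := by
    rw [hε]
    exact prod_ge _ _ δ hδ0 hδ1 hf hcm
  have hB : ε ^ N ≤ ∏ l ∈ Finset.univ.erase j, (|(D.kap j l : ℝ)| * ∏ r ∈ D.R j l, Gr.fx c r) :=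
    prod_ge _ _ ε hε0 hε1 hg hcn
  unfold Gr.mu at hT
  obtain ⟨A, hAd⟩ : ∃ A, A = ∏ i, Gr.fx c (D.a i) := ⟨_, rfl⟩
  obtain ⟨B, hBd⟩ : ∃ B, B = ∏ l ∈ Finset.univ.erase j,
    (|(D.kap j l : ℝ)| * ∏ r ∈ D.R j l, Gr.fx c r) := ⟨_, rfl⟩
  rw [← hAd] at hA
  rw [← hBd] at hB
  rw [← hAd, ← hBd] at hT
  have hA0 : 0 < A := lt_of_lt_of_le hε0 hA
  have hB0 : 0 < B := lt_of_lt_of_le hεN hB
  have hκ : 0 < ε * ε ^ N := by positivity
  have hAB : A * B ≤ T := by
    refine le_trans ?_ hT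
    rw [mul_assoc]
    exact le_mul_of_one_le_left (mul_pos hA0 hB0).le hl1
  obtain ⟨M1, hM1⟩ : ∃ M1 : ℝ, M1 = T / (ε * ε ^ N) := ⟨_, rfl⟩
  rw [← hM1] at hM
  have hM10 : 0 ≤ M1 := by rw [hM1]; positivity
  have hM1M : M1 ≤ M := by
    refine le_trans ?_ hM
    rw [le_div_iff₀ hε0]
    exact mul_le_of_le_one_right hM10 hε1
  have key : ∀ t : ℝ, t * (ε * ε ^ N) ≤ T → t ≤ M1 := fun t ht => by
    rw [hM1, le_div_iff₀ hκ]
    exact ht
  refine ⟨?_, fun i => ?_, fun l hl => ?_⟩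
  · refine (key _ ?_).trans hM1M
    refine le_trans ?_ hT
    rw [mul_assoc]
    exact mul_le_mul_of_nonneg_left (mul_le_mul hA hB hεN.le hA0.le) (by linarith)
  · refine (key _ ?_).trans hM1M
    refine le_trans ?_ hAB
    have h3 := factor_le _ _ δ hδ0 hδ1 hf hcm (Finset.mem_univ i)
    rw [← hAd, ← hε] at h3
    calc Gr.fx c (D.a i) * (ε * ε ^ N) = (Gr.fx c (D.a i) * ε) * ε ^ N := by ring
      _ ≤ A * B := mul_le_mul h3 hB hεN.le hA0.le
  · have h3 := factor_le _ _ ε hε0 hε1 hg hcn (Finset.mem_erase.2 ⟨hl, Finset.mem_univ l⟩)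
    rw [← hBd] at h3
    have hgl : |(D.kap j l : ℝ)| * ∏ r ∈ D.R j l, Gr.fx c r ≤ M1 := by
      apply key
      refine le_trans ?_ hAB
      calc (|(D.kap j l : ℝ)| * ∏ r ∈ D.R j l, Gr.fx c r) * (ε * ε ^ N)
          = ε * ((|(D.kap j l : ℝ)| * ∏ r ∈ D.R j l, Gr.fx c r) * ε ^ N) := by ring
        _ ≤ A * B := by
          refine mul_le_mul hA h3 ?_ hA0.le
          have := hg l (Finset.mem_erase.2 ⟨hl, Finset.mem_univ l⟩)
          have h4 : 0 ≤ |(D.kap j l : ℝ)| * ∏ r ∈ D.R j l, Gr.fx c r := hε0.le.trans this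
          positivity
    have hP0 := hP l hl
    have hk0 := hk l hl
    refine ⟨?_, fun r hr => ?_⟩
    · refine le_trans ?_ hM
      rw [le_div_iff₀ hε0]
      exact (mul_le_mul_of_nonneg_left hP0 (abs_nonneg _)).trans hgl
    · refine le_trans ?_ hM
      rw [le_div_iff₀ hε0]
      refine le_trans ?_ hgl
      have h5 := factor_le _ _ δ hδ0 hδ1 (hfr l) (hR l hl) hr
      rw [← hε] at h5
      exact h5.trans (le_mul_of_one_le_left (hε0.le.trans hP0) hk0)

theorem tri {a b A B : ℝ} (h1 : |a - b| ≤ A) (h2 : |a| ≤ B) : |b| ≤ A + B := by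
  rw [abs_le] at *
  constructor <;> linarith [h1.1, h1.2, h2.1, h2.2]

theorem mem_box {z : ℤ} {B : ℝ} (h : |(z : ℝ)| ≤ B) : z ∈ Finset.Icc (-⌈B⌉) ⌈B⌉ := by
  have h1 := abs_le.1 h
  rw [Finset.mem_Icc]
  constructor
  · have h2 : ((-⌈B⌉ : ℤ) : ℝ) ≤ z := by
      push_cast
      have := Int.le_ceil B
      linarith [h1.1]
    exact_mod_cast h2
  · have h2 : (z : ℝ) ≤ ((⌈B⌉ : ℤ) : ℝ) := h1.2.trans (Int.le_ceil B)
    exact_mod_cast h2

/-- The differences of the graphs. -/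
def Q (b : ℤ) : Set ℤ[X] :=
  (fun z : ℤ × Finset ℤ => C z.1 * ∏ r ∈ z.2, (X - C r)) ''
    ((Finset.Icc (-b) b ×ˢ (Finset.Icc (-b) b).powerset : Finset (ℤ × Finset ℤ)) : Set _)

theorem Q_finite (b : ℤ) : (Q b).Finite := (Finset.finite_toSet _).image _

/-- The graphs. -/
def W (b : ℤ) : Set ℤ[X] := Set.image2 (fun p q => p - q) (Q b ∪ {0}) (Q b ∪ {0})

theorem W_finite (b : ℤ) : (W b).Finite :=
  Set.Finite.image2 _ ((Q_finite b).union (Set.finite_singleton _))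
    ((Q_finite b).union (Set.finite_singleton _))

/-- The data are bounded. -/
theorem bounds (D : Gr) (lam : ℤ) (hlam : lam ≠ 0) (j : Fin D.n) (c : ℤ) (T M δ ε : ℝ) (N : ℕ)
    (hδ : δ = 3 / 8) (hε : ε = δ ^ N)
    (hm : D.m ≤ N) (hn : D.n ≤ N) (hR : ∀ l, l ≠ j → (D.R j l).card ≤ N) (h0T : 0 ≤ T)
    (hT : D.mu lam j c ≤ T) (hM : T / (ε * ε ^ N) / ε ≤ M)
    (ha : D.a D.i0 = 0) (hP : D.P D.j0 = 0) :
    lam ∈ Finset.Icc (-⌈2 * M + 1⌉) ⌈2 * M + 1⌉ ∧
      (∀ i, D.a i ∈ Finset.Icc (-⌈2 * M + 1⌉) ⌈2 * M + 1⌉) ∧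
      ∀ l, D.P l ∈ W ⌈2 * M + 1⌉ := by
  obtain ⟨h1, h2, h3⟩ := factors D lam hlam j c T M δ ε N hδ hε hm hn hR h0T hT hM
  have hl1 : (1 : ℝ) ≤ |(lam : ℝ)| := one_le_abs hlam
  have hM1 : 1 ≤ M := hl1.trans h1
  have hac : ∀ i, |(c : ℝ) - D.a i| ≤ M + 1 / 2 := fun i =>
    (fx_abs c (D.a i)).trans (by linarith [h2 i])
  have hc : |(c : ℝ)| ≤ M + 1 / 2 := by
    have h4 := hac D.i0
    rw [ha] at h4
    simpa using h4
  have hdiff : ∀ l, l ≠ j → D.P j - D.P l ∈ Q ⌈2 * M + 1⌉ := by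
    intro l hl
    refine ⟨(D.kap j l, D.R j l), ?_, (D.diff j l (Ne.symm hl)).symm⟩
    rw [Finset.mem_coe, Finset.mem_product, Finset.mem_powerset]
    refine ⟨mem_box ?_, fun r hr => mem_box ?_⟩
    · exact (h3 l hl).1.trans (by linarith)
    · have h5 : |(c : ℝ) - r| ≤ M + 1 / 2 := (fx_abs c r).trans (by linarith [(h3 l hl).2 r hr])
      exact (tri h5 hc).trans (by linarith)
  have hj : D.P j ∈ Q ⌈2 * M + 1⌉ ∪ {0} := by
    by_cases h : D.j0 = j
    · rw [← h, hP]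
      exact Or.inr rfl
    · have h5 := hdiff D.j0 h
      rw [hP, sub_zero] at h5
      exact Or.inl h5
  refine ⟨mem_box (h1.trans (by linarith)), fun i => mem_box ?_, fun l => ?_⟩
  · exact (tri (hac i) hc).trans (by linarith)
  · by_cases h : l = j
    · rw [h]
      exact ⟨D.P j, hj, 0, Or.inr rfl, sub_zero _⟩
    · exact ⟨D.P j, hj, D.P j - D.P l, Or.inl (hdiff l h), sub_sub_cancel _ _⟩

end FNKM

open FNKM in
/-- Module FNK. -/
theorem specFNK (hUMK : SpecUMK) (hLRK : SpecLRK) : SpecFNK := by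
  classical
  obtain ⟨E, hE⟩ : ∃ E : ℝ, E = 23 * 23 + 23 * 22 * 23 := ⟨_, rfl⟩
  obtain ⟨T, hT⟩ : ∃ T : ℝ, T = 50 * 23 * E * Real.sqrt E := ⟨_, rfl⟩
  obtain ⟨N, hN⟩ : ∃ N : ℕ, N = 23 := ⟨_, rfl⟩
  obtain ⟨δ, hδ⟩ : ∃ δ : ℝ, δ = 3 / 8 := ⟨_, rfl⟩
  obtain ⟨ε, hε⟩ : ∃ ε : ℝ, ε = δ ^ N := ⟨_, rfl⟩
  obtain ⟨M, hM⟩ : ∃ M : ℝ, M = T / (ε * ε ^ N) / ε := ⟨_, rfl⟩
  obtain ⟨b, hb⟩ : ∃ b : ℤ, b = ⌈2 * M + 1⌉ := ⟨_, rfl⟩
  have hE0 : 0 ≤ E := by rw [hE]; norm_num
  have hT0 : 0 ≤ T := by rw [hT]; positivity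
  set F : (m n : ℕ) → (((Fin m → ℤ) × (Fin n → ℤ[X])) × ℤ) →
      (Σ m n : ℕ, (Fin m → ℤ) × (Fin n → ℤ[X])) × ℤ :=
    fun m n z => (⟨m, n, z.1.1, z.1.2⟩, z.2) with hF
  have h1 : (⋃ m ∈ (Finset.range 24 : Finset ℕ), ⋃ n ∈ (Finset.range 24 : Finset ℕ),
      F m n '' (((Set.pi Set.univ (fun _ : Fin m => ((Finset.Icc (-b) b : Finset ℤ) : Set ℤ))) ×ˢ
        (Set.pi Set.univ (fun _ : Fin n => W b))) ×ˢ
          ((Finset.Icc (-b) b : Finset ℤ) : Set ℤ))).Finite := by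
    refine Set.Finite.biUnion (Finset.finite_toSet _) fun m _ => ?_
    refine Set.Finite.biUnion (Finset.finite_toSet _) fun n _ => ?_
    refine Set.Finite.image _ (Set.Finite.prod (Set.Finite.prod ?_ ?_) (Finset.finite_toSet _))
    · exact Set.Finite.pi fun _ => Finset.finite_toSet _
    · exact Set.Finite.pi fun _ => W_finite b
  refine h1.subset ?_
  rintro ⟨w, lam⟩ ⟨hlam, D, hD, ha, hP, j, c, hnode, hmu⟩
  have h23 : D.m + D.n + D.d < 24 := by
    by_contra h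
    push Not at h
    exact absurd (hLRK D lam hlam h j c hnode) (not_le.2 hmu)
  have hm : D.m ≤ 23 := by omega
  have hn : D.n ≤ 23 := by omega
  have hd : D.d ≤ 23 := by omega
  have hR : ∀ l, l ≠ j → (D.R j l).card ≤ 23 := fun l hl => (card_le D j l (Ne.symm hl)).trans hd
  have he : (D.e : ℝ) ≤ E := by
    have h2 := (hUMK D).2
    have h3 : 2 * (D.m * D.n) + D.n * (D.n - 1) * D.d ≤ 2 * (23 * 23) + 23 * 22 * 23 := by
      have h4 : D.m * D.n ≤ 23 * 23 := Nat.mul_le_mul hm hn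
      have h5 : D.n * (D.n - 1) * D.d ≤ 23 * 22 * 23 :=
        Nat.mul_le_mul (Nat.mul_le_mul hn (by omega)) hd
      omega
    have h4 : D.e ≤ 23 * 23 + 23 * 22 * 23 := by omega
    rw [hE]
    exact_mod_cast h4
  have hthr : D.thr ≤ T := by
    unfold Gr.thr
    rw [hT]
    have h2 : (D.n : ℝ) ≤ 23 := by exact_mod_cast hn
    have h3 : Real.sqrt D.e ≤ Real.sqrt E := Real.sqrt_le_sqrt he
    have h4 : (0 : ℝ) ≤ D.e := Nat.cast_nonneg _
    gcongr
  have hbd := bounds D lam hlam j c T M δ ε N hδ hε (by rw [hN]; exact hm) (by rw [hN]; exact hn)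
    (by rw [hN]; exact hR) hT0 (hmu.le.trans hthr) hM.ge ha hP
  rw [← hb] at hbd
  obtain ⟨h2, h3, h4⟩ := hbd
  simp only [Set.mem_iUnion]
  refine ⟨D.m, Finset.mem_range.2 (by omega), D.n, Finset.mem_range.2 (by omega),
    ((D.a, D.P), lam), ⟨⟨fun i _ => h3 i, fun l _ => h4 l⟩, h2⟩, ?_⟩
  rw [hF]
  exact Prod.ext hD rfl

end MP743d1e.GA
end

section
/-!
# NRG: the lower bounds on the circles
-/
set_option autoImplicit false

namespace MP743d1e.GA

open scoped BigOperators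
open Polynomial

namespace NRGM

theorem one_le_abs {d : ℤ} (h : d ≠ 0) : (1 : ℝ) ≤ |(d : ℝ)| := by
  have h1 := Int.one_le_abs h
  exact_mod_cast h1

theorem fx_ge (c s : ℤ) : 3 / 8 ≤ Gr.fx c s := by
  unfold Gr.fx
  split_ifs with h
  · norm_num
  · have h1 : (1 : ℝ) ≤ |((c - s : ℤ) : ℝ)| := one_le_abs (sub_ne_zero.2 (Ne.symm h))
    push_cast at h1
    linarith

theorem fx_le {R : ℝ} (h1 : 3 / 8 < R) (h2 : R < 1 / 2) (c s : ℤ) (θ : ℝ) :
    Gr.fx c s ≤ ‖circ c R θ - (s : ℂ)‖ := by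
  have h0 : (0 : ℝ) ≤ R := by linarith
  unfold Gr.fx
  split_ifs with h
  · subst h
    have : circ s R θ - (s : ℂ) = (R : ℂ) * Complex.exp (θ * Complex.I) := by simp [circ]
    rw [this, Circ.norm_exp_mul θ h0]
    linarith
  · have h3 : circ c R θ - (s : ℂ) = ((c - s : ℤ) : ℂ) + (R : ℂ) * Complex.exp (θ * Complex.I) := by
      simp only [circ]; push_cast; ring
    rw [h3]
    have h4 := norm_sub_le_norm_add ((c - s : ℤ) : ℂ) ((R : ℂ) * Complex.exp (θ * Complex.I))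
    rw [Circ.norm_exp_mul θ h0, Complex.norm_intCast] at h4
    push_cast at h4
    push_cast
    linarith

/-- a simple minorant -/
theorem fx_g (c s : ℤ) :
    (if s = c then (3 / 8 : ℝ) else if s = c - 1 ∨ s = c + 1 then 1 / 2 else 1) ≤ Gr.fx c s := by
  unfold Gr.fx
  split_ifs with h h'
  · exact le_rfl
  · have h1 : (1 : ℝ) ≤ |((c - s : ℤ) : ℝ)| := one_le_abs (sub_ne_zero.2 (Ne.symm h))
    push_cast at h1
    linarith
  · have h1 : 2 ≤ |c - s| := by
      push Not at h'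
      obtain ⟨h2, h3⟩ := h'
      rw [le_abs]
      omega
    have h2 : (2 : ℝ) ≤ |((c - s : ℤ) : ℝ)| := by
      have : ((2 : ℤ) : ℝ) ≤ ((|c - s| : ℤ) : ℝ) := by exact_mod_cast h1
      push_cast at this
      push_cast
      exact this
    push_cast at h2
    linarith

theorem prod_g (c : ℤ) (s : Finset ℤ) :
    3 / 32 ≤ ∏ r ∈ s, (if r = c then (3 / 8 : ℝ) else if r = c - 1 ∨ r = c + 1 then 1 / 2 else 1) := by
  rw [Finset.prod_ite, Finset.prod_ite, Finset.prod_const, Finset.prod_const, Finset.prod_const_one,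
    mul_one]
  have h1 : (s.filter fun r => r = c).card ≤ 1 := by
    rw [Finset.card_le_one]
    intro a ha b hb
    rw [(Finset.mem_filter.1 ha).2, (Finset.mem_filter.1 hb).2]
  have h2 : ((s.filter fun r => ¬ r = c).filter fun r => r = c - 1 ∨ r = c + 1).card ≤ 2 := by
    refine (Finset.card_le_card (t := {c - 1, c + 1}) ?_).trans Finset.card_le_two
    intro a ha
    have := (Finset.mem_filter.1 ha).2
    simpa using this
  have h3 : (3 / 8 : ℝ) ^ 1 ≤ (3 / 8 : ℝ) ^ (s.filter fun r => r = c).card :=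
    pow_le_pow_of_le_one (by norm_num) (by norm_num) h1
  have h4 : (1 / 2 : ℝ) ^ 2 ≤
      (1 / 2 : ℝ) ^ ((s.filter fun r => ¬ r = c).filter fun r => r = c - 1 ∨ r = c + 1).card :=
    pow_le_pow_of_le_one (by norm_num) (by norm_num) h2
  have h5 : (3 / 32 : ℝ) = (3 / 8) ^ 1 * (1 / 2) ^ 2 := by norm_num
  rw [h5]
  exact mul_le_mul h3 h4 (by norm_num) (by positivity)

theorem prod_fx (c : ℤ) (s : Finset ℤ) : 3 / 32 ≤ ∏ r ∈ s, Gr.fx c r := by
  refine (prod_g c s).trans (Finset.prod_le_prod (fun r _ => ?_) (fun r _ => fx_g c r))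
  split_ifs <;> norm_num

theorem sub_b (D : Gr) {j l : Fin D.n} (h : j ≠ l) (x : ℂ) :
    D.b j x - D.b l x = (D.kap j l : ℂ) * ∏ r ∈ D.R j l, (x - (r : ℂ)) := by
  have h1 := congrArg (aeval x) (D.diff j l h)
  rw [map_sub, map_mul, map_prod] at h1
  simp only [map_sub, aeval_X, aeval_C, map_intCast, Gr.b, eq_intCast] at h1 ⊢
  simpa using h1

theorem fl_le (D : Gr) {j l : Fin D.n} (hl : j ≠ l) {R : ℝ} (h1 : 3 / 8 < R) (h2 : R < 1 / 2)
    (c : ℤ) (θ : ℝ) : |(D.kap j l : ℝ)| * ∏ r ∈ D.R j l, Gr.fx c r ≤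
      ‖D.b j (circ c R θ) - D.b l (circ c R θ)‖ := by
  rw [sub_b D hl, norm_mul, norm_prod, Complex.norm_intCast]
  refine mul_le_mul_of_nonneg_left ?_ (abs_nonneg _)
  exact Finset.prod_le_prod (fun r _ => by linarith [fx_ge c r]) (fun r _ => fx_le h1 h2 c r θ)

theorem fl_pos (D : Gr) {j l : Fin D.n} (hl : j ≠ l) (c : ℤ) :
    3 / 32 ≤ |(D.kap j l : ℝ)| * ∏ r ∈ D.R j l, Gr.fx c r := by
  have h1 := one_le_abs (D.kap_ne j l hl)
  have h2 := prod_fx c (D.R j l)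
  nlinarith

end NRGM

open NRGM

/-- NRG -/
theorem specNRG : SpecNRG := by
  intro D lam j c R h1 h2 θ
  refine ⟨?_, fun l hl => (fl_pos D hl.symm c).trans (fl_le D hl.symm h1 h2 c θ), fun s =>
    Circ.le_norm_circ_sub (by linarith) h2 c s θ⟩
  unfold Gr.mu
  rw [norm_mul, norm_mul, norm_prod, norm_prod, Complex.norm_intCast]
  have e1 : ∏ i, Gr.fx c (D.a i) ≤ ∏ i, ‖circ c R θ - (D.a i : ℂ)‖ :=
    Finset.prod_le_prod (fun i _ => by linarith [fx_ge c (D.a i)])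
      (fun i _ => fx_le h1 h2 c _ θ)
  have e2 : ∏ l ∈ Finset.univ.erase j, (|(D.kap j l : ℝ)| * ∏ r ∈ D.R j l, Gr.fx c r) ≤
      ∏ l ∈ Finset.univ.erase j, ‖D.b j (circ c R θ) - D.b l (circ c R θ)‖ :=
    Finset.prod_le_prod
      (fun l hl => by linarith [fl_pos D (Finset.ne_of_mem_erase hl).symm c])
      (fun l hl => fl_le D (Finset.ne_of_mem_erase hl).symm h1 h2 c θ)
  have p1 : 0 ≤ ∏ i, Gr.fx c (D.a i) :=
    Finset.prod_nonneg (fun i _ => by linarith [fx_ge c (D.a i)])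
  have p2 : 0 ≤ ∏ l ∈ Finset.univ.erase j, (|(D.kap j l : ℝ)| * ∏ r ∈ D.R j l, Gr.fx c r) :=
    Finset.prod_nonneg (fun l hl => by linarith [fl_pos D (Finset.ne_of_mem_erase hl).symm c])
  have p3 : 0 ≤ |(lam : ℝ)| := abs_nonneg _
  refine mul_le_mul (mul_le_mul_of_nonneg_left e1 p3) e2 p2 ?_
  exact mul_nonneg p3 (p1.trans e1)

end MP743d1e.GA
end

section
/-!
# Arrangements of graphs: the nodes above an abscissa come in pairs (PRS)
-/
set_option autoImplicit false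

namespace MP743d1e.GA

open scoped BigOperators
open Polynomial

open Classical in
/-- PRS -/
theorem specPRS : SpecPRS := by
  intro D z w s hF hs hw
  have key : ∀ l, z l s * w l = ∑ l', if l ≠ l' ∧ s ∈ D.R l l' then z l s * w l else 0 := by
    intro l
    by_cases hl : s ∈ D.cr l
    · obtain ⟨l', hl', hs'⟩ := Finset.mem_biUnion.1 hl
      have hne : l' ≠ l := (Finset.mem_erase.1 hl').1
      rw [Finset.sum_eq_single l', if_pos ⟨hne.symm, hs'⟩]
      · intro b _ hb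
        rw [if_neg]
        rintro ⟨h1, h2⟩
        exact hb (D.partner h1 hne.symm h2 hs')
      · intro h
        exact absurd (Finset.mem_univ _) h
    · have h0 : z l s = 0 := by
        apply hF.supp
        intro h
        rcases Finset.mem_union.1 h with h | h
        · obtain ⟨i, -, hi⟩ := Finset.mem_image.1 h
          exact hs i hi.symm
        · exact hl h
      rw [h0, zero_mul]
      symm
      apply Finset.sum_eq_zero
      intro b _
      simp
  have h1 : ∑ l, z l s * w l =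
      ∑ l, ∑ l', if l ≠ l' ∧ s ∈ D.R l l' then z l s * w l else 0 :=
    Finset.sum_congr rfl fun l _ => key l
  have h2 : (∑ l, ∑ l', if l ≠ l' ∧ s ∈ D.R l l' then z l s * w l else 0) =
      - ∑ l, ∑ l', if l ≠ l' ∧ s ∈ D.R l l' then z l s * w l else 0 := by
    conv_lhs => rw [Finset.sum_comm]
    rw [← Finset.sum_neg_distrib]
    apply Finset.sum_congr rfl
    intro l _
    rw [← Finset.sum_neg_distrib]
    apply Finset.sum_congr rfl
    intro l' _
    by_cases h : l ≠ l' ∧ s ∈ D.R l l'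
    · have h' : l' ≠ l ∧ s ∈ D.R l' l := ⟨h.1.symm, by rw [D.R_symm h.1]; exact h.2⟩
      rw [if_pos h, if_pos h', ← hw l l' h.1 h.2]
      have h3 := hF.pair l l' s h.1 h.2
      have h4 : z l' s = - z l s := by linarith
      rw [h4]
      ring
    · have h' : ¬ (l' ≠ l ∧ s ∈ D.R l' l) := by
        rintro ⟨ha, hb⟩
        exact h ⟨ha.symm, by rw [D.R_symm ha]; exact hb⟩
      rw [if_neg h, if_neg h', neg_zero]
  rw [h1]
  linarith

end MP743d1e.GA
end

section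
/-!
# Arrangements of graphs: the regulators of the symbols along a circle (RGG)
-/
set_option autoImplicit false

namespace MP743d1e.GA

open scoped BigOperators
open Polynomial

namespace RGGM

open MP743d1e.Hy.REGM
open MP743d1e.LA.RGLM (reg_lin reg_const error_bound reg_inv_right)

theorem psi_ne (D : Gr) (lam : ℤ) {j l : Fin D.n} (hl : l ≠ j) (c s : ℤ) :
    D.psi lam j c s l = Real.log |(c : ℝ) - s| * (∑ r ∈ D.R j l, W.dl c r) -
      D.lk j l c * W.dl c s := by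
  have h1 : (∑ r ∈ D.R j l, W.dl c r) = if c ∈ D.R j l then 1 else 0 := by
    unfold W.dl
    rw [Finset.sum_ite_eq' (D.R j l) c (fun _ => (1 : ℝ))]
  rw [h1]
  unfold Gr.psi W.dl
  rw [if_neg hl]
  congr 1
  · split_ifs <;> simp
  · split_ifs <;> simp

theorem psi_self (D : Gr) (lam : ℤ) (j : Fin D.n) (c s : ℤ) :
    D.psi lam j c s j = D.Lam lam j c * W.dl c s - Real.log |(c : ℝ) - s| := by
  unfold Gr.psi W.dl
  rw [if_pos rfl]
  congr 1
  split_ifs <;> simp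

theorem xi_one (c s : ℤ) : W.xi 1 c s = Real.log |(c : ℝ) - s| := by
  unfold W.xi
  rw [div_one]

section Loop1

variable {D : Gr} {lam : ℤ} {K : Type} [Field K] {x y : K} {γ : Loop K} {X : ℤ → Kˣ}
  {U : Fin D.n → Kˣ} {L : Kˣ} {j : Fin D.n} {c : ℤ} {R Λ : ℝ} {Y : ℝ → ℂ}

/-- the leading part of `y - P l` on the sheet `j` -/
theorem lead [CharZero K] (hR : 0 < R) (hR2 : R < 1 / 2) (hX : ∀ s, (X s : K) = x - (s : K))
    (hγ : ∀ θ, γ.ev θ x = circ c R θ) {l : Fin D.n} (hl : l ≠ j) :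
    ∃ B : Kˣ, (B : K) = D.b j x - D.b l x ∧
      ∀ s, reg γ (sym (X s) B) = 2 * Real.pi * D.psi lam j c s l := by
  have hk : D.kap j l ≠ 0 := D.kap_ne j l hl.symm
  have hk0 : ((D.kap j l : ℤ) : K) ≠ 0 := by exact_mod_cast hk
  refine ⟨Units.mk0 _ hk0 * ∏ r ∈ D.R j l, X r, ?_, fun s => ?_⟩
  · rw [Units.val_mul, Units.coe_prod, D.b_sub hl.symm]
    congr 1
    exact Finset.prod_congr rfl fun r _ => hX r
  · rw [reg_mul_right, reg_const hR hR2 hX hγ hk (Z := Units.mk0 _ hk0) rfl s, reg_prod_right,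
      Finset.sum_congr rfl fun r _ => reg_lin hR hR2 hX hγ s r, psi_ne D lam hl,
      ← Finset.mul_sum, Finset.sum_sub_distrib, ← Finset.mul_sum, ← Finset.sum_mul]
    simp only [xi_one]
    unfold Gr.lk
    ring

/-- the error for a graph different from `j` -/
theorem err_ne (hNRG : SpecNRG) [CharZero K] (hR1 : 3 / 8 < R) (hR2 : R < 1 / 2) (hΛ : 128 ≤ Λ)
    (hX : ∀ s, (X s : K) = x - (s : K)) (hU : ∀ l, (U l : K) = y - D.b l x)
    (hγ : ∀ θ, γ.ev θ x = circ c R θ) (hγy : ∀ θ, γ.ev θ y = Y θ) (hY : ContDiff ℝ 1 Y)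
    (hYp : ∀ θ, Y (θ + 2 * Real.pi) = Y θ)
    (hnear : ∀ θ, ‖Y θ - D.b j (circ c R θ)‖ ≤ 4 / (3 * Λ)) {l : Fin D.n} (hl : l ≠ j)
    (s s0 : ℤ) : |reg γ (sym (X s * (X s0)⁻¹) (U l)) -
      2 * Real.pi * (D.psi lam j c s l - D.psi lam j c s0 l)| ≤ 256 * Real.pi / (3 * Λ) := by
  have hR : 0 < R := by linarith
  have hΛ0 : 0 < Λ := by linarith
  obtain ⟨B, hB, hBreg⟩ := lead (D := D) (lam := lam) (j := j) hR hR2 hX hγ hl
  set V : Kˣ := U l * B⁻¹ with hV
  have hUV : U l = B * V := by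
    rw [hV, mul_comm (U l), mul_inv_cancel_left]
  have hblo : ∀ θ, 3 / 32 ≤ ‖D.b j (circ c R θ) - D.b l (circ c R θ)‖ := fun θ =>
    (hNRG D lam j c R hR1 hR2 θ).2.1 l hl
  have hb0 : ∀ θ, D.b j (circ c R θ) - D.b l (circ c R θ) ≠ 0 := by
    intro θ
    rw [← norm_pos_iff]
    have := hblo θ
    linarith
  set f : ℝ → ℂ := fun θ =>
    (Y θ - D.b j (circ c R θ)) * (D.b j (circ c R θ) - D.b l (circ c R θ))⁻¹ with hf
  have hfn : ∀ θ, ‖f θ‖ ≤ 128 / (9 * Λ) := by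
    intro θ
    rw [hf, norm_mul, norm_inv]
    have h1 : ‖D.b j (circ c R θ) - D.b l (circ c R θ)‖⁻¹ ≤ (3 / 32)⁻¹ :=
      inv_anti₀ (by norm_num) (hblo θ)
    calc ‖Y θ - D.b j (circ c R θ)‖ * ‖D.b j (circ c R θ) - D.b l (circ c R θ)‖⁻¹ ≤
        4 / (3 * Λ) * (3 / 32)⁻¹ := mul_le_mul (hnear θ) h1 (by positivity) (by positivity)
      _ = 128 / (9 * Λ) := by
        field_simp
        norm_num
  have hsmall : 128 / (9 * Λ) ≤ 1 / 2 := by
    rw [div_le_div_iff₀ (by positivity) (by norm_num)]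
    linarith
  have hbc : ∀ l, ContDiff ℝ 1 (fun θ => D.b l (circ c R θ)) := fun l =>
    ((Polynomial.contDiff_aeval (𝕜 := ℂ) (D.P l) 1).restrict_scalars ℝ).comp
      (Circ.contDiff_circ c R)
  have hfc : ContDiff ℝ 1 f := (hY.sub (hbc j)).mul (((hbc j).sub (hbc l)).inv hb0)
  set ℓ : ℝ → ℂ := fun θ => Complex.log (1 + f θ) with hℓdef
  have hℓc : ContDiff ℝ 1 ℓ := Hy.PTH.contDiff_log hfc fun θ => by
    have := hfn θ
    linarith
  have hℓp : ∀ θ, ℓ (θ + 2 * Real.pi) = ℓ θ := by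
    intro θ
    simp only [hℓdef, hf, hYp, Circ.circ_periodic]
  have hℓn : ∀ θ, ‖ℓ θ‖ ≤ 64 / (3 * Λ) := by
    intro θ
    have h1 := Complex.norm_log_one_add_half_le_self (z := f θ) ((hfn θ).trans hsmall)
    have h2 := hfn θ
    have h3 : 64 / (3 * Λ) = 3 / 2 * (128 / (9 * Λ)) := by
      field_simp
      norm_num
    rw [h3]
    exact h1.trans (mul_le_mul_of_nonneg_left h2 (by norm_num))
  have hmain : reg γ (sym (X s * (X s0)⁻¹) B) =
      2 * Real.pi * (D.psi lam j c s l - D.psi lam j c s0 l) := by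
    rw [reg_mul_left, reg_inv_left, hBreg, hBreg]
    ring
  rw [hUV, reg_mul_right, hmain, add_sub_cancel_left, reg_sym]
  have h1 : (fun θ => γ.ev θ ((X s * (X s0)⁻¹ : Kˣ) : K)) = fun θ =>
      (circ c R θ - (s : ℂ)) / (circ c R θ - (s0 : ℂ)) := by
    funext θ
    rw [Units.val_mul, Units.val_inv_eq_inv_val, map_mul, map_inv₀, hX, hX, map_sub, map_sub, hγ,
      map_intCast, map_intCast, div_eq_mul_inv]
  have hevb : ∀ l θ, γ.ev θ (D.b l x) = D.b l (circ c R θ) := by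
    intro l θ
    rw [D.b_map, hγ]
  have h2 : (fun θ => γ.ev θ (V : K)) = fun θ => Complex.exp (ℓ θ) := by
    funext θ
    have h3 : 1 + f θ ≠ 0 := Complex.slitPlane_ne_zero
      (Complex.mem_slitPlane_of_norm_lt_one (by have := hfn θ; linarith))
    rw [hℓdef, Complex.exp_log h3, hV, Units.val_mul, Units.val_inv_eq_inv_val, map_mul, map_inv₀,
      hU, hB, map_sub, map_sub, hγy, hevb, hevb, hf]
    have := hb0 θ
    field_simp
    ring
  rw [h1, h2]
  refine (error_bound hR hR2 s s0 ℓ hℓc hℓp _ hℓn).trans (le_of_eq ?_)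
  ring

open Classical in
/-- exactly one other curve passes through a node -/
theorem one_node (D : Gr) {j : Fin D.n} {c : ℤ} (hc : c ∈ D.ns j) :
    (∑ i, W.dl c (D.a i)) + ∑ l ∈ Finset.univ.erase j, ∑ r ∈ D.R j l, W.dl c r = 1 := by
  have h1 : ∀ l, (∑ r ∈ D.R j l, W.dl c r) = if c ∈ D.R j l then 1 else 0 := by
    intro l
    unfold W.dl
    rw [Finset.sum_ite_eq' (D.R j l) c (fun _ => (1 : ℝ))]
  simp only [h1]
  rcases (D.node_iff j c).2 hc with ⟨i, rfl⟩ | ⟨h, hh, hch⟩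
  · have e1 : ∑ i', W.dl (D.a i) (D.a i') = 1 := by
      rw [Finset.sum_eq_single i]
      · unfold W.dl
        rw [if_pos rfl]
      · intro b _ hb
        unfold W.dl
        rw [if_neg fun h => hb (D.a_inj h)]
      · intro h
        exact absurd (Finset.mem_univ _) h
    have e2 : ∑ l ∈ Finset.univ.erase j, (if D.a i ∈ D.R j l then (1 : ℝ) else 0) = 0 := by
      apply Finset.sum_eq_zero
      intro l hl
      rw [if_neg (D.cross_a j l i (Finset.ne_of_mem_erase hl).symm)]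
    rw [e1, e2, add_zero]
  · have e1 : ∑ i', W.dl c (D.a i') = 0 := by
      apply Finset.sum_eq_zero
      intro i' _
      unfold W.dl
      rw [if_neg]
      intro h'
      exact D.cross_a j h i' hh.symm (h' ▸ hch)
    have e2 : ∑ l ∈ Finset.univ.erase j, (if c ∈ D.R j l then (1 : ℝ) else 0) = 1 := by
      rw [Finset.sum_eq_single h]
      · rw [if_pos hch]
      · intro b hb hb'
        rw [if_neg]
        intro h'
        exact hb' (D.partner (Finset.ne_of_mem_erase hb).symm hh.symm h' hch)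
      · intro h'
        exact absurd (Finset.mem_erase.2 ⟨hh, Finset.mem_univ _⟩) h'
    rw [e1, e2, zero_add]

/-- the error for the graph `j` -/
theorem err_self [CharZero K] (hR : 0 < R) (hR2 : R < 1 / 2)
    (hX : ∀ s, (X s : K) = x - (s : K)) (hγ : ∀ θ, γ.ev θ x = circ c R θ)
    (hlam : lam ≠ 0) (hL : (L : K) = (lam : K)) (hc : c ∈ D.ns j)
    (heq : L * (∏ i, X (D.a i)) * ∏ l, U l = 1) (s s0 : ℤ) :
    reg γ (sym (X s * (X s0)⁻¹) (U j)) - 2 * Real.pi * (D.psi lam j c s j -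
        D.psi lam j c s0 j) =
      -∑ l ∈ Finset.univ.erase j, (reg γ (sym (X s * (X s0)⁻¹) (U l)) -
        2 * Real.pi * (D.psi lam j c s l - D.psi lam j c s0 l)) := by
  set F : Kˣ := X s * (X s0)⁻¹ with hF
  have h1 : reg γ (sym F L) + ∑ i, reg γ (sym F (X (D.a i))) +
      (reg γ (sym F (U j)) + ∑ l ∈ Finset.univ.erase j, reg γ (sym F (U l))) = 0 := by
    have h2 := congrArg (fun z => reg γ (sym F z)) heq
    simp only [reg_mul_right, reg_prod_right, reg_one_right] at h2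
    rw [← Finset.add_sum_erase _ _ (Finset.mem_univ j)] at h2
    exact h2
  have h2 : reg γ (sym F L) = 2 * Real.pi * (-(Real.log |(lam : ℝ)| * W.dl c s) +
      Real.log |(lam : ℝ)| * W.dl c s0) := by
    rw [hF, reg_mul_left, reg_inv_left, reg_const hR hR2 hX hγ hlam hL s,
      reg_const hR hR2 hX hγ hlam hL s0]
    ring
  have h3 : ∀ a, reg γ (sym F (X a)) = 2 * Real.pi *
      ((W.xi 1 c s * W.dl c a - W.xi 1 c a * W.dl c s) -
        (W.xi 1 c s0 * W.dl c a - W.xi 1 c a * W.dl c s0)) := by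
    intro a
    rw [hF, reg_mul_left, reg_inv_left, reg_lin hR hR2 hX hγ s a, reg_lin hR hR2 hX hγ s0 a]
    ring
  have h4 : ∀ s, D.psi lam j c s j + ∑ l ∈ Finset.univ.erase j, D.psi lam j c s l =
      Real.log |(lam : ℝ)| * W.dl c s -
        ∑ i, (W.xi 1 c s * W.dl c (D.a i) - W.xi 1 c (D.a i) * W.dl c s) := by
    intro s
    have e1 : ∀ l ∈ Finset.univ.erase j, D.psi lam j c s l =
        Real.log |(c : ℝ) - s| * (∑ r ∈ D.R j l, W.dl c r) - D.lk j l c * W.dl c s :=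
      fun l hl => psi_ne D lam (Finset.ne_of_mem_erase hl) c s
    have e2 := one_node D hc
    rw [Finset.sum_congr rfl e1, Finset.sum_sub_distrib, ← Finset.mul_sum, ← Finset.sum_mul,
      Finset.sum_sub_distrib, ← Finset.mul_sum, ← Finset.sum_mul, psi_self]
    simp only [xi_one]
    unfold Gr.Lam
    linear_combination Real.log |(c : ℝ) - s| * e2
  have h5 := h4 s
  have h6 := h4 s0
  rw [Finset.sum_sub_distrib, ← Finset.mul_sum, Finset.sum_sub_distrib]
  rw [h2] at h1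
  simp only [h3] at h1
  rw [← Finset.mul_sum, Finset.sum_sub_distrib] at h1
  linear_combination h1 - 2 * Real.pi * h5 + 2 * Real.pi * h6

end Loop1

end RGGM

open RGGM in
open MP743d1e.Hy.REGM MP743d1e.LA.RGLM in
/-- RGG -/
theorem specRGG (hNRG : SpecNRG) : SpecRGG := by
  intro D lam K _ _ x y γ X U L j c R Λ Y hlam hX hU hL heq hR1 hR2 hΛ hc hγ hγy hY hYp hnear
    s s' l l' hll
  have hn : (2 : ℝ) ≤ D.n := by exact_mod_cast D.hn
  have h128 : 128 ≤ Λ := by linarith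
  have hΛ0 : 0 < Λ := by linarith
  have hR : 0 < R := by linarith
  set E : Fin D.n → ℝ := fun l => reg γ (sym (X s * (X s')⁻¹) (U l)) -
    2 * Real.pi * (D.psi lam j c s l - D.psi lam j c s' l) with hEdef
  set ε : ℝ := 256 * Real.pi / (3 * Λ) with hε
  have hε0 : 0 ≤ ε := by positivity
  have hEne : ∀ l, l ≠ j → |E l| ≤ ε := fun l hl =>
    RGGM.err_ne hNRG hR1 hR2 h128 hX hU hγ hγy hY hYp hnear hl _ _
  have hEself : |E j| ≤ ((D.n : ℝ) - 1) * ε := by
    have h1 : E j = -∑ l ∈ Finset.univ.erase j, E l :=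
      RGGM.err_self hR hR2 hX hγ hlam hL hc heq _ _
    rw [h1, abs_neg]
    refine (Finset.abs_sum_le_sum_abs _ _).trans ?_
    refine (Finset.sum_le_sum fun l hl => hEne l (Finset.ne_of_mem_erase hl)).trans ?_
    rw [Finset.sum_const, nsmul_eq_mul, Finset.card_erase_of_mem (Finset.mem_univ j),
      Finset.card_univ, Fintype.card_fin, Nat.cast_sub (by have := D.hn; omega), Nat.cast_one]
  have hdiff : reg γ (sym (X s * (X s')⁻¹) (U l * (U l')⁻¹)) - 2 * Real.pi *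
      (D.psi lam j c s l - D.psi lam j c s l' - D.psi lam j c s' l + D.psi lam j c s' l') =
      E l - E l' := by
    rw [reg_mul_right, reg_inv_right, hEdef]
    ring
  rw [hdiff]
  have hfin : |E l - E l'| ≤ D.n * ε := by
    refine (abs_sub _ _).trans ?_
    by_cases h1 : l = j
    · have h2 : l' ≠ j := fun h => hll (h1.trans h.symm)
      have h3 := hEne _ h2
      rw [h1]
      linarith
    · have h3 := hEne _ h1
      by_cases h2 : l' = j
      · rw [h2]
        linarith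
      · have h4 := hEne _ h2
        nlinarith
  refine hfin.trans ?_
  rw [hε, mul_div_assoc', div_le_div_iff₀ (by positivity) hΛ0]
  have hpi := Real.pi_lt_d2
  have h5 : 256 * Real.pi ≤ 816 := by linarith
  calc (D.n : ℝ) * (256 * Real.pi) * Λ ≤ (D.n : ℝ) * 816 * Λ := by gcongr
    _ = 272 * D.n * (3 * Λ) := by ring

end MP743d1e.GA
end

section
/-!
# Arrangements of graphs: formulas for the values of the model (VFF)
-/
set_option autoImplicit false

namespace MP743d1e.GA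

open scoped BigOperators
open Polynomial

namespace VFFM

variable {D : Gr}

theorem mem_ns_a (j : Fin D.n) (i : Fin D.m) : D.a i ∈ D.ns j :=
  Finset.mem_union_left _ (Finset.mem_image_of_mem _ (Finset.mem_univ i))

theorem mem_ns_R {j l : Fin D.n} (h : j ≠ l) {c : ℤ} (hc : c ∈ D.R j l) : c ∈ D.ns j :=
  Finset.mem_union_right _ (Finset.mem_biUnion.2
    ⟨l, Finset.mem_erase.2 ⟨h.symm, Finset.mem_univ _⟩, hc⟩)

open Classical in
theorem delta (z : Fin D.n → ℤ → ℝ) (hF : Flow D z) (l : Fin D.n) (c : ℤ) (t : ℝ) :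
    ∑ s ∈ D.ns l, z l s * (if s = c then t else 0) = z l c * t := by
  by_cases hc : c ∈ D.ns l
  · rw [Finset.sum_eq_single c]
    · rw [if_pos rfl]
    · intro b _ hb
      rw [if_neg hb, mul_zero]
    · intro h
      exact absurd hc h
  · rw [hF.supp l c hc, zero_mul]
    apply Finset.sum_eq_zero
    intro b hb
    rw [if_neg, mul_zero]
    rintro rfl
    exact hc hb

theorem own (lam : ℤ) (z : Fin D.n → ℤ → ℝ) (hF : Flow D z) (j : Fin D.n) (c : ℤ) :
    ∑ s ∈ D.ns j, z j s * D.psi lam j c s j =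
      z j c * D.Lam lam j c - ∑ s ∈ D.ns j, z j s * Real.log |(c : ℝ) - s| := by
  unfold Gr.psi
  simp only [if_true, mul_sub, Finset.sum_sub_distrib]
  rw [delta z hF]

theorem other (lam : ℤ) (z : Fin D.n → ℤ → ℝ) (hF : Flow D z) {j l : Fin D.n} (hl : l ≠ j)
    {c : ℤ} (hc : c ∉ D.R j l) :
    ∑ s ∈ D.ns l, z l s * D.psi lam j c s l = - (z l c * D.lk j l c) := by
  unfold Gr.psi
  simp only [if_neg hl, if_neg hc, mul_sub, mul_zero, Finset.sum_sub_distrib]
  rw [delta z hF]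
  simp

theorem mate (lam : ℤ) (z : Fin D.n → ℤ → ℝ) (hF : Flow D z) {j l : Fin D.n} (hl : l ≠ j)
    {c : ℤ} (hc : c ∈ D.R j l) :
    ∑ s ∈ D.ns l, z l s * D.psi lam j c s l =
      ∑ s ∈ D.ns l, z l s * Real.log |(c : ℝ) - s| - z l c * D.lk j l c := by
  unfold Gr.psi
  simp only [if_neg hl, if_pos hc, mul_sub, Finset.sum_sub_distrib]
  rw [delta z hF]

end VFFM

open VFFM in
/-- VFF -/
theorem specVFF (hSTG : SpecSTG) (hPRS : SpecPRS) : SpecVFF := by
  intro D lam z hF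
  obtain ⟨-, -, hS3, -, hS5, -, -, -, -, -⟩ := hSTG D
  constructor
  · intro j i
    unfold V
    rw [if_pos (mem_ns_a j i), ← Finset.add_sum_erase _ _ (Finset.mem_univ j), own lam z hF]
    have h1 : ∑ l ∈ Finset.univ.erase j, ∑ s ∈ D.ns l, z l s * D.psi lam j (D.a i) s l =
        ∑ l ∈ Finset.univ.erase j, - (z l (D.a i) * D.lk j l (D.a i)) := by
      apply Finset.sum_congr rfl
      intro l hl
      have hlj : l ≠ j := (Finset.mem_erase.1 hl).1
      exact other lam z hF hlj (D.cross_a j l i hlj.symm)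
    rw [h1, Finset.sum_neg_distrib]
    ring
  · intro j h c hjh hc
    unfold V
    have hhj : h ∈ Finset.univ.erase j := Finset.mem_erase.2 ⟨hjh.symm, Finset.mem_univ _⟩
    rw [if_pos (mem_ns_R hjh hc), ← Finset.add_sum_erase _ _ (Finset.mem_univ j),
      own lam z hF, ← Finset.add_sum_erase _ _ hhj, mate lam z hF hjh.symm hc]
    have h1 : ∑ l ∈ (Finset.univ.erase j).erase h, ∑ s ∈ D.ns l, z l s * D.psi lam j c s l =
        ∑ l ∈ (Finset.univ.erase j).erase h, - (z l c * D.lk j l c) := by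
      apply Finset.sum_congr rfl
      intro l hl
      have hlh : l ≠ h := (Finset.mem_erase.1 hl).1
      have hlj : l ≠ j := (Finset.mem_erase.1 (Finset.mem_erase.1 hl).2).1
      refine other lam z hF hlj fun hc' => hlh ?_
      exact D.partner hlj.symm hjh hc' hc
    have h2 : ∑ l ∈ (Finset.univ.erase j).erase h, z l c * D.lk j l c = 0 := by
      have h3 := hPRS D z (fun l => if l = j ∨ l = h then 0 else D.lk j l c) c hF
        (fun i hi => D.cross_a j h i hjh (hi ▸ hc)) ?_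
      · rw [← Finset.add_sum_erase _ _ (Finset.mem_univ j),
          ← Finset.add_sum_erase _ _ hhj] at h3
        simp only [true_or, or_true, if_true, mul_zero, zero_add] at h3
        rw [← h3]
        apply Finset.sum_congr rfl
        intro l hl
        have hlh : l ≠ h := (Finset.mem_erase.1 hl).1
        have hlj : l ≠ j := (Finset.mem_erase.1 (Finset.mem_erase.1 hl).2).1
        rw [if_neg (by simp [hlh, hlj])]
      · intro l l' hll hcl
        have hcl' : c ∈ D.R l' l := by rw [D.R_symm hll]; exact hcl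
        have hc' : c ∈ D.R h j := by rw [D.R_symm hjh]; exact hc
        by_cases hl : l = j ∨ l = h
        · have hl' : l' = j ∨ l' = h := by
            rcases hl with rfl | rfl
            · exact Or.inr (D.partner hll hjh hcl hc)
            · exact Or.inl (D.partner hll hjh.symm hcl hc')
          rw [if_pos hl, if_pos hl']
        · have hl' : ¬ (l' = j ∨ l' = h) := by
            rintro (rfl | rfl)
            · exact hl (Or.inr (D.partner hll.symm hjh hcl' hc))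
            · exact hl (Or.inl (D.partner hll.symm hjh.symm hcl' hc'))
          rw [if_neg hl, if_neg hl']
          push Not at hl hl'
          have n1 : c ∉ D.R j l := fun h4 => hl.2 (D.partner hl.1.symm hjh h4 hc)
          have n2 : c ∉ D.R j l' := fun h4 => hl'.2 (D.partner hl'.1.symm hjh h4 hc)
          rw [hS5 j l c hl.1.symm n1, hS5 j l' c hl'.1.symm n2, (hS3 l l' c hll).2 hcl]
    have h5 := hF.pair j h c hjh hc
    have h6 : z h c = - z j c := by linarith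
    rw [h1, Finset.sum_neg_distrib, h2, h6]
    ring

end MP743d1e.GA
end
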