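import Pool.Agent.Lib.MP_743d1e_nt.GA.SpecK
import Pool.Agent.Lib.MP_743d1e_nt.Kae

section
/-!
# SHG: the branch of the curve over the circle
-/
set_option autoImplicit false

namespace MP743d1e.GA

open scoped BigOperators
open Polynomial

namespace SHGM

open MP743d1e.Circ MP743d1e.Sheet

section Branch

variable (D : Gr) (j : Fin D.n) (c : ℤ) (ρ : ℝ)

/-- difference of the `j`-th and `l`-th graphs on the circle -/
noncomputable def be (l : Fin D.n) (θ : ℝ) : ℂ := D.b j (circ c ρ θ) - D.b l (circ c ρ θ)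

/-- product of the vertical lines on the circle -/
noncomputable def AA (θ : ℝ) : ℂ := ∏ i, (circ c ρ θ - (D.a i : ℂ))

theorem contDiff_b (l : Fin D.n) {n : WithTop ℕ∞} :
    ContDiff ℝ n (fun θ => D.b l (circ c ρ θ)) := by
  unfold Gr.b
  have h3 : ContDiff ℂ n fun z : ℂ => aeval z (D.P l) := Polynomial.contDiff_aeval (D.P l) n
  exact (h3.restrict_scalars ℝ).comp (contDiff_circ c ρ)

variable {ρ}

theorem contDiff_be (l : Fin D.n) {n : WithTop ℕ∞} : ContDiff ℝ n (be D j c ρ l) := by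
  unfold be
  exact (contDiff_b D c ρ j).sub (contDiff_b D c ρ l)

theorem contDiff_AA {n : WithTop ℕ∞} : ContDiff ℝ n (AA D c ρ) := by
  unfold AA
  exact contDiff_prod (fun i _ => (contDiff_circ c ρ).sub contDiff_const)

/-- the equation as a function of two variables -/
noncomputable def eqf (x : ℝ × ℂ) : ℂ :=
  AA D c ρ x.1 * x.2 * ∏ l ∈ Finset.univ.erase j, (x.2 + be D j c ρ l x.1)

theorem contDiff_eqf : ContDiff ℝ 1 (eqf D j c (ρ := ρ)) := by
  unfold eqf
  refine ContDiff.mul (((contDiff_AA D c).comp contDiff_fst).mul contDiff_snd) ?_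
  apply contDiff_prod
  intro l _
  exact contDiff_snd.add ((contDiff_be D j c l).comp contDiff_fst)

/-- invertibility of the partial derivative -/
theorem invertible (θ : ℝ) (u d : ℂ) (hd0 : d ≠ 0)
    (hd : HasDerivAt (fun v : ℂ => eqf D j c (ρ := ρ) (θ, v)) d u) :
    (fderiv ℝ (eqf D j c (ρ := ρ)) (θ, u) ∘L .inr ℝ ℝ ℂ).IsInvertible := by
  have h1 : HasFDerivAt (fun v : ℂ => eqf D j c (ρ := ρ) (θ, v))
      (fderiv ℝ (eqf D j c (ρ := ρ)) (θ, u) ∘L .inr ℝ ℝ ℂ) u := by
    have h2 : HasFDerivAt (eqf D j c (ρ := ρ)) (fderiv ℝ (eqf D j c (ρ := ρ)) (θ, u)) (θ, u) :=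
      ((contDiff_eqf D j c).differentiable (by norm_num) _).hasFDerivAt
    exact h2.comp u (hasFDerivAt_prodMk_right θ u)
  have h2 := hd.hasFDerivAt.restrictScalars ℝ
  rw [h1.unique h2]
  refine ⟨ContinuousLinearEquiv.smulLeft (Units.mk0 d hd0), ?_⟩
  ext v
  all_goals simp [ContinuousLinearEquiv.smulLeft, mul_comm]

end Branch

variable {D : Gr} {j : Fin D.n} {c : ℤ} {R : ℝ}

/-- Bernoulli -/
theorem bern {n k : ℕ} (hn : 1 ≤ n) (hk : k + 1 ≤ n) :
    (3 / 4 : ℝ) ≤ (1 - 1 / (4 * (n : ℝ))) ^ k := by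
  have hn' : (1 : ℝ) ≤ n := by exact_mod_cast hn
  have hk' : (k : ℝ) + 1 ≤ n := by exact_mod_cast hk
  have h1 : (-2 : ℝ) ≤ -(1 / (4 * (n : ℝ))) := by
    have : 1 / (4 * (n : ℝ)) ≤ 1 := by
      rw [div_le_one (by linarith)]
      linarith
    linarith
  have h2 := one_add_mul_le_pow h1 k
  have h3 : (3 / 4 : ℝ) ≤ 1 + (k : ℝ) * -(1 / (4 * (n : ℝ))) := by
    have h4 : (k : ℝ) * (1 / (4 * (n : ℝ))) ≤ 1 / 4 := by
      rw [mul_one_div, div_le_iff₀ (by linarith)]
      linarith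
    linarith
  have h5 : (1 - 1 / (4 * (n : ℝ))) = 1 + -(1 / (4 * (n : ℝ))) := by ring
  rw [h5]
  exact h3.trans h2

/-- lower bound of the product -/
theorem prod_lower {n : ℕ} (s : Finset (Fin D.n)) (hs : s.card + 1 ≤ n) (β : Fin D.n → ℂ)
    (hβ : ∀ l ∈ s, 3 / 32 ≤ ‖β l‖) {r : ℝ} (hr : r = 3 / 32 / (4 * n)) {u : ℂ} (hu : ‖u‖ ≤ r) :
    3 / 4 * ∏ l ∈ s, ‖β l‖ ≤ ∏ l ∈ s, ‖u + β l‖ := by
  have hn : 1 ≤ n := by omega
  have hn' : (1 : ℝ) ≤ n := by exact_mod_cast hn
  have hq : 0 ≤ 1 - 1 / (4 * (n : ℝ)) := by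
    have : 1 / (4 * (n : ℝ)) ≤ 1 := by
      rw [div_le_one (by linarith)]
      linarith
    linarith
  have h1 : ∏ l ∈ s, ((1 - 1 / (4 * (n : ℝ))) * ‖β l‖) ≤ ∏ l ∈ s, ‖u + β l‖ := by
    refine Finset.prod_le_prod (fun l _ => mul_nonneg hq (norm_nonneg _)) (fun l hl => ?_)
    have h2 := norm_add_ge (le_refl ‖β l‖) hu
    have h3 : r ≤ 1 / (4 * (n : ℝ)) * ‖β l‖ := by
      rw [hr, div_eq_mul_one_div, mul_comm]
      exact mul_le_mul_of_nonneg_left (hβ l hl) (by positivity)
    nlinarith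
  rw [Finset.prod_mul_distrib, Finset.prod_const] at h1
  refine le_trans ?_ h1
  exact mul_le_mul_of_nonneg_right (bern hn hs) (Finset.prod_nonneg fun _ _ => norm_nonneg _)

/-- the partial derivative does not vanish -/
theorem exists_deriv (hβ : ∀ θ, ∀ l ∈ Finset.univ.erase j, 3 / 32 ≤ ‖be D j c R l θ‖)
    (hA0 : ∀ θ, AA D c R θ ≠ 0) {r : ℝ} (hr : r = 3 / 32 / (4 * D.n))
    (θ : ℝ) (u : ℂ) (hu : ‖u‖ ≤ r) (hu0 : u ≠ 0) :
    ∃ d : ℂ, d ≠ 0 ∧ HasDerivAt (fun v : ℂ => eqf D j c (ρ := R) (θ, v)) d u := by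
  have hn : (0 : ℝ) < D.n := by exact_mod_cast (by have := D.hn; omega : 0 < D.n)
  have hn1 : (2 : ℝ) ≤ D.n := by exact_mod_cast D.hn
  have hrρ : r ≤ 3 / 64 := by
    rw [hr, div_le_iff₀ (by positivity)]
    linarith
  have hr0 : 0 < r := by rw [hr]; positivity
  have hA : AA D c R θ ≠ 0 := hA0 θ
  have hlow : ∀ l ∈ Finset.univ.erase j, 3 / 64 ≤ ‖u + be D j c R l θ‖ := by
    intro l hl
    have h3 := norm_add_ge (hβ θ l hl) hu
    linarith
  have hne : ∀ l ∈ Finset.univ.erase j, u + be D j c R l θ ≠ 0 := by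
    intro l hl
    rw [← norm_pos_iff]
    have := hlow l hl
    linarith
  have hdl : ∀ l ∈ Finset.univ.erase j, DifferentiableAt ℂ (fun v : ℂ => v + be D j c R l θ) u :=
    fun l _ => differentiableAt_id.add_const _
  have hprod : DifferentiableAt ℂ
      (fun v : ℂ => ∏ l ∈ Finset.univ.erase j, (v + be D j c R l θ)) u :=
    DifferentiableAt.fun_finsetProd hdl
  have hlin : DifferentiableAt ℂ (fun v : ℂ => AA D c R θ * v) u :=
    differentiableAt_id.const_mul _
  have hd : DifferentiableAt ℂ (fun v : ℂ => eqf D j c (ρ := R) (θ, v)) u := by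
    unfold eqf
    exact hlin.mul hprod
  refine ⟨_, ?_, hd.hasDerivAt⟩
  have e1 : logDeriv (fun v : ℂ => eqf D j c (ρ := R) (θ, v)) u =
      u⁻¹ + ∑ l ∈ Finset.univ.erase j, (u + be D j c R l θ)⁻¹ := by
    unfold eqf
    rw [logDeriv_mul (f := fun v : ℂ => AA D c R θ * v)
      (g := fun v : ℂ => ∏ l ∈ Finset.univ.erase j, (v + be D j c R l θ)) u
      (mul_ne_zero hA hu0) (Finset.prod_ne_zero_iff.2 hne) hlin hprod,
      logDeriv_const_mul (f := fun v : ℂ => v) u _ hA,
      logDeriv_prod (f := fun l (v : ℂ) => v + be D j c R l θ) hne hdl]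
    congr 1
    · rw [logDeriv_apply]; simp
    · apply Finset.sum_congr rfl
      intro l _
      rw [logDeriv_apply]; simp
  intro hzero
  rw [logDeriv_apply, hzero, zero_div] at e1
  have h4 : ‖u⁻¹‖ = ‖∑ l ∈ Finset.univ.erase j, (u + be D j c R l θ)⁻¹‖ := by
    rw [← norm_neg (∑ l ∈ Finset.univ.erase j, (u + be D j c R l θ)⁻¹)]
    congr 1
    linear_combination -e1
  have h5 : ‖∑ l ∈ Finset.univ.erase j, (u + be D j c R l θ)⁻¹‖ ≤ D.n * (64 / 3) := by
    refine (norm_sum_le_of_le _ (f := fun l => (u + be D j c R l θ)⁻¹) (n := fun _ => 64 / 3)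
      ?_).trans ?_
    · intro l hl
      rw [norm_inv]
      have := hlow l hl
      have h6 : (3 / 64 : ℝ)⁻¹ = 64 / 3 := by norm_num
      rw [← h6]
      gcongr
    · rw [Finset.sum_const, nsmul_eq_mul]
      have : ((Finset.univ.erase j).card : ℝ) ≤ D.n := by
        have h7 := Finset.card_le_univ (Finset.univ.erase j)
        rw [Fintype.card_fin] at h7
        exact_mod_cast h7
      gcongr
  rw [← h4, norm_inv, inv_le_iff_one_le_mul₀ (norm_pos_iff.2 hu0)] at h5
  have h6 : (D.n : ℝ) * (64 / 3) * ‖u‖ ≤ D.n * (64 / 3) * (3 / 32 / (4 * D.n)) := by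
    rw [← hr]; gcongr
  have h7 : (D.n : ℝ) * (64 / 3) * (3 / 32 / (4 * D.n)) = 1 / 2 := by
    field_simp; norm_num
  linarith

theorem main (hNRG : SpecNRG) (lam : ℤ) {Λ : ℝ} (h38 : 3 / 8 < R) (h12 : R < 1 / 2)
    (hΛ : 128 * (D.n : ℝ) ≤ Λ) (hmu : Λ ≤ D.mu lam j c) :
    ∃ Y : ℝ → ℂ, ContDiff ℝ 1 Y ∧
      (∀ θ, Y (θ + 2 * Real.pi) = Y θ) ∧
      (∀ θ, (lam : ℂ) * (∏ i, (circ c R θ - (D.a i : ℂ))) *
        (∏ l, (Y θ - D.b l (circ c R θ))) = 1) ∧
      ∀ θ, ‖Y θ - D.b j (circ c R θ)‖ ≤ 4 / (3 * Λ) := by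
  have hn : (0 : ℝ) < D.n := by exact_mod_cast (by have := D.hn; omega : 0 < D.n)
  have hn1 : (2 : ℝ) ≤ D.n := by exact_mod_cast D.hn
  have hN : 1 ≤ D.n := by have := D.hn; omega
  have hcardeq : (Finset.univ.erase j).card + 1 = D.n := by
    rw [Finset.card_erase_of_mem (Finset.mem_univ j), Finset.card_univ, Fintype.card_fin]
    omega
  have hΛ0 : 0 < Λ := by linarith
  have hspec := hNRG D lam j c R h38 h12
  have hβ : ∀ θ, ∀ l ∈ Finset.univ.erase j, 3 / 32 ≤ ‖be D j c R l θ‖ := fun θ l hl =>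
    (hspec θ).2.1 l (Finset.ne_of_mem_erase hl)
  have hA0 : ∀ θ, AA D c R θ ≠ 0 := by
    intro θ
    unfold AA
    refine Finset.prod_ne_zero_iff.2 fun i _ => ?_
    rw [← norm_pos_iff]
    have := (hspec θ).2.2 (D.a i)
    linarith
  set r : ℝ := 3 / 32 / (4 * D.n) with hr
  have hr0 : 0 < r := by rw [hr]; positivity
  have hlam : (lam : ℝ) ≠ 0 := by
    intro h
    unfold Gr.mu at hmu
    rw [h, abs_zero, zero_mul, zero_mul] at hmu
    linarith
  have hpos : 0 < |(lam : ℝ)| := abs_pos.2 hlam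
  have hlam0 : (lam : ℂ) ≠ 0 := by
    intro h
    exact hlam (by exact_mod_cast h)
  set ε : ℂ := (lam : ℂ)⁻¹ with hεdef
  have hε0 : ε ≠ 0 := inv_ne_zero hlam0
  have hεn : ‖ε‖ = |(lam : ℝ)|⁻¹ := by rw [hεdef, norm_inv, Complex.norm_intCast]
  set K : ℝ := 4 / 3 * |(lam : ℝ)| / Λ with hKdef
  have hK0 : 0 < K := by rw [hKdef]; positivity
  have hsize : ‖ε‖ * K = 4 / (3 * Λ) := by
    rw [hεn, hKdef]
    field_simp
  have hε : ‖ε‖ * K ≤ r / 2 := by
    rw [hsize, hr, div_div, div_div, div_le_div_iff₀ (by positivity) (by positivity)]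
    nlinarith
  have hcard : (Finset.univ.erase j).card ≤ D.n := by omega
  have hKK : ∀ θ (u : ℂ), ‖u‖ ≤ r → 1 ≤ K *
      ‖AA D c R θ * ∏ l ∈ Finset.univ.erase j, (u + be D j c R l θ)‖ := by
    intro θ u hu
    have h1 := prod_lower (D := D) (n := D.n) (Finset.univ.erase j) (by omega)
      (fun l => be D j c R l θ) (hβ θ) hr hu
    have h2 := hmu.trans (hspec θ).1
    rw [norm_mul, norm_mul, norm_prod (Finset.univ.erase j), Complex.norm_intCast] at h2
    rw [norm_mul, norm_prod (Finset.univ.erase j), hKdef]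
    have h3 : (0 : ℝ) ≤ ‖AA D c R θ‖ := norm_nonneg _
    have h4 : Λ ≤ |(lam : ℝ)| * ‖AA D c R θ‖ * ∏ l ∈ Finset.univ.erase j, ‖be D j c R l θ‖ := h2
    have h5 : |(lam : ℝ)| * ‖AA D c R θ‖ * (3 / 4 * ∏ l ∈ Finset.univ.erase j, ‖be D j c R l θ‖) ≤
        |(lam : ℝ)| * ‖AA D c R θ‖ * ∏ l ∈ Finset.univ.erase j, ‖u + be D j c R l θ‖ :=
      mul_le_mul_of_nonneg_left h1 (mul_nonneg hpos.le h3)
    have h6 : 4 / 3 * |(lam : ℝ)| / Λ *
        (‖AA D c R θ‖ * ∏ l ∈ Finset.univ.erase j, ‖u + be D j c R l θ‖) =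
        4 / 3 * (|(lam : ℝ)| * ‖AA D c R θ‖ *
          ∏ l ∈ Finset.univ.erase j, ‖u + be D j c R l θ‖) / Λ := by ring
    rw [h6, le_div_iff₀ hΛ0]
    linarith
  have hex : ∀ θ, ∃ u : ℂ, ‖u‖ ≤ ‖ε‖ * K ∧
      AA D c R θ * u * (∏ l ∈ Finset.univ.erase j, (u + be D j c R l θ)) = ε := fun θ =>
    exists_root (Finset.univ.erase j) (fun l => be D j c R l θ) (AA D c R θ) ε D.n
      (by norm_num : (0 : ℝ) < 3 / 32) hN hcard hr (hβ θ) (fun u hu => hKK θ u hu) hε
  choose u hu hueq using hex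
  have huniq : ∀ θ (v : ℂ), ‖v‖ < r →
      AA D c R θ * v * (∏ l ∈ Finset.univ.erase j, (v + be D j c R l θ)) = ε → u θ = v := by
    intro θ v hv hveq
    exact root_unique (Finset.univ.erase j) (fun l => be D j c R l θ) (AA D c R θ) ε D.n
      (by norm_num : (0 : ℝ) < 3 / 32) hN
      hcard hr (hβ θ) hε0 (by have := hu θ; linarith) hv (hueq θ) hveq
  have hu0 : ∀ θ, u θ ≠ 0 := by
    intro θ h
    have := hueq θ
    rw [h] at this
    apply hε0
    rw [← this]
    ring
  have hur : ∀ θ, ‖u θ‖ ≤ r / 2 := fun θ => (hu θ).trans hε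
  -- smoothness
  have husm : ContDiff ℝ 1 u := by
    rw [contDiff_iff_contDiffAt]
    intro θ₀
    obtain ⟨d, hd0, hd⟩ := exists_deriv hβ hA0 hr θ₀ (u θ₀) (by have := hur θ₀; linarith)
      (hu0 θ₀)
    have hinv := invertible D j c θ₀ (u θ₀) d hd0 hd
    have cdf : ContDiffAt ℝ 1 (eqf D j c (ρ := R)) (θ₀, u θ₀) := (contDiff_eqf D j c).contDiffAt
    have hφ := cdf.contDiffAt_implicitFunction one_ne_zero hinv
    have hφ0 := cdf.implicitFunction_apply_self one_ne_zero hinv
    have hφeq := cdf.eventually_apply_implicitFunction one_ne_zero hinv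
    set φ := cdf.implicitFunction one_ne_zero hinv with hφdef
    simp only at hφ hφ0 hφeq
    have hnear : ∀ᶠ θ in nhds θ₀, ‖φ θ‖ < r := by
      have hc : ContinuousAt (fun θ => ‖φ θ‖) θ₀ := hφ.continuousAt.norm
      apply hc.eventually_lt continuousAt_const
      rw [hφ0]
      have := hur θ₀
      linarith
    have heq : u =ᶠ[nhds θ₀] φ := by
      filter_upwards [hφeq, hnear] with θ h2 h3
      apply huniq θ (φ θ) h3
      have h4 : eqf D j c (ρ := R) (θ₀, u θ₀) = ε := hueq θ₀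
      rw [h4] at h2
      exact h2
    exact hφ.congr_of_eventuallyEq heq
  have huper : ∀ θ, u (θ + 2 * Real.pi) = u θ := by
    intro θ
    have h2 := hueq (θ + 2 * Real.pi)
    have h3 : AA D c R (θ + 2 * Real.pi) = AA D c R θ := by
      unfold AA; rw [circ_periodic]
    have h4 : ∀ l, be D j c R l (θ + 2 * Real.pi) = be D j c R l θ := by
      intro l; unfold be; rw [circ_periodic]
    simp only [h3, h4] at h2
    have h5 := hur (θ + 2 * Real.pi)
    exact (huniq θ _ (by linarith) h2).symm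
  have hYsub : ∀ l θ, (D.b j (circ c R θ) + u θ) - D.b l (circ c R θ) = u θ + be D j c R l θ := by
    intro l θ; unfold be; ring
  refine ⟨fun θ => D.b j (circ c R θ) + u θ, ?_, ?_, ?_, ?_⟩
  · exact (contDiff_b D c R j).add husm
  · intro θ
    simp only [circ_periodic, huper]
  · intro θ
    simp only [hYsub]
    rw [← Finset.mul_prod_erase _ _ (Finset.mem_univ j)]
    have h2 : be D j c R j θ = 0 := by unfold be; ring
    rw [h2, add_zero]
    have h3 := hueq θ
    unfold AA at h3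
    have h4 : (lam : ℂ) * ε = 1 := mul_inv_cancel₀ hlam0
    rw [← h4, ← h3]
    ring
  · intro θ
    simp only [add_sub_cancel_left]
    have h2 := hu θ
    rwa [hsize] at h2

end SHGM

/-- SHG -/
theorem specSHG (hNRG : SpecNRG) : SpecSHG := by
  intro D lam j c R Λ h1 h2 h3 h4
  exact SHGM.main hNRG lam h1 h2 h3 h4

end MP743d1e.GA
end

section
/-!
# Arrangements of graphs: elementary facts
-/
set_option autoImplicit false

namespace MP743d1e.GA

open scoped BigOperators
open Polynomial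

namespace STGM

variable (D : Gr)

theorem eval_diff (j l : Fin D.n) (s : ℤ) (h : j ≠ l) :
    (D.P j).eval s - (D.P l).eval s = D.kap j l * ∏ r ∈ D.R j l, (s - r) := by
  have h1 := congrArg (fun p : ℤ[X] => p.eval s) (D.diff j l h)
  simpa [eval_prod] using h1

theorem eval_eq_iff (j l : Fin D.n) (s : ℤ) (h : j ≠ l) :
    (D.P j).eval s = (D.P l).eval s ↔ s ∈ D.R j l := by
  rw [← sub_eq_zero, eval_diff D j l s h, mul_eq_zero, Finset.prod_eq_zero_iff]
  constructor
  · rintro (h1 | ⟨r, hr, h2⟩)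
    · exact absurd h1 (D.kap_ne j l h)
    · rw [sub_eq_zero] at h2
      rw [h2]; exact hr
  · intro hs
    exact Or.inr ⟨s, hs, sub_self s⟩

theorem R_symm (j l : Fin D.n) (h : j ≠ l) : D.R j l = D.R l j := by
  ext s
  rw [← eval_eq_iff D j l s h, ← eval_eq_iff D l j s h.symm]
  exact eq_comm

theorem lead (j l : Fin D.n) (h : j ≠ l) : (D.P j - D.P l).leadingCoeff = D.kap j l := by
  rw [D.diff j l h]
  have hm : (∏ r ∈ D.R j l, (X - C r : ℤ[X])).Monic := monic_prod_of_monic _ _ fun r _ => monic_X_sub_C r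
  rw [leadingCoeff_mul, hm.leadingCoeff, mul_one, leadingCoeff_C]

theorem kap_symm (j l : Fin D.n) (h : j ≠ l) : D.kap l j = -D.kap j l := by
  rw [← lead D j l h, ← lead D l j h.symm, ← leadingCoeff_neg, neg_sub]

theorem no_triple (j l l' : Fin D.n) (s : ℤ) (h : j ≠ l) (h' : j ≠ l') (hs : s ∈ D.R j l)
    (hs' : s ∈ D.R j l') : l = l' := by
  by_contra hne
  exact Finset.disjoint_left.mp (D.no_triple j l l' h h' hne) hs hs'

theorem lk_eq (j l : Fin D.n) (s : ℤ) (h : j ≠ l) (hs : s ∉ D.R j l) :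
    D.lk j l s = Real.log |(((D.P j).eval s : ℤ) : ℝ) - ((D.P l).eval s : ℤ)| := by
  have h1 : (((D.P j).eval s : ℤ) : ℝ) - ((D.P l).eval s : ℤ) =
      (D.kap j l : ℝ) * ∏ r ∈ D.R j l, ((s : ℝ) - r) := by
    have := eval_diff D j l s h
    exact_mod_cast this
  have hne : ∀ r ∈ D.R j l, |(s : ℝ) - r| ≠ 0 := by
    intro r hr h0
    rw [abs_eq_zero, sub_eq_zero] at h0
    have : s = r := by exact_mod_cast h0
    exact hs (this ▸ hr)
  rw [h1, abs_mul, Finset.abs_prod, Real.log_mul, Real.log_prod hne]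
  · rfl
  · rw [abs_ne_zero]
    exact_mod_cast D.kap_ne j l h
  · exact Finset.prod_ne_zero_iff.mpr hne

theorem lk_symm (j l : Fin D.n) (s : ℤ) (h : j ≠ l) : D.lk j l s = D.lk l j s := by
  unfold Gr.lk
  rw [kap_symm D j l h, R_symm D j l h, Int.cast_neg, abs_neg]

theorem log_int_nonneg (n : ℤ) : 0 ≤ Real.log |(n : ℝ)| := by
  rcases eq_or_ne n 0 with h | h
  · simp [h]
  · apply Real.log_nonneg
    have : 1 ≤ |n| := Int.one_le_abs h
    exact_mod_cast this

theorem lk_nonneg (j l : Fin D.n) (s : ℤ) : 0 ≤ D.lk j l s := by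
  unfold Gr.lk
  refine add_nonneg (log_int_nonneg _) (Finset.sum_nonneg fun r _ => ?_)
  have := log_int_nonneg (s - r)
  rwa [Int.cast_sub] at this

theorem lam_eq (j h : Fin D.n) (s lam : ℤ) (hne : j ≠ h) (hs : s ∈ D.R j h) :
    D.Lam lam j s = D.Lam lam h s := by
  unfold Gr.Lam
  congr 1
  have hh : h ∈ Finset.univ.erase j := Finset.mem_erase.mpr ⟨hne.symm, Finset.mem_univ _⟩
  have hj : j ∈ Finset.univ.erase h := Finset.mem_erase.mpr ⟨hne, Finset.mem_univ _⟩
  rw [← Finset.add_sum_erase _ _ hh, ← Finset.add_sum_erase _ _ hj, lk_symm D j h s hne,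
    Finset.erase_right_comm]
  congr 1
  apply Finset.sum_congr rfl
  intro l hl
  rw [Finset.mem_erase, Finset.mem_erase] at hl
  obtain ⟨hlj, hlh, -⟩ := hl
  have hs' : s ∈ D.R h j := by rwa [← R_symm D j h hne]
  have h1 : s ∉ D.R j l := fun h1 => hlh (no_triple D j l h s (Ne.symm hlj) hne h1 hs)
  have h2 : s ∉ D.R h l := fun h2 => hlj (no_triple D h l j s (Ne.symm hlh) hne.symm h2 hs')
  rw [lk_eq D j l s (Ne.symm hlj) h1, lk_eq D h l s (Ne.symm hlh) h2,
    (eval_eq_iff D j h s hne).mpr hs]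

theorem mem_ns (j : Fin D.n) (c : ℤ) : c ∈ D.ns j ↔ D.Node j c := by
  unfold Gr.ns Gr.cr Gr.Node
  simp only [Finset.mem_union, Finset.mem_image, Finset.mem_univ, true_and, Finset.mem_biUnion,
    Finset.mem_erase, and_true]
  constructor
  · rintro (⟨i, hi⟩ | h)
    · exact Or.inl ⟨i, hi.symm⟩
    · exact Or.inr h
  · rintro (⟨i, hi⟩ | h)
    · exact Or.inl ⟨i, hi.symm⟩
    · exact Or.inr h

theorem card_ns (j : Fin D.n) : (D.ns j).card = D.m + D.s j := by
  unfold Gr.ns
  rw [Finset.card_union_of_disjoint, Finset.card_image_of_injective _ D.a_inj, Finset.card_univ,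
    Fintype.card_fin]
  · unfold Gr.cr Gr.s
    rw [Finset.card_biUnion]
    intro l hl l' hl' hne
    exact D.no_triple j l l' (Finset.ne_of_mem_erase hl).symm (Finset.ne_of_mem_erase hl').symm hne
  · rw [Finset.disjoint_left]
    intro c hc hc'
    obtain ⟨i, -, rfl⟩ := Finset.mem_image.mp hc
    obtain ⟨l, hl, h⟩ := Finset.mem_biUnion.mp hc'
    exact D.cross_a j l i (Finset.ne_of_mem_erase hl).symm h

end STGM

open STGM in
theorem specSTG : SpecSTG := fun D =>
  ⟨fun j l h => ⟨R_symm D j l h, kap_symm D j l h⟩,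
   fun j l s h => eval_diff D j l s h,
   fun j l s h => eval_eq_iff D j l s h,
   fun j l l' s h h' hs hs' => STGM.no_triple D j l l' s h h' hs hs',
   fun j l s h hs => lk_eq D j l s h hs,
   fun j l s h => lk_symm D j l s h,
   fun j l s _ => lk_nonneg D j l s,
   fun j h s lam hne hs => lam_eq D j h s lam hne hs,
   fun j c => mem_ns D j c,
   fun j => card_ns D j⟩

end MP743d1e.GA
end

section
/-!
# Arrangements of graphs: the number of factors
-/
set_option autoImplicit false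

namespace MP743d1e.GA

open scoped BigOperators
open Polynomial

namespace UMKM

lemma natDeg (D : Gr) {j l : Fin D.n} (h : j ≠ l) :
    (D.P j - D.P l).natDegree = (D.R j l).card := by
  rw [D.diff j l h, natDegree_C_mul (D.kap_ne j l h), natDegree_prod_of_monic _ _
    (fun r _ => monic_X_sub_C r), Finset.card_eq_sum_ones]
  exact Finset.sum_congr rfl fun r _ => natDegree_X_sub_C r

lemma exists_big (D : Gr) (hd : 1 ≤ D.d) (j : Fin D.n) : ∃ l, l ≠ j ∧ D.d ≤ (D.R j l).card := by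
  have : Nonempty (Fin D.n × Fin D.n) := ⟨(j, j)⟩
  obtain ⟨z, -, hz⟩ := Finset.exists_mem_eq_sup (Finset.univ : Finset (Fin D.n × Fin D.n))
    Finset.univ_nonempty (fun z => (D.P z.1 - D.P z.2).natDegree)
  have hz' : D.d = (D.P z.1 - D.P z.2).natDegree := hz
  have hne : z.1 ≠ z.2 := by
    intro h
    rw [h, sub_self, natDegree_zero] at hz'
    omega
  have hle : (D.P z.1 - D.P z.2).natDegree ≤
      max (D.P j - D.P z.1).natDegree (D.P j - D.P z.2).natDegree := by
    have h1 : D.P z.1 - D.P z.2 = (D.P j - D.P z.2) - (D.P j - D.P z.1) := by ring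
    rw [h1, max_comm]
    exact natDegree_sub_le _ _
  rcases le_max_iff.1 (hz' ▸ hle) with h | h
  · have h2 : z.1 ≠ j := by
      intro h3
      rw [h3, sub_self, natDegree_zero] at h
      omega
    exact ⟨z.1, h2, by rw [← natDeg D h2.symm]; exact h⟩
  · have h2 : z.2 ≠ j := by
      intro h3
      rw [h3, sub_self, natDegree_zero] at h
      omega
    exact ⟨z.2, h2, by rw [← natDeg D h2.symm]; exact h⟩

lemma deg_le_d (D : Gr) (z : Fin D.n × Fin D.n) : (D.P z.1 - D.P z.2).natDegree ≤ D.d :=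
  Finset.le_sup (f := fun z : Fin D.n × Fin D.n => (D.P z.1 - D.P z.2).natDegree)
    (Finset.mem_univ z)

lemma card_le_d (D : Gr) {j l : Fin D.n} (h : j ≠ l) : (D.R j l).card ≤ D.d :=
  le_trans (le_of_eq (natDeg D h).symm) (deg_le_d D (j, l))

lemma two_pairs (n : ℕ) :
    2 * ((Finset.univ : Finset (Fin n × Fin n)).filter (fun z => z.1 < z.2)).card = n * (n - 1) := by
  have h1 : ((Finset.univ : Finset (Fin n × Fin n)).filter (fun z => z.1 < z.2)).card =
      ((Finset.univ : Finset (Fin n × Fin n)).filter (fun z => z.2 < z.1)).card := by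
    refine Finset.card_bij' (fun z _ => (z.2, z.1)) (fun z _ => (z.2, z.1)) ?_ ?_ ?_ ?_ <;>
      simp
  have h2 : (Finset.univ : Finset (Fin n)).offDiag =
      ((Finset.univ : Finset (Fin n × Fin n)).filter (fun z => z.1 < z.2)) ∪
      ((Finset.univ : Finset (Fin n × Fin n)).filter (fun z => z.2 < z.1)) := by
    ext z
    simp only [Finset.mem_offDiag, Finset.mem_univ, true_and, Finset.mem_union, Finset.mem_filter]
    exact lt_or_lt_iff_ne.symm
  have h3 : Disjoint ((Finset.univ : Finset (Fin n × Fin n)).filter (fun z => z.1 < z.2))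
      ((Finset.univ : Finset (Fin n × Fin n)).filter (fun z => z.2 < z.1)) := by
    rw [Finset.disjoint_filter]
    intro z _ h h'
    exact absurd (h.trans h') (lt_irrefl _)
  have h4 := Finset.card_union_of_disjoint h3
  rw [← h2, Finset.offDiag_card, ← h1] at h4
  simp only [Finset.card_univ, Fintype.card_fin] at h4
  rw [Nat.mul_sub, mul_one]
  omega

end UMKM

open UMKM in
theorem specUMK (hSTG : SpecSTG) : SpecUMK := by
  intro D
  obtain ⟨-, -, -, -, -, -, -, -, -, h10⟩ := hSTG D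
  constructor
  · intro j
    rw [h10 j]
    have h1 : D.s j + ((Finset.univ.erase j).filter fun l => D.R j l = ∅).card =
        ∑ l ∈ Finset.univ.erase j, max 1 (D.R j l).card := by
      rw [Gr.s, Finset.card_filter, ← Finset.sum_add_distrib]
      refine Finset.sum_congr rfl fun l _ => ?_
      by_cases h : D.R j l = ∅
      · simp [h]
      · have : 1 ≤ (D.R j l).card := Finset.one_le_card.2 (Finset.nonempty_iff_ne_empty.2 h)
        simp [h, this]
    have h2 : D.n + D.d ≤ (∑ l ∈ Finset.univ.erase j, max 1 (D.R j l).card) + 2 := by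
      by_cases hd : 1 ≤ D.d
      · obtain ⟨l, hl, hl2⟩ := exists_big D hd j
        have hmem : l ∈ Finset.univ.erase j := Finset.mem_erase.2 ⟨hl, Finset.mem_univ _⟩
        rw [← Finset.add_sum_erase _ _ hmem]
        have h3 : (((Finset.univ : Finset (Fin D.n)).erase j).erase l).card = D.n - 2 := by
          rw [Finset.card_erase_of_mem hmem, Finset.card_erase_of_mem (Finset.mem_univ _),
            Finset.card_univ, Fintype.card_fin]
          omega
        have h4 : D.n - 2 ≤ ∑ x ∈ ((Finset.univ : Finset (Fin D.n)).erase j).erase l,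
            max 1 (D.R j x).card := by
          rw [← h3, Finset.card_eq_sum_ones]
          exact Finset.sum_le_sum fun i _ => le_max_left _ _
        have h5 : D.d ≤ max 1 (D.R j l).card := hl2.trans (le_max_right _ _)
        have := D.hn
        omega
      · have h3 : ((Finset.univ : Finset (Fin D.n)).erase j).card = D.n - 1 := by
          rw [Finset.card_erase_of_mem (Finset.mem_univ _), Finset.card_univ, Fintype.card_fin]
        have h4 : D.n - 1 ≤ ∑ x ∈ (Finset.univ : Finset (Fin D.n)).erase j,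
            max 1 (D.R j x).card := by
          rw [← h3, Finset.card_eq_sum_ones]
          exact Finset.sum_le_sum fun i _ => le_max_left _ _
        have := D.hn
        omega
    omega
  · have h1 : D.crossings ≤
        ((Finset.univ : Finset (Fin D.n × Fin D.n)).filter (fun z => z.1 < z.2)).card * D.d := by
      rw [Gr.crossings, ← smul_eq_mul]
      refine Finset.sum_le_card_nsmul _ _ _ fun z hz => ?_
      exact card_le_d D (Finset.mem_filter.1 hz).2.ne
    have h2 := two_pairs D.n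
    have h3 : 2 * D.crossings ≤ D.n * (D.n - 1) * D.d := by
      rw [← h2]
      calc 2 * D.crossings ≤ 2 * (((Finset.univ : Finset (Fin D.n × Fin D.n)).filter
            (fun z => z.1 < z.2)).card * D.d) := Nat.mul_le_mul_left _ h1
        _ = _ := by ring
    rw [Gr.e]
    omega

end MP743d1e.GA
end

section
/-!
# Arrangements of graphs: the values of the model form a flow
-/
set_option autoImplicit false

namespace MP743d1e.GA

open scoped BigOperators
open Polynomial

namespace VFLM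

variable {D : Gr} {z : Fin D.n → ℤ → ℝ}

/-- The sum of a flow over a vertical line is zero. -/
theorem sum_fiber (hPRS : SpecPRS) (hz : Flow D z) (s : ℤ) : ∑ j, z j s = 0 := by
  by_cases hs : ∃ i, s = D.a i
  · obtain ⟨i, rfl⟩ := hs
    exact hz.vert i
  · have hs' : ∀ i, s ≠ D.a i := fun i hi => hs ⟨i, hi⟩
    have h := hPRS D z (fun _ => 1) s hz hs' (fun _ _ _ _ => rfl)
    simpa using h

/-- A double sum over the nodes is a double sum over a fixed finite set. -/
theorem sum_ext (hz : Flow D z) (w : Fin D.n → ℤ → ℝ) :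
    ∑ l, ∑ s ∈ D.ns l, z l s * w l s =
      ∑ s ∈ Finset.univ.biUnion D.ns, ∑ l, z l s * w l s := by
  rw [Finset.sum_comm]
  refine Finset.sum_congr rfl fun l _ => ?_
  refine Finset.sum_subset (Finset.subset_biUnion_of_mem _ (Finset.mem_univ l)) ?_
  intro s _ hs
  rw [hz.supp l s hs, zero_mul]

/-- If all sums over the vertical lines vanish, the double sum vanishes. -/
theorem sum_zero (hz : Flow D z) (w : Fin D.n → ℤ → ℝ) (h : ∀ s, ∑ l, z l s * w l s = 0) :
    ∑ l, ∑ s ∈ D.ns l, z l s * w l s = 0 := by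
  rw [sum_ext hz w]
  exact Finset.sum_eq_zero fun s _ => h s

theorem a_mem_ns (j : Fin D.n) (i : Fin D.m) : D.a i ∈ D.ns j := by
  unfold Gr.ns
  exact Finset.mem_union_left _ (Finset.mem_image_of_mem _ (Finset.mem_univ i))

theorem R_sub_ns {j l : Fin D.n} (h : j ≠ l) : D.R j l ⊆ D.ns j := by
  intro s hs
  unfold Gr.ns Gr.cr
  refine Finset.mem_union_right _ (Finset.mem_biUnion.mpr ⟨l, ?_, hs⟩)
  exact Finset.mem_erase.mpr ⟨h.symm, Finset.mem_univ l⟩

/-- A sum over the nodes of a graph. -/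
theorem sum_ns (j : Fin D.n) (f : ℤ → ℝ) :
    ∑ c ∈ D.ns j, f c = ∑ i, f (D.a i) + ∑ h ∈ Finset.univ.erase j, ∑ r ∈ D.R j h, f r := by
  unfold Gr.ns Gr.cr
  rw [Finset.sum_union, Finset.sum_image (fun x _ y _ hxy => D.a_inj hxy), Finset.sum_biUnion]
  · intro x hx y hy hxy
    have hx' : j ≠ x := fun h => (Finset.mem_erase.mp hx).1 h.symm
    have hy' : j ≠ y := fun h => (Finset.mem_erase.mp hy).1 h.symm
    exact D.no_triple j x y hx' hy' hxy
  · rw [Finset.disjoint_left]
    intro s hs hs'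
    obtain ⟨i, _, rfl⟩ := Finset.mem_image.mp hs
    obtain ⟨l, hl, hl'⟩ := Finset.mem_biUnion.mp hs'
    exact D.cross_a j l i (fun h => (Finset.mem_erase.mp hl).1 h.symm) hl'

theorem swap (f : Fin D.n → Fin D.n → ℝ) :
    ∑ j, ∑ l ∈ Finset.univ.erase j, f j l = ∑ j, ∑ l ∈ Finset.univ.erase j, f l j := by
  refine Finset.sum_comm' ?_
  intro x y
  simp only [Finset.mem_univ, Finset.mem_erase, true_and, and_true]
  exact ne_comm

theorem vert_aux (hSTG : SpecSTG) (hPRS : SpecPRS) (hVFF : SpecVFF) (lam : ℤ) (hz : Flow D z)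
    (i : Fin D.m) : ∑ j, V D lam z j (D.a i) = 0 := by
  have hsym : ∀ j l (s : ℤ), j ≠ l → D.lk j l s = D.lk l j s := (hSTG D).2.2.2.2.2.1
  rw [Finset.sum_congr rfl fun j _ => (hVFF D lam z hz).1 j i]
  rw [Finset.sum_sub_distrib, Finset.sum_sub_distrib]
  have h1 : ∑ j, ∑ s ∈ D.ns j, z j s * Real.log |(D.a i : ℝ) - s| = 0 := by
    refine sum_zero hz (fun _ s => Real.log |(D.a i : ℝ) - s|) fun s => ?_
    rw [← Finset.sum_mul, sum_fiber hPRS hz s, zero_mul]
  rw [h1, sub_zero, swap (fun j l => z l (D.a i) * D.lk j l (D.a i)), ← Finset.sum_sub_distrib]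
  have h2 : ∀ j : Fin D.n, z j (D.a i) * D.Lam lam j (D.a i) -
      ∑ l ∈ Finset.univ.erase j, z j (D.a i) * D.lk l j (D.a i) =
      z j (D.a i) * (Real.log |(lam : ℝ)| + ∑ i', Real.log |(D.a i : ℝ) - D.a i'|) := by
    intro j
    rw [← Finset.mul_sum, ← mul_sub]
    congr 1
    unfold Gr.Lam
    rw [Finset.sum_congr rfl fun l hl => hsym l j (D.a i) (Finset.mem_erase.mp hl).1]
    ring
  rw [Finset.sum_congr rfl fun j _ => h2 j, ← Finset.sum_mul, hz.vert i, zero_mul]

/-- The sum of the model over the nodes of the graph, for the graph itself. -/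
theorem psi_self (lam : ℤ) (j : Fin D.n) (s : ℤ) (hs : s ∈ D.ns j) :
    ∑ c ∈ D.ns j, D.psi lam j c s j =
      Real.log |(lam : ℝ)| + ∑ h ∈ Finset.univ.erase j, Real.log |(D.kap j h : ℝ)| := by
  unfold Gr.psi
  simp only [if_true]
  rw [Finset.sum_sub_distrib, Finset.sum_ite_eq, if_pos hs, sum_ns]
  unfold Gr.Lam Gr.lk
  rw [Finset.sum_add_distrib]
  have h1 : ∑ i, Real.log |(s : ℝ) - D.a i| = ∑ i, Real.log |(D.a i : ℝ) - s| :=
    Finset.sum_congr rfl fun i _ => by rw [abs_sub_comm]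
  have h2 : ∑ h ∈ Finset.univ.erase j, ∑ r ∈ D.R j h, Real.log |(s : ℝ) - r| =
      ∑ h ∈ Finset.univ.erase j, ∑ r ∈ D.R j h, Real.log |(r : ℝ) - s| :=
    Finset.sum_congr rfl fun h _ => Finset.sum_congr rfl fun r _ => by rw [abs_sub_comm]
  rw [h1, h2]
  ring

/-- The sum of the model over the nodes of the graph, for another graph. -/
theorem psi_other (lam : ℤ) {j l : Fin D.n} (h : l ≠ j) (s : ℤ) :
    ∑ c ∈ D.ns j, D.psi lam j c s l =
      -Real.log |(D.kap j l : ℝ)| + if s ∈ D.ns j then 0 else D.lk j l s := by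
  unfold Gr.psi
  simp only [if_neg h]
  rw [Finset.sum_sub_distrib, Finset.sum_ite_eq, ← Finset.sum_filter]
  have h1 : (D.ns j).filter (fun c => c ∈ D.R j l) = D.R j l := by
    ext c
    rw [Finset.mem_filter]
    exact ⟨fun hc => hc.2, fun hc => ⟨R_sub_ns h.symm hc, hc⟩⟩
  rw [h1]
  have h2 : ∑ c ∈ D.R j l, Real.log |(c : ℝ) - s| = D.lk j l s - Real.log |(D.kap j l : ℝ)| := by
    unfold Gr.lk
    rw [add_sub_cancel_left]
    exact Finset.sum_congr rfl fun r _ => by rw [abs_sub_comm]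
  rw [h2]
  split_ifs <;> ring

theorem horiz_aux (hSTG : SpecSTG) (hPRS : SpecPRS) (lam : ℤ) (hz : Flow D z)
    (j : Fin D.n) : ∑ c ∈ D.ns j, V D lam z j c = 0 := by
  have h0 : ∀ c ∈ D.ns j, V D lam z j c = ∑ l, ∑ s ∈ D.ns l, z l s * D.psi lam j c s l := by
    intro c hc
    unfold V
    rw [if_pos hc]
  rw [Finset.sum_congr rfl h0, Finset.sum_comm]
  have h1 : ∀ l : Fin D.n, ∑ c ∈ D.ns j, ∑ s ∈ D.ns l, z l s * D.psi lam j c s l =
      ∑ s ∈ D.ns l, z l s * (if l = j then 0 else if s ∈ D.ns j then 0 else D.lk j l s) := by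
    intro l
    rw [Finset.sum_comm]
    have h2 : ∀ s ∈ D.ns l, ∑ c ∈ D.ns j, z l s * D.psi lam j c s l =
        z l s * (if l = j then
          Real.log |(lam : ℝ)| + ∑ h ∈ Finset.univ.erase j, Real.log |(D.kap j h : ℝ)|
          else -Real.log |(D.kap j l : ℝ)|) +
        z l s * (if l = j then 0 else if s ∈ D.ns j then 0 else D.lk j l s) := by
      intro s hs
      rw [← Finset.mul_sum, ← mul_add]
      congr 1
      by_cases hl : l = j
      · subst hl
        rw [psi_self lam l s hs, if_pos rfl, if_pos rfl, add_zero]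
      · rw [psi_other lam hl s, if_neg hl, if_neg hl]
    rw [Finset.sum_congr rfl h2, Finset.sum_add_distrib, ← Finset.sum_mul, hz.horiz l, zero_mul,
      zero_add]
  rw [Finset.sum_congr rfl fun l _ => h1 l]
  refine sum_zero hz (fun l s => if l = j then 0 else if s ∈ D.ns j then 0 else D.lk j l s) ?_
  intro s
  by_cases hs : s ∈ D.ns j
  · refine Finset.sum_eq_zero fun l _ => ?_
    simp [hs]
  · refine hPRS D z (fun l => if l = j then 0 else if s ∈ D.ns j then 0 else D.lk j l s) s hz ?_ ?_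
    · intro i hi
      exact hs (hi ▸ a_mem_ns j i)
    · intro l l' hll hsl
      have hl : l ≠ j := by
        rintro rfl
        exact hs (R_sub_ns hll hsl)
      have hl' : l' ≠ j := by
        rintro rfl
        refine hs (R_sub_ns hll.symm ?_)
        rw [((hSTG D).1 l' l hll.symm).1]
        exact hsl
      have hv : (D.P l).eval s = (D.P l').eval s := ((hSTG D).2.2.1 l l' s hll).mpr hsl
      have n1 : s ∉ D.R j l := fun h => hs (R_sub_ns hl.symm h)
      have n2 : s ∉ D.R j l' := fun h => hs (R_sub_ns hl'.symm h)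
      simp only [if_neg hl, if_neg hl', if_neg hs]
      rw [(hSTG D).2.2.2.2.1 j l s hl.symm n1, (hSTG D).2.2.2.2.1 j l' s hl'.symm n2, hv]

end VFLM

/-- VFL. The values of the model form a flow. -/
theorem specVFL (hSTG : SpecSTG) (hPRS : SpecPRS) (hVFF : SpecVFF) : SpecVFL := by
  intro D lam z hz
  refine ⟨?_, VFLM.vert_aux hSTG hPRS hVFF lam hz, ?_, VFLM.horiz_aux hSTG hPRS lam hz⟩
  · intro j s hs
    unfold V
    rw [if_neg hs]
  · intro j l s hjl hs
    have hs' : s ∈ D.R l j := by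
      rw [((hSTG D).1 l j hjl.symm).1]
      exact hs
    rw [(hVFF D lam z hz).2 j l s hjl hs, (hVFF D lam z hz).2 l j s hjl.symm hs',
      (hSTG D).2.2.2.2.2.2.2.1 j l s lam hjl hs, (hSTG D).2.2.2.2.2.1 l j s hjl.symm]
    have h := hz.pair j l s hjl hs
    have h' : z l s = -z j s := by linarith
    rw [h']
    ring

end MP743d1e.GA
end
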