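import Pool.Agent.Lib.MP_743d1e_nt.GA.CNT
import Pool.Agent.Lib.MP_743d1e_nt.GA.Spec
import Pool.Agent.Lib.MP_743d1e_nt.UpperLat

section
/-!
# Arrangements of graphs: the resultant is not zero
-/
set_option autoImplicit false

namespace MP743d1e.GA

open scoped BigOperators
open Polynomial

namespace RNZM

theorem natDegree_Qx (D : Gr) (x0 : ℂ) :
    (∏ j, (X - C (D.b j x0)) : ℂ[X]).natDegree = D.n := by
  rw [natDegree_prod_of_monic _ _ fun r _ => monic_X_sub_C _,
    Finset.sum_congr rfl fun r _ => natDegree_X_sub_C _]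
  simp

theorem natDegree_F (D : Gr) (x0 : ℂ) :
    ((derivative D.Qp).map (evalRingHom x0)).natDegree = D.n - 1 := by
  rw [← derivative_map, CNTM.Qp_map, natDegree_derivative, natDegree_Qx]

theorem F_ne (D : Gr) (x0 : ℂ) : (derivative D.Qp).map (evalRingHom x0) ≠ 0 := by
  intro h
  have h1 := natDegree_F D x0
  rw [h, natDegree_zero] at h1
  have := D.hn
  omega

theorem natDegree_G (D : Gr) (x0 : ℂ) : (D.Gp.map (evalRingHom x0)).natDegree ≤ D.n := by
  unfold Gr.Gp
  rw [Polynomial.map_sub, Polynomial.map_mul, Polynomial.map_mul, map_C, map_C, CNTM.Qp_map,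
    Polynomial.map_sum]
  refine (natDegree_sub_le _ _).trans (max_le ?_ ?_)
  · refine (natDegree_C_mul_le _ _).trans ?_
    rw [natDegree_Qx]
  · refine (natDegree_C_mul_le _ _).trans ?_
    refine natDegree_sum_le_of_forall_le _ _ fun j _ => ?_
    rw [Polynomial.map_mul, map_C]
    refine (natDegree_C_mul_le _ _).trans ?_
    rw [Polynomial.map_prod]
    refine (natDegree_prod_le _ _).trans ?_
    refine (Finset.sum_le_sum (g := fun _ => 1) fun l _ => ?_).trans ?_
    · rw [Polynomial.map_sub, map_X, map_C]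
      exact natDegree_X_sub_C_le _
    · simp

end RNZM

theorem specRNZ : SpecRNZ := by
  intro D hN
  have h1 : D.Np.eval ((D.a D.i0 : ℤ) : ℂ) = 0 := by rw [hN, eval_zero]
  have h2 : evalRingHom ((D.a D.i0 : ℤ) : ℂ) D.Np = 0 := h1
  unfold Gr.Np at h2
  rw [← resultant_map_map] at h2
  set x0 : ℂ := ((D.a D.i0 : ℤ) : ℂ) with hx0
  rw [← RNZM.natDegree_F D x0, resultant_eq_prod_eval _ _ _ (RNZM.natDegree_G D x0)
    (IsAlgClosed.splits _), mul_eq_zero] at h2
  rcases h2 with h2 | h2
  · exact RNZM.F_ne D x0 (leadingCoeff_eq_zero.mp (pow_eq_zero_iff (by have := D.hn; omega) |>.mp h2))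
  · rw [Multiset.prod_eq_zero_iff, Multiset.mem_map] at h2
    obtain ⟨η, hη, hG⟩ := h2
    have hF := (mem_roots'.mp hη).2
    rw [IsRoot.def, CNTM.Qy_eval] at hF
    rw [CNTM.Gp_eval] at hG
    have ha0 : ∏ i, (x0 - (D.a i : ℂ)) = 0 :=
      Finset.prod_eq_zero (Finset.mem_univ D.i0) (by rw [hx0, sub_self])
    rw [ha0, zero_mul, sub_zero, mul_eq_zero] at hG
    rcases hG with hG | hG
    · rw [Finset.sum_eq_single D.i0] at hG
      · rw [Finset.prod_eq_zero_iff] at hG
        obtain ⟨i, hi, h3⟩ := hG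
        rw [hx0, sub_eq_zero, Int.cast_inj] at h3
        exact (Finset.mem_erase.mp hi).1 (D.a_inj h3).symm
      · intro i _ hi
        exact Finset.prod_eq_zero (Finset.mem_erase.mpr ⟨hi.symm, Finset.mem_univ D.i0⟩)
          (by rw [hx0, sub_self])
      · intro h
        exact absurd (Finset.mem_univ _) h
    · rw [Finset.prod_eq_zero_iff] at hG
      obtain ⟨j, _, hj⟩ := hG
      rw [Finset.sum_eq_single j] at hF
      · rw [Finset.prod_eq_zero_iff] at hF
        obtain ⟨l, hl, h3⟩ := hF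
        have h4 : D.b j x0 = D.b l x0 := by
          rw [← sub_eq_zero.mp hj, ← sub_eq_zero.mp h3]
        refine absurd h4 (D.prod_ne (Finset.mem_erase.mp hl).1.symm ?_)
        exact D.cross_a j l D.i0 (Finset.mem_erase.mp hl).1.symm
      · intro l _ hl
        exact Finset.prod_eq_zero (Finset.mem_erase.mpr ⟨hl.symm, Finset.mem_univ j⟩) hj
      · intro h
        exact absurd (Finset.mem_univ _) h

end MP743d1e.GA
end

section
/-!
# Arrangements of graphs: the degree of the resultant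
-/
set_option autoImplicit false

namespace MP743d1e.GA

open scoped BigOperators
open Polynomial

namespace RDGM

theorem low {x : ℂ} {r : ℤ} (h : 2 * |(r : ℝ)| ≤ ‖x‖) : ‖x‖ / 2 ≤ ‖x - (r : ℂ)‖ := by
  have h1 : ‖(r : ℂ)‖ = |(r : ℝ)| := Complex.norm_intCast r
  have h2 := norm_sub_norm_le x (r : ℂ)
  rw [h1] at h2
  linarith

theorem upp {x : ℂ} {r : ℤ} (h : 2 * |(r : ℝ)| ≤ ‖x‖) : ‖x - (r : ℂ)‖ ≤ 2 * ‖x‖ := by
  have h1 : ‖(r : ℂ)‖ = |(r : ℝ)| := Complex.norm_intCast r
  have h2 := norm_sub_le x (r : ℂ)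
  rw [h1] at h2
  have := norm_nonneg x
  linarith

/-- The difference of the slopes of two graphs. -/
theorem dP_sub (D : Gr) {j l : Fin D.n} (h : j ≠ l) (x : ℂ)
    (hx : ∀ r ∈ D.R j l, x - (r : ℂ) ≠ 0) :
    aeval x (derivative (D.P j)) - aeval x (derivative (D.P l)) =
      (D.b j x - D.b l x) * ∑ r ∈ D.R j l, (x - (r : ℂ))⁻¹ := by
  rw [D.b_sub h, ← map_sub, ← derivative_sub, D.diff j l h, derivative_C_mul, map_mul, aeval_C,
    derivative_prod_finset, map_sum, Finset.mul_sum, Finset.mul_sum]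
  refine Finset.sum_congr rfl fun r hr => ?_
  rw [derivative_X_sub_C, mul_one, map_prod, ← Finset.mul_prod_erase _ _ hr]
  have h1 := hx r hr
  simp only [map_sub, aeval_X, algebraMap_int_eq, eq_intCast, map_intCast]
  field_simp

theorem f_ne (D : Gr) {x η : ℂ} (hx : ∀ j l, ∀ r ∈ D.R j l, x - (r : ℂ) ≠ 0)
    (hη : ∑ j, ∏ l ∈ Finset.univ.erase j, (η - D.b l x) = 0) (j : Fin D.n) :
    η - D.b j x ≠ 0 := by
  intro hj
  rw [Finset.sum_eq_single j] at hη
  · rw [Finset.prod_eq_zero_iff] at hη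
    obtain ⟨l, hl, h3⟩ := hη
    have h4 : D.b j x = D.b l x := by
      rw [← sub_eq_zero.mp hj, ← sub_eq_zero.mp h3]
    exact D.b_ne (Finset.mem_erase.mp hl).1.symm (fun r hr => sub_ne_zero.mp (hx _ _ r hr)) h4
  · intro l _ hl
    exact Finset.prod_eq_zero (Finset.mem_erase.mpr ⟨hl.symm, Finset.mem_univ j⟩) hj
  · intro h
    exact absurd (Finset.mem_univ _) h

theorem sum_inv (D : Gr) {x η : ℂ} (hf : ∀ j, η - D.b j x ≠ 0)
    (hη : ∑ j, ∏ l ∈ Finset.univ.erase j, (η - D.b l x) = 0) : ∑ j, (η - D.b j x)⁻¹ = 0 := by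
  rw [Finset.sum_congr rfl fun j _ => CNTM.prod_erase_inv (fun l => η - D.b l x) j (hf j),
    ← Finset.mul_sum, mul_eq_zero] at hη
  exact hη.resolve_left (Finset.prod_ne_zero_iff.mpr fun j _ => hf j)

theorem inv_bound {x : ℂ} (hx0 : 0 < ‖x‖) {S : Finset ℤ} {d : ℕ} (hS : S.card ≤ d)
    (hx : ∀ r ∈ S, ‖x‖ / 2 ≤ ‖x - (r : ℂ)‖) :
    ‖∑ r ∈ S, (x - (r : ℂ))⁻¹‖ ≤ d * (2 / ‖x‖) := by
  have h1 : ∀ r ∈ S, ‖(x - (r : ℂ))⁻¹‖ ≤ 2 / ‖x‖ := by
    intro r hr
    rw [norm_inv]
    have h2 := inv_anti₀ (by positivity) (hx r hr)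
    rwa [inv_div] at h2
  have h3 := norm_sum_le_of_le S h1
  rw [Finset.sum_const, nsmul_eq_mul] at h3
  refine h3.trans ?_
  have h4 : (S.card : ℝ) ≤ d := by exact_mod_cast hS
  exact mul_le_mul_of_nonneg_right h4 (by positivity)

theorem sum_bound (D : Gr) {x η : ℂ} (hx0 : 0 < ‖x‖)
    (hx : ∀ j l, ∀ r ∈ D.R j l, ‖x‖ / 2 ≤ ‖x - (r : ℂ)‖)
    (hf : ∀ j, η - D.b j x ≠ 0) (hs : ∑ j, (η - D.b j x)⁻¹ = 0) :
    ‖∑ l, aeval x (derivative (D.P l)) * (η - D.b l x)⁻¹‖ ≤ D.n * (4 * D.d / ‖x‖) := by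
  obtain ⟨j, -, hj⟩ := Finset.exists_min_image Finset.univ (fun l => ‖η - D.b l x‖)
    ⟨D.j0, Finset.mem_univ _⟩
  have h1 : ∑ l, aeval x (derivative (D.P l)) * (η - D.b l x)⁻¹ =
      ∑ l, (aeval x (derivative (D.P l)) - aeval x (derivative (D.P j))) *
        (η - D.b l x)⁻¹ := by
    rw [Finset.sum_congr rfl fun l _ => sub_mul (aeval x (derivative (D.P l)))
      (aeval x (derivative (D.P j))) (η - D.b l x)⁻¹, Finset.sum_sub_distrib, ← Finset.mul_sum, hs,
      mul_zero, sub_zero]
  rw [h1]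
  have h2 : ∀ l ∈ (Finset.univ : Finset (Fin D.n)),
      ‖(aeval x (derivative (D.P l)) - aeval x (derivative (D.P j))) * (η - D.b l x)⁻¹‖ ≤
        4 * D.d / ‖x‖ := by
    intro l _
    by_cases hl : l = j
    · rw [hl, sub_self, zero_mul, norm_zero]
      positivity
    · have hne : ∀ r ∈ D.R l j, x - (r : ℂ) ≠ 0 := by
        intro r hr h0
        have := hx l j r hr
        rw [h0, norm_zero] at this
        linarith
      rw [dP_sub D hl x hne, norm_mul, norm_mul, norm_inv]
      have h3 : ‖D.b l x - D.b j x‖ ≤ 2 * ‖η - D.b l x‖ := by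
        have h4 : D.b l x - D.b j x = (η - D.b j x) - (η - D.b l x) := by ring
        rw [h4]
        have h5 := norm_sub_le (η - D.b j x) (η - D.b l x)
        have h6 := hj l (Finset.mem_univ l)
        linarith
      have h7 := inv_bound hx0 (D.card_le_d hl) (hx l j)
      have h8 : 0 < ‖η - D.b l x‖ := norm_pos_iff.mpr (hf l)
      have h9 : ‖D.b l x - D.b j x‖ * ‖∑ r ∈ D.R l j, (x - (r : ℂ))⁻¹‖ ≤
          (2 * ‖η - D.b l x‖) * (D.d * (2 / ‖x‖)) :=
        mul_le_mul h3 h7 (norm_nonneg _) (by positivity)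
      calc _ ≤ (2 * ‖η - D.b l x‖) * (D.d * (2 / ‖x‖)) * ‖η - D.b l x‖⁻¹ :=
            mul_le_mul_of_nonneg_right h9 (by positivity)
        _ = 4 * D.d / ‖x‖ := by
            field_simp
            ring
  have h3 := norm_sum_le_of_le Finset.univ h2
  rw [Finset.sum_const, nsmul_eq_mul, Finset.card_univ, Fintype.card_fin] at h3
  exact h3

theorem G_bound (D : Gr) {x η : ℂ} (hx0 : 0 < ‖x‖)
    (hx : ∀ j l, ∀ r ∈ D.R j l, ‖x‖ / 2 ≤ ‖x - (r : ℂ)‖)
    (ha : ∀ i, ‖x‖ / 2 ≤ ‖x - (D.a i : ℂ)‖)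
    (hη : ((derivative D.Qp).map (evalRingHom x)).eval η = 0) :
    ‖(D.Gp.map (evalRingHom x)).eval η‖ ≤
      ((2 * D.m + 4 * D.n * D.d) / ‖x‖ * ∏ i, ‖x - (D.a i : ℂ)‖) *
        ‖(D.Qp.map (evalRingHom x)).eval η‖ := by
  have hxn : ∀ j l, ∀ r ∈ D.R j l, x - (r : ℂ) ≠ 0 := by
    intro j l r hr h0
    have := hx j l r hr
    rw [h0, norm_zero] at this
    linarith
  have han : ∀ i, x - (D.a i : ℂ) ≠ 0 := by
    intro i h0
    have := ha i
    rw [h0, norm_zero] at this
    linarith
  rw [CNTM.Qy_eval] at hη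
  have hf := f_ne D hxn hη
  have hs := sum_inv D hf hη
  have hb := sum_bound D hx0 hx hf hs
  have h5 : ∑ j, aeval x (derivative (D.P j)) * ∏ l ∈ Finset.univ.erase j, (η - D.b l x) =
      (∏ l, (η - D.b l x)) * ∑ l, aeval x (derivative (D.P l)) * (η - D.b l x)⁻¹ := by
    rw [Finset.mul_sum]
    apply Finset.sum_congr rfl
    intro j _
    rw [CNTM.prod_erase_inv (fun l => η - D.b l x) j (hf j)]
    ring
  have h6 : (∏ l, (η - D.b l x)) = (D.Qp.map (evalRingHom x)).eval η := by
    rw [CNTM.Qp_map, eval_prod]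
    refine Finset.prod_congr rfl fun l _ => ?_
    rw [Polynomial.eval_sub, eval_X, eval_C]
  rw [CNTM.Gp_eval, h5, h6,
    Finset.sum_congr rfl fun i _ => CNTM.prod_erase_inv (fun l => x - (D.a l : ℂ)) i (han i),
    ← Finset.mul_sum]
  have h7 : ‖∑ i, (x - (D.a i : ℂ))⁻¹‖ ≤ D.m * (2 / ‖x‖) := by
    have h1 : ∀ i ∈ (Finset.univ : Finset (Fin D.m)), ‖(x - (D.a i : ℂ))⁻¹‖ ≤ 2 / ‖x‖ := by
      intro i _
      rw [norm_inv]
      have h2 := inv_anti₀ (by positivity) (ha i)
      rwa [inv_div] at h2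
    have h3 := norm_sum_le_of_le Finset.univ h1
    rwa [Finset.sum_const, nsmul_eq_mul, Finset.card_univ, Fintype.card_fin] at h3
  set Q := (D.Qp.map (evalRingHom x)).eval η
  set A := ∏ i, (x - (D.a i : ℂ)) with hA
  set U := ∑ i, (x - (D.a i : ℂ))⁻¹
  set V := ∑ l, aeval x (derivative (D.P l)) * (η - D.b l x)⁻¹
  have h8 : A * U * Q - A * (Q * V) = A * Q * (U - V) := by ring
  have h9 : ∏ i, ‖x - (D.a i : ℂ)‖ = ‖A‖ := by rw [hA, norm_prod]
  rw [h8, h9, norm_mul, norm_mul]
  have h10 : ‖U - V‖ ≤ (2 * D.m + 4 * D.n * D.d) / ‖x‖ := by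
    refine (norm_sub_le _ _).trans ((add_le_add h7 hb).trans (le_of_eq ?_))
    field_simp
    try ring
  calc ‖A‖ * ‖Q‖ * ‖U - V‖ ≤ ‖A‖ * ‖Q‖ * ((2 * D.m + 4 * D.n * D.d) / ‖x‖) :=
        mul_le_mul_of_nonneg_left h10 (by positivity)
    _ = _ := by ring

/-- The product over the roots. -/
theorem res_F (D : Gr) (x : ℂ) {g : ℂ[X][X]} (hg : (g.map (evalRingHom x)).natDegree ≤ D.n) :
    (resultant (derivative D.Qp) g (D.n - 1) D.n).eval x =
      ((derivative D.Qp).map (evalRingHom x)).leadingCoeff ^ D.n *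
        (((derivative D.Qp).map (evalRingHom x)).roots.map (g.map (evalRingHom x)).eval).prod := by
  have h2 : evalRingHom x (resultant (derivative D.Qp) g (D.n - 1) D.n) =
    (resultant (derivative D.Qp) g (D.n - 1) D.n).eval x := rfl
  rw [← h2, ← resultant_map_map]
  rw [← RNZM.natDegree_F D x]
  exact resultant_eq_prod_eval _ _ _ hg (IsAlgClosed.splits _)

theorem prod_le {u v : ℂ → ℂ} {K : ℝ} (hK : 0 ≤ K) (S : Multiset ℂ) :
    (∀ η ∈ S, ‖u η‖ ≤ K * ‖v η‖) → ‖(S.map u).prod‖ ≤ K ^ S.card * ‖(S.map v).prod‖ := by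
  induction S using Multiset.induction with
  | empty => intro _; simp
  | cons a S ih =>
    intro h
    rw [Multiset.map_cons, Multiset.prod_cons, Multiset.map_cons, Multiset.prod_cons, norm_mul,
      norm_mul, Multiset.card_cons]
    have h1 := h a (Multiset.mem_cons_self a S)
    have h2 := ih fun η hη => h η (Multiset.mem_cons_of_mem hη)
    calc ‖u a‖ * ‖(S.map u).prod‖ ≤ (K * ‖v a‖) * (K ^ S.card * ‖(S.map v).prod‖) :=
          mul_le_mul h1 h2 (norm_nonneg _) (by positivity)
      _ = _ := by ring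

/-- The discriminant. -/
theorem disc (D : Gr) (x : ℂ) :
    ‖(resultant (derivative D.Qp) D.Qp (D.n - 1) D.n).eval x‖ =
      ∏ j, ∏ l ∈ Finset.univ.erase j, ‖D.b j x - D.b l x‖ := by
  have h2 : evalRingHom x (resultant (derivative D.Qp) D.Qp (D.n - 1) D.n) =
    (resultant (derivative D.Qp) D.Qp (D.n - 1) D.n).eval x := rfl
  have h3 : (D.Qp.map (evalRingHom x)).natDegree = D.n := by
    rw [CNTM.Qp_map, RNZM.natDegree_Qx]
  have h4 : (D.Qp.map (evalRingHom x)).leadingCoeff = 1 := by
    rw [CNTM.Qp_map]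
    exact monic_prod_of_monic _ _ fun r _ => monic_X_sub_C _
  have h5 : (D.Qp.map (evalRingHom x)).roots =
      (Finset.univ : Finset (Fin D.n)).val.map fun j => D.b j x := by
    rw [CNTM.Qp_map, Finset.prod_eq_multiset_prod]
    rw [← Polynomial.roots_multiset_prod_X_sub_C
      ((Finset.univ : Finset (Fin D.n)).val.map fun j => D.b j x), Multiset.map_map]
    rfl
  have h7 := resultant_eq_prod_eval (D.Qp.map (evalRingHom x)) _ _ (RNZM.natDegree_F D x).le
    (IsAlgClosed.splits _)
  rw [h3, h4, one_pow, one_mul, h5, Multiset.map_map] at h7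
  rw [← h2, ← resultant_map_map, resultant_comm, h7, norm_mul, norm_pow, norm_neg, norm_one,
    one_pow, one_mul]
  have h6 : (Multiset.map (((derivative D.Qp).map (evalRingHom x)).eval ∘ fun j => D.b j x)
      (Finset.univ : Finset (Fin D.n)).val).prod =
      ∏ j, ((derivative D.Qp).map (evalRingHom x)).eval (D.b j x) := rfl
  rw [h6, norm_prod]
  refine Finset.prod_congr rfl fun j _ => ?_
  rw [CNTM.Qy_eval, Finset.sum_eq_single j, norm_prod]
  · intro l _ hl
    exact Finset.prod_eq_zero (Finset.mem_erase.mpr ⟨hl.symm, Finset.mem_univ j⟩) (sub_self _)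
  · intro h
    exact absurd (Finset.mem_univ _) h

theorem sum_card (D : Gr) :
    ∑ j, ∑ l ∈ Finset.univ.erase j, (D.R j l).card = 2 * D.crossings := by
  have h1 : ∀ j, ∑ l ∈ Finset.univ.erase j, (D.R j l).card =
      ∑ l, ((if j < l then (D.R j l).card else 0) + (if l < j then (D.R l j).card else 0)) := by
    intro j
    rw [← Finset.sum_filter_add_sum_filter_not Finset.univ (fun l => l ≠ j)]
    rw [Finset.sum_eq_zero (s := Finset.univ.filter fun l => ¬ l ≠ j), add_zero]
    · refine Finset.sum_congr ?_ ?_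
      · ext l
        simp
      · intro l hl
        rw [Finset.mem_filter] at hl
        rcases lt_or_gt_of_ne hl.2 with h | h
        · rw [if_neg (not_lt.mpr h.le), if_pos h, zero_add, D.R_symm hl.2]
        · rw [if_pos h, if_neg (not_lt.mpr h.le), add_zero]
    · intro l hl
      rw [Finset.mem_filter, not_not] at hl
      rw [hl.2, if_neg (lt_irrefl _), add_zero]
  rw [Finset.sum_congr rfl fun j _ => h1 j]
  have h2 : D.crossings = ∑ j, ∑ l, (if j < l then (D.R j l).card else 0) := by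
    unfold Gr.crossings
    rw [Finset.sum_filter, Fintype.sum_prod_type]
  have h3 : D.crossings = ∑ j, ∑ l, (if l < j then (D.R l j).card else 0) := by
    rw [h2, Finset.sum_comm]
  rw [Finset.sum_congr rfl fun j _ => Finset.sum_add_distrib, Finset.sum_add_distrib, ← h2, ← h3,
    two_mul]

/-- A polynomial of polynomial growth. -/
theorem deg_le {p : ℂ[X]} {C0 N0 : ℝ} {k : ℕ}
    (h : ∀ x : ℂ, N0 ≤ ‖x‖ → ‖p.eval x‖ ≤ C0 * ‖x‖ ^ k) : p.natDegree ≤ k := by
  by_contra hk
  rw [not_le] at hk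
  have hm : (X ^ k : ℂ[X]).Monic := monic_X_pow k
  set q := p /ₘ X ^ k with hq
  set r := p %ₘ X ^ k with hr
  have hpq : r + X ^ k * q = p := modByMonic_add_div p (X ^ k)
  have hqd : 0 < q.degree := by
    rw [← natDegree_pos_iff_degree_pos, hq, natDegree_divByMonic _ hm, natDegree_X_pow]
    omega
  have hrd : r.natDegree ≤ k := by
    have h1 := natDegree_modByMonic_le p hm
    rwa [natDegree_X_pow] at h1
  have hrb : ∀ x : ℂ, 1 ≤ ‖x‖ →
      ‖r.eval x‖ ≤ (∑ i ∈ Finset.range (k + 1), ‖r.coeff i‖) * ‖x‖ ^ k := by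
    intro x hx
    rw [eval_eq_sum_range' (Nat.lt_succ_of_le hrd), Finset.sum_mul]
    refine norm_sum_le_of_le _ fun i hi => ?_
    rw [norm_mul, norm_pow]
    exact mul_le_mul_of_nonneg_left (pow_le_pow_right₀ hx (by
      have := Finset.mem_range.mp hi
      omega)) (norm_nonneg _)
  set C1 := ∑ i ∈ Finset.range (k + 1), ‖r.coeff i‖
  have hqb : ∀ x : ℂ, 1 ≤ ‖x‖ → N0 ≤ ‖x‖ → ‖q.eval x‖ ≤ C0 + C1 := by
    intro x hx hx'
    have h1 := h x hx'
    have h2 := hrb x hx
    have h3 : x ^ k * q.eval x = p.eval x - r.eval x := by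
      rw [← hpq, eval_add, eval_mul, eval_pow, eval_X]
      ring
    have h4 : ‖x‖ ^ k * ‖q.eval x‖ ≤ ‖x‖ ^ k * (C0 + C1) := by
      rw [← norm_pow, ← norm_mul, h3, norm_pow]
      refine (norm_sub_le _ _).trans ?_
      linarith
    exact le_of_mul_le_mul_left h4 (by positivity)
  have ht : Filter.Tendsto (fun n : ℕ => ‖(n : ℂ)‖) Filter.atTop Filter.atTop := by
    simp only [Complex.norm_natCast]
    exact tendsto_natCast_atTop_atTop
  have h5 := q.tendsto_norm_atTop hqd ht
  have h6 := (h5.eventually_gt_atTop (C0 + C1)).and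
    ((ht.eventually_ge_atTop 1).and (ht.eventually_ge_atTop N0))
  obtain ⟨n, h7, h8, h9⟩ := h6.exists
  exact absurd (hqb n h8 h9) (not_le.mpr h7)

/-- Far away from all crossings. -/
theorem far (D : Gr) : ∃ N0 : ℝ, 1 ≤ N0 ∧ (∀ i, 2 * |(D.a i : ℝ)| ≤ N0) ∧
    ∀ j l, ∀ r ∈ D.R j l, 2 * |(r : ℝ)| ≤ N0 := by
  let S : Finset ℤ := Finset.univ.image D.a ∪
    Finset.univ.biUnion fun z : Fin D.n × Fin D.n => D.R z.1 z.2
  obtain ⟨M, hM⟩ := (S.image fun r : ℤ => 2 * |(r : ℝ)|).exists_le
  refine ⟨max 1 M, le_max_left _ _, fun i => ?_, fun j l r hr => ?_⟩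
  · refine (hM _ (Finset.mem_image_of_mem _ ?_)).trans (le_max_right _ _)
    exact Finset.mem_union_left _ (Finset.mem_image_of_mem _ (Finset.mem_univ i))
  · refine (hM _ (Finset.mem_image_of_mem _ ?_)).trans (le_max_right _ _)
    exact Finset.mem_union_right _ (Finset.mem_biUnion.mpr ⟨(j, l), Finset.mem_univ _, hr⟩)

theorem prod_le_card {ι : Type} {S : Finset ι} {f : ι → ℂ} {c : ℝ} (h : ∀ i ∈ S, ‖f i‖ ≤ c) :
    ∏ i ∈ S, ‖f i‖ ≤ c ^ S.card := by
  rw [← Finset.prod_const]
  exact Finset.prod_le_prod (fun i _ => norm_nonneg _) h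

theorem disc_bound (D : Gr) {x : ℂ} (hx : ∀ j l, ∀ r ∈ D.R j l, ‖x - (r : ℂ)‖ ≤ 2 * ‖x‖) :
    ∏ j, ∏ l ∈ Finset.univ.erase j, ‖D.b j x - D.b l x‖ ≤
      (∏ j, ∏ l ∈ Finset.univ.erase j, ‖(D.kap j l : ℂ)‖) * (2 * ‖x‖) ^ (2 * D.crossings) := by
  rw [← sum_card, ← Finset.prod_pow_eq_pow_sum, ← Finset.prod_mul_distrib]
  refine Finset.prod_le_prod (fun j _ => Finset.prod_nonneg fun l _ => norm_nonneg _)
    fun j _ => ?_
  rw [← Finset.prod_pow_eq_pow_sum, ← Finset.prod_mul_distrib]
  refine Finset.prod_le_prod (fun l _ => norm_nonneg _) fun l hl => ?_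
  rw [D.b_sub (Finset.mem_erase.mp hl).1.symm, norm_mul, norm_prod]
  refine mul_le_mul_of_nonneg_left ?_ (norm_nonneg _)
  exact prod_le_card fun r hr => hx j l r hr

end RDGM

/-- Module RDG. -/
theorem specRDG : SpecRDG := by
  intro D
  obtain ⟨N0, h1, h2, h3⟩ := RDGM.far D
  set K : ℝ := 2 * D.m + 4 * D.n * D.d with hK
  set L : ℝ := ∏ j, ∏ l ∈ Finset.univ.erase j, ‖(D.kap j l : ℂ)‖ with hL
  refine RDGM.deg_le (C0 := (K * 2 ^ D.m) ^ (D.n - 1) * (L * 2 ^ (2 * D.crossings))) (N0 := N0)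
    fun x hx => ?_
  have hx0 : 0 < ‖x‖ := by linarith
  have hK0 : 0 ≤ K := by positivity
  have hL0 : 0 ≤ L := Finset.prod_nonneg fun j _ => Finset.prod_nonneg fun l _ => norm_nonneg _
  have hA : ∏ i, ‖x - (D.a i : ℂ)‖ ≤ (2 * ‖x‖) ^ D.m := by
    have h4 := RDGM.prod_le_card (S := (Finset.univ : Finset (Fin D.m)))
      (f := fun i => x - (D.a i : ℂ)) (c := 2 * ‖x‖) fun i _ => RDGM.upp ((h2 i).trans hx)
    rwa [Finset.card_univ, Fintype.card_fin] at h4
  have hKA : K / ‖x‖ * ∏ i, ‖x - (D.a i : ℂ)‖ ≤ K * 2 ^ D.m * ‖x‖ ^ (D.m - 1) := by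
    calc K / ‖x‖ * ∏ i, ‖x - (D.a i : ℂ)‖ ≤ K / ‖x‖ * (2 * ‖x‖) ^ D.m :=
          mul_le_mul_of_nonneg_left hA (by positivity)
      _ = K * 2 ^ D.m * ‖x‖ ^ (D.m - 1) := by
          have h5 : D.m = (D.m - 1) + 1 := by have := D.hm; omega
          rw [mul_pow]
          nth_rewrite 2 [h5]
          rw [pow_succ]
          field_simp
  have hKA0 : 0 ≤ K / ‖x‖ * ∏ i, ‖x - (D.a i : ℂ)‖ :=
    mul_nonneg (by positivity) (Finset.prod_nonneg fun i _ => norm_nonneg _)
  have hG := RDGM.res_F D x (RNZM.natDegree_G D x)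
  have hQ := RDGM.res_F D x (g := D.Qp) (by rw [CNTM.Qp_map, RNZM.natDegree_Qx])
  set F := (derivative D.Qp).map (evalRingHom x) with hF
  have hcard : F.roots.card = D.n - 1 := by
    rw [← RNZM.natDegree_F D x]
    exact (IsAlgClosed.splits _).natDegree_eq_card_roots.symm
  have h6 := RDGM.prod_le (u := (D.Gp.map (evalRingHom x)).eval)
    (v := (D.Qp.map (evalRingHom x)).eval) hKA0 F.roots (fun η hη => RDGM.G_bound D hx0
      (fun j l r hr => RDGM.low ((h3 j l r hr).trans hx)) (fun i => RDGM.low ((h2 i).trans hx))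
      (mem_roots'.mp hη).2)
  rw [hcard] at h6
  have h7 : ‖D.Np.eval x‖ ≤ (K / ‖x‖ * ∏ i, ‖x - (D.a i : ℂ)‖) ^ (D.n - 1) *
      ‖(resultant (derivative D.Qp) D.Qp (D.n - 1) D.n).eval x‖ := by
    unfold Gr.Np
    rw [hG, hQ, norm_mul, norm_mul]
    calc _ ≤ ‖F.leadingCoeff ^ D.n‖ * ((K / ‖x‖ * ∏ i, ‖x - (D.a i : ℂ)‖) ^ (D.n - 1) *
          ‖(F.roots.map (D.Qp.map (evalRingHom x)).eval).prod‖) :=
          mul_le_mul_of_nonneg_left h6 (norm_nonneg _)
      _ = _ := by ring
  rw [RDGM.disc] at h7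
  have h8 := RDGM.disc_bound D (x := x) fun j l r hr => RDGM.upp ((h3 j l r hr).trans hx)
  rw [← hL] at h8
  have h9 : (K / ‖x‖ * ∏ i, ‖x - (D.a i : ℂ)‖) ^ (D.n - 1) ≤
      (K * 2 ^ D.m * ‖x‖ ^ (D.m - 1)) ^ (D.n - 1) := pow_le_pow_left₀ hKA0 hKA _
  refine h7.trans ((mul_le_mul h9 h8 (Finset.prod_nonneg fun j _ =>
    Finset.prod_nonneg fun l _ => norm_nonneg _) (by positivity)).trans (le_of_eq ?_))
  rw [mul_pow, mul_pow (2 : ℝ) ‖x‖, pow_add, pow_mul ‖x‖ (D.m - 1)]
  ring

end MP743d1e.GA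
end

section
/-!
# Arrangements of graphs: common zeros of the partial derivatives above `x0`
-/
set_option autoImplicit false

namespace MP743d1e.GA

open scoped BigOperators
open Polynomial

namespace RDVM

/-- The power vector of a common root is a null vector of the transpose of the Sylvester matrix. -/
theorem null {f g : ℂ[X]} {m n : ℕ} (hf : f.natDegree ≤ m) (hg : g.natDegree ≤ n) {y : ℂ}
    (h1 : f.eval y = 0) (h2 : g.eval y = 0) (j : Fin (m + n)) :
    ∑ i : Fin (m + n), sylvester f g m n i j * y ^ (i : ℕ) = 0 := by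
  have key : ∀ (h : ℂ[X]) (d s : ℕ), h.natDegree ≤ d → s + d < m + n → h.eval y = 0 →
      ∑ i : Fin (m + n), (if (i : ℕ) ∈ Set.Icc s (s + d) then h.coeff (i - s) else 0) * y ^ (i : ℕ)
        = 0 := by
    intro h d s hd hs hy
    rw [Fin.sum_univ_eq_sum_range
      (fun i => (if i ∈ Set.Icc s (s + d) then h.coeff (i - s) else 0) * y ^ i) (m + n)]
    have h3 : ∑ i ∈ Finset.range (m + n),
        (if i ∈ Set.Icc s (s + d) then h.coeff (i - s) else 0) * y ^ i =
        ∑ i ∈ Finset.Ico s (s + (d + 1)), h.coeff (i - s) * y ^ i := by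
      rw [← Finset.sum_filter_add_sum_filter_not (Finset.range (m + n))
        (fun i => i ∈ Set.Icc s (s + d))]
      rw [Finset.sum_eq_zero (s := (Finset.range (m + n)).filter fun i => ¬ i ∈ Set.Icc s (s + d)),
        add_zero]
      · apply Finset.sum_congr
        · ext i
          simp only [Finset.mem_filter, Finset.mem_range, Set.mem_Icc, Finset.mem_Ico]
          omega
        · intro i hi
          rw [Finset.mem_Ico] at hi
          rw [if_pos]
          rw [Set.mem_Icc]
          omega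
      · intro i hi
        rw [if_neg (Finset.mem_filter.mp hi).2, zero_mul]
    rw [h3, Finset.sum_Ico_eq_sum_range]
    have h4 : ∀ k, h.coeff (s + k - s) * y ^ (s + k) = y ^ s * (h.coeff k * y ^ k) := by
      intro k
      rw [Nat.add_sub_cancel_left, pow_add]
      ring
    rw [Finset.sum_congr rfl fun k _ => h4 k, ← Finset.mul_sum]
    have h5 : s + (d + 1) - s = d + 1 := by omega
    rw [h5, ← Polynomial.eval_eq_sum_range' (Nat.lt_succ_of_le hd) y, hy, mul_zero]
  refine Fin.addCases (fun j₁ => ?_) (fun j₁ => ?_) j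
  · simp only [sylvester, Matrix.of_apply, Fin.addCases_left]
    exact key g n j₁ hg (by omega) h2
  · simp only [sylvester, Matrix.of_apply, Fin.addCases_right]
    exact key f m j₁ hf (by omega) h1

theorem Qp_monic (D : Gr) : D.Qp.Monic := monic_prod_of_monic _ _ fun j _ => monic_X_sub_C _

theorem Qp_deg (D : Gr) : D.Qp.natDegree = D.n := by
  unfold Gr.Qp
  rw [natDegree_prod_of_monic _ _ fun j _ => monic_X_sub_C _,
    Finset.sum_congr rfl fun j _ => natDegree_X_sub_C _]
  simp

theorem dQp_deg (D : Gr) : (derivative D.Qp).natDegree ≤ D.n - 1 := by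
  have h := natDegree_derivative_le D.Qp
  rw [Qp_deg] at h
  exact h

theorem Gp_deg (D : Gr) : D.Gp.natDegree ≤ D.n := by
  unfold Gr.Gp
  refine (natDegree_sub_le _ _).trans (max_le ?_ ?_)
  · refine natDegree_mul_le.trans ?_
    rw [natDegree_C, zero_add, Qp_deg]
  · refine natDegree_mul_le.trans ?_
    rw [natDegree_C, zero_add]
    refine natDegree_sum_le_of_forall_le _ _ fun j _ => ?_
    refine natDegree_mul_le.trans ?_
    rw [natDegree_C, zero_add, natDegree_prod_of_monic _ _ fun l _ => monic_X_sub_C _,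
      Finset.sum_congr rfl fun l _ => natDegree_X_sub_C _]
    rw [Finset.sum_const, smul_eq_mul, mul_one, Finset.card_erase_of_mem (Finset.mem_univ j),
      Finset.card_univ, Fintype.card_fin]
    omega

theorem dQp_ne (D : Gr) (x0 : ℂ) : (derivative D.Qp).map (evalRingHom x0) ≠ 0 := by
  intro h
  have hn := D.hn
  have h1 : ((derivative D.Qp).map (evalRingHom x0)).coeff (D.n - 1) = (D.n : ℂ) := by
    rw [coeff_map, coeff_derivative]
    have h2 : D.n - 1 + 1 = D.n := by omega
    have h3 : D.Qp.coeff (D.n - 1 + 1) = 1 := by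
      rw [h2, ← Qp_deg D]
      exact Qp_monic D
    rw [h3, one_mul]
    have h4 : ((D.n - 1 : ℕ) : ℂ[X]) + 1 = ((D.n : ℕ) : ℂ[X]) := by
      rw [← Nat.cast_add_one, h2]
    rw [h4]
    simp
  rw [h, coeff_zero] at h1
  have : (D.n : ℂ) ≠ 0 := by
    rw [Nat.cast_ne_zero]
    omega
  exact this h1.symm

end RDVM

/-- Module RDV. -/
theorem specRDV (hSYL : SpecSYL) : SpecRDV := by
  intro D x0 T hT
  have hn := D.hn
  have hcard : T.card ≤ D.n - 1 := by
    have h1 : T.card ≤ ((derivative D.Qp).map (evalRingHom x0)).natDegree := by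
      apply card_le_degree_of_subset_roots
      intro y hy
      rw [mem_roots (RDVM.dQp_ne D x0)]
      exact (hT y (Finset.mem_val.mp hy)).1
    exact h1.trans (natDegree_map_le.trans (RDVM.dQp_deg D))
  let e := T.equivFin.symm
  let w : Fin T.card → Fin (D.n - 1 + D.n) → ℂ := fun t i => (e t : ℂ) ^ (i : ℕ)
  have hw : LinearIndependent ℂ w := by
    rw [Fintype.linearIndependent_iff]
    intro c hc t
    have h1 : (fun t => c t) = (0 : Fin T.card → ℂ) := by
      apply Matrix.eq_zero_of_forall_pow_sum_mul_pow_eq_zero (f := fun t => (e t : ℂ))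
      · intro s t hst
        exact e.injective (Subtype.ext hst)
      · intro i
        have h2 := congrFun hc ⟨(i : ℕ), by omega⟩
        rw [Finset.sum_apply] at h2
        exact h2
    exact congrFun h1 t
  have hnull : ∀ t, (((sylvester (derivative D.Qp) D.Gp (D.n - 1) D.n).transpose).map
      (Polynomial.eval x0)).mulVec (w t) = 0 := by
    intro t
    funext j
    have h1 := hT (e t) (e t).2
    have h2 := RDVM.null (natDegree_map_le.trans (RDVM.dQp_deg D))
      (natDegree_map_le.trans (RDVM.Gp_deg D)) h1.1 h1.2 j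
    rw [sylvester_map_map] at h2
    exact h2
  have h := hSYL _ _ _ x0 w hw hnull
  rw [Matrix.det_transpose] at h
  exact h

end MP743d1e.GA
end

section
/-!
# Module SMT of block GA: smoothness under local conditions at the nodes
-/
set_option autoImplicit false

namespace MP743d1e.GA

open scoped BigOperators
open Polynomial

namespace SMTM

variable (D : Gr)

lemma b_cont (j : Fin D.n) : Continuous fun x : ℝ => D.b j x := by
  unfold Gr.b
  exact Polynomial.continuous_aeval (D.P j)

lemma b_ofReal (j : Fin D.n) (x : ℝ) : D.b j (x : ℂ) = ((D.b j x : ℝ) : ℂ) := by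
  have h := D.b_map Complex.ofRealHom j x
  simpa using h.symm

/-- The critical points, one for each pair of consecutive zeros of a level. -/
lemma exists_points (hZER : SpecZER) (hCEL : SpecCEL) (L : Fin D.n → ℝ → ℝ) (hL : D.IsLev L) :
    ∃ S : Finset (ℝ × ℝ), S.card = D.g ∧ ∀ z ∈ S, D.Crit z.1 z.2 ∧
      ∀ (lam : ℤ) (Λ : ℝ), 0 ≤ Λ → (∀ j c, D.Node j c → Λ ≤ D.mu lam j c) →
        3 / 128 * Λ ≤ |(lam : ℝ) * (∏ i, (z.1 - (D.a i : ℝ))) * ∏ l, (z.2 - D.b l z.1)| := by
  obtain ⟨Z, hZ, hsum⟩ := hZER D L hL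
  have hne : ∀ k, (Z k).Nonempty := fun k => ⟨D.a D.i0, (hZ k _).2 (Or.inl ⟨D.i0, rfl⟩)⟩
  -- the next zero
  have hnext : ∀ k z, z ∈ (Z k).erase ((Z k).max' (hne k)) → ∃ z', z < z' ∧ z' ∈ Z k ∧
      ∀ c ∈ Z k, z < c → z' ≤ c := by
    intro k z hz
    rw [Finset.mem_erase] at hz
    have hlt : z < (Z k).max' (hne k) := lt_of_le_of_ne (Finset.le_max' _ _ hz.2) hz.1
    have hF : ((Z k).filter fun c => z < c).Nonempty :=
      ⟨_, Finset.mem_filter.2 ⟨Finset.max'_mem _ _, hlt⟩⟩
    refine ⟨((Z k).filter fun c => z < c).min' hF, ?_, ?_, ?_⟩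
    · exact (Finset.mem_filter.1 (Finset.min'_mem _ hF)).2
    · exact (Finset.mem_filter.1 (Finset.min'_mem _ hF)).1
    · intro c hc hzc
      exact Finset.min'_le _ _ (Finset.mem_filter.2 ⟨hc, hzc⟩)
  have hpt : ∀ k z, z ∈ (Z k).erase ((Z k).max' (hne k)) → ∃ (x0 y0 : ℝ), (z : ℝ) < x0 ∧
      (∀ c ∈ Z k, z < c → x0 < (c : ℝ)) ∧ L ⟨k.val, by omega⟩ x0 < y0 ∧
        y0 < L ⟨k.val + 1, by omega⟩ x0 ∧ D.Crit x0 y0 ∧
        ∀ (lam : ℤ) (Λ : ℝ), 0 ≤ Λ → (∀ j c, D.Node j c → Λ ≤ D.mu lam j c) →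
          3 / 128 * Λ ≤ |(lam : ℝ) * (∏ i, (x0 - (D.a i : ℝ))) * ∏ l, (y0 - D.b l x0)| := by
    intro k z hz
    obtain ⟨z', h1, h2, h3⟩ := hnext k z hz
    have hzZ : D.Zero L k z := (hZ k z).1 (Finset.mem_of_mem_erase hz)
    have hno : ∀ c, z < c → c < z' → ¬ D.Zero L k c := by
      intro c hc hc' hcZ
      have := h3 c ((hZ k c).2 hcZ) hc
      omega
    obtain ⟨x0, y0, g1, g2, g3, g4, g5, g6⟩ := hCEL D L hL k z z' h1 hzZ ((hZ k z').1 h2) hno
    refine ⟨x0, y0, g1, fun c hc hzc => lt_of_lt_of_le g2 ?_, g3, g4, g5, g6⟩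
    exact_mod_cast h3 c hc hzc
  choose! X Y hX using hpt
  let I : Finset (Σ _ : Fin (D.n - 1), ℤ) :=
    Finset.univ.sigma fun k => (Z k).erase ((Z k).max' (hne k))
  have hmem : ∀ p : Σ _ : Fin (D.n - 1), ℤ, p ∈ I ↔ p.2 ∈ (Z p.1).erase ((Z p.1).max' (hne p.1)) := by
    intro p
    simp [I]
  have hcard : I.card = D.g := by
    have h1 : I.card = ∑ k, ((Z k).card - 1) := by
      rw [Finset.card_sigma]
      exact Finset.sum_congr rfl fun k _ => Finset.card_erase_of_mem (Finset.max'_mem _ _)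
    have h2 : ∑ k, ((Z k).card - 1) + (D.n - 1) = ∑ k, (Z k).card := by
      have h3 : ∑ k, (((Z k).card - 1) + 1) = ∑ k, (Z k).card := by
        refine Finset.sum_congr rfl fun k _ => ?_
        have := Finset.card_pos.2 (hne k)
        omega
      rw [Finset.sum_add_distrib] at h3
      simpa using h3
    have hm := D.hm
    have hg : D.g + (D.n - 1) = D.m * (D.n - 1) + D.crossings := by
      unfold Gr.g
      obtain ⟨m', hm'⟩ : ∃ m', D.m = m' + 1 := ⟨D.m - 1, by omega⟩
      rw [hm']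
      simp only [Nat.add_sub_cancel]
      ring
    omega
  have hinj : Set.InjOn (fun p : Σ _ : Fin (D.n - 1), ℤ => (X p.1 p.2, Y p.1 p.2)) (I : Set _) := by
    have key : ∀ p ∈ I, ∀ q ∈ I, p.1 < q.1 →
        (X p.1 p.2, Y p.1 p.2) ≠ (X q.1 q.2, Y q.1 q.2) := by
      intro p hp q hq hpq heq
      obtain ⟨-, -, -, p4, -⟩ := hX p.1 p.2 ((hmem p).1 hp)
      obtain ⟨-, -, q3, -, -⟩ := hX q.1 q.2 ((hmem q).1 hq)
      have e1 : X p.1 p.2 = X q.1 q.2 := congrArg Prod.fst heq
      have e2 : Y p.1 p.2 = Y q.1 q.2 := congrArg Prod.snd heq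
      rw [e1, e2] at p4
      have hmono := (hL.2 (X q.1 q.2)).1
      have hle : L ⟨p.1.val + 1, by omega⟩ (X q.1 q.2) ≤ L ⟨q.1.val, by omega⟩ (X q.1 q.2) := by
        apply hmono
        rw [Fin.mk_le_mk]
        exact hpq
      linarith
    intro p hp q hq heq
    rw [Finset.mem_coe] at hp hq
    rcases lt_trichotomy p.1 q.1 with h | h | h
    · exact absurd heq (key p hp q hq h)
    · obtain ⟨k, z⟩ := p
      obtain ⟨k', z'⟩ := q
      simp only at h
      subst h
      have hp' := (hmem _).1 hp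
      have hq' := (hmem _).1 hq
      simp only at hp' hq' heq
      have e1 : X k z = X k z' := congrArg Prod.fst heq
      obtain ⟨p1, p2, -⟩ := hX k z hp'
      obtain ⟨q1, q2, -⟩ := hX k z' hq'
      rcases lt_trichotomy z z' with h | h | h
      · have := p2 z' (Finset.mem_of_mem_erase hq') h
        linarith
      · rw [h]
      · have := q2 z (Finset.mem_of_mem_erase hp') h
        linarith
    · exact absurd heq.symm (key q hq p hp h)
  refine ⟨I.image fun p => (X p.1 p.2, Y p.1 p.2), ?_, ?_⟩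
  · rw [Finset.card_image_of_injOn hinj, hcard]
  · intro z hz
    rw [Finset.mem_image] at hz
    obtain ⟨p, hp, rfl⟩ := hz
    obtain ⟨-, -, -, -, h5, h6⟩ := hX p.1 p.2 ((hmem p).1 hp)
    exact ⟨h5, h6⟩

end SMTM

theorem specSMT (hLEV : SpecLEV) (hZER : SpecZER) (hCEL : SpecCEL) (hCNT : SpecCNT) :
    SpecSMT := by
  intro D lam Λ hΛ hmu x0 y0 heq hsing
  obtain ⟨L, hLc, hLx⟩ := hLEV D.n (fun j x => D.b j x) (SMTM.b_cont D)
  obtain ⟨S, hS, hSp⟩ := SMTM.exists_points D hZER hCEL L ⟨hLc, hLx⟩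
  have hA : ∀ i, x0 ≠ (D.a i : ℂ) := by
    intro i h
    have h0 : (∏ i, (x0 - (D.a i : ℂ))) = 0 :=
      Finset.prod_eq_zero (Finset.mem_univ i) (sub_eq_zero.2 h)
    rw [h0] at heq
    simp at heq
  have hB : ∀ l, y0 ≠ D.b l x0 := by
    intro l h
    have h0 : (∏ j, (y0 - D.b j x0)) = 0 :=
      Finset.prod_eq_zero (Finset.mem_univ l) (sub_eq_zero.2 h)
    rw [h0] at heq
    simp at heq
  let c : ℝ × ℝ → ℂ × ℂ := fun z => ((z.1 : ℂ), (z.2 : ℂ))
  have hc : Function.Injective c := by
    intro z w h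
    have h1 : (z.1 : ℂ) = (w.1 : ℂ) := congrArg Prod.fst h
    have h2 : (z.2 : ℂ) = (w.2 : ℂ) := congrArg Prod.snd h
    exact Prod.ext (Complex.ofReal_injective h1) (Complex.ofReal_injective h2)
  have hnot : (x0, y0) ∉ S.image c := by
    intro h
    rw [Finset.mem_image] at h
    obtain ⟨z, hz, hzc⟩ := h
    have h1 : x0 = (z.1 : ℂ) := (congrArg Prod.fst hzc).symm
    have h2 : y0 = (z.2 : ℂ) := (congrArg Prod.snd hzc).symm
    have h3 := (hSp z hz).2 lam Λ (by linarith) hmu
    have h4 : (lam : ℝ) * (∏ i, (z.1 - (D.a i : ℝ))) * ∏ l, (z.2 - D.b l z.1) = 1 := by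
      rw [h1, h2] at heq
      have : (((lam : ℝ) * (∏ i, (z.1 - (D.a i : ℝ))) * ∏ l, (z.2 - D.b l z.1) : ℝ) : ℂ) = 1 := by
        rw [← heq]
        push_cast
        simp only [SMTM.b_ofReal]
      exact_mod_cast this
    rw [h4, abs_one] at h3
    linarith
  have hcard := hCNT D (insert (x0, y0) (S.image c)) (by
    intro z hz
    rw [Finset.mem_insert] at hz
    rcases hz with rfl | hz
    · exact ⟨hA, hB, hsing.1, hsing.2⟩
    · rw [Finset.mem_image] at hz
      obtain ⟨w, hw, rfl⟩ := hz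
      exact (hSp w hw).1)
  rw [Finset.card_insert_of_notMem hnot, Finset.card_image_of_injective _ hc, hS] at hcard
  omega

end MP743d1e.GA
end

section
/-!
# SYL: a matrix over `ℂ[X]` whose value at a point has many null vectors
-/
set_option autoImplicit false

namespace MP743d1e.GA

open scoped BigOperators
open Polynomial

namespace SYLM

/-- If the columns with index in the range of the injective `e` are divisible by `p` then the
determinant is divisible by `p ^ q`. -/
theorem dvd_det {N q : ℕ} (M : Matrix (Fin N) (Fin N) ℂ[X]) (p : ℂ[X]) (e : Fin q → Fin N)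
    (he : Function.Injective e) (h : ∀ t i, p ∣ M i (e t)) : p ^ q ∣ M.det := by
  classical
  rw [Matrix.det_apply]
  refine Finset.dvd_sum fun σ _ => ?_
  have h1 : p ^ q ∣ ∏ i, M (σ i) i := by
    have h2 : (∏ i ∈ Finset.univ.image e, M (σ i) i) ∣ ∏ i, M (σ i) i :=
      Finset.prod_dvd_prod_of_subset _ _ _ (Finset.subset_univ _)
    refine dvd_trans ?_ h2
    rw [Finset.prod_image fun a _ b _ hab => he hab]
    calc p ^ q = ∏ _t : Fin q, p := by simp
      _ ∣ _ := Finset.prod_dvd_prod_of_dvd _ _ fun t _ => h t _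
  rw [Units.smul_def]
  exact dvd_smul_of_dvd _ h1

end SYLM

open SYLM in
theorem specSYL : SpecSYL := by
  classical
  intro N q M x0 w hw hnull
  -- extend to a basis
  have hs := hw.linearIndepOn_id
  let b := Module.Basis.extend hs
  have hfin : Finite (hs.extend (Set.subset_univ (Set.range w))) := Module.Finite.finite_basis b
  have hfint : Fintype (hs.extend (Set.subset_univ (Set.range w))) := Fintype.ofFinite _
  have hcard : Fintype.card (hs.extend (Set.subset_univ (Set.range w))) = N := by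
    rw [← Module.finrank_eq_card_basis b]
    simp
  let φ : hs.extend (Set.subset_univ (Set.range w)) ≃ Fin N := Fintype.equivFinOfCardEq hcard
  have hmem : ∀ t, w t ∈ hs.extend (Set.subset_univ (Set.range w)) := fun t =>
    hs.subset_extend _ (Set.mem_range_self t)
  let b' := b.reindex φ
  have hb : ∀ t, b' (φ ⟨w t, hmem t⟩) = w t := by
    intro t
    show b.reindex φ (φ ⟨w t, hmem t⟩) = w t
    rw [Module.Basis.reindex_apply, Equiv.symm_apply_apply]
    exact Module.Basis.extend_apply_self hs _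
  let U : Matrix (Fin N) (Fin N) ℂ := Matrix.of fun i j => b' j i
  have hU : IsUnit U.det := by
    have h1 : U = (Pi.basisFun ℂ (Fin N)).toMatrix b' := by
      ext i j
      simp [U, Module.Basis.toMatrix_apply]
    rw [h1]
    have := Module.Basis.isUnit_det (Pi.basisFun ℂ (Fin N)) b'
    rw [Module.Basis.det_apply] at this
    exact this
  have h2 : (U.map C : Matrix (Fin N) (Fin N) ℂ[X]).det = C U.det :=
    (RingHom.map_det C U).symm
  have hUX : IsUnit (U.map C : Matrix (Fin N) (Fin N) ℂ[X]).det := by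
    rw [h2]
    exact hU.map C
  have h3 : (X - C x0) ^ q ∣ (M * (U.map C : Matrix (Fin N) (Fin N) ℂ[X])).det := by
    refine dvd_det _ (X - C x0) (fun t => φ ⟨w t, hmem t⟩) ?_ ?_
    · intro a c hac
      have h5 := φ.injective hac
      exact hw.injective (congrArg Subtype.val h5)
    · intro t i
      rw [dvd_iff_isRoot, IsRoot.def, Matrix.mul_apply, eval_finsetSum]
      have h4 := congrFun (hnull t) i
      rw [Matrix.mulVec, dotProduct] at h4
      simp only [Matrix.map_apply, Pi.zero_apply] at h4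
      rw [← h4]
      refine Finset.sum_congr rfl fun k _ => ?_
      rw [eval_mul]
      congr 1
      show eval x0 (C (b' (φ ⟨w t, hmem t⟩) k)) = w t k
      rw [eval_C, hb]
  rw [Matrix.det_mul] at h3
  exact (IsUnit.dvd_mul_right hUX).mp h3

end MP743d1e.GA
end

section
/-!
# UPI: regular differentials at the points at infinity
-/
set_option autoImplicit false

namespace MP743d1e.GA

open Polynomial

namespace UPIM

variable {K : Type} [Field K] [Algebra ℂ K]

theorem isAlgebraic_Ct_of_mem {x s : K} (h : Algebra.IsAlgebraic (Ct x) K) (hx : x ∈ Ct s) :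
    Algebra.IsAlgebraic (Ct s) K := by
  have hle : Ct x ≤ Ct s := IntermediateField.adjoin_simple_le_iff.mpr hx
  constructor
  intro z
  obtain ⟨p, hp, hpz⟩ := h.isAlgebraic z
  refine ⟨p.map (IntermediateField.inclusion hle : Ct x →+* Ct s), ?_, ?_⟩
  · rwa [Ne, Polynomial.map_eq_zero]
  · rw [aeval_def, eval₂_map]
    rw [aeval_def] at hpz
    exact hpz

theorem lamG_ne {D : Gr} {lam : ℤ} {x y : K} (h : IsCurveG ℂ K D lam x y) : lam ≠ 0 := by
  rintro rfl
  have := h.eqn
  simp at this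

end UPIM

open UPIM

/-- UPI -/
theorem specUPI (hLL : SpecLL) (hINP : SpecINP) (hIRP : SpecIRP) : SpecUPI := by
  intro K _ _ D lam x y δ hcurve hδ f hf V j hV hj
  obtain ⟨hI1, hI2, hI3⟩ := (hINP K D lam x y hcurve).2.2 V j hV hj
  have hxV : 1 < V.valuation x := by
    have := hj.1
    rw [Low.mem_iff, not_le] at this
    exact this
  have hx0 : x ≠ 0 := by
    rintro rfl
    exact hj.1 V.zero_mem
  have hv0 : 0 < V.valuation x := lt_trans zero_lt_one hxV
  have hsM : V.valuation x⁻¹ < 1 := by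
    rw [map_inv₀]
    exact (inv_lt_one₀ hv0).mpr hxV
  have hstr : Transcendental ℂ x⁻¹ := by
    intro h0
    exact hcurve.transc (inv_inv x ▸ h0.inv)
  have hfin := (hIRP ℂ D lam (lamG_ne hcurve)).2 K x y hcurve
  have hfin1 : FiniteDimensional (Ct x) K := hfin.2.1
  have halg : Algebra.IsAlgebraic (Ct x) K := Algebra.IsAlgebraic.of_finite _ _
  have halg' : Algebra.IsAlgebraic (Ct x⁻¹) K := by
    apply UPIM.isAlgebraic_Ct_of_mem halg
    have := (Ct x⁻¹).inv_mem (IntermediateField.mem_adjoin_simple_self ℂ x⁻¹)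
    rwa [inv_inv] at this
  have hδs : ((-x) • δ : Derivation ℂ K K) x⁻¹ = x⁻¹ := by
    rw [Derivation.smul_apply, Derivation.leibniz_inv, hδ, smul_eq_mul, smul_eq_mul, mul_one,
      neg_mul_neg, pow_two, ← mul_assoc, mul_inv_cancel₀ hx0, one_mul]
  have hL := hLL K x⁻¹ ((-x) • δ) hstr halg' hδs V hV (Low.inM_iff.mpr hsM)
  -- the derivative has a double zero
  have h2 : ∀ a ∈ V, δ a * x ^ 2 ∈ V := by
    intro a ha
    have h3 := hL a ha
    rw [Derivation.smul_apply, smul_eq_mul, neg_mul] at h3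
    have h4 : V.valuation (x * δ a) < 1 := by
      have := Low.inM_iff.mp h3
      rwa [Valuation.map_neg] at this
    by_cases h0 : x * δ a = 0
    · have : δ a = 0 := (mul_eq_zero.mp h0).resolve_left hx0
      rw [this, zero_mul]
      exact V.zero_mem
    · obtain ⟨k, hk⟩ := hI1 _ h0
      rw [Low.isU_iff, map_mul, map_zpow₀] at hk
      have hk1 : 1 ≤ k := by
        by_contra hlt
        rw [not_le] at hlt
        have h5 : V.valuation x ^ k ≤ 1 := by
          rw [← zpow_zero (V.valuation x)]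
          exact zpow_le_zpow_right₀ hxV.le (by omega)
        have h6 : V.valuation (x * δ a) * V.valuation x ^ k < 1 :=
          lt_of_le_of_lt (mul_le_mul_right h5 _) (by rwa [mul_one])
        exact absurd hk (ne_of_lt h6)
      rw [Low.mem_iff]
      have h7 : V.valuation (δ a * x ^ 2) =
          (V.valuation (x * δ a) * V.valuation x ^ k) * V.valuation x ^ (1 - k) := by
        rw [mul_assoc, ← zpow_add₀ hv0.ne']
        rw [show k + (1 - k) = 1 by ring, zpow_one, ← map_mul]
        congr 1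
        ring
      rw [h7, hk, one_mul]
      rw [← zpow_zero (V.valuation x)]
      exact zpow_le_zpow_right₀ hxV.le (by omega)
  have h3 : f * x ^ 2 ∈ V := by
    have hreg := hf V hV
    unfold RegD at hreg
    clear hf
    induction hreg using AddSubgroup.closure_induction with
    | mem z hz =>
      obtain ⟨b, hb, a, ha, rfl⟩ := hz
      rw [mul_assoc]
      exact V.mul_mem _ _ hb (h2 a ha)
    | zero => rw [zero_mul]; exact V.zero_mem
    | add z w _ _ hz hw => rw [add_mul]; exact V.add_mem _ _ hz hw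
    | neg z _ hz => rw [neg_mul]; exact V.neg_mem _ hz
  -- the factor `pw`
  have hxneg : ∀ n : ℕ, (x ^ n)⁻¹ ∈ V := by
    intro n
    rw [Low.mem_iff, map_inv₀, map_pow]
    exact inv_le_one_of_one_le₀ (one_le_pow₀ hxV.le)
  have h4 : pwG D x y * (x ^ (D.m + D.s j))⁻¹ ∈ V := by
    unfold pwG
    rw [Finset.sum_mul]
    apply Low.sum_mem'
    intro l _
    by_cases hlj : l = j
    · subst hlj
      have := Low.isU_inv_mem hI2
      rwa [mul_inv] at this
    · have h5 := Low.isU_inv_mem (hI3 l hlj)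
      rw [mul_inv, zpow_neg, inv_inv, zpow_natCast] at h5
      have h6 : (y - D.b l x)⁻¹ * (x ^ (D.m + D.s j))⁻¹ =
          ((y - D.b l x)⁻¹ * x ^ (D.R j l).card) *
            ((x ^ (D.R j l).card)⁻¹ * (x ^ (D.m + D.s j))⁻¹) := by
        have : x ^ (D.R j l).card ≠ 0 := pow_ne_zero _ hx0
        field_simp
      rw [h6]
      exact V.mul_mem _ _ h5 (V.mul_mem _ _ (hxneg _) (hxneg _))
  have h5 : (f * pwG D x y) * x ^ ((2 : ℤ) - ((D.m + D.s j : ℕ) : ℤ)) =
      (f * x ^ 2) * (pwG D x y * (x ^ (D.m + D.s j))⁻¹) := by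
    rw [zpow_sub₀ hx0, zpow_natCast, div_eq_mul_inv]
    rw [show (x : K) ^ (2 : ℤ) = x ^ 2 from by norm_cast]
    ring
  rw [h5]
  exact V.mul_mem _ _ h3 h4

end MP743d1e.GA
end

section
/-!
# VAL: the condition at infinity in terms of the values on the graphs
-/
set_option autoImplicit false

namespace MP743d1e.GA

open scoped BigOperators
open Polynomial

namespace VALM

open MP743d1e.Low (mem_iff isU_iff isU_const isU_intCast intCast_mem aeval_eq_divX)

variable {K : Type} [Field K] [Algebra ℂ K] {V : ValuationSubring K} {x : K}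

theorem one_lt (hx : x ∉ V) : 1 < V.valuation x := by
  rw [mem_iff] at hx
  exact not_le.1 hx

theorem val_const (hV : OverC V) {c : ℂ} (hc : c ≠ 0) : V.valuation (algebraMap ℂ K c) = 1 :=
  isU_iff.1 (isU_const hV hc)

theorem val_const_le (hV : OverC V) (c : ℂ) : V.valuation (algebraMap ℂ K c) ≤ 1 :=
  mem_iff.1 (hV c)

theorem val_aeval (hV : OverC V) (hx : x ∉ V) : ∀ (n : ℕ) (p : ℂ[X]), p ≠ 0 → p.natDegree = n →
    V.valuation (aeval x p) = V.valuation x ^ n := by
  intro n
  induction n with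
  | zero =>
    intro p hp hn
    rw [Polynomial.eq_C_of_natDegree_eq_zero hn, aeval_C, pow_zero]
    refine val_const hV fun h => hp ?_
    rw [Polynomial.eq_C_of_natDegree_eq_zero hn, h, map_zero]
  | succ n ih =>
    intro p hp hn
    have h1 : p.divX.natDegree = n := by
      rw [Polynomial.natDegree_divX_eq_natDegree_tsub_one, hn]
      rfl
    have h2 : p.divX ≠ 0 := by
      intro h
      have h3 := Polynomial.divX_mul_X_add p
      rw [h, zero_mul, zero_add] at h3
      rw [← h3, natDegree_C] at hn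
      omega
    have h4 := ih p.divX h2 h1
    have h5 : V.valuation (x * aeval x p.divX) = V.valuation x ^ (n + 1) := by
      rw [map_mul, h4, pow_succ']
    have h6 : (1 : V.ValueGroup) < V.valuation x ^ (n + 1) :=
      one_lt_pow₀ (one_lt hx) (Nat.succ_ne_zero n)
    rw [aeval_eq_divX, Valuation.map_add_eq_of_lt_left, h5]
    rw [h5]
    exact (val_const_le hV _).trans_lt h6

theorem val_sub_int (hV : OverC V) (hx : x ∉ V) (r : ℤ) :
    V.valuation (x - (r : K)) = V.valuation x :=
  Valuation.map_sub_eq_of_lt_left _ ((mem_iff.1 (intCast_mem hV r)).trans_lt (one_lt hx))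

/-- The size of the difference of two branches. -/
theorem val_b (hV : OverC V) (hx : x ∉ V) (D : Gr) {j l : Fin D.n} (h : j ≠ l) :
    V.valuation (D.b j x - D.b l x) = V.valuation x ^ (D.R j l).card := by
  rw [D.b_sub h, map_mul, isU_iff.1 (isU_intCast hV (D.kap_ne j l h)), one_mul, map_prod,
    Finset.prod_congr rfl fun r _ => val_sub_int hV hx r, Finset.prod_const]

theorem aeval_Pc (D : Gr) (j : Fin D.n) (x : K) : aeval x (D.Pc j) = D.b j x := by
  unfold Gr.Pc Gr.b
  rw [aeval_def, eval₂_map, aeval_def]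
  congr 1
  exact RingHom.ext_int _ _

theorem aeval_vv (D : Gr) (c : Fin D.n → ℂ[X]) (j : Fin D.n) (x : K) :
    aeval x (D.vv c j) = ∑ k, aeval x (c k) *
      ∏ i ∈ Finset.univ.filter (fun i => i < k), (D.b j x - D.b i x) := by
  unfold Gr.vv
  rw [map_sum]
  refine Finset.sum_congr rfl fun k _ => ?_
  rw [map_mul, map_prod]
  congr 1
  refine Finset.prod_congr rfl fun i _ => ?_
  rw [map_sub, aeval_Pc, aeval_Pc]

/-- Lagrange's formula. -/
theorem lagr (D : Gr) (c : Fin D.n → ℂ[X]) (x y : K)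
    (hinj : Function.Injective fun j => D.b j x) :
    ∑ k, aeval x (c k) * nbG D x y k = ∑ j, aeval x (D.vv c j) *
      ∏ l ∈ Finset.univ.erase j, ((D.b j x - D.b l x)⁻¹ * (y - D.b l x)) := by
  classical
  let Q : K[X] := ∑ k, C (aeval x (c k)) *
    ∏ i ∈ Finset.univ.filter (fun i => i < k), (X - C (D.b i x))
  have hdeg : Q.degree < (Finset.univ : Finset (Fin D.n)).card := by
    rw [Finset.card_univ, Fintype.card_fin]
    have hn : 0 < D.n := lt_of_lt_of_le (by norm_num) D.hn
    refine lt_of_le_of_lt (degree_sum_le _ _) ?_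
    rw [Finset.sup_lt_iff (by exact_mod_cast WithBot.bot_lt_coe _)]
    intro k _
    refine lt_of_le_of_lt ((degree_mul_le _ _).trans (add_le_add degree_C_le le_rfl)) ?_
    rw [zero_add]
    rw [degree_prod_of_monic _ _ fun i _ => monic_X_sub_C _]
    rw [Finset.sum_congr rfl fun i _ => degree_X_sub_C _, Finset.sum_const, nsmul_one]
    have h1 : (Finset.univ.filter (fun i : Fin D.n => i < k)).card = k.val := by
      have h2 : Finset.univ.filter (fun i : Fin D.n => i < k) = Finset.Iio k := by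
        ext i
        simp
      rw [h2, Fin.card_Iio]
    rw [h1]
    exact_mod_cast k.isLt
  have hQ := Lagrange.eq_interpolate_of_eval_eq (s := Finset.univ) (v := fun j => D.b j x)
    (r := fun j => aeval x (D.vv c j)) (f := Q) hinj.injOn hdeg (by
      intro j _
      rw [aeval_vv]
      simp only [Q, eval_finsetSum, eval_mul, eval_C, eval_prod, eval_sub, eval_X])
  have h1 : Q.eval y = ∑ k, aeval x (c k) * nbG D x y k := by
    simp only [Q, eval_finsetSum, eval_mul, eval_C, eval_prod, eval_sub, eval_X, nbG]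
  rw [← h1, hQ]
  simp only [Lagrange.interpolate_apply, eval_finsetSum, eval_mul, eval_C, Lagrange.basis,
    eval_prod, Lagrange.basisDivisor, eval_sub, eval_X]

/-- The terms of Lagrange's formula. -/
noncomputable def T (D : Gr) (c : Fin D.n → ℂ[X]) (x y : K) (j : Fin D.n) : K :=
  aeval x (D.vv c j) * ∏ l ∈ Finset.univ.erase j, ((D.b j x - D.b l x)⁻¹ * (y - D.b l x))

section place

variable {D : Gr} {y : K} {i : Fin D.n}

theorem val_T_self (hV : OverC V) (hx : x ∉ V) (c : Fin D.n → ℂ[X])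
    (hy : ∀ l, l ≠ i → V.valuation (y - D.b l x) = V.valuation x ^ (D.R i l).card) :
    V.valuation (T D c x y i) = V.valuation (aeval x (D.vv c i)) := by
  have hX : V.valuation x ≠ 0 := (zero_lt_one.trans (one_lt hx)).ne'
  unfold T
  rw [map_mul, map_prod, Finset.prod_eq_one, mul_one]
  intro l hl
  have hl' : l ≠ i := Finset.ne_of_mem_erase hl
  rw [map_mul, map_inv₀, hy l hl', val_b hV hx D hl'.symm, inv_mul_cancel₀ (pow_ne_zero _ hX)]

theorem val_T_ne (hV : OverC V) (hx : x ∉ V) (c : Fin D.n → ℂ[X]) {j : Fin D.n} (hj : j ≠ i)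
    (hi : V.valuation (y - D.b i x) * V.valuation x ^ (D.m + D.s i) = 1)
    (hy : ∀ l, l ≠ i → V.valuation (y - D.b l x) = V.valuation x ^ (D.R i l).card) :
    V.valuation (T D c x y j) * V.valuation x ^ (D.m + D.s j + (D.R i j).card) =
      V.valuation (aeval x (D.vv c j)) := by
  classical
  have hX : V.valuation x ≠ 0 := (zero_lt_one.trans (one_lt hx)).ne'
  have h1 : ∏ l ∈ Finset.univ.erase j, V.valuation ((D.b j x - D.b l x)⁻¹) =
      (V.valuation x ^ (D.s j))⁻¹ := by
    unfold Gr.s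
    rw [← Finset.prod_pow_eq_pow_sum, ← Finset.prod_inv_distrib]
    refine Finset.prod_congr rfl fun l hl => ?_
    rw [map_inv₀, val_b hV hx D (Finset.ne_of_mem_erase hl).symm]
  have h2 : ∏ l ∈ Finset.univ.erase j, V.valuation (y - D.b l x) =
      V.valuation (y - D.b i x) *
        ∏ l ∈ (Finset.univ.erase i).erase j, V.valuation x ^ (D.R i l).card := by
    rw [← Finset.mul_prod_erase (Finset.univ.erase j) _
      (Finset.mem_erase.2 ⟨hj.symm, Finset.mem_univ i⟩), Finset.erase_right_comm]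
    congr 1
    refine Finset.prod_congr rfl fun l hl => ?_
    exact hy l (Finset.ne_of_mem_erase (Finset.mem_of_mem_erase hl))
  have h3 : V.valuation x ^ (D.R i j).card *
      ∏ l ∈ (Finset.univ.erase i).erase j, V.valuation x ^ (D.R i l).card =
        V.valuation x ^ (D.s i) := by
    unfold Gr.s
    rw [← Finset.prod_pow_eq_pow_sum, Finset.mul_prod_erase (Finset.univ.erase i)
      (fun l => V.valuation x ^ (D.R i l).card) (Finset.mem_erase.2 ⟨hj, Finset.mem_univ j⟩)]
  have h4 : V.valuation (T D c x y j) = V.valuation (aeval x (D.vv c j)) *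
      ((V.valuation x ^ (D.s j))⁻¹ * (V.valuation (y - D.b i x) *
        ∏ l ∈ (Finset.univ.erase i).erase j, V.valuation x ^ (D.R i l).card)) := by
    unfold T
    rw [map_mul, map_prod, ← h1, ← h2, ← Finset.prod_mul_distrib]
    simp only [map_mul]
  rw [h4, pow_add, pow_add]
  calc V.valuation (aeval x (D.vv c j)) *
      ((V.valuation x ^ (D.s j))⁻¹ * (V.valuation (y - D.b i x) *
        ∏ l ∈ (Finset.univ.erase i).erase j, V.valuation x ^ (D.R i l).card)) *
      (V.valuation x ^ D.m * V.valuation x ^ D.s j * V.valuation x ^ (D.R i j).card) =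
      V.valuation (aeval x (D.vv c j)) * (V.valuation (y - D.b i x) * (V.valuation x ^ D.m *
        (V.valuation x ^ (D.R i j).card *
          ∏ l ∈ (Finset.univ.erase i).erase j, V.valuation x ^ (D.R i l).card))) *
        ((V.valuation x ^ (D.s j))⁻¹ * V.valuation x ^ D.s j) := by ac_rfl
    _ = V.valuation (aeval x (D.vv c j)) := by
      rw [h3, inv_mul_cancel₀ (pow_ne_zero _ hX), ← pow_add, hi, mul_one, mul_one]

theorem mem_size (hx : x ∉ V) (q : K) (N : ℕ) :
    q * x ^ ((2 : ℤ) - (N : ℤ)) ∈ V ↔ V.valuation q * V.valuation x ^ 2 ≤ V.valuation x ^ N := by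
  have hX : 0 < V.valuation x := zero_lt_one.trans (one_lt hx)
  rw [mem_iff, map_mul, map_zpow₀, zpow_sub₀ hX.ne', zpow_natCast, ← mul_div_assoc,
    div_le_one₀ (pow_pos hX _)]
  norm_cast

theorem pow_le (hx : x ∉ V) {a b : ℕ} : V.valuation x ^ a ≤ V.valuation x ^ b ↔ a ≤ b :=
  pow_le_pow_iff_right₀ (one_lt hx)

end place

end VALM

open VALM MP743d1e.Low in
/-- VAL -/
theorem specVAL (hINP : SpecINP) : SpecVAL := by
  classical
  intro K _ _ D lam x y hC c
  obtain ⟨-, hex, hat⟩ := hINP K D lam x y hC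
  have key : ∀ (V : ValuationSubring K) (i : Fin D.n), OverC V → AtInfG D x y V i →
      x ∉ V ∧ V.valuation (y - D.b i x) * V.valuation x ^ (D.m + D.s i) = 1 ∧
      (∀ l, l ≠ i → V.valuation (y - D.b l x) = V.valuation x ^ (D.R i l).card) ∧
      ∑ k, aeval x (c k) * nbG D x y k = T D c x y i + ∑ j ∈ Finset.univ.erase i, T D c x y j := by
    intro V i hV hi
    obtain ⟨-, h1, h2⟩ := hat V i hV hi
    have hx := hi.1
    have hX : V.valuation x ≠ 0 := (zero_lt_one.trans (one_lt hx)).ne'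
    refine ⟨hx, ?_, ?_, ?_⟩
    · rw [isU_iff, map_mul, map_pow] at h1
      exact h1
    · intro l hl
      have h3 := h2 l hl
      rw [isU_iff, map_mul, map_zpow₀, zpow_neg, zpow_natCast,
        mul_inv_eq_one₀ (pow_ne_zero _ hX)] at h3
      rw [h3, D.R_symm hl]
    · have hinj : Function.Injective fun j => D.b j x := by
        intro j l hjl
        by_contra hne
        have h4 := val_b hV hx D hne
        have h5 : D.b j x = D.b l x := hjl
        rw [h5, sub_self, map_zero] at h4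
        exact pow_ne_zero _ hX h4.symm
      rw [lagr D c x y hinj]
      exact (Finset.add_sum_erase Finset.univ _ (Finset.mem_univ i)).symm
  constructor
  · intro h
    by_contra hcon
    push Not at hcon
    obtain ⟨j₀, hj₀, hj₀'⟩ := hcon
    -- the branch with the largest size
    obtain ⟨i, hi, hmax⟩ := Finset.exists_max_image
      (Finset.univ.filter fun j => D.vv c j ≠ 0)
      (fun j => ((D.vv c j).natDegree : ℤ) - ((D.m + D.s j : ℕ) : ℤ))
      ⟨j₀, Finset.mem_filter.2 ⟨Finset.mem_univ _, hj₀⟩⟩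
    have hi0 : D.vv c i ≠ 0 := (Finset.mem_filter.1 hi).2
    have hi1 : D.m + D.s i ≤ (D.vv c i).natDegree + 1 := by
      have := hmax j₀ (Finset.mem_filter.2 ⟨Finset.mem_univ _, hj₀⟩)
      omega
    obtain ⟨V, hV, hVi⟩ := hex i
    obtain ⟨hx, h1, h2, h3⟩ := key V i hV hVi
    have hX : 0 < V.valuation x := zero_lt_one.trans (one_lt hx)
    have hTi : V.valuation (T D c x y i) = V.valuation x ^ (D.vv c i).natDegree := by
      rw [val_T_self hV hx c h2, val_aeval hV hx _ _ hi0 rfl]
    have hrest : V.valuation (∑ j ∈ Finset.univ.erase i, T D c x y j) <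
        V.valuation (T D c x y i) := by
      rw [hTi]
      refine V.valuation.map_sum_lt (pow_pos hX _).ne' fun j hj => ?_
      have hji : j ≠ i := Finset.ne_of_mem_erase hj
      have h4 := val_T_ne hV hx c hji h1 h2
      by_cases hj0 : D.vv c j = 0
      · have h5 : T D c x y j = 0 := by
          unfold T
          rw [hj0, map_zero, zero_mul]
        rw [h5, map_zero]
        exact pow_pos hX _
      · rw [val_aeval hV hx _ _ hj0 rfl] at h4
        have h5 := hmax j (Finset.mem_filter.2 ⟨Finset.mem_univ _, hj0⟩)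
        by_contra hge
        push Not at hge
        have h6 : V.valuation x ^ ((D.vv c i).natDegree + (D.m + D.s j + (D.R i j).card)) ≤
            V.valuation x ^ (D.vv c j).natDegree := by
          rw [← h4, pow_add]
          exact mul_le_mul_left hge _
        rw [pow_le hx] at h6
        have := D.hm
        omega
    have h7 := h V i hV hVi
    rw [mem_size hx, h3, Valuation.map_add_eq_of_lt_left _ hrest, hTi, ← pow_add,
      pow_le hx] at h7
    omega
  · intro h V i hV hVi
    obtain ⟨hx, h1, h2, h3⟩ := key V i hV hVi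
    have hX : 0 < V.valuation x := zero_lt_one.trans (one_lt hx)
    rw [mem_size hx, h3]
    -- the sizes of the values
    have hv : ∀ j, V.valuation (aeval x (D.vv c j)) * V.valuation x ^ 2 ≤
        V.valuation x ^ (D.m + D.s j) := by
      intro j
      rcases h j with h4 | h4
      · rw [h4, map_zero, map_zero, zero_mul]
        exact zero_le
      · by_cases h0 : D.vv c j = 0
        · rw [h0, map_zero, map_zero, zero_mul]
          exact zero_le
        · rw [val_aeval hV hx _ _ h0 rfl, ← pow_add, pow_le hx]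
          exact h4
    have hsum : V.valuation (T D c x y i + ∑ j ∈ Finset.univ.erase i, T D c x y j) ≤
        V.valuation x ^ (D.m + D.s i) / V.valuation x ^ 2 := by
      rw [Finset.add_sum_erase Finset.univ _ (Finset.mem_univ i)]
      refine V.valuation.map_sum_le fun j _ => ?_
      rw [le_div_iff₀ (pow_pos hX _)]
      by_cases hji : j = i
      · rw [hji, val_T_self hV hx c h2]
        exact hv i
      · have h4 := val_T_ne hV hx c hji h1 h2
        have h5 := hv j
        rw [← h4] at h5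
        have h6 : V.valuation (T D c x y j) * V.valuation x ^ 2 ≤ 1 := by
          by_contra hgt
          push Not at hgt
          have h7 : V.valuation x ^ (D.m + D.s j) < V.valuation (T D c x y j) *
              V.valuation x ^ (D.m + D.s j + (D.R i j).card) * V.valuation x ^ 2 := by
            calc V.valuation x ^ (D.m + D.s j) = 1 * V.valuation x ^ (D.m + D.s j) :=
                (one_mul _).symm
              _ < (V.valuation (T D c x y j) * V.valuation x ^ 2) *
                  V.valuation x ^ (D.m + D.s j) :=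
                mul_lt_mul_of_pos_right hgt (pow_pos hX _)
              _ ≤ (V.valuation (T D c x y j) * V.valuation x ^ 2) *
                  V.valuation x ^ (D.m + D.s j + (D.R i j).card) :=
                mul_le_mul_right ((pow_le hx).2 (Nat.le_add_right _ _)) _
              _ = _ := by ac_rfl
          exact absurd h5 (not_le.2 h7)
        refine h6.trans ?_
        rw [← pow_zero (V.valuation x), pow_le hx]
        exact Nat.zero_le _
    rwa [le_div_iff₀ (pow_pos hX _)] at hsum

end MP743d1e.GA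
end

section
/-!
# ZER: the number of zeros on all levels
-/
set_option autoImplicit false

namespace MP743d1e.GA

open scoped BigOperators
open Polynomial

namespace ZERM

/-- The number of adjacent equal values of a sorted list in which no value occurs three times. -/
theorem count {n : ℕ} (f : Fin n → ℤ) (σ : Equiv.Perm (Fin n))
    (hmono : ∀ p q : Fin n, p ≤ q → f (σ p) ≤ f (σ q))
    (h3 : ∀ i j l : Fin n, i ≠ j → i ≠ l → j ≠ l → f i = f j → f i = f l → False) :
    (Finset.univ.filter fun k : Fin (n - 1) =>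
      f (σ ⟨k.val, by omega⟩) = f (σ ⟨k.val + 1, by omega⟩)).card =
    (Finset.univ.filter fun z : Fin n × Fin n => z.1 < z.2 ∧ f z.1 = f z.2).card := by
  classical
  refine Finset.card_bij (fun k _ => (min (σ ⟨k.val, by omega⟩) (σ ⟨k.val + 1, by omega⟩),
    max (σ ⟨k.val, by omega⟩) (σ ⟨k.val + 1, by omega⟩))) ?_ ?_ ?_
  · intro k hk
    have hk2 := (Finset.mem_filter.1 hk).2
    have hne : σ (⟨k.val, by omega⟩ : Fin n) ≠ σ ⟨k.val + 1, by omega⟩ := by
      intro h
      have := congrArg Fin.val (σ.injective h)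
      simp at this
    refine Finset.mem_filter.2 ⟨Finset.mem_univ _, ?_, ?_⟩
    · exact min_lt_max.2 hne
    · rcases le_total (σ (⟨k.val, by omega⟩ : Fin n)) (σ ⟨k.val + 1, by omega⟩) with h | h
      · simp only [min_eq_left h, max_eq_right h]
        exact hk2
      · simp only [min_eq_right h, max_eq_left h]
        exact hk2.symm
  · intro k hk k' hk' h
    have h1 := congrArg Prod.fst h
    have h2 := congrArg Prod.snd h
    simp only at h1 h2
    have key : (σ (⟨k.val, by omega⟩ : Fin n) = σ ⟨k'.val, by omega⟩ ∧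
        σ (⟨k.val + 1, by omega⟩ : Fin n) = σ ⟨k'.val + 1, by omega⟩) ∨
        (σ (⟨k.val, by omega⟩ : Fin n) = σ ⟨k'.val + 1, by omega⟩ ∧
        σ (⟨k.val + 1, by omega⟩ : Fin n) = σ ⟨k'.val, by omega⟩) := by
      rcases le_total (σ (⟨k.val, by omega⟩ : Fin n)) (σ ⟨k.val + 1, by omega⟩) with a | a <;>
      rcases le_total (σ (⟨k'.val, by omega⟩ : Fin n)) (σ ⟨k'.val + 1, by omega⟩) with b | b
      · rw [min_eq_left a, min_eq_left b] at h1
        rw [max_eq_right a, max_eq_right b] at h2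
        exact Or.inl ⟨h1, h2⟩
      · rw [min_eq_left a, min_eq_right b] at h1
        rw [max_eq_right a, max_eq_left b] at h2
        exact Or.inr ⟨h1, h2⟩
      · rw [min_eq_right a, min_eq_left b] at h1
        rw [max_eq_left a, max_eq_right b] at h2
        exact Or.inr ⟨h2, h1⟩
      · rw [min_eq_right a, min_eq_right b] at h1
        rw [max_eq_left a, max_eq_left b] at h2
        exact Or.inl ⟨h2, h1⟩
    rcases key with ⟨h3, _⟩ | ⟨h3, h4⟩
    · have := congrArg Fin.val (σ.injective h3)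
      exact Fin.ext this
    · have h5 := congrArg Fin.val (σ.injective h3)
      have h6 := congrArg Fin.val (σ.injective h4)
      simp only at h5 h6
      omega
  · rintro ⟨j, l⟩ hz
    obtain ⟨hjl, hf⟩ := (Finset.mem_filter.1 hz).2
    simp only at hjl hf
    -- the statement for the positions
    have main : ∀ p q : Fin n, p < q → f (σ p) = f (σ q) → q.val = p.val + 1 := by
      intro p q hpq h
      by_contra hne
      have hlt : p.val + 1 < q.val := by
        have : p.val < q.val := hpq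
        omega
      have hq := q.isLt
      let r : Fin n := ⟨p.val + 1, by omega⟩
      have h1 : f (σ p) ≤ f (σ r) := hmono p r (by show p.val ≤ p.val + 1; omega)
      have h2 : f (σ r) ≤ f (σ q) := hmono r q (by show p.val + 1 ≤ q.val; omega)
      have h4 : f (σ p) = f (σ r) := le_antisymm h1 (h2.trans h.ge)
      refine h3 (σ p) (σ q) (σ r) ?_ ?_ ?_ h h4
      · exact fun e => hpq.ne (σ.injective e)
      · intro e
        have := congrArg Fin.val (σ.injective e)
        simp only [r] at this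
        omega
      · intro e
        have := congrArg Fin.val (σ.injective e)
        simp only [r] at this
        omega
    obtain ⟨p, rfl⟩ := σ.surjective j
    obtain ⟨q, rfl⟩ := σ.surjective l
    rcases lt_trichotomy p q with h | h | h
    · have hq := main p q h hf
      have hqlt := q.isLt
      have e1 : (⟨p.val + 1, by omega⟩ : Fin n) = q := Fin.ext hq.symm
      refine ⟨⟨p.val, by omega⟩, Finset.mem_filter.2 ⟨Finset.mem_univ _, ?_⟩, ?_⟩
      · simp only [e1]
        exact hf
      · simp only [e1, Fin.eta, min_eq_left hjl.le, max_eq_right hjl.le]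
    · rw [h] at hjl
      exact absurd hjl (lt_irrefl _)
    · have hq := main q p h hf.symm
      have hplt := p.isLt
      have e1 : (⟨q.val + 1, by omega⟩ : Fin n) = p := Fin.ext hq.symm
      refine ⟨⟨q.val, by omega⟩, Finset.mem_filter.2 ⟨Finset.mem_univ _, ?_⟩, ?_⟩
      · simp only [e1]
        exact hf.symm
      · simp only [e1, Fin.eta, min_eq_right hjl.le, max_eq_left hjl.le]

/-- All abscissas of nodes. -/
def U (D : Gr) : Finset ℤ := Finset.univ.biUnion D.ns

theorem a_mem (D : Gr) (i : Fin D.m) : D.a i ∈ U D := by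
  refine Finset.mem_biUnion.2 ⟨D.j0, Finset.mem_univ _, ?_⟩
  exact (D.node_iff _ _).1 (Or.inl ⟨i, rfl⟩)

theorem R_mem (D : Gr) {j l : Fin D.n} (h : j ≠ l) {c : ℤ} (hc : c ∈ D.R j l) : c ∈ U D := by
  refine Finset.mem_biUnion.2 ⟨j, Finset.mem_univ _, ?_⟩
  exact (D.node_iff _ _).1 (Or.inr ⟨l, h.symm, hc⟩)

/-- The levels `k`, `k + 1` agree above an integer iff the values at the places agree. -/
theorem lev_iff (D : Gr) (L : Fin D.n → ℝ → ℝ) (c : ℤ) (σ : Equiv.Perm (Fin D.n))
    (hσ : ∀ k, L k (c : ℝ) = D.b (σ k) (c : ℝ)) (p q : Fin D.n) :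
    L p (c : ℝ) = L q (c : ℝ) ↔ (D.P (σ p)).eval c = (D.P (σ q)).eval c := by
  rw [hσ, hσ, D.b_intCast, D.b_intCast, Int.cast_inj]

theorem no_three (D : Gr) (c : ℤ) (i j l : Fin D.n) (h1 : i ≠ j) (h2 : i ≠ l) (h3 : j ≠ l)
    (h4 : (D.P i).eval c = (D.P j).eval c) (h5 : (D.P i).eval c = (D.P l).eval c) : False :=
  h3 (D.partner h1 h2 ((D.mem_R h1 c).2 h4) ((D.mem_R h2 c).2 h5))

end ZERM

open ZERM in
/-- ZER -/
theorem specZER : SpecZER := by
  classical
  intro D L hL
  have hn := D.hn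
  -- the numbers of zeros above `c`
  have hcount : ∀ c : ℤ, (∀ i, c ≠ D.a i) →
      (Finset.univ.filter fun k : Fin (D.n - 1) => D.Zero L k c).card =
      (Finset.univ.filter fun z : Fin D.n × Fin D.n => z.1 < z.2 ∧ c ∈ D.R z.1 z.2).card := by
    intro c hc
    obtain ⟨hmono, σ, hσ⟩ := hL.2 (c : ℝ)
    have h1 := count (fun j => (D.P j).eval c) σ ?_ (no_three D c)
    · rw [Finset.filter_congr (q := fun k : Fin (D.n - 1) =>
        (D.P (σ ⟨k.val, by omega⟩)).eval c = (D.P (σ ⟨k.val + 1, by omega⟩)).eval c)]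
      · rw [h1]
        congr 1
        refine Finset.filter_congr fun z _ => ?_
        constructor
        · rintro ⟨h2, h3⟩
          exact ⟨h2, (D.mem_R h2.ne c).2 h3⟩
        · rintro ⟨h2, h3⟩
          exact ⟨h2, (D.mem_R h2.ne c).1 h3⟩
      · intro k _
        rw [← lev_iff D L c σ hσ]
        unfold Gr.Zero
        constructor
        · rintro (⟨i, hi⟩ | h)
          · exact absurd hi (hc i)
          · exact h
        · exact Or.inr
    · intro p q hpq
      have h2 : L p (c : ℝ) ≤ L q (c : ℝ) := hmono hpq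
      rw [hσ, hσ, D.b_intCast, D.b_intCast, Int.cast_le] at h2
      exact h2
  have hmemU : ∀ (k : Fin (D.n - 1)) (c : ℤ), D.Zero L k c → c ∈ U D := by
    rintro k c (⟨i, rfl⟩ | h)
    · exact a_mem D i
    · obtain ⟨-, σ, hσ⟩ := hL.2 (c : ℝ)
      rw [lev_iff D L c σ hσ] at h
      have hne : σ (⟨k.val, by omega⟩ : Fin D.n) ≠ σ ⟨k.val + 1, by omega⟩ := by
        intro h
        have := congrArg Fin.val (σ.injective h)
        simp at this
      exact R_mem D hne ((D.mem_R hne c).2 h)
  refine ⟨fun k => (U D).filter fun c => D.Zero L k c, ?_, ?_⟩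
  · intro k c
    rw [Finset.mem_filter]
    exact ⟨fun h => h.2, fun h => ⟨hmemU k c h, h⟩⟩
  · have h1 : ∑ k : Fin (D.n - 1), ((U D).filter fun c => D.Zero L k c).card =
        ∑ c ∈ U D, (Finset.univ.filter fun k : Fin (D.n - 1) => D.Zero L k c).card := by
      simp only [Finset.card_filter]
      exact Finset.sum_comm
    have h2 : D.crossings = ∑ c ∈ U D,
        (Finset.univ.filter fun z : Fin D.n × Fin D.n => z.1 < z.2 ∧ c ∈ D.R z.1 z.2).card := by
      have h3 : ∀ z ∈ (Finset.univ : Finset (Fin D.n × Fin D.n)).filter (fun z => z.1 < z.2),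
          (D.R z.1 z.2).card = ∑ c ∈ U D, if c ∈ D.R z.1 z.2 then 1 else 0 := by
        intro z hz
        have hz2 : z.1 ≠ z.2 := ((Finset.mem_filter.1 hz).2).ne
        rw [← Finset.card_filter]
        congr 1
        ext c
        rw [Finset.mem_filter]
        exact ⟨fun h => ⟨R_mem D hz2 h, h⟩, fun h => h.2⟩
      unfold Gr.crossings
      rw [Finset.sum_congr rfl h3, Finset.sum_comm]
      refine Finset.sum_congr rfl fun c _ => ?_
      rw [← Finset.card_filter, Finset.filter_filter]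
    have h4 : D.m * (D.n - 1) = ∑ c ∈ U D, if c ∈ Finset.univ.image D.a then (D.n - 1) else 0 := by
      rw [← Finset.sum_filter, Finset.sum_const, smul_eq_mul]
      congr 1
      have h5 : (U D).filter (fun c => c ∈ Finset.univ.image D.a) = Finset.univ.image D.a := by
        ext c
        rw [Finset.mem_filter]
        refine ⟨fun h => h.2, fun h => ⟨?_, h⟩⟩
        obtain ⟨i, -, rfl⟩ := Finset.mem_image.1 h
        exact a_mem D i
      rw [h5, Finset.card_image_of_injective _ D.a_inj, Finset.card_univ, Fintype.card_fin]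
    rw [h1, h2, h4, ← Finset.sum_add_distrib]
    refine Finset.sum_congr rfl fun c _ => ?_
    by_cases hc : c ∈ Finset.univ.image D.a
    · obtain ⟨i, -, rfl⟩ := Finset.mem_image.1 hc
      rw [if_pos hc]
      have h6 : (Finset.univ.filter fun k : Fin (D.n - 1) => D.Zero L k (D.a i)) =
          Finset.univ :=
        Finset.filter_true_of_mem fun k _ => Or.inl ⟨i, rfl⟩
      have h7 : (Finset.univ.filter fun z : Fin D.n × Fin D.n =>
          z.1 < z.2 ∧ D.a i ∈ D.R z.1 z.2) = ∅ :=
        Finset.filter_false_of_mem fun z _ h => D.cross_a z.1 z.2 i h.1.ne h.2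
      rw [h6, h7, Finset.card_univ, Fintype.card_fin, Finset.card_empty, add_zero]
    · rw [if_neg hc, zero_add]
      refine hcount c fun i hi => hc ?_
      exact Finset.mem_image.2 ⟨i, Finset.mem_univ _, hi.symm⟩

end MP743d1e.GA
end
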